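import Pool.Agent.Work.MP_dcf6a6_wh.Interface

/-! # Block BDF: `F (G)` in the node ring -/

open CategoryTheory AlgebraicGeometry Polynomial Pool.TVar

namespace Pool.WH

noncomputable section

/-- a bound for the exponents and the two extreme coefficients -/
def BDF_P (m : ℕ) (f : NR) (a b : PowerSeries ℂ) : Prop :=
  f ∈ bd (m + 1) ∧ co f (m : ℤ) = a ∧ co f (-(m : ℤ)) = b

theorem BDF_mul (h : Stmt_BDM) {m n : ℕ} {f g : NR} {a b a' b' : PowerSeries ℂ}
    (hf : BDF_P m f a b) (hg : BDF_P n g a' b') : BDF_P (m + n) (f * g) (a * a') (b * b') := by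
  obtain ⟨h1, h2, h3⟩ := h m n f g hf.1 hg.1
  exact ⟨h1, by rw [h2, hf.2.1, hg.2.1], by rw [h3, hf.2.2, hg.2.2]⟩

theorem BDF_const (r : PowerSeries ℂ) : BDF_P 0 (algebraMap (PowerSeries ℂ) NR r) r r := by
  refine ⟨mem_bd.mpr fun i hi => ?_, ?_, ?_⟩
  · rw [co_algebraMap, if_neg]
    intro h0
    subst h0
    simp at hi
  · rw [co_algebraMap, Nat.cast_zero, if_pos rfl]
  · rw [co_algebraMap, Nat.cast_zero, neg_zero, if_pos rfl]

theorem BDF_one : BDF_P 0 1 1 1 := by
  have h := BDF_const 1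
  rwa [map_one] at h

theorem BDF_pow (h : Stmt_BDM) {m : ℕ} {f : NR} {a b : PowerSeries ℂ} (hf : BDF_P m f a b)
    (k : ℕ) : BDF_P (k * m) (f ^ k) (a ^ k) (b ^ k) := by
  induction k with
  | zero =>
    rw [zero_mul, pow_zero, pow_zero, pow_zero]
    exact BDF_one
  | succ k ih =>
    rw [Nat.succ_mul, pow_succ, pow_succ, pow_succ]
    exact BDF_mul h ih hf

theorem BDF_prod (h : Stmt_BDM) {V : Type} (s : Finset V) (m : V → ℕ) (f : V → NR)
    (a b : V → PowerSeries ℂ) (hP : ∀ v, BDF_P (m v) (f v) (a v) (b v)) :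
    BDF_P (∑ v ∈ s, m v) (∏ v ∈ s, f v) (∏ v ∈ s, a v) (∏ v ∈ s, b v) := by
  classical
  induction s using Finset.induction_on with
  | empty =>
    rw [Finset.sum_empty, Finset.prod_empty, Finset.prod_empty, Finset.prod_empty]
    exact BDF_one
  | insert v s hv ih =>
    rw [Finset.sum_insert hv, Finset.prod_insert hv, Finset.prod_insert hv,
      Finset.prod_insert hv]
    exact BDF_mul h (hP v) ih

theorem BDF_monomial (h : Stmt_BDM) {V : Type} [Fintype V] (w : V → ℕ) (e c : ℕ) (G : V → NR)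
    (hG : ∀ v, G v ∈ bd (c * w v + 1)) (d : V →₀ ℕ) (hd : Finsupp.weight w d = e)
    (r : PowerSeries ℂ) :
    BDF_P (c * e) (MvPolynomial.aeval G (MvPolynomial.monomial d r))
      (MvPolynomial.eval (fun v => co (G v) ((c * w v : ℕ) : ℤ)) (MvPolynomial.monomial d r))
      (MvPolynomial.eval (fun v => co (G v) (-((c * w v : ℕ) : ℤ)))
        (MvPolynomial.monomial d r)) := by
  have h1 : 0 + ∑ v, d v * (c * w v) = c * e := by
    rw [zero_add, ← hd, Finsupp.weight_apply, Finsupp.sum_fintype _ _ (fun i => by rw [zero_smul]),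
      Finset.mul_sum]
    refine Finset.sum_congr rfl fun v _ => ?_
    rw [smul_eq_mul]
    ring
  rw [MvPolynomial.aeval_monomial, MvPolynomial.eval_monomial, MvPolynomial.eval_monomial,
    Finsupp.prod_fintype _ _ (fun i => by rw [pow_zero]),
    Finsupp.prod_fintype _ _ (fun i => by rw [pow_zero]),
    Finsupp.prod_fintype _ _ (fun i => by rw [pow_zero]), ← h1]
  refine BDF_mul h (BDF_const r) (BDF_prod h Finset.univ (fun v => d v * (c * w v)) _ _ _
    fun v => ?_)
  exact BDF_pow h ⟨hG v, rfl, rfl⟩ (d v)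

theorem p_BDF (hBDM : Stmt_BDM) : Stmt_BDF := by
  intro V _ w F e c G hF hG
  have hmp : mp F = ∑ d ∈ F.support, MvPolynomial.monomial d
      (PowerSeries.C (F.coeff d) : PowerSeries ℂ) := by
    have h1 : mp F = mp (∑ d ∈ F.support, MvPolynomial.monomial d (F.coeff d)) := by
      rw [MvPolynomial.support_sum_monomial_coeff]
    rw [h1]
    unfold mp
    rw [map_sum]
    exact Finset.sum_congr rfl fun d _ => MvPolynomial.map_monomial _ _ _
  have hmon : ∀ d ∈ F.support, BDF_P (c * e)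
      (MvPolynomial.aeval G (MvPolynomial.monomial d (PowerSeries.C (F.coeff d) : PowerSeries ℂ)))
      (MvPolynomial.eval (fun v => co (G v) ((c * w v : ℕ) : ℤ))
        (MvPolynomial.monomial d (PowerSeries.C (F.coeff d))))
      (MvPolynomial.eval (fun v => co (G v) (-((c * w v : ℕ) : ℤ)))
        (MvPolynomial.monomial d (PowerSeries.C (F.coeff d)))) := fun d hd =>
    BDF_monomial hBDM w e c G hG d (hF (MvPolynomial.mem_support_iff.mp hd)) _
  rw [hmp, map_sum, map_sum, map_sum]
  refine ⟨Submodule.sum_mem _ fun d hd => (hmon d hd).1, ?_, ?_⟩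
  · rw [co_sum]
    exact Finset.sum_congr rfl fun d hd => (hmon d hd).2.1
  · rw [co_sum]
    exact Finset.sum_congr rfl fun d hd => (hmon d hd).2.2

end

end Pool.WH
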