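import Pool.Agent.Work.MP_dcf6a6_wh.Interface

/-!
# Block BFG: `bd n` is finitely generated
-/

open CategoryTheory AlgebraicGeometry Polynomial Pool.TVar

namespace Pool.WH

theorem p_BFG : Stmt_BFG := by
  intro n
  let φ : bd n →ₗ[PowerSeries ℂ] (Finset.Icc (-(n : ℤ)) n → PowerSeries ℂ) :=
    { toFun := fun f i => co f.1 i.1
      map_add' := fun f g => by
        funext i
        exact co_add f.1 g.1 i.1
      map_smul' := fun r f => by
        funext i
        exact co_smul r f.1 i.1 }
  have hφ : Function.Injective φ := by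
    intro f g h
    apply Subtype.ext
    apply co_ext
    intro i
    by_cases hi : i ∈ Finset.Icc (-(n : ℤ)) n
    · exact congrFun h ⟨i, hi⟩
    · have h1 : n ≤ i.natAbs := by
        rw [Finset.mem_Icc] at hi
        omega
      rw [mem_bd.1 f.2 i h1, mem_bd.1 g.2 i h1]
  have h2 : Module.Finite (PowerSeries ℂ) (bd n) := Module.Finite.of_injective φ hφ
  exact Module.Finite.iff_fg.1 h2

end Pool.WH
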