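import Pool.Agent.Work.MP_dcf6a6_wh.Interface2

/-!
# Block BIR: the binomial is irreducible over every field
-/

open CategoryTheory AlgebraicGeometry Polynomial Pool.TVar

namespace Pool.WH

theorem BIR_prod {κ : Type} [Field κ] {V : Type} (s : Finset V) :
    (∏ v ∈ s, MvPolynomial.X v : MvPolynomial V κ) =
      MvPolynomial.monomial (∑ v ∈ s, Finsupp.single v 1) 1 := by
  rw [MvPolynomial.monomial_sum_one]
  rfl

theorem BIR_aux {κ : Type} [Field κ] {V : Type} [Fintype V] [DecidableEq V] {w : V → ℕ}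
    {I : Finset V} {b : V →₀ ℕ} {d₁ : ℕ} {G₁ G₂ : MvPolynomial V κ} {i : V} (hi : i ∈ I)
    (hb : ∀ v ∈ I, b v = 0) (h1 : G₁.IsWeightedHomogeneous w d₁)
    (h : G₁ * G₂ = ∏ v ∈ I, MvPolynomial.X v - MvPolynomial.monomial b 1)
    (hdeg : MvPolynomial.degreeOf i G₁ = 0) : d₁ = 0 := by
  have hvar : i ∉ G₁.vars := by
    rw [MvPolynomial.mem_vars_iff_degreeOf_ne_zero]
    exact fun hh => hh hdeg
  -- the derivative
  have hD : G₁ ∣ MvPolynomial.monomial (∑ v ∈ I.erase i, Finsupp.single v 1) 1 := by
    refine ⟨MvPolynomial.pderiv i G₂, ?_⟩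
    have h2 := congrArg (MvPolynomial.pderiv i) h
    rw [MvPolynomial.pderiv_mul, MvPolynomial.pderiv_eq_zero_of_notMem_vars hvar, zero_mul,
      zero_add, map_sub, MvPolynomial.pderiv_monomial, hb i hi, Nat.cast_zero, mul_zero,
      map_zero, sub_zero, ← Finset.mul_prod_erase I _ hi, MvPolynomial.pderiv_mul,
      MvPolynomial.pderiv_X_self, one_mul] at h2
    rw [h2, ← BIR_prod]
    have h3 : MvPolynomial.pderiv i (∏ v ∈ I.erase i, MvPolynomial.X v : MvPolynomial V κ) = 0 := by
      apply MvPolynomial.pderiv_eq_zero_of_notMem_vars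
      rw [MvPolynomial.mem_vars_iff_degreeOf_ne_zero, not_not, BIR_prod,
        MvPolynomial.degreeOf_monomial_eq _ _ one_ne_zero]
      rw [Finsupp.finsetSum_apply]
      apply Finset.sum_eq_zero
      intro v hv
      rw [Finsupp.single_apply, if_neg (Finset.ne_of_mem_erase hv)]
    rw [h3, mul_zero, add_zero]
  -- the substitution
  have hS : G₁ ∣ MvPolynomial.monomial b 1 := by
    have h2 := congrArg (MvPolynomial.aeval (fun v : V => if v = i then (0 : MvPolynomial V κ)
      else MvPolynomial.X v)) h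
    have h3 : MvPolynomial.aeval (fun v : V => if v = i then (0 : MvPolynomial V κ)
      else MvPolynomial.X v) G₁ = G₁ := by
      have h4 := MvPolynomial.eval₂Hom_congr' (f₁ := algebraMap κ (MvPolynomial V κ))
        (f₂ := algebraMap κ (MvPolynomial V κ))
        (g₁ := fun v : V => if v = i then (0 : MvPolynomial V κ) else MvPolynomial.X v)
        (g₂ := MvPolynomial.X) (p₁ := G₁) (p₂ := G₁) rfl (fun v hv _ => by
          rw [if_neg]
          rintro rfl
          exact hvar hv) rfl
      change MvPolynomial.eval₂Hom _ _ G₁ = G₁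
      refine h4.trans ?_
      exact MvPolynomial.aeval_X_left_apply G₁
    have h5 : MvPolynomial.aeval (fun v : V => if v = i then (0 : MvPolynomial V κ)
        else MvPolynomial.X v) (∏ v ∈ I, MvPolynomial.X v : MvPolynomial V κ) = 0 := by
      rw [map_prod]
      apply Finset.prod_eq_zero hi
      rw [MvPolynomial.aeval_X, if_pos rfl]
    have h6 : MvPolynomial.aeval (fun v : V => if v = i then (0 : MvPolynomial V κ)
        else MvPolynomial.X v) (MvPolynomial.monomial b 1 : MvPolynomial V κ) =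
          MvPolynomial.monomial b 1 := by
      rw [MvPolynomial.aeval_monomial, map_one, one_mul, MvPolynomial.monomial_eq, map_one,
        one_mul]
      apply Finsupp.prod_congr
      intro v hv
      rw [if_neg]
      rintro rfl
      exact (Finsupp.mem_support_iff.mp hv) (hb _ hi)
    rw [map_mul, h3, map_sub, h5, h6, zero_sub] at h2
    exact (dvd_neg.mp ⟨_, h2.symm⟩)
  obtain ⟨m, u, hm, hu, hG⟩ := MvPolynomial.dvd_monomial_one_iff_exists.mp hD
  obtain ⟨m', u', hm', hu', hG'⟩ := MvPolynomial.dvd_monomial_one_iff_exists.mp hS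
  have hmm : m = m' := by
    have h7 : MvPolynomial.monomial m u = MvPolynomial.monomial m' u' := by rw [← hG, ← hG']
    rcases (MvPolynomial.monomial_eq_monomial_iff m m' u u').mp h7 with h8 | h8
    · exact h8.1
    · exact absurd h8.1 hu.ne_zero
  have hm0 : m = 0 := by
    ext v
    rw [Finsupp.coe_zero, Pi.zero_apply]
    by_cases hv : v ∈ I
    · have h8 := hm' v
      rw [hb v hv, ← hmm] at h8
      omega
    · have h8 := hm v
      rw [Finsupp.finsetSum_apply, Finset.sum_eq_zero] at h8
      · omega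
      · intro x hx
        rw [Finsupp.single_apply, if_neg]
        rintro rfl
        exact hv (Finset.mem_of_mem_erase hx)
  have hne : G₁ ≠ 0 := by
    rw [hG]
    intro h8
    rw [MvPolynomial.monomial_eq_zero] at h8
    exact hu.ne_zero h8
  have h9 : G₁.IsWeightedHomogeneous w 0 := by
    rw [hG, hm0]
    exact MvPolynomial.isWeightedHomogeneous_monomial w 0 u (map_zero _)
  exact h1.inj_right hne h9

theorem p_BIR : Stmt_BIR := by
  intro κ _ V _ _ w I b d₁ d₂ G₁ G₂ hI hb h1 h2 h
  obtain ⟨i, hi⟩ := hI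
  have hne : (∑ v ∈ I, Finsupp.single v 1 : V →₀ ℕ) ≠ b := by
    intro hh
    have h3 := congrArg (fun f => f i) hh
    simp only [Finsupp.finsetSum_apply, Finsupp.single_apply] at h3
    rw [Finset.sum_ite_eq' , if_pos hi, hb i hi] at h3
    exact one_ne_zero h3
  have hB0 : (∏ v ∈ I, MvPolynomial.X v - MvPolynomial.monomial b 1 : MvPolynomial V κ) ≠ 0 := by
    rw [BIR_prod, Ne, sub_eq_zero, MvPolynomial.monomial_eq_monomial_iff]
    rintro (h3 | h3)
    · exact hne h3.1
    · exact one_ne_zero h3.1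
  have hG1 : G₁ ≠ 0 := by
    rintro rfl
    rw [zero_mul] at h
    exact hB0 h.symm
  have hG2 : G₂ ≠ 0 := by
    rintro rfl
    rw [mul_zero] at h
    exact hB0 h.symm
  have hdeg : MvPolynomial.degreeOf i G₁ + MvPolynomial.degreeOf i G₂ ≤ 1 := by
    rw [← MvPolynomial.degreeOf_mul_eq hG1 hG2, h]
    refine (MvPolynomial.degreeOf_sub_le i _ _).trans ?_
    rw [BIR_prod, MvPolynomial.degreeOf_monomial_eq _ _ one_ne_zero,
      MvPolynomial.degreeOf_monomial_eq _ _ one_ne_zero, hb i hi]
    rw [Finsupp.finsetSum_apply]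
    simp only [Finsupp.single_apply]
    rw [Finset.sum_ite_eq', if_pos hi]
    simp
  rcases Nat.eq_zero_or_pos (MvPolynomial.degreeOf i G₁) with h0 | h0
  · left
    exact BIR_aux hi hb h1 h h0
  · right
    exact BIR_aux hi hb h2 (by rw [mul_comm]; exact h) (by omega)

end Pool.WH
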