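import Pool.Agent.Work.MP_dcf6a6_wh.Interface

/-! # Block CRT: the criterion (helper71) -/

open CategoryTheory AlgebraicGeometry Polynomial Pool.TVar

namespace Pool.WH

noncomputable section

/-- points of `Proj 𝒜` are determined by their homogeneous elements -/
theorem CRT_point_ext {A : Type} [CommRing A] [Algebra ℂ A] {𝒜 : ℕ → Submodule ℂ A}
    [GradedAlgebra 𝒜] (x y : Proj 𝒜)
    (h : ∀ n, ∀ a ∈ 𝒜 n, a ∈ x.asHomogeneousIdeal ↔ a ∈ y.asHomogeneousIdeal) : x = y := by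
  apply ProjectiveSpectrum.ext
  have key : ∀ (I : HomogeneousIdeal 𝒜) (a : A),
      a ∈ I ↔ ∀ i, (DirectSum.decompose 𝒜 a i : A) ∈ I := by
    intro I a
    constructor
    · intro ha i
      exact I.isHomogeneous i ha
    · intro ha
      classical
      rw [← DirectSum.sum_support_decompose 𝒜 a]
      exact Ideal.sum_mem I.toIdeal (fun i _ => ha i)
  apply SetLike.ext
  intro a
  rw [key, key]
  exact forall_congr' (fun i => h i _ (SetLike.coe_mem _))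

/-- scaling -/
theorem CRT_scale {V : Type} [Fintype V] (w : V → ℕ) (P : MvPolynomial V ℂ) (n : ℕ)
    (hP : P.IsWeightedHomogeneous w n) (z : V → ℂ) (l : ℂ) :
    MvPolynomial.eval (fun v => l ^ w v * z v) P = l ^ n * MvPolynomial.eval z P := by
  rw [MvPolynomial.eval_eq', MvPolynomial.eval_eq', Finset.mul_sum]
  refine Finset.sum_congr rfl fun μ hμ => ?_
  have h1 : Finsupp.weight w μ = n := hP (MvPolynomial.mem_support_iff.1 hμ)
  rw [Finsupp.weight_apply, Finsupp.sum_fintype _ _ (fun i => by rw [zero_smul])] at h1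
  have h2 : ∏ v, (l ^ w v * z v) ^ μ v = l ^ n * ∏ v, z v ^ μ v := by
    rw [← h1, ← Finset.prod_pow_eq_pow_sum, ← Finset.prod_mul_distrib]
    refine Finset.prod_congr rfl fun v _ => ?_
    rw [mul_pow, ← pow_mul, smul_eq_mul, mul_comm (w v)]
  rw [h2]
  ring

/-- the partial derivatives are weighted homogeneous, of some degree -/
theorem CRT_pderiv {V : Type} [Fintype V] (w : V → ℕ) (F : MvPolynomial V ℂ) (d : ℕ)
    (hF : F.IsWeightedHomogeneous w d) (v : V) :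
    ∃ n, (MvPolynomial.pderiv v F).IsWeightedHomogeneous w n := by
  by_cases hv : w v ≤ d
  · exact ⟨d - w v, hF.pderiv (by omega)⟩
  · refine ⟨0, ?_⟩
    have h0 : MvPolynomial.pderiv v F = 0 := by
      apply MvPolynomial.pderiv_eq_zero_of_notMem_vars
      intro hmem
      rw [MvPolynomial.mem_vars_iff_mem_support] at hmem
      obtain ⟨μ, hμ, hvμ⟩ := hmem
      have h1 : Finsupp.weight w μ = d := hF (MvPolynomial.mem_support_iff.1 hμ)
      rw [Finsupp.weight_apply, Finsupp.sum_fintype _ _ (fun i => by rw [zero_smul])] at h1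
      have h2 : μ v • w v ≤ ∑ i, μ i • w i :=
        Finset.single_le_sum (f := fun i => μ i • w i) (fun i _ => Nat.zero_le _)
          (Finset.mem_univ v)
      have h3 : 1 ≤ μ v := Nat.one_le_iff_ne_zero.2 (Finsupp.mem_support_iff.1 hvμ)
      have h4 : 1 * w v ≤ μ v * w v := Nat.mul_le_mul_right _ h3
      rw [smul_eq_mul, h1] at h2
      omega
    rw [h0]
    exact MvPolynomial.isWeightedHomogeneous_zero ℂ w 0

/-- two points on a curve -/
theorem CRT_curve (hGLU : Stmt_GLU) (hMRP : Stmt_MRP) (V : Type) [Fintype V] [DecidableEq V]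
    (w : V → ℕ) (d c : ℕ) (F Q' : MvPolynomial V ℂ) (x0 : V → ℂ)
    (hF : F.IsWeightedHomogeneous w d) (hw : ∀ v, 0 < w v) (hd : 0 < d) (hc : 2 ≤ c)
    (A : Type) [CommRing A] [IsDomain A] [Algebra ℂ A] (𝒜 : ℕ → Submodule ℂ A) [GradedAlgebra 𝒜]
    (pr : Pres w F 𝒜)
    (hcur : ∀ z : V → ℂ, MvPolynomial.eval z F = 0 → MvPolynomial.eval z Q' ≠ 0 →
      ∃ (l : ℂ) (g' : V → ℂ[X]), l ≠ 0 ∧ Free w d c F g' ∧ (∀ v, (g' v).coeff 0 = x0 v) ∧
        ∀ v, (g' v).coeff (c * w v) = l ^ w v * z v)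
    (z z' : V → ℂ) (hz : MvPolynomial.eval z F = 0) (hzQ : MvPolynomial.eval z Q' ≠ 0)
    (hz' : MvPolynomial.eval z' F = 0) (hzQ' : MvPolynomial.eval z' Q' ≠ 0) :
    ∃ f : Proj lineGr ⟶ Proj 𝒜, f ≫ structMap 𝒜 = structMap lineGr ∧
      (∀ q, IsSmoothPt (structMap 𝒜) (f q)) ∧
      (∃ q₀, ∀ n P, MvPolynomial.IsWeightedHomogeneous w P n →
        (pr.π P ∈ (f q₀).asHomogeneousIdeal ↔ MvPolynomial.eval z P = 0)) ∧
      ∃ q₁, ∀ n P, MvPolynomial.IsWeightedHomogeneous w P n →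
        (pr.π P ∈ (f q₁).asHomogeneousIdeal ↔ MvPolynomial.eval z' P = 0) := by
  obtain ⟨l₁, g₁, hl₁, hg₁, h10, h11⟩ := hcur z hz hzQ
  obtain ⟨l₂, g₂, hl₂, hg₂, h20, h21⟩ := hcur z' hz' hzQ'
  obtain ⟨ζ, hζ, g, hg, hg0, hg1⟩ := hGLU V w d c F g₁ g₂ hF hw hd hc hg₁ hg₂
    (fun v => (h10 v).trans (h20 v).symm)
  obtain ⟨f, hf, hfs, ⟨q₀, hq₀⟩, q₁, hq₁⟩ := hMRP V w d (2 * c) F g A 𝒜 pr hF hw hd (by omega) hg
  refine ⟨f, hf, hfs, ⟨q₀, fun n P hP => ?_⟩, ⟨q₁, fun n P hP => ?_⟩⟩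
  · rw [hq₀ n P hP]
    have h1 : (fun v => (g v).coeff 0) = fun v => (ζ ^ c * l₁) ^ w v * z v := by
      ext v
      rw [hg0, h11, mul_pow, ← pow_mul, mul_assoc]
    rw [h1, CRT_scale w P n hP, mul_eq_zero, or_iff_right]
    exact pow_ne_zero _ (mul_ne_zero (pow_ne_zero _ hζ) hl₁)
  · rw [hq₁ n P hP]
    have h1 : (fun v => (g v).coeff (2 * c * w v)) = fun v => l₂ ^ w v * z' v := by
      ext v
      rw [hg1, h21]
    rw [h1, CRT_scale w P n hP, mul_eq_zero, or_iff_right]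
    exact pow_ne_zero _ hl₂

theorem p_CRT (hEND : Stmt_END) (hMOV : Stmt_MOV) (hGLU : Stmt_GLU) (hPRG : Stmt_PRG)
    (hSMT : Stmt_SMT) (hMRP : Stmt_MRP) (hNCS : Stmt_NCS) (hSCL : Stmt_SCL)
    (hGCD : Pool.TVar.Stmt_GCD) (hPTS : Pool.TVar.Stmt_PTS) (hDENS : Pool.TVar.Stmt_DENS) :
    Stmt_CRT := by
  intro V _ _ w d c F g hcard hF hw hd hc hprime hfree A _ _ 𝒜 _ pr
  -- `A` is a domain
  have hkerp : (RingHom.ker pr.π).IsPrime := by
    rw [pr.ker]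
    exact (Ideal.span_singleton_prime hprime.ne_zero).2 hprime
  have hdom : IsDomain A := by
    have h1 : IsDomain (MvPolynomial V ℂ ⧸ RingHom.ker pr.π) := Ideal.Quotient.isDomain _
    have e : (MvPolynomial V ℂ ⧸ RingHom.ker pr.π) ≃+* A :=
      RingHom.quotientKerEquivOfSurjective (f := (pr.π : MvPolynomial V ℂ →+* A)) pr.surj
    exact e.symm.toMulEquiv.isDomain _
  have hπ0 : ∀ P, pr.π P = 0 ↔ F ∣ P := by
    intro P
    rw [← Ideal.mem_span_singleton, ← pr.ker]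
    rfl
  -- the start point
  obtain ⟨⟨v₂, hv₂⟩, -, T, hT⟩ := hEND V w d c F g hF hw hd hc hfree
  obtain ⟨x0, hx0⟩ : ∃ x0 : V → ℂ, x0 = fun v => (g v).coeff 0 := ⟨_, rfl⟩
  have hx0F : MvPolynomial.eval x0 F = 0 := by
    have h1 : ∀ P : MvPolynomial V ℂ, (MvPolynomial.aeval g P).eval 0 =
        MvPolynomial.eval x0 P := by
      intro P
      have h2 : ((Polynomial.evalRingHom (0 : ℂ)).comp
          (MvPolynomial.aeval g : MvPolynomial V ℂ →ₐ[ℂ] ℂ[X]).toRingHom) =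
          MvPolynomial.eval x0 := by
        apply MvPolynomial.ringHom_ext
        · intro r
          simp
        · intro v
          simp [hx0, Polynomial.coeff_zero_eq_eval_zero]
      exact RingHom.congr_fun h2 P
    rw [← h1, hfree.eq, Polynomial.eval_zero]
  have hndvd : ∀ P : MvPolynomial V ℂ, MvPolynomial.eval x0 P ≠ 0 → ¬ F ∣ P := by
    rintro P hP ⟨r, rfl⟩
    rw [map_mul, hx0F, zero_mul] at hP
    exact hP rfl
  have hT1 : ¬ F ∣ ∏ v ∈ T.1, MvPolynomial.X v := by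
    apply hndvd
    rw [map_prod]
    simp only [MvPolynomial.eval_X, hx0]
    exact hT
  have hv1 : ¬ F ∣ MvPolynomial.pderiv v₂ F := by
    apply hndvd
    rw [hx0]
    exact hv₂
  have hpd0 : MvPolynomial.pderiv v₂ F ≠ 0 := by
    intro h
    rw [h] at hv1
    exact hv1 (dvd_zero F)
  -- the polynomials `Q`, `Q'`, `a`
  obtain ⟨Q, hFQ, hQ⟩ := hMOV V w d c F g hF hw hd hc hprime hfree
  obtain ⟨nQ, Q', hQ'h, hFQ', hQ'⟩ := hSCL V w F Q hFQ
  obtain ⟨nv, hnv⟩ := CRT_pderiv w F d hF v₂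
  obtain ⟨a, ha⟩ : ∃ a : MvPolynomial V ℂ,
      a = Q' * (∏ v ∈ T.1, MvPolynomial.X v) * MvPolynomial.pderiv v₂ F := ⟨_, rfl⟩
  have hFa : ¬ F ∣ a := by
    rw [ha]
    intro h
    rcases hprime.dvd_or_dvd h with h | h
    · rcases hprime.dvd_or_dvd h with h | h
      · exact hFQ' h
      · exact hT1 h
    · exact hv1 h
  have hTh : (∏ v ∈ T.1, MvPolynomial.X v : MvPolynomial V ℂ).IsWeightedHomogeneous w
      (∑ v ∈ T.1, w v) :=
    MvPolynomial.IsWeightedHomogeneous.prod _ _ _ fun v _ =>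
      MvPolynomial.isWeightedHomogeneous_X ℂ w v
  have hah : a.IsWeightedHomogeneous w (nQ + ∑ v ∈ T.1, w v + nv) := by
    rw [ha]
    exact (hQ'h.mul hTh).mul hnv
  obtain ⟨hPR1, hPR2⟩ := hPRG V w F A 𝒜 pr
  have hTne : T.1.Nonempty := by
    rw [Finset.nonempty_iff_ne_empty]
    intro h
    have h1 := T.2
    rw [h, Finset.gcd_empty] at h1
    exact zero_ne_one h1
  have hmpos : 0 < nQ + ∑ v ∈ T.1, w v + nv := by
    have h1 : 0 < ∑ v ∈ T.1, w v := Finset.sum_pos (fun v _ => hw v) hTne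
    omega
  have haA : pr.π a ∈ 𝒜 (nQ + ∑ v ∈ T.1, w v + nv) := hPR1 _ _ hah
  have ha0 : pr.π a ≠ 0 := fun h => hFa ((hπ0 a).1 h)
  -- the curves
  have hcur : ∀ z : V → ℂ, MvPolynomial.eval z F = 0 → MvPolynomial.eval z Q' ≠ 0 →
      ∃ (l : ℂ) (g' : V → ℂ[X]), l ≠ 0 ∧ Free w d c F g' ∧ (∀ v, (g' v).coeff 0 = x0 v) ∧
        ∀ v, (g' v).coeff (c * w v) = l ^ w v * z v := by
    intro z hz hzQ
    obtain ⟨l, hl, hlQ⟩ := hQ' z hzQ
    have h1 : MvPolynomial.eval (fun v => l ^ w v * z v) F = 0 := by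
      rw [CRT_scale w F d hF, hz, mul_zero]
    obtain ⟨g', hg', h0, h1'⟩ := hQ (fun v => l ^ w v * z v) h1 hlQ
    refine ⟨l, g', hl, hg', fun v => ?_, h1'⟩
    rw [h0, hx0]
  -- the exponents
  obtain ⟨e, e', hee⟩ := hGCD T.1 w T.2
  have hpow : ∀ ε : V → ℕ, pr.π (∏ v ∈ T.1, MvPolynomial.X v ^ ε v) ∈
      𝒜 (∑ v ∈ T.1, ε v * w v) := by
    intro ε
    apply hPR1
    apply MvPolynomial.IsWeightedHomogeneous.prod
    intro v _
    have h1 := (MvPolynomial.isWeightedHomogeneous_X ℂ w v).pow (ε v)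
    rwa [smul_eq_mul] at h1
  have hdvd : ∀ ε : V → ℕ, ∃ i : ℕ, pr.π (∏ v ∈ T.1, MvPolynomial.X v ^ ε v) ∣ (pr.π a) ^ i := by
    intro ε
    refine ⟨T.1.sup ε, ?_⟩
    rw [← map_pow]
    apply _root_.map_dvd
    have h1 : (∏ v ∈ T.1, (MvPolynomial.X v : MvPolynomial V ℂ) ^ ε v) ∣
        (∏ v ∈ T.1, MvPolynomial.X v) ^ (T.1.sup ε) := by
      rw [← Finset.prod_pow]
      exact Finset.prod_dvd_prod_of_dvd _ _ (fun v hv => pow_dvd_pow _ (Finset.le_sup hv))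
    refine h1.trans (pow_dvd_pow_of_dvd ?_ _)
    rw [ha, mul_assoc, mul_comm Q', mul_assoc]
    exact dvd_mul_right _ _
  have hα : pr.π (∏ v ∈ T.1, MvPolynomial.X v ^ e v) ∈ 𝒜 ((∑ v ∈ T.1, e' v * w v) + 1) := by
    rw [← hee]
    exact hpow e
  have hft : Algebra.FiniteType ℂ A := Algebra.FiniteType.of_surjective pr.π pr.surj
  have hpts := hPTS 𝒜 (pr.π a) _ _ (nQ + ∑ v ∈ T.1, w v + nv) _ hft haA hmpos hα (hpow e')
    (hdvd e) (hdvd e')
  have haev : ∀ (ε : A →ₐ[ℂ] ℂ) (P : MvPolynomial V ℂ),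
      MvPolynomial.eval (fun v => ε (pr.π (MvPolynomial.X v))) P = ε (pr.π P) := by
    intro ε P
    have h1 : (MvPolynomial.aeval (fun v => ε (pr.π (MvPolynomial.X v))) :
        MvPolynomial V ℂ →ₐ[ℂ] ℂ) = ε.comp pr.π := by
      apply MvPolynomial.algHom_ext
      intro v
      simp
    have h2 := DFunLike.congr_fun h1 P
    rw [← MvPolynomial.coe_aeval_eq_eval]
    exact h2
  have hpt : ∀ x : Proj 𝒜, x ∈ Proj.basicOpen 𝒜 (pr.π a) → IsClosed ({x} : Set (Proj 𝒜)) →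
      ∃ z : V → ℂ, MvPolynomial.eval z F = 0 ∧ MvPolynomial.eval z a ≠ 0 ∧
        ∀ n P, MvPolynomial.IsWeightedHomogeneous w P n →
          (pr.π P ∈ x.asHomogeneousIdeal ↔ MvPolynomial.eval z P = 0) := by
    intro x hx hxc
    obtain ⟨ε, hε, hεx⟩ := hpts x hx hxc
    refine ⟨fun v => ε (pr.π (MvPolynomial.X v)), ?_, ?_, ?_⟩
    · rw [haev, (hπ0 F).2 dvd_rfl, map_zero]
    · rw [haev]
      exact hε
    · intro n P hP
      rw [haev]
      exact hεx n _ (hPR1 n P hP)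
  have haQ : ∀ z : V → ℂ, MvPolynomial.eval z a ≠ 0 → MvPolynomial.eval z Q' ≠ 0 := by
    intro z hz h
    rw [ha, map_mul, map_mul, h, zero_mul, zero_mul] at hz
    exact hz rfl
  have hext : ∀ (x y : Proj 𝒜) (z : V → ℂ),
      (∀ n P, MvPolynomial.IsWeightedHomogeneous w P n →
        (pr.π P ∈ x.asHomogeneousIdeal ↔ MvPolynomial.eval z P = 0)) →
      (∀ n P, MvPolynomial.IsWeightedHomogeneous w P n →
        (pr.π P ∈ y.asHomogeneousIdeal ↔ MvPolynomial.eval z P = 0)) → x = y := by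
    intro x y z hx hy
    apply CRT_point_ext
    intro n b hb
    obtain ⟨P, hP, rfl⟩ := hPR2 n b hb
    rw [hx n P hP, hy n P hP]
  refine ⟨Proj.basicOpen 𝒜 (pr.π a), hDENS 𝒜 _ _ haA ha0, ?_, ?_⟩
  · intro x hx
    have hdvdmem : ∀ P, P ∣ a → pr.π P ∉ x.asHomogeneousIdeal := by
      intro P hP hmem
      apply hx
      exact x.asHomogeneousIdeal.toIdeal.mem_of_dvd (_root_.map_dvd pr.π hP) hmem
    apply hSMT V w d F A 𝒜 pr hF hw T v₂ x
    · apply hdvdmem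
      rw [ha, mul_assoc, mul_comm Q', mul_assoc]
      exact dvd_mul_right _ _
    · apply hdvdmem
      rw [ha]
      exact dvd_mul_left _ _
  · intro x y hx hy hxc hyc
    obtain ⟨z, hzF, hza, hzx⟩ := hpt x hx hxc
    by_cases hxy : x = y
    · subst hxy
      obtain ⟨n, ε, z', hεh, hε0, hz'F, hz'a⟩ :=
        hNCS V w F v₂ hcard hw hprime hpd0 a z hFa
      rw [map_mul] at hz'a
      obtain ⟨f, hf, hfs, ⟨q₀, hq₀⟩, q₁, hq₁⟩ := CRT_curve hGLU hMRP V w d c F Q' x0 hF hw hd hc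
        A 𝒜 pr hcur z z' hzF (haQ z hza) hz'F (haQ z' (left_ne_zero_of_mul hz'a))
      have hfx : f q₀ = x := hext _ _ z hq₀ hzx
      refine ⟨f, hf, hfs, ⟨q₀, q₁, fun heq => ?_⟩, ⟨q₀, hfx⟩, ⟨q₀, hfx⟩⟩
      have h1 := (hq₀ n ε hεh).2 hε0
      rw [heq] at h1
      exact right_ne_zero_of_mul hz'a ((hq₁ n ε hεh).1 h1)
    · obtain ⟨z', hz'F, hz'a, hz'y⟩ := hpt y hy hyc
      obtain ⟨f, hf, hfs, ⟨q₀, hq₀⟩, q₁, hq₁⟩ := CRT_curve hGLU hMRP V w d c F Q' x0 hF hw hd hc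
        A 𝒜 pr hcur z z' hzF (haQ z hza) hz'F (haQ z' hz'a)
      have hfx : f q₀ = x := hext _ _ z hq₀ hzx
      have hfy : f q₁ = y := hext _ _ z' hq₁ hz'y
      refine ⟨f, hf, hfs, ⟨q₀, q₁, fun heq => ?_⟩, ⟨q₀, hfx⟩, ⟨q₁, hfy⟩⟩
      rw [hfx, hfy] at heq
      exact hxy heq

end

end Pool.WH
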