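import Pool.Agent.Work.MP_dcf6a6_wh.Interface

/-! # Block DEG: degree and extreme coefficients of `F (g)` -/

open CategoryTheory AlgebraicGeometry Polynomial Pool.TVar

set_option autoImplicit false

namespace Pool.WH

theorem DEG_prod {K R : Type} [CommRing R] (s : Finset K) (f : K → Polynomial R) (d : K → ℕ)
    (h : ∀ k ∈ s, (f k).natDegree ≤ d k) :
    (∏ k ∈ s, f k).natDegree ≤ ∑ k ∈ s, d k ∧
      (∏ k ∈ s, f k).coeff (∑ k ∈ s, d k) = ∏ k ∈ s, (f k).coeff (d k) := by
  classical
  induction s using Finset.induction_on with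
  | empty => simp
  | insert a s ha ih =>
    have h1 := ih (fun k hk => h k (Finset.mem_insert_of_mem hk))
    have h2 := h a (Finset.mem_insert_self a s)
    rw [Finset.prod_insert ha, Finset.sum_insert ha, Finset.prod_insert ha]
    refine ⟨?_, ?_⟩
    · exact Polynomial.natDegree_mul_le.trans (Nat.add_le_add h2 h1.1)
    · rw [Polynomial.coeff_mul_add_eq_of_natDegree_le h2 h1.1, h1.2]

theorem DEG_iff {R : Type} [CommRing R] (p : R[X]) (n : ℕ) :
    p ∈ degreeLT R (n + 1) ↔ p.natDegree ≤ n := by
  rw [mem_degreeLT, natDegree_le_iff_degree_le, degree_lt_iff_coeff_zero, degree_le_iff_coeff_zero]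
  constructor
  · intro h m hm
    exact h m (by exact_mod_cast hm)
  · intro h m hm
    exact h m (by exact_mod_cast hm)

theorem p_DEG : Stmt_DEG := by
  intro V _ w S _ F d c g hF hg
  have hg' : ∀ v, (g v).natDegree ≤ c * w v := fun v => (DEG_iff _ _).1 (hg v)
  have hterm : ∀ n ∈ F.support,
      (algebraMap S S[X] (F.coeff n) * ∏ k, g k ^ n k).natDegree ≤ c * d ∧
      (algebraMap S S[X] (F.coeff n) * ∏ k, g k ^ n k).coeff (c * d) =
        F.coeff n * ∏ k, (g k).coeff (c * w k) ^ n k := by
    intro n hn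
    have hw : ∑ k, n k * (c * w k) = c * d := by
      have h1 : Finsupp.weight w n = d := hF (MvPolynomial.mem_support_iff.1 hn)
      rw [Finsupp.weight_apply, Finsupp.sum_fintype _ _ (fun i => by simp)] at h1
      rw [← h1, Finset.mul_sum]
      refine Finset.sum_congr rfl fun k _ => ?_
      rw [smul_eq_mul]
      ring
    have h2 := DEG_prod Finset.univ (fun k => g k ^ n k) (fun k => n k * (c * w k))
      (fun k _ => Polynomial.natDegree_pow_le_of_le (n k) (hg' k))
    rw [hw] at h2
    have h3 : algebraMap S S[X] (F.coeff n) = Polynomial.C (F.coeff n) := rfl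
    rw [h3]
    refine ⟨(Polynomial.natDegree_C_mul_le _ _).trans h2.1, ?_⟩
    rw [Polynomial.coeff_C_mul, h2.2]
    congr 1
    refine Finset.prod_congr rfl fun k _ => ?_
    exact Polynomial.coeff_pow_of_natDegree_le (hg' k)
  refine ⟨?_, ?_, ?_⟩
  · rw [DEG_iff, MvPolynomial.aeval_def, MvPolynomial.eval₂_eq']
    exact Polynomial.natDegree_sum_le_of_forall_le _ _ (fun n hn => (hterm n hn).1)
  · rw [MvPolynomial.aeval_def, MvPolynomial.eval₂_eq', Polynomial.finsetSum_coeff,
      MvPolynomial.eval_eq']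
    exact Finset.sum_congr rfl (fun n hn => (hterm n hn).2)
  · rw [MvPolynomial.aeval_def, MvPolynomial.eval₂_eq', Polynomial.finsetSum_coeff,
      MvPolynomial.eval_eq']
    refine Finset.sum_congr rfl fun n _ => ?_
    have h3 : algebraMap S S[X] (F.coeff n) = Polynomial.C (F.coeff n) := rfl
    rw [h3, Polynomial.coeff_C_mul]
    congr 1
    rw [← Polynomial.constantCoeff_apply, map_prod]
    refine Finset.prod_congr rfl fun k _ => ?_
    rw [map_pow]
    rfl

end Pool.WH
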