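import Pool.Agent.Work.MP_dcf6a6_wh.Interface

open CategoryTheory AlgebraicGeometry Polynomial Pool.TVar

namespace Pool.WH

theorem DSC_mem {S : Type} [CommRing S] {n : ℕ} {f : S[X]} :
    f ∈ degreeLT S n ↔ ∀ m, n ≤ m → f.coeff m = 0 := by
  rw [mem_degreeLT, degree_lt_iff_coeff_zero]

theorem DSC_lift {R : Type} [CommRing R] [Algebra ℂ R] (S' : Subalgebra ℂ R) (A : R[X]) (n : ℕ)
    (hA : A ∈ degreeLT R n) (h : ∀ j < n, A.coeff j ∈ S') :
    ∃ B : S'[X], B ∈ degreeLT S' n ∧ B.map (S'.val : S' →+* R) = A := by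
  classical
  let c : ℕ → S' := fun j => if hj : j < n then ⟨A.coeff j, h j hj⟩ else 0
  have hcoef : ∀ m, (∑ j ∈ Finset.range n, monomial j (c j)).coeff m = if m < n then c m else 0 := by
    intro m
    rw [finsetSum_coeff]
    simp only [coeff_monomial]
    rw [Finset.sum_ite_eq' (Finset.range n) m c]
    simp only [Finset.mem_range]
  refine ⟨∑ j ∈ Finset.range n, monomial j (c j), ?_, ?_⟩
  · rw [DSC_mem]
    intro m hm
    rw [hcoef, if_neg (by omega)]
  · ext1 m
    rw [coeff_map, hcoef]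
    split_ifs with hm
    · simp only [c, dif_pos hm]
      rfl
    · rw [map_zero]
      exact ((DSC_mem.mp hA) m (by omega)).symm

theorem DSC_map_aeval {V : Type} {S S' : Type} [CommRing S] [CommRing S'] (φ : S →+* S')
    (g : V → S[X]) (F : MvPolynomial V S) :
    (MvPolynomial.aeval g F).map φ =
      MvPolynomial.aeval (fun v => (g v).map φ) (MvPolynomial.map φ F) := by
  induction F using MvPolynomial.induction_on with
  | C a =>
    rw [MvPolynomial.map_C, MvPolynomial.aeval_C, MvPolynomial.aeval_C]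
    show (C a).map φ = C (φ a)
    rw [Polynomial.map_C]
  | add p q hp hq => rw [map_add, map_add, map_add, Polynomial.map_add, hp, hq]
  | mul_X p v hp =>
    rw [map_mul, map_mul, map_mul, Polynomial.map_mul, hp, MvPolynomial.map_X,
      MvPolynomial.aeval_X, MvPolynomial.aeval_X]

theorem p_DSC (hGDS : Stmt_GDS) : Stmt_DSC := by
  intro V _ w d c R _ _ F g hF
  classical
  obtain ⟨hdeg, heq, hvf, D, hT⟩ := hF
  obtain ⟨E1, hE1⟩ := hGDS R _ _ _ _ hvf
  obtain ⟨E2, hE2⟩ := hGDS R _ _ _ _ hT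
  refine ⟨(Finset.univ.biUnion fun v => (Finset.range (c * w v + 1)).image
    fun j => (g v).coeff j) ∪ (E1 ∪ E2), ?_⟩
  intro S' hE F' hF'
  rw [Finset.coe_union, Finset.coe_union, Set.union_subset_iff, Set.union_subset_iff] at hE
  obtain ⟨h0, h1, h2⟩ := hE
  have hcoef : ∀ v, ∀ j < c * w v + 1, (g v).coeff j ∈ S' := by
    intro v j hj
    apply h0
    simp only [Finset.coe_biUnion, Set.mem_iUnion, Finset.coe_image, Set.mem_image,
      Finset.mem_coe, Finset.mem_range, Finset.mem_univ]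
    exact ⟨v, trivial, j, hj, rfl⟩
  choose g' hg'1 hg'2 using fun v => DSC_lift S' (g v) (c * w v + 1) (hdeg v) (hcoef v)
  have hgg : (fun v => (g' v).map (S'.val : S' →+* R)) = g := funext hg'2
  refine ⟨g', hg'2, hg'1, ?_, ?_, D, ?_⟩
  · apply Polynomial.map_injective (S'.val : S' →+* R) Subtype.val_injective
    rw [DSC_map_aeval, hgg, hF', heq, Polynomial.map_zero]
  · apply hE1 S' h1
    intro v
    rw [DSC_map_aeval, hgg, ← MvPolynomial.pderiv_map, hF']
  · apply hE2 S' h2
    intro T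
    rw [Polynomial.map_prod]
    exact Finset.prod_congr rfl fun v _ => hg'2 v

end Pool.WH
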