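import Pool.Agent.Work.MP_dcf6a6_wh.Interface

/-!
Block ELM: elimination of a variable.
-/

set_option autoImplicit false

open CategoryTheory AlgebraicGeometry Polynomial Pool.TVar

namespace Pool.WH

attribute [local instance] Polynomial.algebra in
/-- Elimination for polynomials in one variable over a domain. -/
theorem ELM_core {R : Type} [CommRing R] [IsDomain R] (F P : R[X]) (hF : Prime F)
    (hdeg : 0 < F.natDegree) (hFP : ¬ F ∣ P) :
    ∃ (A B : R[X]) (D : R), D ≠ 0 ∧ A * F + B * P = Polynomial.C D := by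
  let K := FractionRing R
  have hloc : IsLocalization ((nonZeroDivisors R).map (Polynomial.C : R →+* R[X])) K[X] :=
    Polynomial.isLocalization (nonZeroDivisors R) K
  have hp : (Ideal.span {F}).IsPrime := (Ideal.span_singleton_prime hF.ne_zero).mpr hF
  have hdisj : Disjoint (((nonZeroDivisors R).map (Polynomial.C : R →+* R[X]) : Submonoid R[X]) :
      Set R[X]) ((Ideal.span {F} : Ideal R[X]) : Set R[X]) := by
    rw [Set.disjoint_left]
    rintro _ ⟨r, hr, rfl⟩ hmem
    have hr0 : r ≠ 0 := nonZeroDivisors.ne_zero hr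
    rw [SetLike.mem_coe, Ideal.mem_span_singleton] at hmem
    obtain ⟨q, hq⟩ := hmem
    have hq0 : q ≠ 0 := by
      rintro rfl
      rw [mul_zero] at hq
      exact hr0 (Polynomial.C_eq_zero.mp hq)
    have h1 : (Polynomial.C r : R[X]).natDegree = F.natDegree + q.natDegree := by
      rw [hq, Polynomial.natDegree_mul hF.ne_zero hq0]
    rw [Polynomial.natDegree_C] at h1
    omega
  have hpm : ((Ideal.span {F}).map (algebraMap R[X] K[X])).IsPrime :=
    IsLocalization.isPrime_of_isPrime_disjoint
      ((nonZeroDivisors R).map (Polynomial.C : R →+* R[X])) K[X] _ hp hdisj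
  have hcm : ((Ideal.span {F}).map (algebraMap R[X] K[X])).comap (algebraMap R[X] K[X]) =
      Ideal.span {F} :=
    IsLocalization.under_map_of_isPrime_disjoint
      ((nonZeroDivisors R).map (Polynomial.C : R →+* R[X])) K[X] hp hdisj
  have hne : (Ideal.span {F}).map (algebraMap R[X] K[X]) ≠ ⊥ := by
    intro h0
    have h1 : F ∈ ((Ideal.span {F}).map (algebraMap R[X] K[X])).comap (algebraMap R[X] K[X]) := by
      rw [hcm]
      exact Ideal.mem_span_singleton_self F
    rw [h0, Ideal.mem_comap, Ideal.mem_bot] at h1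
    have h2 : Function.Injective (algebraMap R[X] K[X]) :=
      IsLocalization.injective (M := (nonZeroDivisors R).map (Polynomial.C : R →+* R[X])) K[X] (by
        rintro _ ⟨r, hr, rfl⟩
        rw [mem_nonZeroDivisors_iff_ne_zero]
        intro h3
        exact nonZeroDivisors.ne_zero hr (Polynomial.C_eq_zero.mp h3))
    exact hF.ne_zero (h2 (by rw [h1, map_zero]))
  have hmax : ((Ideal.span {F}).map (algebraMap R[X] K[X])).IsMaximal :=
    IsPrime.to_maximal_ideal hne
  have htop : (Ideal.span {F, P}).map (algebraMap R[X] K[X]) = ⊤ := by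
    apply hmax.1.2
    rw [SetLike.lt_iff_le_and_exists]
    refine ⟨Ideal.map_mono (Ideal.span_mono (by simp)), algebraMap R[X] K[X] P,
      Ideal.mem_map_of_mem _ (Ideal.subset_span (by simp)), fun h => hFP ?_⟩
    rw [← Ideal.mem_comap, hcm, Ideal.mem_span_singleton] at h
    exact h
  have hnd : ¬ Disjoint (((nonZeroDivisors R).map (Polynomial.C : R →+* R[X]) :
      Submonoid R[X]) : Set R[X]) ((Ideal.span {F, P} : Ideal R[X]) : Set R[X]) := by
    intro h
    rw [← IsLocalization.map_algebraMap_ne_top_iff_disjoint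
      ((nonZeroDivisors R).map (Polynomial.C : R →+* R[X])) K[X]] at h
    exact h htop
  rw [Set.not_disjoint_iff] at hnd
  obtain ⟨_, ⟨D, hD, rfl⟩, hmem⟩ := hnd
  rw [SetLike.mem_coe, Ideal.mem_span_pair] at hmem
  obtain ⟨A, B, hAB⟩ := hmem
  exact ⟨A, B, D, nonZeroDivisors.ne_zero hD, hAB⟩

theorem p_ELM : Stmt_ELM := by
  intro V _ _ F P v hF hpd hFP
  obtain ⟨e, heC⟩ : ∃ e : MvPolynomial V ℂ ≃ₐ[ℂ] (MvPolynomial {u // u ≠ v} ℂ)[X],
      ∀ q : MvPolynomial {u // u ≠ v} ℂ,
        e (MvPolynomial.rename Subtype.val q) = Polynomial.C q := by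
    refine ⟨(MvPolynomial.renameEquiv ℂ (Equiv.optionSubtypeNe v).symm).trans
      (MvPolynomial.optionEquivLeft ℂ {u // u ≠ v}), fun q => ?_⟩
    induction q using MvPolynomial.induction_on with
    | C r =>
      rw [MvPolynomial.rename_C, AlgEquiv.trans_apply, MvPolynomial.renameEquiv_apply,
        MvPolynomial.rename_C, MvPolynomial.optionEquivLeft_C]
    | add p q hp hq => rw [map_add, map_add, hp, hq, map_add]
    | mul_X p u hp =>
      rw [map_mul, map_mul, hp, map_mul, MvPolynomial.rename_X, AlgEquiv.trans_apply,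
        MvPolynomial.renameEquiv_apply, MvPolynomial.rename_X,
        Equiv.optionSubtypeNe_symm_of_ne u.2, MvPolynomial.optionEquivLeft_X_some]
  have hdeg : 0 < (e F).natDegree := by
    rw [pos_iff_ne_zero]
    intro h0
    rw [Polynomial.natDegree_eq_zero] at h0
    obtain ⟨q, hq⟩ := h0
    apply hpd
    have h1 : F = MvPolynomial.rename Subtype.val q := by
      apply e.injective
      rw [heC, hq]
    rw [h1]
    apply MvPolynomial.pderiv_eq_zero_of_notMem_vars
    intro hv
    obtain ⟨u, -, hu⟩ := Finset.mem_image.mp (MvPolynomial.vars_rename _ _ hv)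
    exact u.2 hu
  have hF' : Prime (e F) := (MulEquiv.prime_iff e.toMulEquiv).mpr hF
  have hFP' : ¬ e F ∣ e P := by
    intro h
    apply hFP
    have := map_dvd e.symm h
    simpa using this
  obtain ⟨A, B, D, hD, hAB⟩ := ELM_core (e F) (e P) hF' hdeg hFP'
  refine ⟨e.symm A, e.symm B, MvPolynomial.rename Subtype.val D, ?_, ?_, ?_⟩
  · intro h0
    apply hD
    apply MvPolynomial.rename_injective _ Subtype.val_injective
    rw [h0, map_zero]
  · intro hv
    obtain ⟨u, -, hu⟩ := Finset.mem_image.mp (MvPolynomial.vars_rename _ _ hv)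
    exact u.2 hu
  · apply e.injective
    rw [map_add, map_mul, map_mul, AlgEquiv.apply_symm_apply, AlgEquiv.apply_symm_apply, hAB, heC]

end Pool.WH
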