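import Pool.Agent.Work.MP_dcf6a6_wh.Interface

/-! # Block END: the ends of a `Free` curve are smooth points -/

open CategoryTheory AlgebraicGeometry Polynomial Pool.TVar

namespace Pool.WH

noncomputable section

theorem END_natDegree {f : ℂ[X]} {n : ℕ} (h : f ∈ degreeLT ℂ (n + 1)) : f.natDegree ≤ n := by
  rw [mem_degreeLT] at h
  by_cases hf : f = 0
  · simp [hf]
  · exact Nat.lt_succ_iff.1 ((natDegree_lt_iff_degree_lt hf).2 h)

theorem p_END (hD : Stmt_DEG) (hP : Stmt_PDW) : Stmt_END := by
  classical
  intro V _ w d c F g hF hw hd hc hfree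
  have hcd : 2 ≤ c * d := by nlinarith
  have hcw : ∀ v, 2 ≤ c * w v := fun v => by nlinarith [hw v]
  have hdeg := fun v => hD V w ℂ (MvPolynomial.pderiv v F) (d - w v) c g (hP V w ℂ F d v hF).1
    hfree.deg
  refine ⟨?_, ?_, ?_⟩
  · by_contra hcon
    push Not at hcon
    obtain ⟨A, _, hA⟩ := hfree.vf 1 (by
      rw [mem_degreeLT, degree_one]
      exact_mod_cast (by omega : 0 < c * d - 1))
    have h1 := congrArg (fun f : ℂ[X] => f.coeff 0) hA
    simp only [finsetSum_coeff, mul_coeff_zero] at h1
    rw [Finset.sum_eq_zero (fun v _ => by rw [(hdeg v).2.2, hcon v, mul_zero])] at h1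
    simp at h1
  · by_contra hcon
    push Not at hcon
    obtain ⟨A, hA1, hA⟩ := hfree.vf (X ^ (c * d - 2)) (by
      rw [mem_degreeLT, degree_X_pow]
      exact_mod_cast (by omega : c * d - 2 < c * d - 1))
    have h1 := congrArg (fun f : ℂ[X] => f.coeff (c * d - 2)) hA
    simp only [finsetSum_coeff] at h1
    rw [Finset.sum_eq_zero (fun v _ => ?_)] at h1
    · simp at h1
    · rcases le_or_gt (w v) d with hv | hv
      · have h2 : c * d - 2 = (c * w v - 2) + c * (d - w v) := by
          have h3 : c * d = c * w v + c * (d - w v) := by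
            rw [← Nat.mul_add, Nat.add_sub_cancel' hv]
          have := hcw v
          omega
        have h4 : (A v).natDegree ≤ c * w v - 2 := END_natDegree (by
          have := hA1 v
          have h5 : c * w v - 2 + 1 = c * w v - 1 := by
            have := hcw v
            omega
          rwa [h5])
        rw [h2, Polynomial.coeff_mul_add_eq_of_natDegree_le h4 (END_natDegree (hdeg v).1),
          (hdeg v).2.1, hcon v, mul_zero]
      · rw [(hP V w ℂ F d v hF).2 hv]
        simp
  · by_contra hcon
    push Not at hcon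
    obtain ⟨D, hG⟩ := hfree.goodT
    obtain ⟨A, _, hA⟩ := hG 1 (by
      rw [mem_degreeLT, degree_one]
      exact_mod_cast (by omega : 0 < D + 1))
    have h1 := congrArg (fun f : ℂ[X] => f.coeff 0) hA
    simp only [finsetSum_coeff, mul_coeff_zero] at h1
    rw [Finset.sum_eq_zero (fun T _ => ?_)] at h1
    · simp at h1
    · have h2 : (∏ v ∈ T.1, g v).coeff 0 = ∏ v ∈ T.1, (g v).coeff 0 := by
        rw [← constantCoeff_apply, map_prod]
        rfl
      rw [h2, hcon T, mul_zero]

end

end Pool.WH
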