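import Pool.Agent.Work.MP_dcf6a6_wh.B_MOV

open CategoryTheory AlgebraicGeometry Polynomial Pool.TVar

namespace Pool.WH

noncomputable section

theorem FAM_map_form {V S S' : Type} [CommRing S] [CommRing S'] (φ : S →+* S')
    (M : Finset (V →₀ ℕ)) (y : M → S) :
    MvPolynomial.map φ (form M y) = form M (fun μ => φ (y μ)) := by
  unfold form
  rw [map_sum]
  exact Finset.sum_congr rfl fun μ _ => MvPolynomial.map_monomial _ _ _

theorem FAM_hom_form {V S : Type} [Fintype V] [CommRing S] (w : V → ℕ) (d : ℕ)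
    (M : Finset (V →₀ ℕ)) (hM : ∀ μ ∈ M, ∑ v, μ v * w v = d) (y : M → S) :
    (form M y).IsWeightedHomogeneous w d := by
  unfold form
  refine MvPolynomial.IsWeightedHomogeneous.sum _ _ _ fun μ _ => ?_
  refine MvPolynomial.isWeightedHomogeneous_monomial w μ.1 _ ?_
  rw [Finsupp.weight_apply, Finsupp.sum_fintype _ _ (fun v => by simp)]
  simpa only [smul_eq_mul] using hM μ.1 μ.2

theorem FAM_point (hPTL : Stmt_PTL) (k : Type) [Field k] (ι : ℂ →+* k) (V : Type) [Fintype V]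
    [DecidableEq V] (F : MvPolynomial V ℂ) (F' : MvPolynomial V (PowerSeries k)) (x : V → ℂ)
    (v₂ : V) (hred : MvPolynomial.map (PowerSeries.constantCoeff (R := k)) F' =
      MvPolynomial.map ι F) (hx : MvPolynomial.eval x F = 0)
    (hx' : MvPolynomial.eval x (MvPolynomial.pderiv v₂ F) ≠ 0) :
    ∃ z : V → PowerSeries k, (∀ v, PowerSeries.constantCoeff (z v) = ι (x v)) ∧
      MvPolynomial.eval z F' = 0 := by
  obtain ⟨z₂, h1, h2⟩ := hPTL k V F' (fun v => PowerSeries.C (ι (x v))) v₂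
    (by
      rw [hred, MvPolynomial.eval_map]
      simp only [PowerSeries.constantCoeff_C]
      have := congrArg ι hx
      rw [map_zero, ← MvPolynomial.eval₂_id, MvPolynomial.hom_eval₂, RingHom.comp_id] at this
      exact this)
    (by
      rw [hred, MvPolynomial.pderiv_map, MvPolynomial.eval_map]
      simp only [PowerSeries.constantCoeff_C]
      have : ι (MvPolynomial.eval x (MvPolynomial.pderiv v₂ F)) ≠ 0 := by
        rw [Ne, map_eq_zero_iff _ ι.injective]
        exact hx'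
      rw [← MvPolynomial.eval₂_id, MvPolynomial.hom_eval₂, RingHom.comp_id] at this
      exact this)
  refine ⟨_, fun v => ?_, h2⟩
  by_cases hv : v = v₂
  · subst hv
    rw [Function.update_self, h1, PowerSeries.constantCoeff_C]
  · rw [Function.update_of_ne hv, PowerSeries.constantCoeff_C]

theorem p_FAM (hFMP : Stmt_FMP) (hEND : Stmt_END) (hDEG : Stmt_DEG) (hPTL : Stmt_PTL)
    (hLFT : Stmt_LFT) (hSPC : Stmt_SPC) (hSIN : Stmt_SIN) : Stmt_FAM := by
  intro V _ _ w d c M hw hd hc hM y₀ g₀ hg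
  have hF := FAM_hom_form (S := ℂ) w d M hM y₀
  obtain ⟨-, htop, hbot⟩ := hDEG V w ℂ (form M y₀) d c g₀ hF hg.deg
  rw [hg.eq, coeff_zero] at htop hbot
  obtain ⟨⟨v₀, hv₀⟩, ⟨v₁, hv₁⟩, -⟩ := hEND V w d c (form M y₀) g₀ hF hw hd hc hg
  let F' : MvPolynomial V (PowerSeries (KB M)) := form M (gen M y₀)
  have hccF : MvPolynomial.map (PowerSeries.constantCoeff (R := KB M)) F' =
      MvPolynomial.map (algebraMap ℂ (KB M)) (form M y₀) := by
    simp only [F']
    rw [FAM_map_form, FAM_map_form]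
    exact congrArg (form M) (funext fun μ => MOV_cc_gen M y₀ μ)
  obtain ⟨z0, h0, hz0⟩ := FAM_point hPTL (KB M) (algebraMap ℂ (KB M)) V (form M y₀) F'
    (fun v => (g₀ v).coeff 0) v₀ hccF hbot.symm hv₀
  obtain ⟨z1, h1, hz1⟩ := FAM_point hPTL (KB M) (algebraMap ℂ (KB M)) V (form M y₀) F'
    (fun v => (g₀ v).coeff (c * w v)) v₁ hccF htop.symm hv₁
  obtain ⟨G, hG, -, -⟩ := MOV_lift hFMP hLFT (KB M) (algebraMap ℂ (KB M)) V w d c (form M y₀) F'
    g₀ z0 z1 (FAM_hom_form w d M hM _) hw hd hc hccF hg h0 h1 hz0 hz1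
  obtain ⟨b, hb, hb'⟩ := hSPC V w d c (MvPolynomial M ℂ) (PowerSeries (KB M)) inferInstance
    (MvPolynomial.aeval (gen M y₀)) (hSIN M y₀) (form M fun μ => MvPolynomial.X μ) G
    (by
      rw [FAM_map_form]
      have : (fun μ : M => (MvPolynomial.aeval (gen M y₀) : MvPolynomial M ℂ →ₐ[ℂ] _)
          (MvPolynomial.X μ)) = gen M y₀ := funext fun μ => MvPolynomial.aeval_X _ _
      change Free w d c (form M fun μ : M => (MvPolynomial.aeval (gen M y₀) :
        MvPolynomial M ℂ →ₐ[ℂ] _) (MvPolynomial.X μ)) G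
      rw [this]
      exact hG)
  refine ⟨b, hb, fun y hy => ?_⟩
  obtain ⟨g', hg', -⟩ := hb' (MvPolynomial.aeval y) hy
  refine ⟨g', ?_⟩
  rw [FAM_map_form] at hg'
  have : (fun μ : M => (MvPolynomial.aeval y : MvPolynomial M ℂ →ₐ[ℂ] ℂ)
      (MvPolynomial.X μ)) = y := funext fun μ => MvPolynomial.aeval_X _ _
  change Free w d c (form M fun μ : M => (MvPolynomial.aeval y :
        MvPolynomial M ℂ →ₐ[ℂ] ℂ) (MvPolynomial.X μ)) g' at hg'
  rw [this] at hg'
  exact hg'

end

end Pool.WH
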