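import Pool.Agent.Work.MP_dcf6a6_wh.Interface

/-! Block FMP (helper58). -/

set_option autoImplicit false

open CategoryTheory AlgebraicGeometry Polynomial Pool.TVar

namespace Pool.WH

theorem FMP_aeval {V S S' : Type} [CommRing S] [CommRing S'] (φ : S →+* S') (g : V → S[X])
    (F : MvPolynomial V S) :
    MvPolynomial.aeval (fun v => (g v).map φ) (MvPolynomial.map φ F) =
      Polynomial.map φ (MvPolynomial.aeval g F) := by
  induction F using MvPolynomial.induction_on with
  | C a =>
    rw [MvPolynomial.map_C, MvPolynomial.aeval_C, MvPolynomial.aeval_C]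
    change Polynomial.C (φ a) = Polynomial.map φ (Polynomial.C a)
    rw [Polynomial.map_C]
  | add p q hp hq => rw [map_add, map_add, hp, hq, map_add, Polynomial.map_add]
  | mul_X p v hp =>
    rw [map_mul, map_mul, hp, map_mul, Polynomial.map_mul, MvPolynomial.map_X,
      MvPolynomial.aeval_X, MvPolynomial.aeval_X]

theorem p_FMP (hG : Stmt_GMP) : Stmt_FMP := by
  intro V _ w d c S S' _ _ φ F g h
  refine ⟨?_, ?_, ?_, ?_⟩
  · intro v
    exact mem_degreeLT.2 (degree_map_le.trans_lt (mem_degreeLT.1 (h.deg v)))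
  · rw [FMP_aeval, h.eq, Polynomial.map_zero]
  · have h1 := hG S S' φ V _ _ _ h.vf
    have e1 : (fun v => MvPolynomial.aeval (fun v => (g v).map φ)
        (MvPolynomial.pderiv v (MvPolynomial.map φ F))) =
        fun v => Polynomial.map φ (MvPolynomial.aeval g (MvPolynomial.pderiv v F)) := by
      funext v
      rw [MvPolynomial.pderiv_map, FMP_aeval]
    rw [e1]
    exact h1
  · obtain ⟨D, hD⟩ := h.goodT
    refine ⟨D, ?_⟩
    have h1 := hG S S' φ _ _ _ _ hD
    have e1 : (fun T : GT w => ∏ v ∈ T.1, (g v).map φ) =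
        fun T : GT w => Polynomial.map φ (∏ v ∈ T.1, g v) := by
      funext T
      rw [Polynomial.map_prod]
    rw [e1]
    exact h1

end Pool.WH
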