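import Pool.Agent.Work.MP_dcf6a6_wh.Interface

/-! # Block FNK: `Free` over power series from the residue field -/

open CategoryTheory AlgebraicGeometry Polynomial Pool.TVar

namespace Pool.WH

noncomputable section

theorem FNK_map {V S S' : Type} [CommRing S] [CommRing S'] (φ : S →+* S') (G : V → S[X])
    (P : MvPolynomial V S) : (MvPolynomial.aeval G P).map φ =
      MvPolynomial.aeval (fun v => (G v).map φ) (MvPolynomial.map φ P) := by
  have h : (Polynomial.mapRingHom φ).comp (MvPolynomial.aeval G : MvPolynomial V S →ₐ[S] S[X]).toRingHom =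
      (MvPolynomial.aeval (fun v => (G v).map φ) :
        MvPolynomial V S' →ₐ[S'] S'[X]).toRingHom.comp (MvPolynomial.map φ) := by
    refine MvPolynomial.ringHom_ext (fun r => ?_) (fun v => ?_)
    · simp
    · simp
  exact congrArg (fun f : MvPolynomial V S →+* S'[X] => f P) h

theorem FNK_natDegree {S : Type} [CommRing S] {f : S[X]} {n : ℕ} (h : f ∈ degreeLT S (n + 1)) :
    f.natDegree ≤ n := by
  rw [mem_degreeLT] at h
  by_cases hf : f = 0
  · simp [hf]
  · exact Nat.lt_succ_iff.1 ((natDegree_lt_iff_degree_lt hf).2 h)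

theorem FNK_mul {S : Type} [CommRing S] {A B : S[X]} {a b n : ℕ} (hA : A ∈ degreeLT S a)
    (hB : B.natDegree ≤ b) (hn : 0 < a → a + b ≤ n) : A * B ∈ degreeLT S n := by
  rcases Nat.eq_zero_or_pos a with h | h
  · subst h
    have : A = 0 := by
      rw [mem_degreeLT] at hA
      simpa using hA
    rw [this, zero_mul]
    exact Submodule.zero_mem _
  · have h1 : A.natDegree ≤ a - 1 := FNK_natDegree (by rwa [Nat.sub_add_cancel h])
    have h2 : (A * B).natDegree ≤ a - 1 + b := natDegree_mul_le.trans (Nat.add_le_add h1 hB)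
    rw [mem_degreeLT]
    refine lt_of_le_of_lt degree_le_natDegree ?_
    have := hn h
    exact_mod_cast (by omega : (A * B).natDegree < n)

theorem p_FNK (hN : Stmt_NAK) (hP : Stmt_PDG) : Stmt_FNK := by
  classical
  intro k _ V _ w d c F G hF hw hc hG h0 hfree
  refine ⟨hG, h0, ?_, ?_⟩
  · refine hN k V _ _ _ (fun v A hA => ?_) ?_
    · exact hP V w (PowerSeries k) F d c G hF hw hc hG v 0 A hA
    · have h1 := hfree.vf
      have h2 : (fun v => (MvPolynomial.aeval G (MvPolynomial.pderiv v F)).map
          (PowerSeries.constantCoeff (R := k))) =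
          fun v => MvPolynomial.aeval (fun v => (G v).map (PowerSeries.constantCoeff (R := k)))
            (MvPolynomial.pderiv v (MvPolynomial.map (PowerSeries.constantCoeff (R := k)) F)) := by
        funext v
        rw [FNK_map, MvPolynomial.pderiv_map]
      rw [h2]
      exact h1
  · obtain ⟨D, hD⟩ := hfree.goodT
    refine ⟨D, hN k (GT w) _ _ _ (fun T A hA => ?_) ?_⟩
    · have h1 : (∏ v ∈ T.1, G v).natDegree ≤ c * ∑ v ∈ T.1, w v := by
        refine (natDegree_prod_le _ _).trans ?_
        rw [Finset.mul_sum]
        exact Finset.sum_le_sum fun v _ => FNK_natDegree (hG v)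
      exact FNK_mul hA h1 (fun h => by omega)
    · have h2 : (fun T : GT w => (∏ v ∈ T.1, G v).map (PowerSeries.constantCoeff (R := k))) =
          fun T : GT w => ∏ v ∈ T.1, (G v).map (PowerSeries.constantCoeff (R := k)) := by
        funext T
        rw [Polynomial.map_prod]
      rw [h2]
      exact hD

end

end Pool.WH
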