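import Pool.Agent.Work.MP_dcf6a6_wh.Interface

/-! # Block TAY (helper55): Taylor expansion to second order -/

open CategoryTheory AlgebraicGeometry Polynomial Pool.TVar

namespace Pool.WH

theorem p_TAY : Stmt_TAY := by
  intro V _ S B _ _ _ F x z s
  classical
  induction F using MvPolynomial.induction_on with
  | C a =>
    refine ⟨0, ?_⟩
    simp [MvPolynomial.algHom_C]
  | add p q hp hq =>
    obtain ⟨r, hr⟩ := hp
    obtain ⟨r', hr'⟩ := hq
    refine ⟨r + r', ?_⟩
    simp only [map_add, hr, hr', mul_add, Finset.sum_add_distrib]
    ring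
  | mul_X p u hp =>
    obtain ⟨r, hr⟩ := hp
    refine ⟨r * (x u + s * z u) + z u * ∑ v, z v * MvPolynomial.aeval x (MvPolynomial.pderiv v p),
      ?_⟩
    have h1 : ∑ v, z v * MvPolynomial.aeval x (MvPolynomial.pderiv v (p * MvPolynomial.X u)) =
        x u * (∑ v, z v * MvPolynomial.aeval x (MvPolynomial.pderiv v p)) +
          MvPolynomial.aeval x p * z u := by
      have h2 : ∀ v, z v * MvPolynomial.aeval x (MvPolynomial.pderiv v (p * MvPolynomial.X u)) =
          x u * (z v * MvPolynomial.aeval x (MvPolynomial.pderiv v p)) +
            MvPolynomial.aeval x p * (if v = u then z v else 0) := by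
        intro v
        rw [Derivation.leibniz, MvPolynomial.pderiv_X]
        by_cases h : v = u
        · subst h
          simp only [smul_eq_mul, Pi.single_eq_same, mul_one, map_add, map_mul,
            MvPolynomial.aeval_X, if_true]
          ring
        · have h3 : (Pi.single v (1 : MvPolynomial V S) : V → MvPolynomial V S) u = 0 :=
            Pi.single_eq_of_ne (Ne.symm h) _
          simp only [smul_eq_mul, h3, mul_zero, zero_add, map_mul, MvPolynomial.aeval_X, if_neg h,
            add_zero]
          ring
      rw [Finset.sum_congr rfl fun v _ => h2 v, Finset.sum_add_distrib, ← Finset.mul_sum,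
        ← Finset.mul_sum, Finset.sum_ite_eq' Finset.univ u]
      simp
    rw [h1]
    simp only [map_mul, MvPolynomial.aeval_X, hr]
    ring

end Pool.WH
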