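import Pool.Agent.Work.MP_dcf6a6_wh.Interface
import Pool.Agent.Work.MP_dcf6a6_wh.B_TAY

/-!
Block FSH: the affine cone is smooth where a derivative is invertible.
-/

set_option autoImplicit false

open CategoryTheory AlgebraicGeometry Polynomial Pool.TVar

namespace Pool.WH

theorem FSH_unit {B : Type} [CommRing B] (I : Ideal B) (hI : I ^ 2 = ⊥) (y : B)
    (hy : IsUnit (Ideal.Quotient.mk I y)) : IsUnit y := by
  obtain ⟨z, hz⟩ := hy.exists_right_inv
  obtain ⟨z, rfl⟩ := Ideal.Quotient.mk_surjective z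
  rw [← map_mul, ← map_one (Ideal.Quotient.mk I), Ideal.Quotient.mk_eq_mk_iff_sub_mem] at hz
  have h2 : (y * z - 1) ^ 2 = 0 := by
    have : (y * z - 1) ^ 2 ∈ I ^ 2 := Ideal.pow_mem_pow hz 2
    rwa [hI, Ideal.mem_bot] at this
  rw [isUnit_iff_exists_inv]
  exact ⟨z * (2 - y * z), by linear_combination -h2⟩

theorem p_FSH : Stmt_FSH := by
  intro V _ F A _ _ π hsurj hker v h hdvd
  classical
  apply Algebra.FormallySmooth.of_comp_surjective
  intro B _ _ I hI g
  choose b hb using fun u : V =>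
    Ideal.Quotient.mk_surjective (g (algebraMap A (Localization.Away h) (π (MvPolynomial.X u))))
  have hψ : ∀ (b : V → B), (∀ u, Ideal.Quotient.mk I (b u) =
      g (algebraMap A (Localization.Away h) (π (MvPolynomial.X u)))) →
      ∀ q : MvPolynomial V ℂ, Ideal.Quotient.mk I (MvPolynomial.aeval b q) =
        g (algebraMap A (Localization.Away h) (π q)) := by
    intro b hb q
    have h1 : (Ideal.Quotient.mkₐ ℂ I).comp (MvPolynomial.aeval b) =
        (g.comp (IsScalarTower.toAlgHom ℂ A (Localization.Away h))).comp π := by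
      apply MvPolynomial.algHom_ext
      intro u
      simp only [AlgHom.comp_apply, MvPolynomial.aeval_X, Ideal.Quotient.mkₐ_eq_mk, hb]
      rfl
    exact DFunLike.congr_fun h1 q
  have hhu : IsUnit (algebraMap A (Localization.Away h) h) :=
    IsLocalization.Away.algebraMap_isUnit h
  have hdu : IsUnit (MvPolynomial.aeval b (MvPolynomial.pderiv v F)) := by
    apply FSH_unit I hI
    rw [hψ b hb]
    apply IsUnit.map g
    exact isUnit_of_dvd_unit (map_dvd _ hdvd) hhu
  obtain ⟨du, hdu⟩ := hdu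
  have hFI : MvPolynomial.aeval b F ∈ I := by
    rw [← Ideal.Quotient.eq_zero_iff_mem, hψ b hb]
    have : π F = 0 := by
      rw [← RingHom.mem_ker, hker]
      exact Ideal.mem_span_singleton_self F
    rw [this, map_zero, map_zero]
  obtain ⟨ε, hε⟩ : ∃ ε : B, ε = -(MvPolynomial.aeval b F) * ((du⁻¹ : Bˣ) : B) := ⟨_, rfl⟩
  have hεI : ε ∈ I := by
    rw [hε]
    exact I.mul_mem_right _ (I.neg_mem hFI)
  have hε2 : ε ^ 2 = 0 := by
    have : ε ^ 2 ∈ I ^ 2 := Ideal.pow_mem_pow hεI 2
    rwa [hI, Ideal.mem_bot] at this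
  obtain ⟨r, hr⟩ := p_TAY V ℂ B F b (Pi.single v 1) ε
  obtain ⟨b', hb'⟩ : ∃ b' : V → B, b' = fun u => b u + ε * (Pi.single v 1 : V → B) u := ⟨_, rfl⟩
  rw [← hb', hε2, zero_mul, add_zero] at hr
  have hF' : MvPolynomial.aeval b' F = 0 := by
    have h1 : ∑ u, (Pi.single v 1 : V → B) u * MvPolynomial.aeval b (MvPolynomial.pderiv u F) =
        MvPolynomial.aeval b (MvPolynomial.pderiv v F) := by
      rw [Finset.sum_eq_single v]
      · simp
      · intro u _ hu
        rw [Pi.single_eq_of_ne hu, zero_mul]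
      · intro h
        exact absurd (Finset.mem_univ v) h
    rw [hr, h1, ← hdu, hε, mul_assoc, Units.inv_mul]
    ring
  have hb'' : ∀ u, Ideal.Quotient.mk I (b' u) =
      g (algebraMap A (Localization.Away h) (π (MvPolynomial.X u))) := by
    intro u
    rw [hb', ← hb u, Ideal.Quotient.mk_eq_mk_iff_sub_mem]
    simpa using I.mul_mem_right ((Pi.single v 1 : V → B) u) hεI
  have hψ' := hψ b' hb''
  obtain ⟨ρ, hρ⟩ : ∃ ρ : A →ₐ[ℂ] B, ∀ q, ρ (π q) = MvPolynomial.aeval b' q := by
    have hk : ∀ q ∈ RingHom.ker π, (MvPolynomial.aeval b' : MvPolynomial V ℂ →ₐ[ℂ] B) q = 0 := by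
      intro q hq
      rw [hker, Ideal.mem_span_singleton] at hq
      obtain ⟨q', rfl⟩ := hq
      rw [map_mul, hF', zero_mul]
    refine ⟨(Ideal.Quotient.liftₐ (RingHom.ker π) (MvPolynomial.aeval b') hk).comp
      (Ideal.quotientKerAlgEquivOfSurjective hsurj).symm.toAlgHom, fun q => ?_⟩
    have h1 : (Ideal.quotientKerAlgEquivOfSurjective hsurj).symm (π q) =
        Ideal.Quotient.mk (RingHom.ker π) q := by
      rw [AlgEquiv.symm_apply_eq]
      rfl
    show (Ideal.Quotient.liftₐ (RingHom.ker π) (MvPolynomial.aeval b') hk)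
      ((Ideal.quotientKerAlgEquivOfSurjective hsurj).symm (π q)) = _
    rw [h1]
    rfl
  have hρg : ∀ a, Ideal.Quotient.mk I (ρ a) = g (algebraMap A (Localization.Away h) a) := by
    intro a
    obtain ⟨q, rfl⟩ := hsurj a
    rw [hρ, hψ']
  have hρu : IsUnit (ρ h) := by
    apply FSH_unit I hI
    rw [hρg]
    exact hhu.map g
  have hM : ∀ y : Submonoid.powers h, IsUnit (ρ y) := by
    rintro ⟨_, n, rfl⟩
    show IsUnit (ρ (h ^ n))
    rw [map_pow]
    exact hρu.pow n
  refine ⟨IsLocalization.liftAlgHom (M := Submonoid.powers h) (S := Localization.Away h)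
    (f := ρ) hM, ?_⟩
  apply IsLocalization.algHom_ext (Submonoid.powers h)
  ext a
  show Ideal.Quotient.mk I ((IsLocalization.liftAlgHom (M := Submonoid.powers h)
    (S := Localization.Away h) (f := ρ) hM) (algebraMap A (Localization.Away h) a)) =
    g (algebraMap A (Localization.Away h) a)
  rw [IsLocalization.liftAlgHom_apply, IsLocalization.lift_eq]
  exact hρg a

end Pool.WH
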