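import Pool.Agent.Work.MP_dcf6a6_wh.Interface

open CategoryTheory AlgebraicGeometry Polynomial Pool.TVar

namespace Pool.WH

theorem GDS_mem {S : Type} [CommRing S] {n : ℕ} {f : S[X]} :
    f ∈ degreeLT S n ↔ ∀ m, n ≤ m → f.coeff m = 0 := by
  rw [mem_degreeLT, degree_lt_iff_coeff_zero]

/-- lift of a polynomial with coefficients in a subalgebra, degrees kept -/
theorem GDS_lift {R : Type} [CommRing R] [Algebra ℂ R] (S' : Subalgebra ℂ R) (A : R[X]) (n : ℕ)
    (hA : A ∈ degreeLT R n) (h : ∀ j < n, A.coeff j ∈ S') :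
    ∃ B : S'[X], B ∈ degreeLT S' n ∧ B.map (S'.val : S' →+* R) = A := by
  classical
  let c : ℕ → S' := fun j => if hj : j < n then ⟨A.coeff j, h j hj⟩ else 0
  have hcoef : ∀ m, (∑ j ∈ Finset.range n, monomial j (c j)).coeff m = if m < n then c m else 0 := by
    intro m
    rw [finsetSum_coeff]
    simp only [coeff_monomial]
    rw [Finset.sum_ite_eq' (Finset.range n) m c]
    simp only [Finset.mem_range]
  refine ⟨∑ j ∈ Finset.range n, monomial j (c j), ?_, ?_⟩
  · rw [GDS_mem]
    intro m hm
    rw [hcoef, if_neg (by omega)]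
  · ext1 m
    rw [coeff_map, hcoef]
    split_ifs with hm
    · simp only [c, dif_pos hm]
      rfl
    · rw [map_zero]
      exact ((GDS_mem.mp hA) m (by omega)).symm

theorem GDS_map_inj {R : Type} [CommRing R] [Algebra ℂ R] (S' : Subalgebra ℂ R) :
    Function.Injective (Polynomial.map (S'.val : S' →+* R)) :=
  Polynomial.map_injective _ Subtype.val_injective

theorem p_GDS : Stmt_GDS := by
  intro R _ _ ι _ p a n hgen
  classical
  have h1 : ∀ m : ℕ, ∃ A : ι → R[X], (∀ i, A i ∈ degreeLT R (a i)) ∧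
      (m < n → ∑ i, A i * p i = X ^ m) := by
    intro m
    by_cases hm : m < n
    · obtain ⟨A, hA, h⟩ := hgen (X ^ m) (by
        rw [GDS_mem]
        intro j hj
        rw [coeff_X_pow, if_neg (by omega)])
      exact ⟨A, hA, fun _ => h⟩
    · exact ⟨fun _ => 0, fun i => Submodule.zero_mem _, fun h => absurd h hm⟩
  choose A hA hAm using h1
  refine ⟨(Finset.range n).biUnion fun m => Finset.univ.biUnion fun i =>
    (Finset.range (a i)).image fun j => (A m i).coeff j, ?_⟩
  intro S' hE p' hp'
  have hcoef : ∀ m < n, ∀ i, ∀ j < a i, (A m i).coeff j ∈ S' := by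
    intro m hm i j hj
    apply hE
    simp only [Finset.coe_biUnion, Set.mem_iUnion, Finset.coe_image, Set.mem_image,
      Finset.mem_coe, Finset.mem_range, Finset.mem_univ]
    exact ⟨m, hm, i, trivial, j, hj, rfl⟩
  have h2 : ∀ m : ℕ, ∃ B : ι → S'[X], (∀ i, B i ∈ degreeLT S' (a i)) ∧
      (m < n → ∀ i, (B i).map (S'.val : S' →+* R) = A m i) := by
    intro m
    by_cases hm : m < n
    · choose B hB1 hB2 using fun i => GDS_lift S' (A m i) (a i) (hA m i) (hcoef m hm i)
      exact ⟨B, hB1, fun _ => hB2⟩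
    · exact ⟨fun _ => 0, fun i => Submodule.zero_mem _, fun h => absurd h hm⟩
  choose B hB hBm using h2
  intro q hq
  refine ⟨fun i => ∑ m ∈ Finset.range n, C (q.coeff m) * B m i, ?_, ?_⟩
  · intro i
    refine Submodule.sum_mem _ fun m _ => ?_
    rw [← smul_eq_C_mul]
    exact Submodule.smul_mem _ _ (hB m i)
  · apply GDS_map_inj S'
    rw [Polynomial.map_sum]
    have h3 : ∀ i, ((∑ m ∈ Finset.range n, C (q.coeff m) * B m i) * p' i).map
        (S'.val : S' →+* R) = ∑ m ∈ Finset.range n, C ((q.coeff m : R)) * (A m i * p i) := by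
      intro i
      rw [Polynomial.map_mul, Polynomial.map_sum, hp', Finset.sum_mul]
      refine Finset.sum_congr rfl fun m hm => ?_
      rw [Polynomial.map_mul, Polynomial.map_C, hBm m (Finset.mem_range.mp hm) i, mul_assoc]
      rfl
    rw [Finset.sum_congr rfl fun i _ => h3 i, Finset.sum_comm]
    have h4 : ∀ m ∈ Finset.range n, ∑ i, C ((q.coeff m : R)) * (A m i * p i) =
        monomial m (q.coeff m : R) := by
      intro m hm
      rw [← Finset.mul_sum, hAm m (Finset.mem_range.mp hm), C_mul_X_pow_eq_monomial]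
    rw [Finset.sum_congr rfl h4]
    ext1 m
    rw [finsetSum_coeff, coeff_map]
    simp only [coeff_monomial]
    rw [Finset.sum_ite_eq' (Finset.range n) m]
    split_ifs with hm
    · rfl
    · rw [(GDS_mem.mp hq) m (by simpa using hm)]
      rfl

end Pool.WH
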