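import Pool.Agent.Work.MP_dcf6a6_wh.B_SHM

/-!
# Block GKG: from the node ring to the field of Laurent series
-/

open CategoryTheory AlgebraicGeometry Polynomial Pool.TVar

namespace Pool.WH

noncomputable section

/-- A common denominator of a polynomial over the fraction field. -/
theorem GKG_denominator (q : KK[X]) : ∃ (r : PowerSeries ℂ) (Q : ℕ → PowerSeries ℂ), r ≠ 0 ∧
    ∀ i, algebraMap (PowerSeries ℂ) KK (Q i) = algebraMap (PowerSeries ℂ) KK r * q.coeff i := by
  classical
  obtain ⟨b, hb⟩ := IsLocalization.exist_integer_multiples_of_finset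
    (nonZeroDivisors (PowerSeries ℂ)) (q.support.image q.coeff)
  have h1 : ∀ i, ∃ Qi : PowerSeries ℂ, algebraMap (PowerSeries ℂ) KK Qi =
      algebraMap (PowerSeries ℂ) KK (b : PowerSeries ℂ) * q.coeff i := by
    intro i
    by_cases hi : i ∈ q.support
    · obtain ⟨Qi, hQi⟩ := hb (q.coeff i) (Finset.mem_image_of_mem _ hi)
      refine ⟨Qi, ?_⟩
      rw [hQi, Algebra.smul_def]
    · refine ⟨0, ?_⟩
      rw [Polynomial.notMem_support_iff.mp hi, map_zero, mul_zero]
  choose Q hQ using h1
  exact ⟨b, Q, nonZeroDivisors.coe_ne_zero b, hQ⟩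

/-- The shift of `f ∈ bd (n + 1)` has degree at most `2 n`. -/
theorem GKG_sh_degree (n : ℕ) (f : NR) : sh n f ∈ degreeLT KK (2 * n + 1) := by
  unfold sh
  refine Submodule.sum_mem _ fun i hi => ?_
  rw [Polynomial.mem_degreeLT]
  refine lt_of_le_of_lt (Polynomial.degree_monomial_le _ _) ?_
  rw [Finset.mem_range] at hi
  exact_mod_cast hi

/-- Every polynomial of degree `≤ 2 n` over the field is a shift up to a factor. -/
theorem GKG_exists (n : ℕ) (q : KK[X]) (hq : q ∈ degreeLT KK (2 * n + 1)) :
    ∃ (r : KK) (f : NR), r ≠ 0 ∧ f ∈ bd (n + 1) ∧ sh n f = Polynomial.C r * q := by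
  obtain ⟨r, Q, hr, hQ⟩ := GKG_denominator q
  obtain ⟨f, hf⟩ := exists_co
    (fun j : ℤ => if j.natAbs ≤ n then (PowerSeries.X : PowerSeries ℂ) ^ n * Q (j + n).toNat else 0)
    (by
      refine (Set.finite_Icc (-(n : ℤ)) n).subset fun j hj => ?_
      rw [Set.mem_setOf_eq] at hj
      by_contra hc
      refine hj (if_neg fun h => hc ?_)
      rw [Set.mem_Icc]
      omega)
    (by
      intro j
      split_ifs with h
      · exact Dvd.dvd.mul_right (pow_dvd_pow _ (by omega)) _
      · exact dvd_zero _)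
  have hfm : f ∈ bd (n + 1) := by
    rw [mem_bd]
    intro j hj
    rw [hf, if_neg (by omega)]
  refine ⟨algebraMap (PowerSeries ℂ) KK (PowerSeries.X ^ n * r), f, ?_, hfm, ?_⟩
  · intro h
    have h1 : (PowerSeries.X : PowerSeries ℂ) ^ n * r = 0 :=
      (IsFractionRing.injective (PowerSeries ℂ) KK) (h.trans (map_zero _).symm)
    rcases mul_eq_zero.mp h1 with h2 | h2
    · exact (pow_ne_zero n (PowerSeries.X_ne_zero (R := ℂ))) h2
    · exact hr h2
  · ext k
    rw [SHM_coeff hfm, hf, Polynomial.coeff_C_mul]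
    split_ifs with h
    · have h1 : ((k : ℤ) - n + n).toNat = k := by omega
      rw [h1, map_mul, hQ, ← mul_assoc, ← map_mul]
    · have h1 : q.coeff k = 0 := by
        rw [Polynomial.mem_degreeLT] at hq
        refine Polynomial.coeff_eq_zero_of_degree_lt (lt_of_lt_of_le hq ?_)
        have h2 : 2 * n + 1 ≤ k := by omega
        exact_mod_cast h2
      rw [h1, mul_zero, map_zero]

theorem p_GKG (hSHM : Stmt_SHM) : Stmt_GKG := by
  classical
  intro ι _ p δ a n hp hcase hgen q hq
  rcases Nat.eq_zero_or_pos n with hn | hn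
  · subst hn
    refine ⟨fun _ => 0, fun i => Submodule.zero_mem _, ?_⟩
    have h0 : q = 0 := by
      rw [Polynomial.mem_degreeLT] at hq
      rw [← Polynomial.degree_eq_bot]
      have h1 : q.degree < 0 := by simpa using hq
      exact (Nat.WithBot.lt_zero_iff).mp h1
    rw [h0]
    simp
  · obtain ⟨m, rfl⟩ : ∃ m, n = m + 1 := ⟨n - 1, by omega⟩
    have h1 : 2 * (m + 1) - 1 = 2 * m + 1 := by omega
    rw [h1] at hq
    obtain ⟨r, f, hr, hf, hsh⟩ := GKG_exists m q hq
    obtain ⟨A, hA, hAf⟩ := hgen f hf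
    have h2 : ∀ i, ∃ B : KK[X], B ∈ degreeLT KK (2 * a i - 1) ∧
        sh m (A i * p i) = B * sh (δ i) (p i) := by
      intro i
      by_cases hz : A i * p i = 0
      · refine ⟨0, Submodule.zero_mem _, ?_⟩
        rw [hz, SHM_zero, zero_mul]
      · have ha0 : a i ≠ 0 := by
          intro h
          have h3 : A i = 0 := by
            apply co_ext
            intro j
            rw [mem_bd.mp (hA i) j (by omega), co_zero]
          exact hz (by rw [h3, zero_mul])
        have hpi : p i ≠ 0 := fun h => hz (by rw [h, mul_zero])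
        have h3 : a i + δ i = m + 1 := by
          rcases hcase i with h | h | h
          · exact h
          · exact absurd h ha0
          · exact absurd h hpi
        obtain ⟨b, hb⟩ : ∃ b, a i = b + 1 := ⟨a i - 1, by omega⟩
        have h4 : A i ∈ bd (b + 1) := hb ▸ hA i
        refine ⟨sh b (A i), ?_, ?_⟩
        · have h5 : 2 * a i - 1 = 2 * b + 1 := by omega
          rw [h5]
          exact GKG_sh_degree b (A i)
        · have h6 : m = b + δ i := by omega
          rw [h6]
          exact hSHM b (δ i) (A i) (p i) h4 (hp i)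
    choose B hB hBe using h2
    refine ⟨fun i => Polynomial.C r⁻¹ * B i, fun i => ?_, ?_⟩
    · show Polynomial.C r⁻¹ * B i ∈ degreeLT KK (2 * a i - 1)
      rw [← Polynomial.smul_eq_C_mul]
      exact Submodule.smul_mem _ _ (hB i)
    · have h3 : ∑ i, Polynomial.C r⁻¹ * B i * sh (δ i) (p i) =
          Polynomial.C r⁻¹ * ∑ i, sh m (A i * p i) := by
        rw [Finset.mul_sum]
        refine Finset.sum_congr rfl fun i _ => ?_
        rw [hBe, mul_assoc]
      simp only
      rw [h3, ← SHM_sum, hAf, hsh, ← mul_assoc, ← Polynomial.C_mul, inv_mul_cancel₀ hr,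
        Polynomial.C_1, one_mul]

end

end Pool.WH
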