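import Pool.Agent.Work.MP_dcf6a6_wh.B_GLH

open CategoryTheory AlgebraicGeometry Polynomial Pool.TVar

namespace Pool.WH

theorem GKT_bd0 {f : NR} (hf : f ∈ bd 0) : f = 0 :=
  co_ext fun i => hf i (Nat.zero_le _)

theorem GKT_one : (1 : NR) ∈ bd 1 := by
  intro i hi
  rw [co_one, if_neg (by omega)]

theorem GKT_sh0 : sh 0 (1 : NR) = 1 := by
  unfold sh
  rw [Nat.mul_zero, Nat.zero_add, Finset.sum_range_one, co_one]
  simp

theorem GKT_prod (hBDM : Stmt_BDM) (hSHM : Stmt_SHM) {V : Type} (w : V → ℕ) (c : ℕ) (G : V → NR)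
    (hG : ∀ v, G v ∈ bd (c * w v + 1)) (T : Finset V) :
    ∏ v ∈ T, G v ∈ bd (c * ∑ v ∈ T, w v + 1) ∧
    sh (c * ∑ v ∈ T, w v) (∏ v ∈ T, G v) = ∏ v ∈ T, sh (c * w v) (G v) := by
  classical
  induction T using Finset.induction_on with
  | empty =>
    rw [Finset.sum_empty, Finset.prod_empty, Finset.prod_empty, Nat.mul_zero]
    exact ⟨GKT_one, GKT_sh0⟩
  | insert a T ha ih =>
    rw [Finset.sum_insert ha, Finset.prod_insert ha, Finset.prod_insert ha, Nat.mul_add]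
    exact ⟨(hBDM _ _ _ _ (hG a) ih.1).1, by rw [hSHM _ _ _ _ (hG a) ih.1, ih.2]⟩

theorem p_GKT (hGMO : Stmt_GMO) (hBDM : Stmt_BDM) (hGNQ : Stmt_GNQ) (hSHM : Stmt_SHM)
    (hGKG : Stmt_GKG) : Stmt_GKT := by
  intro V _ w c g₁ g₂ ρu ρv hu hv ⟨D₁, h1⟩ ⟨D₂, h2⟩ G hG hGu hGv
  have hp := fun T : GT w => GKT_prod hBDM hSHM w c G hG T.1
  obtain ⟨E, hE1, hE2⟩ : ∃ E, D₁ ≤ E ∧ D₂ ≤ E + 1 := ⟨max D₁ D₂, le_max_left _ _, by omega⟩
  have h1' := hGMO ℂ (GT w) _ (fun T => c * ∑ v ∈ T.1, w v) D₁ E hE1 h1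
  have h2' := hGMO ℂ (GT w) _ (fun T => c * ∑ v ∈ T.1, w v) D₂ (E + 1) hE2 h2
  have hgen := hGNQ (GT w) (fun T => ∏ v ∈ T.1, G v)
    (fun T => E + 1 + 1 - c * ∑ v ∈ T.1, w v) (E + 1 + 1) ρu ρv hu hv
    (fun T A hA => by
      rcases Nat.eq_zero_or_pos (E + 1 + 1 - c * ∑ v ∈ T.1, w v) with h | h
      · have hA' : A ∈ bd (E + 1 + 1 - c * ∑ v ∈ T.1, w v) := hA
        rw [h] at hA'
        rw [GKT_bd0 hA', zero_mul]
        exact Submodule.zero_mem _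
      · have hA' : A ∈ bd (E + 1 - c * ∑ v ∈ T.1, w v + 1) := by
          have h3 : E + 1 - c * ∑ v ∈ T.1, w v + 1 = E + 1 + 1 - c * ∑ v ∈ T.1, w v := by omega
          rw [h3]
          exact hA
        have h4 := (hBDM _ _ _ _ hA' (hp T).1).1
        have h5 : E + 1 - c * ∑ v ∈ T.1, w v + c * ∑ v ∈ T.1, w v + 1 = E + 1 + 1 := by omega
        rwa [h5] at h4)
    (by
      have h3 : (fun T : GT w => ρu (∏ v ∈ T.1, G v)) = fun T : GT w => ∏ v ∈ T.1, g₂ v := by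
        funext T
        rw [map_prod]
        exact Finset.prod_congr rfl fun v _ => hGu v
      rw [h3]
      exact h2')
    (by
      have h3 : (fun T : GT w => ρv (∏ v ∈ T.1, G v)) = fun T : GT w => ∏ v ∈ T.1, g₁ v := by
        funext T
        rw [map_prod]
        exact Finset.prod_congr rfl fun v _ => hGv v
      rw [h3]
      have h4 : (fun T : GT w => E + 1 + 1 - c * ∑ v ∈ T.1, w v - 1) =
          fun T : GT w => E + 1 - c * ∑ v ∈ T.1, w v := by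
        funext T
        omega
      change Gen _ (fun T : GT w => E + 1 + 1 - c * ∑ v ∈ T.1, w v - 1) (E + 1 + 1 - 1)
      rw [h4]
      exact h1')
  have hK := hGKG (GT w) (fun T => ∏ v ∈ T.1, G v) (fun T => c * ∑ v ∈ T.1, w v)
    (fun T => E + 1 + 1 - c * ∑ v ∈ T.1, w v) (E + 1 + 1) (fun T => (hp T).1)
    (fun T => by
      change E + 1 + 1 - c * ∑ v ∈ T.1, w v + c * ∑ v ∈ T.1, w v = E + 1 + 1 ∨
        E + 1 + 1 - c * ∑ v ∈ T.1, w v = 0 ∨ _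
      rcases Nat.lt_or_ge (E + 1 + 1) (c * ∑ v ∈ T.1, w v) with h | h
      · right
        left
        omega
      · left
        omega) hgen
  refine ⟨2 * (E + 1), ?_⟩
  have h6 : (fun T : GT w => sh (c * ∑ v ∈ T.1, w v) (∏ v ∈ T.1, G v)) =
      fun T : GT w => ∏ v ∈ T.1, sh (c * w v) (G v) := funext fun T => (hp T).2
  have h7 : (fun T : GT w => 2 * (E + 1 + 1 - c * ∑ v ∈ T.1, w v) - 1) =
      fun T : GT w => 2 * (E + 1) + 1 - 2 * c * ∑ v ∈ T.1, w v := by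
    funext T
    rw [Nat.mul_assoc]
    omega
  have hK' : Gen (fun T : GT w => sh (c * ∑ v ∈ T.1, w v) (∏ v ∈ T.1, G v))
    (fun T : GT w => 2 * (E + 1 + 1 - c * ∑ v ∈ T.1, w v) - 1) (2 * (E + 1 + 1) - 1) := hK
  rw [h6, h7] at hK'
  exact hK'

end Pool.WH
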