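import Pool.Agent.Work.MP_dcf6a6_wh.B_GLH

open CategoryTheory AlgebraicGeometry Polynomial Pool.TVar

namespace Pool.WH

theorem p_GKV (hGSH : Stmt_GSH) (hPDW : Stmt_PDW) (hBDF : Stmt_BDF) (hPDH : Stmt_PDH)
    (hGNQ : Stmt_GNQ) (hRDF : Stmt_RDF) (hSHF : Stmt_SHF) (hGKG : Stmt_GKG) : Stmt_GKV := by
  intro V _ w d c F g₁ g₂ ρu ρv hu hv hF hw hd hc h1 h2 G hG hGu hGv
  have hRu : ∀ P : MvPolynomial V ℂ, ρu (MvPolynomial.aeval G (mp P)) =
      MvPolynomial.aeval g₂ P := by
    intro P
    rw [hRDF V P G ρu (Or.inl hu)]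
    congr 1
    exact congrArg _ (funext hGu)
  have hRv : ∀ P : MvPolynomial V ℂ, ρv (MvPolynomial.aeval G (mp P)) =
      MvPolynomial.aeval g₁ P := by
    intro P
    rw [hRDF V P G ρv (Or.inr hv)]
    congr 1
    exact congrArg _ (funext hGv)
  have h4 : 2 ≤ c * d := le_trans hc (Nat.le_mul_of_pos_right c hd)
  have hgu : Gen (fun v => ρu (MvPolynomial.aeval G (MvPolynomial.pderiv v (mp F))))
      (fun v => c * w v) (c * d) := by
    have h3 : (fun v => ρu (MvPolynomial.aeval G (MvPolynomial.pderiv v (mp F)))) =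
        fun v => MvPolynomial.aeval g₂ (MvPolynomial.pderiv v F) := by
      funext v
      rw [GLH_pd, hRu]
    rw [h3]
    have h5 := hGSH ℂ V _ _ (fun v => c * w v) (c * d - 1) (by omega) (fun v _ => by
      have : 0 < c * w v := Nat.mul_pos (by omega) (hw v)
      omega) h2.vf
    rwa [Nat.sub_add_cancel (by omega)] at h5
  have hgv : Gen (fun v => ρv (MvPolynomial.aeval G (MvPolynomial.pderiv v (mp F))))
      (fun v => c * w v - 1) (c * d - 1) := by
    have h3 : (fun v => ρv (MvPolynomial.aeval G (MvPolynomial.pderiv v (mp F)))) =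
        fun v => MvPolynomial.aeval g₁ (MvPolynomial.pderiv v F) := by
      funext v
      rw [GLH_pd, hRv]
    rw [h3]
    exact h1.vf
  have hgen := hGNQ V (fun v => MvPolynomial.aeval G (MvPolynomial.pderiv v (mp F)))
    (fun v => c * w v) (c * d) ρu ρv hu hv (hPDH V w d c F G hF hw (by omega) hG) hgu hgv
  have hK := hGKG V (fun v => MvPolynomial.aeval G (MvPolynomial.pderiv v (mp F)))
    (fun v => c * (d - w v)) (fun v => c * w v) (c * d) (fun v => by
      change MvPolynomial.aeval G (MvPolynomial.pderiv v (mp F)) ∈ bd (c * (d - w v) + 1)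
      rw [GLH_pd]
      exact (hBDF V w _ (d - w v) c G (hPDW V w ℂ F d v hF).1 hG).1) (fun v => by
      rcases Nat.lt_or_ge d (w v) with h | h
      · right
        right
        change MvPolynomial.aeval G (MvPolynomial.pderiv v (mp F)) = 0
        rw [GLH_pd, (hPDW V w ℂ F d v hF).2 h, mp, map_zero, map_zero]
      · left
        change c * w v + c * (d - w v) = c * d
        rw [← Nat.mul_add, Nat.add_sub_cancel' h]) hgen
  have hfun : (fun v => sh (c * (d - w v)) (MvPolynomial.aeval G (MvPolynomial.pderiv v (mp F)))) =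
      fun v => MvPolynomial.aeval (fun v => sh (c * w v) (G v))
        (MvPolynomial.pderiv v (MvPolynomial.map (algebraMap ℂ KK) F)) := by
    funext v
    rw [GLH_pd, MvPolynomial.pderiv_map]
    exact hSHF V w _ (d - w v) c G (hPDW V w ℂ F d v hF).1 hG
  have hfun2 : (fun v => 2 * (c * w v) - 1) = fun v => 2 * c * w v - 1 := by
    funext v
    rw [Nat.mul_assoc]
  have hK' : Gen (fun v => sh (c * (d - w v)) (MvPolynomial.aeval G
      (MvPolynomial.pderiv v (mp F)))) (fun v => 2 * (c * w v) - 1) (2 * (c * d) - 1) := hK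
  rw [hfun, hfun2, ← Nat.mul_assoc] at hK'
  exact hK'

end Pool.WH
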