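import Pool.Agent.Work.MP_dcf6a6_wh.Interface

open CategoryTheory AlgebraicGeometry Polynomial Pool.TVar

namespace Pool.WH

theorem GLH_mono {m n : ℕ} (h : m ≤ n) {f : NR} (hf : f ∈ bd m) : f ∈ bd n :=
  fun i hi => hf i (le_trans h hi)

theorem GLH_lt {p : ℂ[X]} {n m : ℕ} (h : p ∈ degreeLT ℂ n) (hm : n ≤ m) : p.coeff m = 0 := by
  rw [Polynomial.mem_degreeLT, Polynomial.degree_lt_iff_coeff_zero] at h
  exact h m hm

theorem GLH_pd {V : Type} (v : V) (F : MvPolynomial V ℂ) :
    MvPolynomial.pderiv v (mp F) = mp (MvPolynomial.pderiv v F) := by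
  unfold mp
  rw [MvPolynomial.pderiv_map]

theorem GLH_evC {V : Type} (a : V → ℂ) (F : MvPolynomial V ℂ) :
    MvPolynomial.eval (fun v => PowerSeries.C (a v)) (mp F) =
      PowerSeries.C (MvPolynomial.eval a F) := by
  unfold mp
  rw [MvPolynomial.eval_map, MvPolynomial.eval, MvPolynomial.coe_eval₂Hom,
    MvPolynomial.eval₂_comp_left]
  rfl

theorem GLH_evX {V : Type} [Fintype V] (w : V → ℕ) (d c : ℕ) (a : V → ℂ) (F : MvPolynomial V ℂ)
    (hF : F.IsWeightedHomogeneous w d) :
    MvPolynomial.eval (fun v => (PowerSeries.X : PowerSeries ℂ) ^ (c * w v) *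
      PowerSeries.C (a v)) (mp F) =
      PowerSeries.X ^ (c * d) * PowerSeries.C (MvPolynomial.eval a F) := by
  rw [← GLH_evC]
  unfold mp
  rw [MvPolynomial.eval_map, MvPolynomial.eval_map, MvPolynomial.eval₂_eq',
    MvPolynomial.eval₂_eq', Finset.mul_sum]
  refine Finset.sum_congr rfl fun μ hμ => ?_
  have h1 : ∑ v, μ v * w v = d := by
    have h2 := hF (MvPolynomial.mem_support_iff.mp hμ)
    rw [← h2, Finsupp.weight_apply, Finsupp.sum_fintype _ _ (by simp)]
    exact Finset.sum_congr rfl fun v _ => by rw [smul_eq_mul]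
  have h3 : ∏ v, ((PowerSeries.X : PowerSeries ℂ) ^ (c * w v) * PowerSeries.C (a v)) ^ μ v =
      PowerSeries.X ^ (c * d) * ∏ v, (PowerSeries.C (a v)) ^ μ v := by
    rw [← h1, Finset.mul_sum, ← Finset.prod_pow_eq_pow_sum, ← Finset.prod_mul_distrib]
    refine Finset.prod_congr rfl fun v _ => ?_
    rw [mul_pow, ← pow_mul]
    congr 2
    ring
  rw [h3]
  ring

theorem p_GLH (hHEN : Stmt_HEN) (hGSH : Stmt_GSH) (hDEG : Stmt_DEG) (hQUV : Stmt_QUV)
    (hQKR : Stmt_QKR) (hBFG : Stmt_BFG) (hBDF : Stmt_BDF) (hPDH : Stmt_PDH) (hGNM : Stmt_GNM)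
    (hRDF : Stmt_RDF) : Stmt_GLH := by
  intro V _ w d c F g₁ g₂ ρu ρv hu hv hF hw hd hc h1 h2 h0
  have hex := fun v => hQUV (g₂ v) (g₁ v) (h0 v).symm
  choose G0 hG0p hG0m using hex
  have hG0b : ∀ v, G0 v ∈ bd (c * w v + 1) := by
    intro v j hj
    rcases le_total 0 j with h | h
    · obtain ⟨m, rfl⟩ := Int.eq_ofNat_of_zero_le h
      rw [hG0p v m, GLH_lt (h2.deg v) (by simpa using hj), map_zero]
    · obtain ⟨m, hm⟩ : ∃ m : ℕ, j = -(m : ℤ) := ⟨(-j).toNat, by omega⟩
      subst hm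
      rw [hG0m v m, GLH_lt (h1.deg v) (by simpa using hj), map_zero, mul_zero]
  have hG0u : ∀ v, ρu (G0 v) = g₂ v := by
    intro v
    ext m
    rw [hu, hG0p]
    simp
  have hG0v : ∀ v, ρv (G0 v) = g₁ v := by
    intro v
    ext m
    rw [hv, hG0m, PowerSeries.coeff_X_pow_mul']
    simp
  have hXu : ∀ f : NR, ρu ((PowerSeries.X : PowerSeries ℂ) • f) = 0 := by
    intro f
    ext m
    rw [hu, co_smul]
    simp
  have hXv : ∀ f : NR, ρv ((PowerSeries.X : PowerSeries ℂ) • f) = 0 := by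
    intro f
    ext m
    rw [hv, co_smul, Polynomial.coeff_zero]
    have h3 : (PowerSeries.X : PowerSeries ℂ) ^ (m + 1) ∣ PowerSeries.X * co f (-(m : ℤ)) := by
      rw [pow_succ']
      refine mul_dvd_mul_left _ ?_
      have := co_dvd f (-(m : ℤ))
      rwa [neg_neg, Int.toNat_natCast] at this
    exact (PowerSeries.X_pow_dvd_iff.mp h3) m (Nat.lt_succ_self m)
  have hZ : ∀ (n : ℕ) (f : NR), (PowerSeries.X : PowerSeries ℂ) • f ∈ bd n → f ∈ bd n := by
    intro n f hf i hi
    have h3 := hf i hi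
    rw [co_smul] at h3
    exact (mul_eq_zero.mp h3).resolve_left PowerSeries.X_ne_zero
  have hev1 : MvPolynomial.eval (fun v => (g₁ v).coeff (c * w v)) F = 0 := by
    rw [← (hDEG V w ℂ F d c g₁ hF h1.deg).2.1, h1.eq, Polynomial.coeff_zero]
  have hev2 : MvPolynomial.eval (fun v => (g₂ v).coeff (c * w v)) F = 0 := by
    rw [← (hDEG V w ℂ F d c g₂ hF h2.deg).2.1, h2.eq, Polynomial.coeff_zero]
  have hRu : ∀ P : MvPolynomial V ℂ, ρu (MvPolynomial.aeval G0 (mp P)) =
      MvPolynomial.aeval g₂ P := by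
    intro P
    rw [hRDF V P G0 ρu (Or.inl hu)]
    congr 1
    exact congrArg _ (funext hG0u)
  have hRv : ∀ P : MvPolynomial V ℂ, ρv (MvPolynomial.aeval G0 (mp P)) =
      MvPolynomial.aeval g₁ P := by
    intro P
    rw [hRDF V P G0 ρv (Or.inr hv)]
    congr 1
    exact congrArg _ (funext hG0v)
  -- the module of corrections
  let C : Submodule (PowerSeries ℂ) (V → NR) :=
    Submodule.pi Set.univ (fun v => bd (c * w v))
  have hC : ∀ z ∈ C, ∀ v, z v ∈ bd (c * w v) := fun z hz v => hz v (Set.mem_univ v)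
  have hCfg : C.FG := Submodule.fg_pi fun v => hBFG _
  have hco : ∀ z ∈ C, ∀ v, co ((G0 + (PowerSeries.X : PowerSeries ℂ) • z) v)
      ((c * w v : ℕ) : ℤ) = PowerSeries.C ((g₂ v).coeff (c * w v)) := by
    intro z hz v
    rw [Pi.add_apply, Pi.smul_apply, co_add, co_smul,
      hC z hz v _ (by rw [Int.natAbs_natCast]), mul_zero, add_zero, hG0p]
  have hco' : ∀ z ∈ C, ∀ v, co ((G0 + (PowerSeries.X : PowerSeries ℂ) • z) v)
      (-((c * w v : ℕ) : ℤ)) = PowerSeries.X ^ (c * w v) *
        PowerSeries.C ((g₁ v).coeff (c * w v)) := by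
    intro z hz v
    rw [Pi.add_apply, Pi.smul_apply, co_add, co_smul,
      hC z hz v _ (by rw [Int.natAbs_neg, Int.natAbs_natCast]), mul_zero, add_zero, hG0m]
  have hGb : ∀ z ∈ C, ∀ v, (G0 + (PowerSeries.X : PowerSeries ℂ) • z) v ∈ bd (c * w v + 1) := by
    intro z hz v
    rw [Pi.add_apply, Pi.smul_apply]
    exact Submodule.add_mem _ (hG0b v)
      (Submodule.smul_mem _ _ (GLH_mono (Nat.le_succ _) (hC z hz v)))
  have key : ∃ z ∈ C, MvPolynomial.aeval (G0 + (PowerSeries.X : PowerSeries ℂ) • z) (mp F) = 0 := by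
    refine hHEN ℂ V NR (mp F) G0 C {f | f ∈ bd (c * d)} hCfg ?_ ?_ ?_ ?_ ?_
    · -- separated
      intro b hb
      refine co_ext fun i => ?_
      rw [co_zero]
      ext n
      obtain ⟨b', hb'⟩ := hb (n + 1)
      rw [hb', co_smul, map_zero]
      exact (PowerSeries.X_pow_dvd_iff.mp (dvd_mul_right _ _)) n (Nat.lt_succ_self n)
    · -- h3
      intro z hz
      obtain ⟨b1, b2, b3⟩ := hBDF V w F d c _ hF (hGb z hz)
      intro i hi
      rcases Nat.lt_or_ge i.natAbs (c * d + 1) with h | h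
      · rcases le_total 0 i with h' | h'
        · have hi' : i = ((c * d : ℕ) : ℤ) := by omega
          rw [hi', b2, show (fun v => co ((G0 + (PowerSeries.X : PowerSeries ℂ) • z) v)
            ((c * w v : ℕ) : ℤ)) = fun v => PowerSeries.C ((g₂ v).coeff (c * w v)) from
              funext (hco z hz), GLH_evC, hev2, map_zero]
        · have hi' : i = -((c * d : ℕ) : ℤ) := by omega
          rw [hi', b3, show (fun v => co ((G0 + (PowerSeries.X : PowerSeries ℂ) • z) v)
            (-((c * w v : ℕ) : ℤ))) = fun v => PowerSeries.X ^ (c * w v) *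
              PowerSeries.C ((g₁ v).coeff (c * w v)) from funext (hco' z hz),
            GLH_evX w d c _ F hF, hev1, map_zero, mul_zero]
      · exact b1 i h
    · -- h4
      intro b hb
      exact hZ _ b hb
    · -- h5
      intro b hb
      have hgu : Gen (fun v => ρu (MvPolynomial.aeval G0 (MvPolynomial.pderiv v (mp F))))
          (fun v => c * w v) (c * d) := by
        have h3 : (fun v => ρu (MvPolynomial.aeval G0 (MvPolynomial.pderiv v (mp F)))) =
            fun v => MvPolynomial.aeval g₂ (MvPolynomial.pderiv v F) := by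
          funext v
          rw [GLH_pd, hRu]
        rw [h3]
        have h4 : 2 ≤ c * d := le_trans hc (Nat.le_mul_of_pos_right c hd)
        have h5 := hGSH ℂ V _ _ (fun v => c * w v) (c * d - 1) (by omega) (fun v _ => by
          have : 0 < c * w v := Nat.mul_pos (by omega) (hw v)
          omega) h2.vf
        rwa [Nat.sub_add_cancel (by omega)] at h5
      have hgv : Gen (fun v => ρv (MvPolynomial.aeval G0 (MvPolynomial.pderiv v (mp F))))
          (fun v => c * w v - 1) (c * d - 1) := by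
        have h3 : (fun v => ρv (MvPolynomial.aeval G0 (MvPolynomial.pderiv v (mp F)))) =
            fun v => MvPolynomial.aeval g₁ (MvPolynomial.pderiv v F) := by
          funext v
          rw [GLH_pd, hRv]
        rw [h3]
        exact h1.vf
      obtain ⟨A, hA, f', hf'⟩ := hGNM V
        (fun v => MvPolynomial.aeval G0 (MvPolynomial.pderiv v (mp F))) (fun v => c * w v) (c * d)
        ρu ρv hu hv (hPDH V w d c F G0 hF hw (by omega) hG0b) hgu hgv b hb
      exact ⟨A, fun v _ => hA v, f', hf'⟩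
    · -- h6
      refine hQKR _ (fun n => ?_) (fun n => ?_)
      · rw [← hu, hRu, h2.eq, Polynomial.coeff_zero]
      · rw [← hv, hRv, h1.eq, Polynomial.coeff_zero]
  obtain ⟨z, hz, hz0⟩ := key
  refine ⟨G0 + (PowerSeries.X : PowerSeries ℂ) • z, hGb z hz, hz0, fun v => ?_, fun v => ?_,
    hco z hz, hco' z hz⟩
  · rw [Pi.add_apply, Pi.smul_apply, map_add, hXu, add_zero, hG0u]
  · rw [Pi.add_apply, Pi.smul_apply, map_add, hXv, add_zero, hG0v]

end Pool.WH
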