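import Pool.Agent.Work.MP_dcf6a6_wh.Interface

/-! # Block GLU: gluing (MP_dcf6a6, THEOREM WH) -/

open CategoryTheory AlgebraicGeometry Polynomial Pool.TVar

namespace Pool.WH

theorem GLU_sh (n : ℕ) (f : NR) (k : ℕ) (hk : k < 2 * n + 1) :
    (sh n f).coeff k = algebraMap (PowerSeries ℂ) KK (co f ((k : ℤ) - n)) := by
  unfold sh
  rw [finsetSum_coeff]
  simp only [coeff_monomial]
  rw [Finset.sum_ite_eq' (Finset.range (2 * n + 1)) k, if_pos (Finset.mem_range.2 hk)]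

theorem GLU_deg (n : ℕ) (f : NR) : sh n f ∈ degreeLT KK (2 * n + 1) := by
  unfold sh
  refine Submodule.sum_mem _ fun i hi => ?_
  rw [mem_degreeLT]
  refine (degree_monomial_le _ _).trans_lt ?_
  exact_mod_cast Finset.mem_range.1 hi

theorem GLU_sh0 (n : ℕ) : sh n 0 = 0 := by
  unfold sh
  refine Finset.sum_eq_zero fun i _ => ?_
  rw [co_zero, map_zero, monomial_zero_right]

/-- the map `σ ↦ s` -/
noncomputable def GLU_th : ℂ[X] →ₐ[ℂ] KK :=
  (IsScalarTower.toAlgHom ℂ (PowerSeries ℂ) KK).comp (Polynomial.aeval (PowerSeries.X : PowerSeries ℂ))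

theorem GLU_th_eq (p : ℂ[X]) : GLU_th p = algebraMap (PowerSeries ℂ) KK (p : PowerSeries ℂ) := by
  have h1 : Polynomial.aeval (PowerSeries.X : PowerSeries ℂ) p = (p : PowerSeries ℂ) := by
    induction p using Polynomial.induction_on with
    | C a =>
      rw [aeval_C, Polynomial.coe_C]
      rfl
    | add p q hp hq => rw [map_add, hp, hq, Polynomial.coe_add]
    | monomial n a _ =>
      rw [map_mul, map_pow, aeval_C, aeval_X, Polynomial.coe_mul, Polynomial.coe_pow,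
        Polynomial.coe_C, Polynomial.coe_X]
      rfl
  change algebraMap (PowerSeries ℂ) KK (Polynomial.aeval (PowerSeries.X : PowerSeries ℂ) p) = _
  rw [h1]

theorem GLU_th_inj : Function.Injective GLU_th := by
  intro p q h
  rw [GLU_th_eq, GLU_th_eq] at h
  exact Polynomial.coe_injective ℂ (IsFractionRing.injective (PowerSeries ℂ) KK h)

theorem p_GLU (hQRU : Stmt_QRU) (hQRV : Stmt_QRV) (hGLH : Stmt_GLH) (hSHF : Stmt_SHF)
    (hGKV : Stmt_GKV) (hGKT : Stmt_GKT) (hSPC : Stmt_SPC) : Stmt_GLU := by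
  intro V _ w d c F g₁ g₂ hF hw hd hc h1 h2 h12
  obtain ⟨ρu, hu⟩ := hQRU
  obtain ⟨ρv, hv⟩ := hQRV
  obtain ⟨G, hGbd, hG0, hGu, hGv, hGp, hGm⟩ := hGLH V w d c F g₁ g₂ ρu ρv hu hv hF hw hd hc h1 h2 h12
  let g' : V → KK[X] := fun v => sh (c * w v) (G v)
  have hfree : Free w d (2 * c) (MvPolynomial.map (algebraMap ℂ KK) F) g' := by
    refine ⟨?_, ?_, ?_, ?_⟩
    · intro v
      have h := GLU_deg (c * w v) (G v)
      rw [← mul_assoc] at h
      exact h
    · have h := hSHF V w F d c G hF hGbd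
      rw [hG0, GLU_sh0] at h
      exact h.symm
    · exact hGKV V w d c F g₁ g₂ ρu ρv hu hv hF hw hd hc h1 h2 G hGbd hGu hGv
    · exact hGKT V w c g₁ g₂ ρu ρv hu hv h1.goodT h2.goodT G hGbd hGu hGv
  have hmap : MvPolynomial.map ((GLU_th : ℂ[X] →ₐ[ℂ] KK) : ℂ[X] →+* KK)
      (MvPolynomial.map (C : ℂ →+* ℂ[X]) F) = MvPolynomial.map (algebraMap ℂ KK) F := by
    rw [MvPolynomial.map_map]
    have h3 : ((GLU_th : ℂ[X] →ₐ[ℂ] KK) : ℂ[X] →+* KK).comp (C : ℂ →+* ℂ[X]) = algebraMap ℂ KK := by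
      refine RingHom.ext fun x => ?_
      exact GLU_th.commutes x
    rw [h3]
  rw [← hmap] at hfree
  obtain ⟨b, hb, hχ⟩ := hSPC V w d (2 * c) ℂ[X] KK inferInstance GLU_th GLU_th_inj
    (MvPolynomial.map (C : ℂ →+* ℂ[X]) F) g' hfree
  obtain ⟨z, hz⟩ : ∃ z : ℂ, (X * b).eval z ≠ 0 := by
    by_contra hcon
    push Not at hcon
    apply mul_ne_zero (X_ne_zero (R := ℂ)) hb
    apply Polynomial.funext
    intro r
    rw [hcon r, eval_zero]
  rw [eval_mul, eval_X] at hz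
  obtain ⟨g, hg, hgc⟩ := hχ (Polynomial.aeval z) (by
    rw [Polynomial.coe_aeval_eq_eval]
    exact (mul_ne_zero_iff.1 hz).2)
  have hmap2 : MvPolynomial.map ((Polynomial.aeval z : ℂ[X] →ₐ[ℂ] ℂ) : ℂ[X] →+* ℂ)
      (MvPolynomial.map (C : ℂ →+* ℂ[X]) F) = F := by
    rw [MvPolynomial.map_map]
    have h3 : (((Polynomial.aeval z : ℂ[X] →ₐ[ℂ] ℂ) : ℂ[X] →+* ℂ)).comp (C : ℂ →+* ℂ[X]) =
        RingHom.id ℂ := by
      ext x
      simp
    rw [h3, MvPolynomial.map_id]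
  rw [hmap2] at hg
  refine ⟨z, (mul_ne_zero_iff.1 hz).1, g, hg, ?_, ?_⟩
  · intro v
    have h3 := hgc v 0 (X ^ (c * w v) * C ((g₁ v).coeff (c * w v))) (by
      change (sh (c * w v) (G v)).coeff 0 = _
      rw [GLU_sh _ _ _ (by omega), GLU_th_eq]
      congr 1
      rw [Polynomial.coe_mul, Polynomial.coe_pow, Polynomial.coe_X, Polynomial.coe_C, ← hGm v]
      congr 1
      push_cast
      ring)
    rw [h3, map_mul, map_pow, aeval_X, aeval_C]
    rfl
  · intro v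
    have h3 := hgc v (2 * c * w v) (C ((g₂ v).coeff (c * w v))) (by
      change (sh (c * w v) (G v)).coeff _ = _
      rw [GLU_sh _ _ _ (by rw [mul_assoc]; omega), GLU_th_eq]
      congr 1
      rw [Polynomial.coe_C, ← hGp v]
      congr 1
      push_cast
      ring)
    rw [h3]
    simp

end Pool.WH
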