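import Pool.Agent.Work.MP_dcf6a6_wh.Interface

/-!
Block GMO: generation of forms in all higher degrees.
-/

set_option autoImplicit false

open CategoryTheory AlgebraicGeometry Polynomial Pool.TVar

namespace Pool.WH

theorem p_GMO (hGSH : Stmt_GSH) : Stmt_GMO := by
  intro S _ ι _ p δ D D' hDD h
  induction D', hDD using Nat.le_induction with
  | base => exact h
  | succ D' hle ih =>
    refine hGSH S ι p (fun i => D' + 1 - δ i) (fun i => D' + 1 + 1 - δ i) (D' + 1) (Nat.succ_pos _) ?_ ih
    intro i hi
    omega

end Pool.WH
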