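import Pool.Agent.Work.MP_dcf6a6_wh.Interface

/-! Block GMP (helper58). -/

set_option autoImplicit false

open CategoryTheory AlgebraicGeometry Polynomial Pool.TVar

namespace Pool.WH

theorem p_GMP : Stmt_GMP := by
  classical
  intro S S' _ _ φ ι _ p a n h q hq
  rw [degreeLT_eq_span_X_pow] at hq
  induction hq using Submodule.span_induction with
  | mem x hx =>
    obtain ⟨m, hm, rfl⟩ : ∃ m, m < n ∧ X ^ m = x := by simpa using hx
    obtain ⟨A, hA, hAe⟩ := h (X ^ m) (mem_degreeLT.2 ((degree_X_pow_le m).trans_lt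
      (by exact_mod_cast hm)))
    refine ⟨fun i => (A i).map φ, fun i => mem_degreeLT.2
      (degree_map_le.trans_lt (mem_degreeLT.1 (hA i))), ?_⟩
    have h1 := congrArg (Polynomial.map φ) hAe
    rw [Polynomial.map_sum, Polynomial.map_pow, Polynomial.map_X] at h1
    rw [← h1]
    refine Finset.sum_congr rfl fun i _ => ?_
    rw [Polynomial.map_mul]
  | zero => exact ⟨0, fun i => Submodule.zero_mem _, by simp⟩
  | add x y _ _ hx hy =>
    obtain ⟨A, hA, hAe⟩ := hx
    obtain ⟨B, hB, hBe⟩ := hy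
    refine ⟨fun i => A i + B i, fun i => Submodule.add_mem _ (hA i) (hB i), ?_⟩
    rw [← hAe, ← hBe, ← Finset.sum_add_distrib]
    exact Finset.sum_congr rfl fun i _ => add_mul _ _ _
  | smul c x _ hx =>
    obtain ⟨A, hA, hAe⟩ := hx
    refine ⟨fun i => c • A i, fun i => Submodule.smul_mem _ c (hA i), ?_⟩
    rw [← hAe, Finset.smul_sum]
    exact Finset.sum_congr rfl fun i _ => smul_mul_assoc _ _ _

end Pool.WH
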