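import Pool.Agent.Work.MP_dcf6a6_wh.Interface

/-!
# Block GN0: generation in large degrees
-/

open Polynomial

namespace Pool.WH

theorem GN0_mul {S : Type} [CommRing S] {m n : ℕ} {p q : S[X]} (hp : p ∈ degreeLT S m)
    (hq : q ∈ degreeLT S (n + 1)) : p * q ∈ degreeLT S (m + n) := by
  rw [mem_degreeLT] at *
  rcases Nat.eq_zero_or_pos m with hm | hm
  · subst hm
    have : p = 0 := by
      rw [← degree_eq_bot]
      simpa using hp
    rw [this, zero_mul, degree_zero]
    exact WithBot.bot_lt_coe _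
  · obtain ⟨m', rfl⟩ : ∃ m', m = m' + 1 := ⟨m - 1, by omega⟩
    have key : ∀ (r : S[X]) (k : ℕ), degree r < ((k + 1 : ℕ) : WithBot ℕ) →
        degree r ≤ (k : WithBot ℕ) := by
      intro r k hr
      by_cases h0 : r = 0
      · rw [h0, degree_zero]; exact bot_le
      · rw [degree_eq_natDegree h0] at hr ⊢
        have h1 : r.natDegree < k + 1 := by exact_mod_cast hr
        exact_mod_cast (by omega : r.natDegree ≤ k)
    have h1 : degree p ≤ (m' : WithBot ℕ) := key p m' hp
    have h2 : degree q ≤ (n : WithBot ℕ) := key q n hq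
    calc degree (p * q) ≤ degree p + degree q := degree_mul_le _ _
      _ ≤ (m' : WithBot ℕ) + (n : WithBot ℕ) := add_le_add h1 h2
      _ = ((m' + n : ℕ) : WithBot ℕ) := by push_cast; rfl
      _ < ((m' + 1 + n : ℕ) : WithBot ℕ) := by
        exact_mod_cast (by omega : m' + n < m' + 1 + n)

theorem p_GN0 : Stmt_GN0 := by
  intro ι _ p δ i₀ hmon hdeg hδ hp hz
  classical
  -- the ideal is the unit ideal
  have h1 : ∃ A : ι → ℂ[X], ∑ i, A i * p i = 1 := by
    have htop : Ideal.span (Set.range p) = ⊤ := by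
      obtain ⟨g, hg⟩ := (IsPrincipalIdealRing.principal (Ideal.span (Set.range p))).principal
      have hg' : Ideal.span (Set.range p) = Ideal.span {g} := hg
      have hdvd : ∀ i, g ∣ p i := by
        intro i
        have : p i ∈ Ideal.span {g} := by
          rw [← hg']
          exact Ideal.subset_span ⟨i, rfl⟩
        exact Ideal.mem_span_singleton.1 this
      have hg0 : g ≠ 0 := by
        rintro rfl
        exact hmon.ne_zero (zero_dvd_iff.1 (hdvd i₀))
      by_cases hu : IsUnit g
      · rw [hg']; exact Ideal.span_singleton_eq_top.2 hu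
      · exfalso
        have hd : g.degree ≠ 0 := fun h => hu (isUnit_iff_degree_eq_zero.2 h)
        obtain ⟨z, hz'⟩ := IsAlgClosed.exists_root g hd
        obtain ⟨i, hi⟩ := hz z
        apply hi
        obtain ⟨c, hc⟩ := hdvd i
        rw [hc, eval_mul, hz'.eq_zero, zero_mul]
    have h2 : (1 : ℂ[X]) ∈ Ideal.span (Set.range p) := by
      rw [htop]; exact Submodule.mem_top
    obtain ⟨c, hc⟩ := (Ideal.mem_span_range_iff_exists_fun).1 h2
    exact ⟨c, hc⟩
  obtain ⟨A, hA⟩ := h1
  refine ⟨2 * δ i₀, ?_⟩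
  intro q hq
  set P := p i₀ with hP
  set R : ι → ℂ[X] := fun i => (q * A i) %ₘ P with hR
  set Q : ι → ℂ[X] := fun i => (q * A i) /ₘ P with hQ
  have hdiv : ∀ i, R i + P * Q i = q * A i := fun i => modByMonic_add_div (q * A i) P
  have hPdeg : P.degree = (δ i₀ : ℕ) := by
    rw [degree_eq_natDegree hmon.ne_zero, hdeg]
  have hRdeg : ∀ i, R i ∈ degreeLT ℂ (δ i₀) := by
    intro i
    rw [mem_degreeLT, ← hPdeg]
    exact degree_modByMonic_lt _ hmon
  set W : ℂ[X] := ∑ i, Q i * p i with hW
  have hsum : ∑ i, R i * p i + W * P = q := by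
    have : ∀ i, R i * p i + Q i * p i * P = q * (A i * p i) := by
      intro i
      have := hdiv i
      calc R i * p i + Q i * p i * P = (R i + P * Q i) * p i := by ring
        _ = q * (A i * p i) := by rw [this]; ring
    rw [hW, Finset.sum_mul, ← Finset.sum_add_distrib, Finset.sum_congr rfl fun i _ => this i,
      ← Finset.mul_sum, hA, mul_one]
  have hWP : W * P ∈ degreeLT ℂ (2 * δ i₀ + 1) := by
    have h3 : W * P = q - ∑ i, R i * p i := by rw [← hsum]; ring
    rw [h3]
    refine Submodule.sub_mem _ hq (Submodule.sum_mem _ fun i _ => ?_)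
    have h4 := GN0_mul (hRdeg i) (hp i)
    refine degreeLT_mono ?_ h4
    have := hδ i
    omega
  have hWd : W ∈ degreeLT ℂ (2 * δ i₀ + 1 - δ i₀) := by
    rw [mem_degreeLT] at hWP ⊢
    rw [hmon.degree_mul, hPdeg] at hWP
    by_cases hW0 : W = 0
    · rw [hW0, degree_zero]; exact WithBot.bot_lt_coe _
    · rw [degree_eq_natDegree hW0] at hWP ⊢
      have h5 : W.natDegree + δ i₀ < 2 * δ i₀ + 1 := by exact_mod_cast hWP
      exact_mod_cast (by omega : W.natDegree < 2 * δ i₀ + 1 - δ i₀)
  refine ⟨fun i => R i + (if i = i₀ then W else 0), ?_, ?_⟩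
  · intro i
    refine Submodule.add_mem _ (degreeLT_mono ?_ (hRdeg i)) ?_
    · have := hδ i
      show δ i₀ ≤ 2 * δ i₀ + 1 - δ i
      omega
    · split_ifs with h
      · rw [h]; exact hWd
      · exact Submodule.zero_mem _
  · simp only [add_mul, Finset.sum_add_distrib, ite_mul, zero_mul, Finset.sum_ite_eq',
      Finset.mem_univ, if_true]
    exact hsum

end Pool.WH
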