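import Pool.Agent.Work.MP_dcf6a6_wh.Interface

open CategoryTheory AlgebraicGeometry Polynomial Pool.TVar

namespace Pool.WH

theorem GNM_memu {ρ : NR →+* ℂ[X]} (h : IsRU ρ) {n : ℕ} {f : NR} (hf : f ∈ bd n) :
    ρ f ∈ degreeLT ℂ n := by
  rw [Polynomial.mem_degreeLT, Polynomial.degree_lt_iff_coeff_zero]
  intro m hm
  rw [h f m, hf (m : ℤ) (by simpa using hm), map_zero]

theorem GNM_memv {ρ : NR →+* ℂ[X]} (h : IsRV ρ) {n : ℕ} {f : NR} (hf : f ∈ bd n) :
    ρ f ∈ degreeLT ℂ n := by
  rw [Polynomial.mem_degreeLT, Polynomial.degree_lt_iff_coeff_zero]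
  intro m hm
  rw [h f m, hf (-(m : ℤ)) (by simpa using hm), map_zero]

theorem GNM_cv {ρ : NR →+* ℂ[X]} (h : IsRV ρ) (z : ℂ) :
    ρ (algebraMap (PowerSeries ℂ) NR (PowerSeries.C z)) = Polynomial.C z := by
  ext n
  rw [h, co_algebraMap, Polynomial.coeff_C]
  by_cases hn : n = 0
  · subst hn
    simp
  · rw [if_neg (by omega), if_neg hn, map_zero]

theorem GNM_cmem {m : ℕ} (hm : m ≠ 0) (r : PowerSeries ℂ) :
    algebraMap (PowerSeries ℂ) NR r ∈ bd m := by
  intro i hi
  rw [co_algebraMap, if_neg (by omega)]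

theorem p_GNM (hQUV : Stmt_QUV) (hQKR : Stmt_QKR) : Stmt_GNM := by
  intro ι _ p a n ρu ρv hu hv hH hGu hGv f hf
  obtain ⟨A2, hA2, hA2s⟩ := hGu (ρu f) (GNM_memu hu hf)
  have hz : ∀ g : NR, (ρu g).coeff 0 = (ρv g).coeff 0 := by
    intro g
    rw [hu g 0, hv g 0]
    simp
  -- the rest
  let r : ℂ[X] := ρv f - ∑ i, Polynomial.C ((A2 i).coeff 0) * ρv (p i)
  have hr0 : r.coeff 0 = 0 := by
    have h1 : (ρu f).coeff 0 = ∑ i, (A2 i).coeff 0 * (ρu (p i)).coeff 0 := by
      rw [← hA2s, Polynomial.finsetSum_coeff]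
      exact Finset.sum_congr rfl fun i _ => Polynomial.mul_coeff_zero _ _
    change (ρv f - ∑ i, Polynomial.C ((A2 i).coeff 0) * ρv (p i)).coeff 0 = 0
    rw [Polynomial.coeff_sub, ← hz f, h1, Polynomial.finsetSum_coeff, sub_eq_zero]
    refine Finset.sum_congr rfl fun i _ => ?_
    rw [Polynomial.coeff_C_mul, hz]
  have hr : r ∈ degreeLT ℂ n := by
    refine Submodule.sub_mem _ (GNM_memv hv hf) (Submodule.sum_mem _ fun i _ => ?_)
    by_cases ha : a i = 0
    · have h1 : A2 i = 0 := by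
        have h2 := hA2 i
        rw [ha, Polynomial.mem_degreeLT] at h2
        exact Polynomial.degree_eq_bot.mp (by simpa using h2)
      rw [h1, Polynomial.coeff_zero, map_zero, zero_mul]
      exact Submodule.zero_mem _
    · have h1 := hH i _ (GNM_cmem ha (PowerSeries.C ((A2 i).coeff 0)))
      have h2 := GNM_memv hv h1
      rwa [map_mul, GNM_cv hv] at h2
  obtain ⟨r', hr'⟩ := Polynomial.X_dvd_iff.mpr hr0
  have hr'm : r' ∈ degreeLT ℂ (n - 1) := by
    rw [Polynomial.mem_degreeLT, Polynomial.degree_lt_iff_coeff_zero] at hr ⊢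
    intro m hm
    have h1 := hr (m + 1) (by omega)
    rwa [hr', Polynomial.coeff_X_mul] at h1
  obtain ⟨A', hA', hA's⟩ := hGv r' hr'm
  -- the cofactors
  have hcoef : ∀ i, A2 i = 0 ∨ a i ≠ 0 := by
    intro i
    by_cases ha : a i = 0
    · left
      have h2 := hA2 i
      rw [ha, Polynomial.mem_degreeLT] at h2
      exact Polynomial.degree_eq_bot.mp (by simpa using h2)
    · exact Or.inr ha
  have hA1 : ∀ i, Polynomial.C ((A2 i).coeff 0) + Polynomial.X * A' i ∈ degreeLT ℂ (a i) := by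
    intro i
    rw [Polynomial.mem_degreeLT, Polynomial.degree_lt_iff_coeff_zero]
    intro m hm
    have h3 : A' i ∈ degreeLT ℂ (a i - 1) := hA' i
    rw [Polynomial.mem_degreeLT, Polynomial.degree_lt_iff_coeff_zero] at h3
    rcases m with _ | m
    · have h4 : A2 i = 0 := by
        rcases hcoef i with h | h
        · exact h
        · omega
      rw [h4]
      simp
    · rw [Polynomial.coeff_add, Polynomial.coeff_X_mul, Polynomial.coeff_C_succ, zero_add]
      exact h3 m (by omega)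
  have hex := fun i => hQUV (A2 i) (Polynomial.C ((A2 i).coeff 0) + Polynomial.X * A' i) (by simp)
  choose A hAp hAm using hex
  have hAb : ∀ i, A i ∈ bd (a i) := by
    intro i j hj
    rcases le_total 0 j with h | h
    · obtain ⟨m, rfl⟩ := Int.eq_ofNat_of_zero_le h
      rw [hAp i m]
      have h5 := hA2 i
      rw [Polynomial.mem_degreeLT, Polynomial.degree_lt_iff_coeff_zero] at h5
      rw [h5 m (by simpa using hj), map_zero]
    · obtain ⟨m, hm⟩ : ∃ m : ℕ, j = -(m : ℤ) := ⟨(-j).toNat, by omega⟩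
      subst hm
      rw [hAm i m]
      have h5 := hA1 i
      rw [Polynomial.mem_degreeLT, Polynomial.degree_lt_iff_coeff_zero] at h5
      rw [h5 m (by simpa using hj), map_zero, mul_zero]
  have hAu : ∀ i, ρu (A i) = A2 i := by
    intro i
    ext m
    rw [hu, hAp]
    simp
  have hAv : ∀ i, ρv (A i) = Polynomial.C ((A2 i).coeff 0) + Polynomial.X * A' i := by
    intro i
    ext m
    rw [hv, hAm, PowerSeries.coeff_X_pow_mul']
    simp
  refine ⟨A, hAb, ?_⟩
  obtain ⟨f', hf'⟩ := hQKR (∑ i, A i * p i - f) (fun m => by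
    rw [← hu, map_sub, map_sum]
    simp only [map_mul, hAu]
    rw [hA2s, sub_self, Polynomial.coeff_zero]) (fun m => by
    rw [← hv, map_sub, map_sum]
    simp only [map_mul, hAv]
    have h6 : ∑ i, (Polynomial.C ((A2 i).coeff 0) + Polynomial.X * A' i) * ρv (p i) = ρv f := by
      have h7 : ρv f = r + ∑ i, Polynomial.C ((A2 i).coeff 0) * ρv (p i) := by
        simp only [r]
        ring
      rw [h7, hr', ← hA's, Finset.mul_sum, ← Finset.sum_add_distrib]
      refine Finset.sum_congr rfl fun i _ => ?_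
      ring
    rw [h6, sub_self, Polynomial.coeff_zero])
  exact ⟨f', by rw [← hf']; ring⟩

end Pool.WH
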