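import Pool.Agent.Work.MP_dcf6a6_wh.Interface

/-!
# Block GNQ: generation in the node ring (Nakayama)
-/

open CategoryTheory AlgebraicGeometry Polynomial Pool.TVar

namespace Pool.WH

theorem GNQ_smul_mem {n : ℕ} {f : NR} (h : (PowerSeries.X : PowerSeries ℂ) • f ∈ bd n) :
    f ∈ bd n := by
  intro i hi
  have h1 := h i hi
  rw [co_smul] at h1
  exact (mul_eq_zero.1 h1).resolve_left PowerSeries.X_ne_zero

theorem p_GNQ (hGNM : Stmt_GNM) (hBFG : Stmt_BFG) : Stmt_GNQ := by
  intro ι _ p a n ρu ρv hu hv hmul hgu hgv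
  let L : (ι → NR) →ₗ[PowerSeries ℂ] NR :=
    ∑ i, (LinearMap.mulRight (PowerSeries ℂ) (p i)).comp (LinearMap.proj i)
  have hL : ∀ A : ι → NR, L A = ∑ i, A i * p i := by
    intro A
    simp [L]
  let N : Submodule (PowerSeries ℂ) NR := (Submodule.pi Set.univ fun i => bd (a i)).map L
  have key : bd n ≤ N := by
    refine Submodule.le_of_le_smul_of_le_jacobson_bot
      (I := Ideal.span {(PowerSeries.X : PowerSeries ℂ)}) (hBFG n) ?_ ?_
    · rw [IsLocalRing.jacobson_eq_maximalIdeal ⊥ bot_ne_top, Ideal.span_le, Set.singleton_subset_iff]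
      rw [SetLike.mem_coe, IsLocalRing.mem_maximalIdeal]
      exact PowerSeries.X_prime.not_unit
    · intro f hf
      obtain ⟨A, hA, f', hf'⟩ := hGNM ι p a n ρu ρv hu hv hmul hgu hgv f hf
      have h1 : ∑ i, A i * p i ∈ bd n := Submodule.sum_mem _ fun i _ => hmul i _ (hA i)
      have h2 : (PowerSeries.X : PowerSeries ℂ) • f' ∈ bd n := by
        have h3 : (PowerSeries.X : PowerSeries ℂ) • f' = ∑ i, A i * p i - f := by
          rw [hf', add_sub_cancel_left]
        rw [h3]
        exact Submodule.sub_mem _ h1 hf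
      have h4 : f = ∑ i, A i * p i + (PowerSeries.X : PowerSeries ℂ) • (-f') := by
        rw [smul_neg, hf', add_neg_cancel_right]
      rw [h4]
      refine Submodule.add_mem_sup ?_ ?_
      · exact ⟨A, fun i _ => hA i, hL A⟩
      · exact Submodule.smul_mem_smul (Ideal.mem_span_singleton_self _)
          (Submodule.neg_mem _ (GNQ_smul_mem h2))
  intro f hf
  obtain ⟨A, hA, hA'⟩ := key hf
  exact ⟨A, fun i => hA i (Set.mem_univ _), (hL A).symm.trans hA'⟩

end Pool.WH
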