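import Pool.Agent.Work.MP_dcf6a6_wh.Interface

/-! # Block GPT: `Gen` and points of the projective line -/

open CategoryTheory AlgebraicGeometry Polynomial Pool.TVar

namespace Pool.WH

noncomputable section

theorem GPT_natDegree {f : ℂ[X]} {n : ℕ} (h : f ∈ degreeLT ℂ (n + 1)) : f.natDegree ≤ n := by
  rw [mem_degreeLT] at h
  by_cases hf : f = 0
  · simp [hf]
  · exact Nat.lt_succ_iff.1 ((natDegree_lt_iff_degree_lt hf).2 h)

theorem p_GPT (hH : Pool.TVar.Stmt_HOMG) (hP : Pool.TVar.Stmt_P1) : Stmt_GPT := by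
  classical
  intro ι _ p δ a n hn hp ha hG q
  obtain ⟨hH1, hH2⟩ := hH
  by_contra hcon
  push Not at hcon
  -- all homogenisations in degree `n - 1` are in `q`
  have key : ∀ r ∈ degreeLT ℂ n, r.homogenize (n - 1) ∈ q.asHomogeneousIdeal.toIdeal := by
    intro r hr
    obtain ⟨A, hA, hAr⟩ := hG r hr
    have hrd : r.natDegree ≤ n - 1 := GPT_natDegree (by rwa [Nat.sub_add_cancel hn])
    have hAd : ∀ i, 0 < a i → (A i).natDegree ≤ a i - 1 := fun i hi =>
      GPT_natDegree (by rw [Nat.sub_add_cancel hi]; exact hA i)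
    have hpd : ∀ i, (p i).natDegree ≤ δ i := fun i => GPT_natDegree (hp i)
    -- the summands
    let c : ι → MvPolynomial (Fin 2) ℂ := fun i =>
      if a i = 0 ∨ p i = 0 then 0 else (A i).homogenize (a i - 1) * (p i).homogenize (δ i)
    have hc1 : ∀ i, c i ∈ lineGr (n - 1) := by
      intro i
      by_cases h : a i = 0 ∨ p i = 0
      · simp only [c, if_pos h]
        exact Submodule.zero_mem _
      · simp only [c, if_neg h]
        push Not at h
        have h1 : a i + δ i = n := by
          rcases ha i with h1 | h1 | h1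
          · exact h1
          · exact absurd h1 h.1
          · exact absurd h1 h.2
        have h2 : 0 < a i := Nat.pos_of_ne_zero h.1
        have h3 : n - 1 = (a i - 1) + δ i := by omega
        rw [h3]
        exact SetLike.mul_mem_graded (hH1 (A i) (a i - 1) (hAd i h2)).1
          (hH1 (p i) (δ i) (hpd i)).1
    have hc2 : ∀ i t, MvPolynomial.eval ![t, 1] (c i) = (A i).eval t * (p i).eval t := by
      intro i t
      by_cases h : a i = 0 ∨ p i = 0
      · simp only [c, if_pos h, map_zero]
        rcases h with h | h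
        · have : A i = 0 := by
            have := hA i
            rw [h, mem_degreeLT] at this
            simpa using this
          simp [this]
        · simp [h]
      · simp only [c, if_neg h, map_mul]
        push Not at h
        have h2 : 0 < a i := Nat.pos_of_ne_zero h.1
        rw [(hH1 (A i) (a i - 1) (hAd i h2)).2.1 t, (hH1 (p i) (δ i) (hpd i)).2.1 t]
    have hsum : r.homogenize (n - 1) = ∑ i, c i := by
      refine hH2 _ _ (n - 1) (hH1 r (n - 1) hrd).1 (Submodule.sum_mem _ fun i _ => hc1 i) fun t => ?_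
      rw [(hH1 r (n - 1) hrd).2.1 t, map_sum, ← hAr, eval_finsetSum]
      exact Finset.sum_congr rfl fun i _ => by rw [hc2, eval_mul]
    rw [hsum]
    refine Ideal.sum_mem _ fun i _ => ?_
    by_cases h : a i = 0 ∨ p i = 0
    · simp only [c, if_pos h]
      exact Ideal.zero_mem _
    · simp only [c, if_neg h]
      exact Ideal.mul_mem_left _ _ (hcon i)
  have hX : ∀ i : Fin 2, (MvPolynomial.X i : MvPolynomial (Fin 2) ℂ) ^ (n - 1) ∈ lineGr (n - 1) :=
    fun i => MvPolynomial.isHomogeneous_X_pow i (n - 1)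
  have h0 : (1 : ℂ[X]).homogenize (n - 1) = MvPolynomial.X 1 ^ (n - 1) := by
    refine hH2 _ _ (n - 1) (hH1 _ _ (by simp)).1 (hX 1) fun t => ?_
    rw [(hH1 _ (n - 1) (by simp)).2.1 t]
    simp
  have h1 : ((X : ℂ[X]) ^ (n - 1)).homogenize (n - 1) = MvPolynomial.X 0 ^ (n - 1) := by
    refine hH2 _ _ (n - 1) (hH1 _ _ (by simp)).1 (hX 0) fun t => ?_
    rw [(hH1 _ (n - 1) (by simp)).2.1 t]
    simp
  rcases hP.2 q with h | h
  · apply h
    have h2 := key (X ^ (n - 1)) (by
      rw [mem_degreeLT, degree_X_pow]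
      exact_mod_cast Nat.sub_lt hn one_pos)
    rw [h1] at h2
    exact q.isPrime.mem_of_pow_mem _ h2
  · apply h
    have h2 := key 1 (by
      rw [mem_degreeLT, degree_one]
      exact_mod_cast hn)
    rw [h0] at h2
    exact q.isPrime.mem_of_pow_mem _ h2

end

end Pool.WH
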