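import Pool.Agent.Work.MP_dcf6a6_wh.Interface

/-! Block GSH (helper64). -/

set_option autoImplicit false

open Polynomial

namespace Pool.WH

theorem GSH_mem {S : Type} [CommRing S] (f : S[X]) (n : ℕ) :
    f ∈ degreeLT S n ↔ ∀ m, n ≤ m → f.coeff m = 0 := by
  rw [mem_degreeLT, degree_lt_iff_coeff_zero]

theorem p_GSH : Stmt_GSH := by
  intro S _ ι _ p a a' n hn haa h q hq
  rw [GSH_mem] at hq
  obtain ⟨A, hA, hAq⟩ := h (q - C (q.coeff n) * X ^ n) (by
    rw [GSH_mem]
    intro m hm
    rw [coeff_sub, coeff_C_mul, coeff_X_pow]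
    rcases hm.eq_or_lt with rfl | hlt
    · simp
    · rw [hq m hlt, if_neg hlt.ne']
      simp)
  obtain ⟨B, hB, hBq⟩ := h (X ^ (n - 1)) (by
    rw [GSH_mem]
    intro m hm
    rw [coeff_X_pow, if_neg (by omega)])
  refine ⟨fun i => A i + C (q.coeff n) * (X * B i), fun i => ?_, ?_⟩
  · rw [GSH_mem]
    intro m hm
    have hA' := (GSH_mem _ _).1 (hA i)
    have hB' := (GSH_mem _ _).1 (hB i)
    have h1 : (A i).coeff m = 0 := by
      apply hA' m
      rcases Nat.eq_zero_or_pos (a i) with h0 | h0
      · omega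
      · have := haa i h0
        omega
    have h2 : (X * B i).coeff m = 0 := by
      rcases m with _ | m
      · simp
      · rw [coeff_X_mul]
        apply hB' m
        rcases Nat.eq_zero_or_pos (a i) with h0 | h0
        · omega
        · have := haa i h0
          omega
    rw [coeff_add, coeff_C_mul, h1, h2, mul_zero, add_zero]
  · have h3 : ∑ i, (A i + C (q.coeff n) * (X * B i)) * p i =
        ∑ i, A i * p i + C (q.coeff n) * X * ∑ i, B i * p i := by
      rw [Finset.mul_sum, ← Finset.sum_add_distrib]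
      apply Finset.sum_congr rfl
      intro i _
      ring
    have h4 : (X : S[X]) * X ^ (n - 1) = X ^ n := by
      rw [← pow_succ', Nat.sub_add_cancel hn]
    rw [h3, hAq, hBq, mul_assoc, h4]
    ring

end Pool.WH
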