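import Pool.Agent.Work.MP_dcf6a6_wh.Interface

/-! # HMG: homogenisation of a curve -/

open CategoryTheory AlgebraicGeometry Polynomial Pool.TVar

namespace Pool.WH

noncomputable section

theorem HMG_nd {w c : ℕ} {g : ℂ[X]} (h : g ∈ degreeLT ℂ (c * w + 1)) : g.natDegree ≤ c * w := by
  rw [mem_degreeLT] at h
  by_cases hg : g = 0
  · simp [hg]
  · rw [degree_eq_natDegree hg] at h
    have h2 : g.natDegree < c * w + 1 := by exact_mod_cast h
    omega

theorem HMG_wt {V : Type} [Fintype V] (w : V → ℕ) (c n : ℕ) (P : MvPolynomial V ℂ)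
    (hP : MvPolynomial.IsWeightedHomogeneous w P n) (μ : V →₀ ℕ) (hμ : μ ∈ P.support) :
    ∑ v, c * w v * μ v = c * n := by
  have h1 : Finsupp.weight w μ = n := hP (MvPolynomial.mem_support_iff.mp hμ)
  rw [← h1, Finsupp.weight_apply, Finsupp.sum_fintype _ _ (by intro i; simp), Finset.mul_sum]
  refine Finset.sum_congr rfl fun v _ => ?_
  rw [smul_eq_mul]
  ring

theorem HMG_nd2 {V : Type} [Fintype V] (w : V → ℕ) (c n : ℕ) (g : V → ℂ[X])
    (hg : ∀ v, (g v).natDegree ≤ c * w v) (P : MvPolynomial V ℂ)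
    (hP : MvPolynomial.IsWeightedHomogeneous w P n) :
    (MvPolynomial.aeval g P).natDegree ≤ c * n := by
  rw [MvPolynomial.aeval_def, MvPolynomial.eval₂_eq']
  refine natDegree_sum_le_of_forall_le _ _ fun μ hμ => ?_
  refine (natDegree_mul_le).trans ?_
  have h1 : (algebraMap ℂ ℂ[X] (MvPolynomial.coeff μ P)).natDegree = 0 := by
    rw [Polynomial.algebraMap_apply]
    exact natDegree_C _
  rw [h1, zero_add, ← HMG_wt w c n P hP μ hμ]
  refine (natDegree_prod_le _ _).trans (Finset.sum_le_sum fun v _ => ?_)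
  refine natDegree_pow_le.trans ?_
  rw [mul_comm]
  exact Nat.mul_le_mul_right _ (hg v)

theorem HMG_hom {V : Type} [Fintype V] (w : V → ℕ) (c n : ℕ)
    (G : V → MvPolynomial (Fin 2) ℂ) (hG : ∀ v, (G v).IsHomogeneous (c * w v))
    (P : MvPolynomial V ℂ) (hP : MvPolynomial.IsWeightedHomogeneous w P n) :
    (MvPolynomial.aeval G P).IsHomogeneous (c * n) := by
  rw [MvPolynomial.aeval_def, MvPolynomial.eval₂_eq']
  refine MvPolynomial.IsHomogeneous.sum _ _ _ fun μ hμ => ?_
  have h1 : (∏ v, G v ^ μ v).IsHomogeneous (∑ v, c * w v * μ v) :=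
    MvPolynomial.IsHomogeneous.prod _ _ _ fun v _ => (hG v).pow (μ v)
  rw [HMG_wt w c n P hP μ hμ] at h1
  have h2 := (MvPolynomial.isHomogeneous_C (Fin 2) (MvPolynomial.coeff μ P)).mul h1
  rw [zero_add] at h2
  exact h2

theorem p_HMG (hHOMG : Pool.TVar.Stmt_HOMG) : Stmt_HMG := by
  intro V _ w c g hg0
  obtain ⟨hH1, hH2⟩ := hHOMG
  have hg : ∀ v, (g v).natDegree ≤ c * w v := fun v => HMG_nd (hg0 v)
  set G : V → MvPolynomial (Fin 2) ℂ := fun v => (g v).homogenize (c * w v) with hGdef
  have hGh : ∀ v, (G v).IsHomogeneous (c * w v) := fun v => by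
    have := (hH1 (g v) (c * w v) (hg v)).1
    exact (MvPolynomial.mem_homogeneousSubmodule _ _).mp this
  have hev : ∀ (y : Fin 2 → ℂ) (P : MvPolynomial V ℂ),
      MvPolynomial.eval y (MvPolynomial.aeval G P) =
        MvPolynomial.eval (fun v => MvPolynomial.eval y (G v)) P := by
    intro y P
    induction P using MvPolynomial.induction_on with
    | C a => simp [MvPolynomial.algebraMap_eq]
    | add p q hp hq => simp only [map_add, hp, hq]
    | mul_X p v hp => simp only [map_mul, hp, MvPolynomial.aeval_X, MvPolynomial.eval_X]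
  have hevg : ∀ (t : ℂ) (P : MvPolynomial V ℂ),
      (MvPolynomial.aeval g P).eval t = MvPolynomial.eval (fun v => (g v).eval t) P := by
    intro t P
    induction P using MvPolynomial.induction_on with
    | C a => simp
    | add p q hp hq => simp only [map_add, eval_add, hp, hq]
    | mul_X p v hp =>
      simp only [map_mul, eval_mul, hp, MvPolynomial.aeval_X, MvPolynomial.eval_X]
  refine ⟨MvPolynomial.aeval G, ?_, ?_, ?_⟩
  · intro n P hP
    have hm : MvPolynomial.aeval G P ∈ lineGr (c * n) :=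
      (MvPolynomial.mem_homogeneousSubmodule _ _).mpr (HMG_hom w c n G hGh P hP)
    obtain ⟨ha, hb, -⟩ := hH1 (MvPolynomial.aeval g P) (c * n) (HMG_nd2 w c n g hg P hP)
    refine ⟨hm, hH2 _ _ _ hm ha fun t => ?_⟩
    rw [hb, hev, hevg]
    congr 1
    congr 1
    funext v
    exact (hH1 (g v) (c * w v) (hg v)).2.1 t
  · intro P
    rw [hev]
    congr 1
    congr 1
    funext v
    rw [(hH1 (g v) (c * w v) (hg v)).2.1 0, coeff_zero_eq_eval_zero]
  · intro P
    rw [hev]
    congr 1
    congr 1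
    funext v
    rw [(hH1 (g v) (c * w v) (hg v)).2.2 1, one_pow, mul_one]

end

end Pool.WH
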