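import Pool.Agent.Work.MP_dcf6a6_wh.Interface

/-!
# Block LFT: lifting curves with given ends
-/

open CategoryTheory AlgebraicGeometry Polynomial Pool.TVar

namespace Pool.WH

noncomputable section

theorem LFT_map {k : Type} [Field k] {V : Type} [Fintype V]
    (F : MvPolynomial V (PowerSeries k)) (g : V → (PowerSeries k)[X]) :
    (MvPolynomial.aeval g F).map (PowerSeries.constantCoeff (R := k)) =
      MvPolynomial.aeval (fun v => (g v).map (PowerSeries.constantCoeff (R := k)))
        (MvPolynomial.map (PowerSeries.constantCoeff (R := k)) F) := by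
  induction F using MvPolynomial.induction_on with
  | C a =>
    rw [MvPolynomial.map_C, ← MvPolynomial.algebraMap_eq, ← MvPolynomial.algebraMap_eq,
      AlgHom.commutes, AlgHom.commutes, Polynomial.algebraMap_eq, Polynomial.algebraMap_eq,
      Polynomial.map_C]
  | add p q hp hq => rw [map_add, Polynomial.map_add, hp, hq, map_add, map_add]
  | mul_X p v hp =>
    rw [map_mul, Polynomial.map_mul, hp, map_mul, map_mul, MvPolynomial.aeval_X,
      MvPolynomial.map_X, MvPolynomial.aeval_X]

/-- the corrections -/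
def LFT_C (k : Type) [Field k] {V : Type} (w : V → ℕ) (c : ℕ) :
    Submodule (PowerSeries k) (V → (PowerSeries k)[X]) :=
  Submodule.pi Set.univ (fun v => (degreeLT (PowerSeries k) (c * w v - 1)).map
    (LinearMap.mulLeft (PowerSeries k) (X : (PowerSeries k)[X])))

theorem LFT_mem {k : Type} [Field k] {V : Type} {w : V → ℕ} {c : ℕ}
    {z : V → (PowerSeries k)[X]} : z ∈ LFT_C k w c ↔
      ∀ v, ∃ h ∈ degreeLT (PowerSeries k) (c * w v - 1), X * h = z v := by
  unfold LFT_C
  rw [Submodule.mem_pi]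
  constructor
  · intro h v
    obtain ⟨h1, h2, h3⟩ := Submodule.mem_map.mp (h v (Set.mem_univ v))
    exact ⟨h1, h2, h3⟩
  · intro h v _
    obtain ⟨h1, h2, h3⟩ := h v
    exact Submodule.mem_map.mpr ⟨h1, h2, h3⟩

theorem LFT_fg (k : Type) [Field k] {V : Type} [Fintype V] (w : V → ℕ) (c : ℕ) :
    (LFT_C k w c).FG := by
  unfold LFT_C
  refine Submodule.fg_pi fun v => Submodule.FG.map _ ?_
  classical
  exact ⟨_, (degreeLT_eq_span_X_pow (R := PowerSeries k)).symm⟩

/-- members of `degreeLT` by coefficients -/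
theorem LFT_lt {R : Type} [CommRing R] {q : R[X]} {n : ℕ} :
    q ∈ degreeLT R n ↔ ∀ i, n ≤ i → q.coeff i = 0 := by
  rw [mem_degreeLT, degree_lt_iff_coeff_zero]

theorem LFT_coeff0 {k : Type} [Field k] (g h : (PowerSeries k)[X]) :
    (g + (PowerSeries.X : PowerSeries k) • (X * h)).coeff 0 = g.coeff 0 := by
  rw [coeff_add, coeff_smul, coeff_X_mul_zero, smul_zero, add_zero]

theorem LFT_coeffe {k : Type} [Field k] (g h : (PowerSeries k)[X]) (e : ℕ) (he : 0 < e)
    (hh : h ∈ degreeLT (PowerSeries k) (e - 1)) :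
    (g + (PowerSeries.X : PowerSeries k) • (X * h)).coeff e = g.coeff e := by
  obtain ⟨e', rfl⟩ : ∃ e', e = e' + 1 := ⟨e - 1, by omega⟩
  rw [coeff_add, coeff_smul, coeff_X_mul, LFT_lt.mp hh e' (by omega), smul_zero, add_zero]

theorem LFT_deg {k : Type} [Field k] (g h : (PowerSeries k)[X]) (e : ℕ) (he : 0 < e)
    (hg : g ∈ degreeLT (PowerSeries k) (e + 1))
    (hh : h ∈ degreeLT (PowerSeries k) (e - 1)) :
    g + (PowerSeries.X : PowerSeries k) • (X * h) ∈ degreeLT (PowerSeries k) (e + 1) := by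
  rw [LFT_lt]
  intro i hi
  obtain ⟨i', rfl⟩ : ∃ i', i = i' + 1 := ⟨i - 1, by omega⟩
  rw [coeff_add, coeff_smul, coeff_X_mul, LFT_lt.mp hh i' (by omega), smul_zero, add_zero,
    LFT_lt.mp hg _ hi]

theorem p_LFT (hHEN : Stmt_HEN) (hNAK : Stmt_NAK) (hPDG : Stmt_PDG) (hDEG : Stmt_DEG)
    (hFNK : Stmt_FNK) : Stmt_LFT := by
  intro k _ V _ w d c F G₀ hF hw hd hc hG₀ h0 he hfree
  have hcw : ∀ v, 0 < c * w v := fun v => Nat.mul_pos (by omega) (hw v)
  have hcd : 0 < c * d := Nat.mul_pos (by omega) hd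
  -- the equations for the corrected curves
  have hgz : ∀ z ∈ LFT_C k w c, (∀ v, (G₀ + (PowerSeries.X : PowerSeries k) • z) v ∈
      degreeLT (PowerSeries k) (c * w v + 1)) ∧
      (∀ v, ((G₀ + (PowerSeries.X : PowerSeries k) • z) v).coeff 0 = (G₀ v).coeff 0) ∧
      ∀ v, ((G₀ + (PowerSeries.X : PowerSeries k) • z) v).coeff (c * w v) =
        (G₀ v).coeff (c * w v) := by
    intro z hz
    refine ⟨fun v => ?_, fun v => ?_, fun v => ?_⟩
    · obtain ⟨h, hh, hzv⟩ := LFT_mem.mp hz v
      rw [Pi.add_apply, Pi.smul_apply, ← hzv]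
      exact LFT_deg _ _ _ (hcw v) (hG₀ v) hh
    · obtain ⟨h, hh, hzv⟩ := LFT_mem.mp hz v
      rw [Pi.add_apply, Pi.smul_apply, ← hzv]
      exact LFT_coeff0 _ _
    · obtain ⟨h, hh, hzv⟩ := LFT_mem.mp hz v
      rw [Pi.add_apply, Pi.smul_apply, ← hzv]
      exact LFT_coeffe _ _ _ (hcw v) hh
  have hgen : Gen (fun v => MvPolynomial.aeval G₀ (MvPolynomial.pderiv v F))
      (fun v => c * w v - 1) (c * d - 1) := by
    refine hNAK k V _ _ _ (fun v A hA => ?_) ?_
    · have := hPDG V w (PowerSeries k) F d c G₀ hF hw (by omega) hG₀ v 0 A (by simpa using hA)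
      simpa using this
    · have hh : (fun v => (MvPolynomial.aeval G₀ (MvPolynomial.pderiv v F)).map
          (PowerSeries.constantCoeff (R := k))) = fun v =>
          MvPolynomial.aeval (fun v => (G₀ v).map (PowerSeries.constantCoeff (R := k)))
            (MvPolynomial.pderiv v (MvPolynomial.map (PowerSeries.constantCoeff (R := k)) F)) := by
        funext v
        rw [LFT_map, MvPolynomial.pderiv_map]
      rw [hh]
      exact hfree.vf
  have key : ∃ z ∈ LFT_C k w c,
      MvPolynomial.aeval (G₀ + (PowerSeries.X : PowerSeries k) • z) F = 0 := by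
    refine hHEN k V (PowerSeries k)[X] F G₀ (LFT_C k w c)
      {q | q ∈ degreeLT (PowerSeries k) (c * d) ∧ q.coeff 0 = 0} (LFT_fg k w c) ?_ ?_ ?_ ?_ ?_
    · -- separated
      intro b hb
      ext i m
      obtain ⟨b', hb'⟩ := hb (m + 1)
      rw [hb', coeff_smul, smul_eq_mul, PowerSeries.coeff_X_pow_mul', if_neg (by omega),
        coeff_zero, map_zero]
    · -- the values
      intro z hz
      obtain ⟨g1, g2, g3⟩ := hgz z hz
      obtain ⟨d1, d2, d3⟩ := hDEG V w (PowerSeries k) F d c _ hF g1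
      refine ⟨?_, ?_⟩
      · rw [LFT_lt]
        intro i hi
        rcases Nat.eq_or_lt_of_le hi with rfl | hi
        · rw [d2]
          simp only [g3]
          exact he
        · exact LFT_lt.mp d1 i hi
      · rw [d3]
        simp only [g2]
        exact h0
    · -- division by the variable
      intro b hb
      have hX : ∀ i, ((PowerSeries.X : PowerSeries k) • b).coeff i = 0 → b.coeff i = 0 := by
        intro i hi
        rw [coeff_smul, smul_eq_mul] at hi
        exact (mul_eq_zero.mp hi).resolve_left PowerSeries.X_ne_zero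
      exact ⟨LFT_lt.mpr fun i hi => hX i (LFT_lt.mp hb.1 i hi), hX 0 hb.2⟩
    · -- the linear equation
      intro b hb
      obtain ⟨A, hA, hAb⟩ := hgen b.divX (LFT_lt.mpr fun i hi => by
        rw [coeff_divX]
        exact LFT_lt.mp hb.1 _ (by omega))
      refine ⟨fun v => X * A v, LFT_mem.mpr fun v => ⟨A v, hA v, rfl⟩, 0, ?_⟩
      rw [smul_zero, add_zero]
      have h1 : ∑ v, X * A v * MvPolynomial.aeval G₀ (MvPolynomial.pderiv v F) =
          X * ∑ v, A v * MvPolynomial.aeval G₀ (MvPolynomial.pderiv v F) := by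
        rw [Finset.mul_sum]
        exact Finset.sum_congr rfl fun v _ => mul_assoc _ _ _
      rw [h1, hAb]
      have h2 := Polynomial.X_mul_divX_add b
      rw [hb.2, map_zero, add_zero] at h2
      exact h2
    · -- the start
      have h1 : (MvPolynomial.aeval G₀ F).map (PowerSeries.constantCoeff (R := k)) = 0 := by
        rw [LFT_map]
        exact hfree.eq
      have h2 : C (PowerSeries.X : PowerSeries k) ∣ MvPolynomial.aeval G₀ F := by
        rw [C_dvd_iff_dvd_coeff]
        intro i
        rw [PowerSeries.X_dvd_iff]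
        have h3 := congrArg (fun q => q.coeff i) h1
        simp only [coeff_map, coeff_zero] at h3
        exact h3
      obtain ⟨b, hb⟩ := h2
      exact ⟨b, by rw [hb, smul_eq_C_mul]⟩
  obtain ⟨z, hz, hz0⟩ := key
  obtain ⟨g1, g2, g3⟩ := hgz z hz
  refine ⟨G₀ + (PowerSeries.X : PowerSeries k) • z, ?_, g2, g3⟩
  refine hFNK k V w d c F _ hF hw (by omega) g1 hz0 ?_
  have hh : (fun v => ((G₀ + (PowerSeries.X : PowerSeries k) • z) v).map
      (PowerSeries.constantCoeff (R := k))) =
      fun v => (G₀ v).map (PowerSeries.constantCoeff (R := k)) := by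
    funext v
    rw [Pi.add_apply, Pi.smul_apply, Polynomial.map_add, Polynomial.smul_eq_C_mul,
      Polynomial.map_mul, Polynomial.map_C, PowerSeries.constantCoeff_X, map_zero, zero_mul,
      add_zero]
  rw [hh]
  exact hfree

end

end Pool.WH
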