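import Pool.Agent.Work.MP_dcf6a6_wh.Interface2

open CategoryTheory AlgebraicGeometry Polynomial Pool.TVar

namespace Pool.WH

theorem p_MA2 (hMAI : Stmt_MAI) (hIRF : Stmt_IRF) : Stmt_MA2 := by
  intro V _ _ w d I b M hD hM hI hb
  obtain ⟨H1, h1, h1'⟩ := hMAI V w d I b M hD hM hI hb
  obtain ⟨H2, h2, h2'⟩ := hIRF V w d I b M hD hM hI hb
  refine ⟨H1 * H2, mul_ne_zero h1 h2, fun y hy => ?_⟩
  rw [map_mul] at hy
  have hP := h2' y (right_ne_zero_of_mul hy)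
  exact ⟨hP, h1' y (left_ne_zero_of_mul hy) hP⟩

end Pool.WH
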