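import Pool.Agent.Work.MP_dcf6a6_wh.Interface

/-! # Block MAI: the theorem (helper71) -/

open CategoryTheory AlgebraicGeometry Polynomial Pool.TVar

namespace Pool.WH

noncomputable section

theorem MAI_form_hom {V : Type} [Fintype V] (w : V → ℕ) (d : ℕ) (M : Finset (V →₀ ℕ))
    (hM : ∀ μ ∈ M, ∑ v, μ v * w v = d) (y : M → ℂ) :
    MvPolynomial.IsWeightedHomogeneous w (form M y) d := by
  unfold form
  apply MvPolynomial.IsWeightedHomogeneous.sum
  intro μ _
  apply MvPolynomial.isWeightedHomogeneous_monomial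
  rw [Finsupp.weight_apply, Finsupp.sum_fintype _ _ (fun i => by rw [zero_smul])]
  rw [← hM μ.1 μ.2]
  rfl

theorem MAI_prod {V : Type} [DecidableEq V] (I : Finset V) :
    ∏ v ∈ I, (MvPolynomial.X v : MvPolynomial V ℂ) =
      MvPolynomial.monomial (∑ v ∈ I, Finsupp.single v 1) 1 := by
  induction I using Finset.induction_on with
  | empty =>
    rw [Finset.prod_empty, Finset.sum_empty]
    rfl
  | insert a s ha ih =>
    rw [Finset.prod_insert ha, Finset.sum_insert ha, ih, MvPolynomial.X,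
      MvPolynomial.monomial_mul, one_mul]

theorem MAI_ne {V : Type} [DecidableEq V] (I : Finset V) (b : V →₀ ℕ) (hI : I.Nonempty)
    (hb : ∀ v ∈ I, b v = 0) : ∑ v ∈ I, Finsupp.single v 1 ≠ b := by
  intro h
  obtain ⟨i, hi⟩ := hI
  have h1 : (∑ v ∈ I, Finsupp.single v 1 : V →₀ ℕ) i = b i := by rw [h]
  rw [hb i hi, Finsupp.finsetSum_apply, Finset.sum_eq_single i] at h1
  · rw [Finsupp.single_eq_same] at h1
    exact one_ne_zero h1
  · intro j _ hj
    rw [Finsupp.single_apply, if_neg hj]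
  · intro h2
    exact absurd hi h2

theorem MAI_bin {V : Type} [Fintype V] [DecidableEq V] (I : Finset V) (b : V →₀ ℕ)
    (M : Finset (V →₀ ℕ)) (hI : I.Nonempty) (hb : ∀ v ∈ I, b v = 0)
    (hIM : ∑ v ∈ I, Finsupp.single v 1 ∈ M) (hbM : b ∈ M) :
    form M (fun μ : M => if μ.1 = ∑ v ∈ I, Finsupp.single v 1 then (1 : ℂ) else
      if μ.1 = b then -1 else 0) = bin I b := by
  have hne := MAI_ne I b hI hb
  unfold form bin
  have h1 : ∀ μ : M, MvPolynomial.monomial μ.1
      (if μ.1 = ∑ v ∈ I, Finsupp.single v 1 then (1 : ℂ) else if μ.1 = b then -1 else 0) =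
      (if μ = ⟨_, hIM⟩ then MvPolynomial.monomial (∑ v ∈ I, Finsupp.single v 1) (1 : ℂ) else 0) +
      (if μ = ⟨b, hbM⟩ then - MvPolynomial.monomial b (1 : ℂ) else 0) := by
    rintro ⟨μ, hμ⟩
    by_cases hm : μ = ∑ v ∈ I, Finsupp.single v 1
    · subst hm
      rw [if_pos rfl, if_pos rfl, if_neg, add_zero]
      intro h
      exact hne (Subtype.ext_iff.1 h)
    · by_cases hm2 : μ = b
      · subst hm2
        rw [if_neg hm, if_pos rfl, if_neg, if_pos rfl, zero_add, map_neg]
        intro h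
        exact hne (Subtype.ext_iff.1 h).symm
      · rw [if_neg hm, if_neg hm2, if_neg, if_neg, map_zero, add_zero]
        · intro h
          exact hm2 (Subtype.ext_iff.1 h)
        · intro h
          exact hm (Subtype.ext_iff.1 h)
  rw [Finset.sum_congr rfl fun μ _ => h1 μ, Finset.sum_add_distrib, Finset.sum_ite_eq',
    Finset.sum_ite_eq', if_pos (Finset.mem_univ _), if_pos (Finset.mem_univ _), MAI_prod,
    sub_eq_add_neg]

theorem p_MAI (hFAM : Stmt_FAM) (hTOR : Stmt_TOR) (hCRT : Stmt_CRT) : Stmt_MAI := by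
  intro V _ _ w d I b M hH hM hIM hbM
  have hd : 0 < d := by
    rw [← hH.I_deg]
    exact Finset.sum_pos (fun v _ => hH.w_pos v) hH.I_ne
  have hc : 2 ≤ 2 * d := by omega
  obtain ⟨g₀, hg₀⟩ := hTOR V w d I b hH
  rw [← MAI_bin I b M hH.I_ne hH.disj hIM hbM] at hg₀
  obtain ⟨H, hH0, hHy⟩ := hFAM V w d (2 * d) M hH.w_pos hd hc hM _ g₀ hg₀
  refine ⟨H, hH0, fun y hy hprime A _ _ 𝒜 _ pr => ?_⟩
  obtain ⟨g, hg⟩ := hHy y hy
  have h3 : 3 ≤ Fintype.card V := by
    obtain ⟨i, hi⟩ := hH.I_ne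
    obtain ⟨j, -, hj⟩ : ∃ j ∈ Finset.univ, b j * w j ≠ 0 := by
      apply Finset.exists_ne_zero_of_sum_ne_zero
      rw [hH.b_deg]
      exact hd.ne'
    have hbj : b j ≠ 0 := left_ne_zero_of_mul hj
    have hij : i ≠ j := by
      rintro rfl
      exact hbj (hH.disj i hi)
    have hgcd := hH.wf2 i hi j hbj
    obtain ⟨k, hk⟩ : ((Finset.univ.erase i).erase j).Nonempty := by
      rw [Finset.nonempty_iff_ne_empty]
      intro h
      rw [h, Finset.gcd_empty] at hgcd
      exact zero_ne_one hgcd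
    rw [Finset.mem_erase, Finset.mem_erase] at hk
    have hcard : ({i, j, k} : Finset V).card = 3 := by
      rw [Finset.card_eq_three]
      exact ⟨i, j, k, hij, fun h => hk.2.1 h.symm, fun h => hk.1 h.symm, rfl⟩
    rw [← hcard]
    exact Finset.card_le_univ _
  exact hCRT V w d (2 * d) (form M y) g h3 (MAI_form_hom w d M hM y) hH.w_pos hd hc hprime hg
    A 𝒜 pr

end

end Pool.WH
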