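import Pool.Agent.Work.MP_dcf6a6_wh.Interface

open CategoryTheory AlgebraicGeometry Polynomial Pool.TVar

namespace Pool.WH

noncomputable section

theorem MOV_lift (hFMP : Stmt_FMP) (hLFT : Stmt_LFT)
    (k : Type) [Field k] (ι : ℂ →+* k) (V : Type) [Fintype V] (w : V → ℕ) (d c : ℕ)
    (F : MvPolynomial V ℂ) (F' : MvPolynomial V (PowerSeries k)) (g : V → ℂ[X])
    (z0 z1 : V → PowerSeries k)
    (hF' : F'.IsWeightedHomogeneous w d) (hw : ∀ v, 0 < w v) (hd : 0 < d) (hc : 2 ≤ c)
    (hred : MvPolynomial.map (PowerSeries.constantCoeff (R := k)) F' = MvPolynomial.map ι F)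
    (hg : Free w d c F g)
    (h0 : ∀ v, PowerSeries.constantCoeff (z0 v) = ι ((g v).coeff 0))
    (h1 : ∀ v, PowerSeries.constantCoeff (z1 v) = ι ((g v).coeff (c * w v)))
    (hz0 : MvPolynomial.eval z0 F' = 0) (hz1 : MvPolynomial.eval z1 F' = 0) :
    ∃ G : V → (PowerSeries k)[X], Free w d c F' G ∧ (∀ v, (G v).coeff 0 = z0 v) ∧
      ∀ v, (G v).coeff (c * w v) = z1 v := by
  let j : ℂ →+* PowerSeries k := (PowerSeries.C (R := k)).comp ι
  have hj : ∀ a : ℂ, PowerSeries.constantCoeff (j a) = ι a := fun a =>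
    PowerSeries.constantCoeff_C _
  let G0 : V → (PowerSeries k)[X] := fun v =>
    (g v).map j + Polynomial.C (z0 v - j ((g v).coeff 0)) +
      Polynomial.C (z1 v - j ((g v).coeff (c * w v))) * Polynomial.X ^ (c * w v)
  have hcw : ∀ v, 0 < c * w v := fun v => Nat.mul_pos (by omega) (hw v)
  have hG0_0 : ∀ v, (G0 v).coeff 0 = z0 v := by
    intro v
    simp only [G0, coeff_add, coeff_map, coeff_C_zero, coeff_C_mul, coeff_X_pow]
    rw [if_neg (hcw v).ne]
    ring
  have hG0_1 : ∀ v, (G0 v).coeff (c * w v) = z1 v := by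
    intro v
    simp only [G0, coeff_add, coeff_map, coeff_C_mul, coeff_X_pow, coeff_C]
    rw [if_neg (hcw v).ne', if_true]
    ring
  have hG0_deg : ∀ v, G0 v ∈ degreeLT (PowerSeries k) (c * w v + 1) := by
    intro v
    refine Submodule.add_mem _ (Submodule.add_mem _ ?_ ?_) ?_
    · rw [mem_degreeLT]
      exact lt_of_le_of_lt (degree_map_le) (mem_degreeLT.1 (hg.deg v))
    · rw [mem_degreeLT]
      refine lt_of_le_of_lt degree_C_le ?_
      exact_mod_cast Nat.succ_pos _
    · rw [mem_degreeLT]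
      refine lt_of_le_of_lt (degree_C_mul_X_pow_le _ _) ?_
      exact_mod_cast Nat.lt_succ_self _
  have hG0_red : ∀ v, (G0 v).map (PowerSeries.constantCoeff (R := k)) = (g v).map ι := by
    intro v
    ext n
    simp only [G0, coeff_map, coeff_add, coeff_C_mul, coeff_X_pow, coeff_C, map_add, map_mul, hj]
    have e0 : PowerSeries.constantCoeff (z0 v - j ((g v).coeff 0)) = 0 := by
      rw [map_sub, h0, hj, sub_self]
    have e1 : PowerSeries.constantCoeff (z1 v - j ((g v).coeff (c * w v))) = 0 := by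
      rw [map_sub, h1, hj, sub_self]
    rw [e1, zero_mul, add_zero]
    split_ifs
    · rw [e0, add_zero]
    · rw [map_zero, add_zero]
  have hfree := hFMP V w d c ℂ k ι F g hg
  obtain ⟨G, hG, hG0', hG1'⟩ := hLFT k V w d c F' G0 hF' hw hd hc hG0_deg
    (by simp only [hG0_0]; exact hz0) (by simp only [hG0_1]; exact hz1)
    (by
      rw [hred]
      simp only [hG0_red]
      exact hfree)
  exact ⟨G, hG, fun v => (hG0' v).trans (hG0_0 v), fun v => (hG1' v).trans (hG0_1 v)⟩

theorem MOV_cc_gen (ι : Type) (a : ι → ℂ) (i : ι) :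
    PowerSeries.constantCoeff (gen ι a i) = algebraMap ℂ (KB ι) (a i) := by
  unfold gen
  rw [map_add, map_mul, PowerSeries.constantCoeff_C, PowerSeries.constantCoeff_X, zero_mul,
    add_zero]

theorem MOV_cc_algebraMap (ι : Type) (a : ℂ) :
    PowerSeries.constantCoeff (algebraMap ℂ (PowerSeries (KB ι)) a) =
      algebraMap ℂ (KB ι) a := by
  rw [PowerSeries.algebraMap_apply, PowerSeries.constantCoeff_C]

theorem p_MOV (hFMP : Stmt_FMP) (hEND : Stmt_END) (hDEG : Stmt_DEG) (hPTL : Stmt_PTL)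
    (hLFT : Stmt_LFT) (hSPC : Stmt_SPC) (hINJ : Stmt_INJ) : Stmt_MOV := by
  intro V _ _ w d c F g hF hw hd hc hprime hg
  obtain ⟨-, htop, hbot⟩ := hDEG V w ℂ F d c g hF hg.deg
  rw [hg.eq, coeff_zero] at htop hbot
  obtain ⟨-, ⟨v₂, hv₂⟩, -⟩ := hEND V w d c F g hF hw hd hc hg
  let k : Type := KB V
  let R : Type := PowerSeries (KB V)
  let x1 : V → ℂ := fun v => (g v).coeff (c * w v)
  let F' : MvPolynomial V (PowerSeries (KB V)) :=
    MvPolynomial.map (algebraMap ℂ (PowerSeries (KB V))) F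
  have hccF : MvPolynomial.map (PowerSeries.constantCoeff (R := KB V)) F' =
      MvPolynomial.map (algebraMap ℂ (KB V)) F := by
    simp only [F']
    rw [MvPolynomial.map_map]
    exact congrArg (fun f : ℂ →+* KB V => MvPolynomial.map f F)
      (RingHom.ext fun a => MOV_cc_algebraMap V a)
  obtain ⟨z₂, hz₂, hz₂'⟩ := hPTL (KB V) V F' (gen V x1) v₂
    (by
      rw [hccF, MvPolynomial.eval_map]
      simp only [MOV_cc_gen]
      have := congrArg (algebraMap ℂ (KB V)) htop.symm
      rw [map_zero, ← MvPolynomial.eval₂_id, MvPolynomial.hom_eval₂, RingHom.comp_id] at this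
      exact this)
    (by
      rw [hccF, MvPolynomial.pderiv_map, MvPolynomial.eval_map]
      simp only [MOV_cc_gen]
      have : algebraMap ℂ (KB V) (MvPolynomial.eval x1 (MvPolynomial.pderiv v₂ F)) ≠ 0 := by
        rw [Ne, map_eq_zero_iff _ (algebraMap ℂ (KB V)).injective]
        exact hv₂
      rw [← MvPolynomial.eval₂_id, MvPolynomial.hom_eval₂, RingHom.comp_id] at this
      exact this)
  let z : V → PowerSeries (KB V) := Function.update (gen V x1) v₂ z₂
  have hz : ∀ v, v ≠ v₂ → z v = gen V x1 v := fun v hv => Function.update_of_ne hv _ _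
  have hzF : MvPolynomial.aeval z F = 0 := by
    rw [MvPolynomial.aeval_def, ← MvPolynomial.eval_map]
    exact hz₂'
  have hccz : ∀ v, PowerSeries.constantCoeff (z v) = algebraMap ℂ (KB V) ((g v).coeff (c * w v)) := by
    intro v
    by_cases hv : v = v₂
    · subst hv
      simp only [z, Function.update_self]
      rw [hz₂, MOV_cc_gen]
    · rw [hz v hv, MOV_cc_gen]
  have hF'hom : F'.IsWeightedHomogeneous w d := by
    intro μ hμ
    refine hF (d := μ) ?_
    intro h
    apply hμ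
    simp only [F', MvPolynomial.coeff_map, h, map_zero]
  obtain ⟨G, hG, hG0, hG1⟩ := MOV_lift hFMP hLFT (KB V) (algebraMap ℂ (KB V)) V w d c F F' g
    (fun v => algebraMap ℂ (PowerSeries (KB V)) ((g v).coeff 0)) z hF'hom hw hd hc hccF hg
    (fun v => MOV_cc_algebraMap V _) hccz
    (by
      simp only [F']
      rw [MvPolynomial.eval_map]
      have := congrArg (algebraMap ℂ (PowerSeries (KB V))) hbot.symm
      rw [map_zero, ← MvPolynomial.eval₂_id, MvPolynomial.hom_eval₂, RingHom.comp_id] at this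
      exact this) hz₂'
  have hp0 : MvPolynomial.pderiv v₂ F ≠ 0 := by
    intro h
    apply hv₂
    rw [h, map_zero]
  have hinj := hINJ V F x1 v₂ z hprime hp0 hz hzF
  let I : Ideal (MvPolynomial V ℂ) := Ideal.span {F}
  have hIp : I.IsPrime := (Ideal.span_singleton_prime hprime.ne_zero).2 hprime
  have hle : ∀ a ∈ I, MvPolynomial.aeval z a = 0 := by
    intro a ha
    obtain ⟨b, rfl⟩ := Ideal.mem_span_singleton.1 ha
    rw [map_mul, hzF, zero_mul]
  let θ : (MvPolynomial V ℂ ⧸ I) →ₐ[ℂ] PowerSeries (KB V) :=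
    Ideal.Quotient.liftₐ I (MvPolynomial.aeval z) hle
  have hθ : ∀ P, θ (Ideal.Quotient.mk I P) = MvPolynomial.aeval z P := fun P => rfl
  have hθinj : Function.Injective θ := by
    rw [injective_iff_map_eq_zero]
    intro a ha
    obtain ⟨P, rfl⟩ := Ideal.Quotient.mk_surjective a
    rw [hθ] at ha
    exact Ideal.Quotient.eq_zero_iff_mem.2 (Ideal.mem_span_singleton.2 (hinj P ha))
  have hft : Algebra.FiniteType ℂ (MvPolynomial V ℂ ⧸ I) :=
    Algebra.FiniteType.of_surjective (Ideal.Quotient.mkₐ ℂ I)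
      (Ideal.Quotient.mkₐ_surjective _ _)
  obtain ⟨b, hb, hb'⟩ := hSPC V w d c (MvPolynomial V ℂ ⧸ I) (PowerSeries (KB V)) hft θ hθinj
    (MvPolynomial.map (algebraMap ℂ (MvPolynomial V ℂ ⧸ I)) F) G
    (by
      rw [MvPolynomial.map_map, AlgHom.comp_algebraMap]
      exact hG)
  obtain ⟨Q, rfl⟩ := Ideal.Quotient.mk_surjective b
  refine ⟨Q, fun h => hb (Ideal.Quotient.eq_zero_iff_mem.2 (Ideal.mem_span_singleton.2 h)), ?_⟩
  intro z' hz'F hz'Q
  have hle' : ∀ a ∈ I, (MvPolynomial.aeval z' : MvPolynomial V ℂ →ₐ[ℂ] ℂ) a = 0 := by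
    intro a ha
    obtain ⟨b, rfl⟩ := Ideal.mem_span_singleton.1 ha
    rw [map_mul]
    change MvPolynomial.eval z' F * _ = 0
    rw [hz'F, zero_mul]
  let χ : (MvPolynomial V ℂ ⧸ I) →ₐ[ℂ] ℂ := Ideal.Quotient.liftₐ I (MvPolynomial.aeval z') hle'
  have hχ : ∀ P, χ (Ideal.Quotient.mk I P) = MvPolynomial.eval z' P := fun P => rfl
  obtain ⟨g', hg', hcoef⟩ := hb' χ (by rw [hχ]; exact hz'Q)
  refine ⟨g', ?_, ?_, ?_⟩
  · rw [MvPolynomial.map_map, AlgHom.comp_algebraMap, Algebra.algebraMap_self,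
      MvPolynomial.map_id] at hg'
    exact hg'
  · intro v
    rw [hcoef v 0 (algebraMap ℂ _ ((g v).coeff 0)) (by rw [hG0, AlgHom.commutes]),
      AlgHom.commutes, Algebra.algebraMap_self, RingHom.id_apply]
  · intro v
    rw [hcoef v (c * w v) (Ideal.Quotient.mk I (MvPolynomial.X v))
      (by rw [hG1, hθ, MvPolynomial.aeval_X]), hχ, MvPolynomial.eval_X]

end

end Pool.WH
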