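import Pool.Agent.Work.MP_dcf6a6_wh.Interface

/-!
Block MRP: the morphism of a Free curve.
-/

set_option autoImplicit false

open CategoryTheory AlgebraicGeometry Polynomial Pool.TVar

namespace Pool.WH

theorem MRP_span {V : Type} (F : MvPolynomial V ℂ) {C : Type} [CommRing C] [Algebra ℂ C]
    (Φ : MvPolynomial V ℂ →ₐ[ℂ] C) (h : Φ F = 0) : Ideal.span {F} ≤ RingHom.ker Φ := by
  rw [Ideal.span_le, Set.singleton_subset_iff]
  exact h

theorem MRP_prod {V : Type} [Fintype V] (w : V → ℕ) (T : Finset V) :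
    MvPolynomial.IsWeightedHomogeneous w (∏ v ∈ T, (MvPolynomial.X v : MvPolynomial V ℂ))
      (∑ v ∈ T, w v) :=
  MvPolynomial.IsWeightedHomogeneous.prod _ _ _ fun v _ =>
    MvPolynomial.isWeightedHomogeneous_X ℂ w v

theorem p_MRP (hDEG : Stmt_DEG) (hPDW : Stmt_PDW) (hPRG : Stmt_PRG) (hSMT : Stmt_SMT)
    (hHMG : Stmt_HMG) (hGPT : Stmt_GPT) (hPMAP : Pool.TVar.Stmt_PMAP)
    (hP1 : Pool.TVar.Stmt_P1) : Stmt_MRP := by
  classical
  intro V _ w d c F g A _ _ _ 𝒜 _ pr hF hw hd hc hfree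
  obtain ⟨Φ, hΦ1, hΦ0, hΦi⟩ := hHMG V w c g hfree.deg
  obtain ⟨hpr1, hpr2⟩ := hPRG V w F A 𝒜 pr
  have hΦF : Φ F = 0 := by
    rw [(hΦ1 d F hF).2, hfree.eq, Polynomial.homogenize_zero]
  have hker : RingHom.ker pr.π ≤ RingHom.ker Φ := by
    rw [pr.ker]
    exact MRP_span F Φ hΦF
  obtain ⟨φ, hφ⟩ : ∃ φ : A →ₐ[ℂ] MvPolynomial (Fin 2) ℂ, ∀ P, φ (pr.π P) = Φ P := by
    refine ⟨AlgHom.liftOfSurjective pr.π pr.surj Φ hker, fun P => ?_⟩
    simp
  have hφdeg : ∀ n, ∀ a ∈ 𝒜 n, φ a ∈ lineGr (c * n) := by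
    intro n a ha
    obtain ⟨P, hP, rfl⟩ := hpr2 n a ha
    rw [hφ]
    exact (hΦ1 n P hP).1
  -- the monomials do not vanish simultaneously
  have hT : ∀ q : Proj lineGr, ∃ T : GT w,
      φ (pr.π (∏ v ∈ T.1, MvPolynomial.X v)) ∉ q.asHomogeneousIdeal := by
    intro q
    obtain ⟨D, hD⟩ := hfree.goodT
    obtain ⟨T, hT⟩ := hGPT (GT w) (fun T => ∏ v ∈ T.1, g v) (fun T => c * ∑ v ∈ T.1, w v)
      (fun T => D + 1 - c * ∑ v ∈ T.1, w v) (D + 1) (by omega) (fun T => by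
        have h1 := (hDEG V w ℂ _ _ c g (MRP_prod w T.1) hfree.deg).1
        simpa using h1) (fun T => by
        omega) hD q
    refine ⟨T, ?_⟩
    rw [hφ, (hΦ1 _ _ (MRP_prod w T.1)).2]
    simpa using hT
  have hv : ∀ q : Proj lineGr, ∃ v : V,
      φ (pr.π (MvPolynomial.pderiv v F)) ∉ q.asHomogeneousIdeal := by
    intro q
    have hcd : 2 ≤ c * d := le_trans hc (Nat.le_mul_of_pos_right c hd)
    obtain ⟨v, hv⟩ := hGPT V (fun v => MvPolynomial.aeval g (MvPolynomial.pderiv v F))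
      (fun v => c * (d - w v)) (fun v => c * w v - 1) (c * d - 1) (by omega) (fun v =>
        (hDEG V w ℂ _ _ c g (hPDW V w ℂ F d v hF).1 hfree.deg).1) (fun v => by
        rcases lt_or_ge d (w v) with h | h
        · right
          right
          rw [(hPDW V w ℂ F d v hF).2 h, map_zero]
        · left
          have h1 : c * w v + c * (d - w v) = c * d := by
            rw [← mul_add, Nat.add_sub_cancel' h]
          have h2 : 0 < c * w v := Nat.mul_pos (by omega) (hw v)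
          omega) hfree.vf q
    refine ⟨v, ?_⟩
    rw [hφ, (hΦ1 _ _ (hPDW V w ℂ F d v hF).1).2]
    exact hv
  have hTne : ∀ T : GT w, 0 < ∑ v ∈ T.1, w v := by
    intro T
    have hne : T.1.Nonempty := by
      rw [Finset.nonempty_iff_ne_empty]
      intro h
      have h2 := T.2
      rw [h, Finset.gcd_empty] at h2
      exact absurd h2 (by norm_num)
    exact Finset.sum_pos (fun v _ => hw v) hne
  obtain ⟨f, hf1, hf2⟩ := hPMAP 𝒜 lineGr φ c (by omega) hφdeg (fun q => by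
    obtain ⟨T, hTq⟩ := hT q
    exact ⟨_, hTne T, _, hpr1 _ _ (MRP_prod w T.1), hTq⟩)
  refine ⟨f, hf1, fun q => ?_, ?_, ?_⟩
  · obtain ⟨T, hTq⟩ := hT q
    obtain ⟨v, hvq⟩ := hv q
    refine hSMT V w d F A 𝒜 pr hF hw T v (f q) ?_ ?_
    · intro h
      exact hTq ((hf2 q _ _ (hpr1 _ _ (MRP_prod w T.1))).mp h)
    · intro h
      exact hvq ((hf2 q _ _ (hpr1 _ _ (hPDW V w ℂ F d v hF).1)).mp h)
  · obtain ⟨q₀, hq₀⟩ := hP1.1 ![0, 1] (by
      intro h
      have := congrFun h 1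
      simp at this)
    refine ⟨q₀, fun n P hP => ?_⟩
    rw [hf2 q₀ n _ (hpr1 n P hP), hφ, hq₀ _ _ (hΦ1 n P hP).1, hΦ0]
  · obtain ⟨q₁, hq₁⟩ := hP1.1 ![1, 0] (by
      intro h
      have := congrFun h 0
      simp at this)
    refine ⟨q₁, fun n P hP => ?_⟩
    rw [hf2 q₁ n _ (hpr1 n P hP), hφ, hq₁ _ _ (hΦ1 n P hP).1, hΦi]

end Pool.WH
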