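import Pool.Agent.Work.MP_dcf6a6_wh.Interface

open CategoryTheory AlgebraicGeometry Polynomial Pool.TVar

namespace Pool.WH

theorem NAK_mem {S : Type} [CommRing S] {n : ℕ} {f : S[X]} :
    f ∈ degreeLT S n ↔ ∀ m, n ≤ m → f.coeff m = 0 := by
  rw [mem_degreeLT, degree_lt_iff_coeff_zero]

theorem p_NAK : Stmt_NAK := by
  intro k _ ι _ p a n hpa hgen
  classical
  let R := PowerSeries k
  let N : Submodule R R[X] := degreeLT R n
  let N' : Submodule R R[X] :=
    { carrier := {q | ∃ A : ι → R[X], (∀ i, A i ∈ degreeLT R (a i)) ∧ ∑ i, A i * p i = q}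
      add_mem' := by
        rintro x y ⟨A, hA, rfl⟩ ⟨B, hB, rfl⟩
        refine ⟨fun i => A i + B i, fun i => Submodule.add_mem _ (hA i) (hB i), ?_⟩
        simp only [add_mul, Finset.sum_add_distrib]
      zero_mem' := ⟨fun _ => 0, fun i => Submodule.zero_mem _, by simp⟩
      smul_mem' := by
        rintro c x ⟨A, hA, rfl⟩
        refine ⟨fun i => c • A i, fun i => Submodule.smul_mem _ _ (hA i), ?_⟩
        simp only [smul_mul_assoc, Finset.smul_sum] }
  have hFG : N.FG := by
    show (degreeLT R n).FG
    rw [degreeLT_eq_span_X_pow]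
    exact ⟨_, rfl⟩
  have hI : IsLocalRing.maximalIdeal R ≤ Ideal.jacobson ⊥ :=
    (IsLocalRing.jacobson_eq_maximalIdeal ⊥ bot_ne_top).ge
  have key : N ≤ N' ⊔ IsLocalRing.maximalIdeal R • N := by
    intro q hq
    have hq' : q.map (PowerSeries.constantCoeff (R := k)) ∈ degreeLT k n := by
      rw [NAK_mem] at hq ⊢
      intro m hm
      rw [coeff_map, hq m hm, map_zero]
    obtain ⟨A, hA, hAq⟩ := hgen _ hq'
    let B : ι → R[X] := fun i => (A i).map (PowerSeries.C (R := k))
    have hB : ∀ i, B i ∈ degreeLT R (a i) := by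
      intro i
      rw [NAK_mem]
      intro m hm
      rw [coeff_map, (NAK_mem.mp (hA i)) m hm, map_zero]
    have hr : q - ∑ i, B i * p i ∈ N := by
      refine Submodule.sub_mem _ hq (Submodule.sum_mem _ fun i _ => hpa i _ (hB i))
    have hr0 : ∀ m, PowerSeries.constantCoeff ((q - ∑ i, B i * p i).coeff m) = 0 := by
      intro m
      rw [← coeff_map, Polynomial.map_sub, Polynomial.map_sum, ← hAq]
      have : ∀ i, (B i * p i).map (PowerSeries.constantCoeff (R := k)) =
          A i * (p i).map (PowerSeries.constantCoeff (R := k)) := by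
        intro i
        rw [Polynomial.map_mul, Polynomial.map_map]
        have : (PowerSeries.constantCoeff (R := k)).comp (PowerSeries.C (R := k)) =
            RingHom.id k := by
          ext x
          simp
        rw [this, Polynomial.map_id]
      rw [Finset.sum_congr rfl fun i _ => this i, sub_self, coeff_zero]
    have hdiv : ∀ m, ∃ s : R, (q - ∑ i, B i * p i).coeff m = PowerSeries.X * s := fun m =>
      PowerSeries.X_dvd_iff.mpr (hr0 m)
    choose s hs using hdiv
    let r' : R[X] := ∑ m ∈ Finset.range n, monomial m (s m)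
    have hr' : r' ∈ N := by
      refine Submodule.sum_mem _ fun m hm => ?_
      rw [NAK_mem]
      intro j hj
      rw [coeff_monomial, if_neg]
      have := Finset.mem_range.mp hm
      omega
    have hrr : q - ∑ i, B i * p i = (PowerSeries.X : R) • r' := by
      ext1 m
      rw [coeff_smul, finsetSum_coeff]
      simp only [coeff_monomial]
      rw [Finset.sum_ite_eq' (Finset.range n) m s]
      split_ifs with hm
      · rw [hs m, smul_eq_mul]
      · rw [smul_zero]
        exact (NAK_mem.mp hr) m (by simpa using hm)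
    have : q = ∑ i, B i * p i + (PowerSeries.X : R) • r' := by
      rw [← hrr]; ring
    rw [this]
    refine Submodule.add_mem_sup ⟨B, hB, rfl⟩ (Submodule.smul_mem_smul ?_ hr')
    rw [PowerSeries.maximalIdeal_eq_span_X]
    exact Ideal.subset_span rfl
  intro q hq
  exact Submodule.le_of_le_smul_of_le_jacobson_bot hFG hI key hq

end Pool.WH
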