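import Pool.Agent.Work.MP_dcf6a6_wh.Interface

/-!
Block NCS: a point different from a given one.
-/

set_option autoImplicit false

open CategoryTheory AlgebraicGeometry Polynomial Pool.TVar

namespace Pool.WH

theorem NCS_vars {V : Type} [DecidableEq V] (c : ℂ) (v : V) (n : ℕ) :
    (MvPolynomial.C c * (MvPolynomial.X v : MvPolynomial V ℂ) ^ n).vars ⊆ {v} := by
  refine (MvPolynomial.vars_mul _ _).trans ?_
  rw [MvPolynomial.vars_C, Finset.empty_union]
  refine (MvPolynomial.vars_pow _ _).trans ?_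
  rw [MvPolynomial.vars_X]

theorem NCS_dvd {V : Type} (F e : MvPolynomial V ℂ) (v₂ : V)
    (hF : MvPolynomial.pderiv v₂ F ≠ 0) (he : e ≠ 0) (hv : v₂ ∉ e.vars) : ¬ F ∣ e := by
  rintro ⟨h, rfl⟩
  have hF0 : F ≠ 0 := fun h0 => he (by rw [h0, zero_mul])
  have hh0 : h ≠ 0 := fun h0 => he (by rw [h0, mul_zero])
  have h1 : v₂ ∈ F.vars := by
    by_contra hcon
    exact hF (MvPolynomial.pderiv_eq_zero_of_notMem_vars hcon)
  rw [MvPolynomial.mem_vars_iff_degreeOf_ne_zero] at h1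
  apply hv
  rw [MvPolynomial.mem_vars_iff_degreeOf_ne_zero, MvPolynomial.degreeOf_mul_eq hF0 hh0]
  omega

theorem NCS_null {V : Type} [Fintype V] (F Q : MvPolynomial V ℂ) (hF : Prime F) (h : ¬ F ∣ Q) :
    ∃ z' : V → ℂ, MvPolynomial.eval z' F = 0 ∧ MvPolynomial.eval z' Q ≠ 0 := by
  by_contra hcon
  push Not at hcon
  apply h
  have h1 : Q ∈ MvPolynomial.vanishingIdeal ℂ (MvPolynomial.zeroLocus ℂ (Ideal.span {F})) := by
    rw [MvPolynomial.mem_vanishingIdeal_iff]
    intro x hx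
    have h2 := hx F (Ideal.subset_span (Set.mem_singleton F))
    rw [MvPolynomial.aeval_eq_eval] at h2 ⊢
    exact hcon x h2
  rw [MvPolynomial.vanishingIdeal_zeroLocus_eq_radical] at h1
  have h3 : (Ideal.span {F}).IsPrime := (Ideal.span_singleton_prime hF.ne_zero).2 hF
  rw [h3.radical] at h1
  exact Ideal.mem_span_singleton.1 h1

theorem NCS_fin {V : Type} [Fintype V] (w : V → ℕ) (F : MvPolynomial V ℂ) (v₂ : V) (hF : Prime F)
    (hp : MvPolynomial.pderiv v₂ F ≠ 0) (a : MvPolynomial V ℂ) (z : V → ℂ) (ha : ¬ F ∣ a) (n : ℕ)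
    (e : MvPolynomial V ℂ) (hn : MvPolynomial.IsWeightedHomogeneous w e n) (hz : MvPolynomial.eval z e = 0)
    (he : e ≠ 0) (hv : v₂ ∉ e.vars) :
    ∃ (n : ℕ) (e : MvPolynomial V ℂ) (z' : V → ℂ), MvPolynomial.IsWeightedHomogeneous w e n ∧
      MvPolynomial.eval z e = 0 ∧ MvPolynomial.eval z' F = 0 ∧ MvPolynomial.eval z' (a * e) ≠ 0 := by
  have h1 : ¬ F ∣ a * e := by
    intro h
    rcases hF.dvd_or_dvd h with h | h
    · exact ha h
    · exact NCS_dvd F e v₂ hp he hv h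
  obtain ⟨z', hz1, hz2⟩ := NCS_null F (a * e) hF h1
  exact ⟨n, e, z', hn, hz, hz1, hz2⟩

theorem p_NCS : Stmt_NCS := by
  intro V _ _ w F v₂ hV hw hF hp a z ha
  obtain ⟨v₀, hv0⟩ : ∃ v₀, v₀ ∈ Finset.univ.erase v₂ := by
    apply Finset.card_pos.1
    rw [Finset.card_erase_of_mem (Finset.mem_univ _), Finset.card_univ]
    omega
  obtain ⟨v₁, hv1⟩ : ∃ v₁, v₁ ∈ (Finset.univ.erase v₂).erase v₀ := by
    apply Finset.card_pos.1
    rw [Finset.card_erase_of_mem hv0, Finset.card_erase_of_mem (Finset.mem_univ _), Finset.card_univ]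
    omega
  have h02 : v₀ ≠ v₂ := (Finset.mem_erase.1 hv0).1
  have h10 : v₁ ≠ v₀ := (Finset.mem_erase.1 hv1).1
  have h12 : v₁ ≠ v₂ := (Finset.mem_erase.1 (Finset.mem_erase.1 hv1).2).1
  by_cases hz0 : z v₀ = 0
  · refine NCS_fin w F v₂ hF hp a z ha (w v₀) (MvPolynomial.X v₀)
      (MvPolynomial.isWeightedHomogeneous_X _ _ _) (by simpa using hz0) (MvPolynomial.X_ne_zero v₀) ?_
    rw [MvPolynomial.vars_X]
    simpa using h02.symm
  · set e : MvPolynomial V ℂ := MvPolynomial.C (z v₁ ^ w v₀) * MvPolynomial.X v₀ ^ w v₁ -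
      MvPolynomial.C (z v₀ ^ w v₁) * MvPolynomial.X v₁ ^ w v₀ with he
    have hA : ∀ (c : ℂ) (v u : V), MvPolynomial.IsWeightedHomogeneous w
        (MvPolynomial.C c * (MvPolynomial.X v : MvPolynomial V ℂ) ^ w u) (w u * w v) := by
      intro c v u
      have h1 := (MvPolynomial.isWeightedHomogeneous_C w c).mul
        ((MvPolynomial.isWeightedHomogeneous_X ℂ w v).pow (w u))
      simpa using h1
    refine NCS_fin w F v₂ hF hp a z ha (w v₁ * w v₀) e ?_ ?_ ?_ ?_
    · have h1 := hA (z v₁ ^ w v₀) v₀ v₁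
      have h2 := hA (z v₀ ^ w v₁) v₁ v₀
      rw [mul_comm (w v₀) (w v₁)] at h2
      exact (MvPolynomial.weightedHomogeneousSubmodule ℂ w (w v₁ * w v₀)).sub_mem h1 h2
    · simp only [he, map_sub, map_mul, map_pow, MvPolynomial.eval_C, MvPolynomial.eval_X]
      ring
    · intro h0
      have h1 := congrArg (MvPolynomial.eval (Function.update (0 : V → ℂ) v₁ 1)) h0
      simp only [he, map_sub, map_mul, map_pow, MvPolynomial.eval_C, MvPolynomial.eval_X, map_zero,
        Function.update_self, Function.update_of_ne h10.symm, Pi.zero_apply, zero_pow (hw v₁).ne',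
        one_pow, mul_zero, mul_one, zero_sub, neg_eq_zero] at h1
      exact hz0 (pow_eq_zero_iff (hw v₁).ne' |>.1 h1)
    · intro hcon
      have h1 := (MvPolynomial.vars_sub_subset (p := MvPolynomial.C (z v₁ ^ w v₀) * MvPolynomial.X v₀ ^ w v₁)
        (q := MvPolynomial.C (z v₀ ^ w v₁) * (MvPolynomial.X v₁ : MvPolynomial V ℂ) ^ w v₀)) hcon
      rcases Finset.mem_union.1 h1 with h1 | h1
      · exact h02 (Finset.mem_singleton.1 (NCS_vars _ _ _ h1)).symm
      · exact h12 (Finset.mem_singleton.1 (NCS_vars _ _ _ h1)).symm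

end Pool.WH
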