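import Pool.Agent.Work.MP_dcf6a6_wh.Interface2

set_option autoImplicit false

open CategoryTheory AlgebraicGeometry Polynomial Pool.TVar

namespace Pool.WH

theorem NSZ_fin (V : Type) [Fintype V] (w : V → ℕ) (hw : ∀ v, 0 < w v) (d : ℕ) :
    {μ : V →₀ ℕ | Finsupp.weight w μ = d}.Finite := by
  classical
  refine (Set.finite_Icc (0 : V →₀ ℕ) (Finsupp.equivFunOnFinite.symm (fun _ : V => d))).subset ?_
  intro μ hμ
  rw [Set.mem_Icc]
  refine ⟨zero_le, ?_⟩
  intro v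
  rw [Finsupp.equivFunOnFinite_symm_apply_apply]
  have h1 : Finsupp.weight w μ = d := hμ
  rw [Finsupp.weight_apply, Finsupp.sum_fintype _ _ (by simp)] at h1
  rw [← h1]
  refine le_trans ?_ (Finset.single_le_sum (f := fun v => μ v • w v) (fun _ _ => Nat.zero_le _)
    (Finset.mem_univ v))
  rw [smul_eq_mul]
  exact Nat.le_mul_of_pos_right _ (hw v)

theorem NSZ_expand {V T : Type} [CommRing T] (w : V → ℕ) (d : ℕ) (E : Finset (V →₀ ℕ))
    (hE : ∀ μ : V →₀ ℕ, Finsupp.weight w μ = d → μ ∈ E) (G : MvPolynomial V T)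
    (hG : G.IsWeightedHomogeneous w d) :
    G = ∑ μ ∈ E, MvPolynomial.monomial μ (MvPolynomial.coeff μ G) := by
  classical
  ext ν
  rw [MvPolynomial.coeff_sum]
  simp only [MvPolynomial.coeff_monomial]
  rw [Finset.sum_ite_eq']
  split_ifs with h
  · rfl
  · by_contra hne
    exact h (hE ν (hG hne))

theorem NSZ_hom {V T : Type} [CommRing T] (w : V → ℕ) (d : ℕ) (E : Finset (V →₀ ℕ))
    (hE : ∀ μ ∈ E, Finsupp.weight w μ = d) (c : (V →₀ ℕ) → T) :
    (∑ μ ∈ E, MvPolynomial.monomial μ (c μ)).IsWeightedHomogeneous w d := by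
  have h : (∑ μ ∈ E, MvPolynomial.monomial μ (c μ)) ∈ MvPolynomial.weightedHomogeneousSubmodule T w d := by
    refine Submodule.sum_mem _ fun μ hμ => ?_
    exact MvPolynomial.isWeightedHomogeneous_monomial w μ (c μ) (hE μ hμ)
  exact h

theorem NSZ_map_form {V S T : Type} [CommRing S] [CommRing T] (M : Finset (V →₀ ℕ)) (θ : S →+* T)
    (y : M → S) : MvPolynomial.map θ (form M y) = form M (fun μ => θ (y μ)) := by
  unfold form
  rw [map_sum]
  refine Finset.sum_congr rfl fun μ _ => ?_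
  rw [MvPolynomial.map_monomial]

theorem NSZ_map_sum {V S T : Type} [CommRing S] [CommRing T] (E : Finset (V →₀ ℕ)) (θ : S →+* T)
    (c : (V →₀ ℕ) → S) : MvPolynomial.map θ (∑ μ ∈ E, MvPolynomial.monomial μ (c μ)) =
      ∑ μ ∈ E, MvPolynomial.monomial μ (θ (c μ)) := by
  rw [map_sum]
  refine Finset.sum_congr rfl fun μ _ => ?_
  rw [MvPolynomial.map_monomial]

theorem NSZ_prime {R S : Type} [CommRing R] [IsDomain R] [CommRing S] (c : R →+* S) (I : Ideal S)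
    (h : ∀ r, c r ∈ I → r = 0) : ∃ (K : Type) (_ : Field K) (κ : S →+* K),
      (∀ s ∈ I, κ s = 0) ∧ Function.Injective (κ.comp c) := by
  let T0 : Submonoid S := (nonZeroDivisors R).map c
  have hdis : Disjoint (I : Set S) (T0 : Set S) := by
    rw [Set.disjoint_left]
    rintro _ hx ⟨r, hr, rfl⟩
    exact nonZeroDivisors.ne_zero hr (h r hx)
  obtain ⟨P, hP, hIP, hPT⟩ := Ideal.exists_le_prime_disjoint I T0 hdis
  refine ⟨FractionRing (S ⧸ P), inferInstance, (algebraMap (S ⧸ P) _).comp (Ideal.Quotient.mk P), ?_, ?_⟩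
  · intro s hs
    rw [RingHom.comp_apply, Ideal.Quotient.eq_zero_iff_mem.mpr (hIP hs), map_zero]
  · rw [injective_iff_map_eq_zero]
    intro r hr
    by_contra hne
    rw [RingHom.comp_apply, RingHom.comp_apply] at hr
    have h2 := (IsFractionRing.injective (S ⧸ P) (FractionRing (S ⧸ P))) (hr.trans (map_zero _).symm)
    have h1 : c r ∈ P := Ideal.Quotient.eq_zero_iff_mem.mp h2
    exact Set.disjoint_left.mp hPT h1 ⟨r, mem_nonZeroDivisors_of_ne_zero hne, rfl⟩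

theorem p_NSZ : Stmt_NSZ := by
  intro V _ w d₁ d₂ M hw hgen
  obtain ⟨E₁, hE₁⟩ : ∃ E : Finset (V →₀ ℕ), ∀ μ, μ ∈ E ↔ Finsupp.weight w μ = d₁ :=
    ⟨(NSZ_fin V w hw d₁).toFinset, fun μ => by rw [Set.Finite.mem_toFinset]; rfl⟩
  obtain ⟨E₂, hE₂⟩ : ∃ E : Finset (V →₀ ℕ), ∀ μ, μ ∈ E ↔ Finsupp.weight w μ = d₂ :=
    ⟨(NSZ_fin V w hw d₂).toFinset, fun μ => by rw [Set.Finite.mem_toFinset]; rfl⟩
  let R : Type := MvPolynomial M ℂ
  let S : Type := MvPolynomial ((V →₀ ℕ) ⊕ (V →₀ ℕ)) R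
  let G₁ : MvPolynomial V S := ∑ μ ∈ E₁, MvPolynomial.monomial μ (MvPolynomial.X (Sum.inl μ) : S)
  let G₂ : MvPolynomial V S := ∑ μ ∈ E₂, MvPolynomial.monomial μ (MvPolynomial.X (Sum.inr μ) : S)
  let F : MvPolynomial V S := form M (fun μ => (MvPolynomial.C (MvPolynomial.X μ : R) : S))
  let I : Ideal S := Ideal.span (Set.range fun ν : V →₀ ℕ => MvPolynomial.coeff ν (G₁ * G₂ - F))
  obtain ⟨H, hH, hHI⟩ : ∃ H : R, H ≠ 0 ∧ (MvPolynomial.C H : S) ∈ I := by
    by_contra hcon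
    push Not at hcon
    obtain ⟨K, _, κ, hκI, hψ⟩ := NSZ_prime (MvPolynomial.C : R →+* S) I (by
      intro r hr
      by_contra hne
      exact hcon r hne hr)
    let ψ : R →+* K := κ.comp (MvPolynomial.C : R →+* S)
    refine hgen K ψ (MvPolynomial.map κ G₁) (MvPolynomial.map κ G₂) hψ ?_ ?_ ?_
    · rw [NSZ_map_sum]
      exact NSZ_hom w d₁ E₁ (fun μ hμ => (hE₁ μ).mp hμ) _
    · rw [NSZ_map_sum]
      exact NSZ_hom w d₂ E₂ (fun μ hμ => (hE₂ μ).mp hμ) _
    · have h1 : MvPolynomial.map κ (G₁ * G₂ - F) = 0 := by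
        ext ν
        rw [MvPolynomial.coeff_map, MvPolynomial.coeff_zero]
        exact hκI _ (Ideal.subset_span ⟨ν, rfl⟩)
      rw [map_sub, map_mul, sub_eq_zero] at h1
      rw [h1, NSZ_map_form]
      rfl
  refine ⟨H, hH, ?_⟩
  intro y hy G₁' G₂' h1 h2 h3
  let θ : S →+* ℂ := MvPolynomial.eval₂Hom (MvPolynomial.eval y)
    (Sum.elim (fun μ => MvPolynomial.coeff μ G₁') (fun μ => MvPolynomial.coeff μ G₂'))
  have e1 : MvPolynomial.map θ G₁ = G₁' := by
    rw [NSZ_map_sum, NSZ_expand w d₁ E₁ (fun μ hμ => (hE₁ μ).mpr hμ) G₁' h1]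
    refine Finset.sum_congr rfl fun μ hμ => ?_
    congr 1
    exact MvPolynomial.eval₂Hom_X' _ _ _
  have e2 : MvPolynomial.map θ G₂ = G₂' := by
    rw [NSZ_map_sum, NSZ_expand w d₂ E₂ (fun μ hμ => (hE₂ μ).mpr hμ) G₂' h2]
    refine Finset.sum_congr rfl fun μ hμ => ?_
    congr 1
    exact MvPolynomial.eval₂Hom_X' _ _ _
  have e3 : MvPolynomial.map θ F = form M y := by
    rw [NSZ_map_form]
    congr 1
    funext μ
    change MvPolynomial.eval₂Hom _ _ (MvPolynomial.C (MvPolynomial.X μ)) = y μ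
    rw [MvPolynomial.eval₂Hom_C, MvPolynomial.eval_X]
  have e4 : MvPolynomial.map θ (G₁ * G₂ - F) = 0 := by
    rw [map_sub, map_mul, e1, e2, e3, h3, sub_self]
  have e5 : ∀ s ∈ I, θ s = 0 := by
    intro s hs
    have h5 : I ≤ RingHom.ker θ := by
      rw [Ideal.span_le]
      rintro _ ⟨ν, rfl⟩
      change θ (MvPolynomial.coeff ν (G₁ * G₂ - F)) = 0
      rw [← MvPolynomial.coeff_map, e4, MvPolynomial.coeff_zero]
    exact h5 hs
  have e6 := e5 _ hHI
  apply hy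
  have e7 : θ (MvPolynomial.C H) = MvPolynomial.eval y H := MvPolynomial.eval₂Hom_C _ _ _
  rw [← e7]
  exact e6

end Pool.WH
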