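import Pool.Agent.Work.MP_dcf6a6_wh.Interface

/-! # Block PDG (helper55): degrees of the products with the partial derivatives -/

open CategoryTheory AlgebraicGeometry Polynomial Pool.TVar

namespace Pool.WH

theorem PDG_mul {S : Type} [CommRing S] {A B : S[X]} {a b : ℕ} (hA : A ∈ degreeLT S a)
    (hB : B ∈ degreeLT S (b + 1)) : A * B ∈ degreeLT S (a + b) := by
  rw [mem_degreeLT] at hA hB ⊢
  rcases eq_or_ne A 0 with rfl | hA0
  · rw [zero_mul, degree_zero]
    exact WithBot.bot_lt_coe _
  rcases eq_or_ne B 0 with rfl | hB0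
  · rw [mul_zero, degree_zero]
    exact WithBot.bot_lt_coe _
  have h1 : A.natDegree < a := (natDegree_lt_iff_degree_lt hA0).2 hA
  have h2 : B.natDegree < b + 1 := (natDegree_lt_iff_degree_lt hB0).2 hB
  have h3 : (A * B).natDegree ≤ A.natDegree + B.natDegree := natDegree_mul_le
  refine lt_of_le_of_lt degree_le_natDegree ?_
  exact_mod_cast (show (A * B).natDegree < a + b by omega)

theorem p_PDG (hDEG : Stmt_DEG) (hPDW : Stmt_PDW) : Stmt_PDG := by
  intro V _ w S _ F d c g hF hw hc hg v j A hA
  obtain ⟨h1, h2⟩ := hPDW V w S F d v hF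
  rcases lt_or_ge d (w v) with h | h
  · rw [h2 h, map_zero, mul_zero]
    exact Submodule.zero_mem _
  · have h3 := (hDEG V w S (MvPolynomial.pderiv v F) (d - w v) c g h1 hg).1
    have h4 := PDG_mul hA h3
    have h5 : c * w v - 1 + j + c * (d - w v) = c * d - 1 + j := by
      have h6 : 1 ≤ c * w v := Nat.mul_pos hc (hw v)
      have h7 : c * (d - w v) = c * d - c * w v := Nat.mul_sub _ _ _
      have h8 : c * w v ≤ c * d := Nat.mul_le_mul_left c h
      omega
    rwa [h5] at h4

end Pool.WH
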