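import Pool.Agent.Work.MP_dcf6a6_wh.Interface

set_option autoImplicit false

open CategoryTheory AlgebraicGeometry Polynomial Pool.TVar

namespace Pool.WH

noncomputable section

theorem p_PDH (hBDF : Stmt_BDF) (hBDM : Stmt_BDM) (hPDW : Stmt_PDW) : Stmt_PDH := by
  intro V _ w d c F G hF hw hc hG v A hA
  have e1 : MvPolynomial.pderiv v (mp F) = mp (MvPolynomial.pderiv v F) :=
    MvPolynomial.pderiv_map
  rw [e1]
  obtain ⟨h1, h2⟩ := hPDW V w ℂ F d v hF
  by_cases hd : d < w v
  · have e2 : mp (MvPolynomial.pderiv v F) = 0 := by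
      unfold mp
      rw [h2 hd, map_zero]
    rw [e2, map_zero, mul_zero]
    exact Submodule.zero_mem _
  · have hb := (hBDF V w (MvPolynomial.pderiv v F) (d - w v) c G h1 hG).1
    have hcw : 0 < c * w v := Nat.mul_pos hc (hw v)
    have hA' : A ∈ bd (c * w v - 1 + 1) := by
      rwa [Nat.sub_add_cancel hcw]
    have h3 := (hBDM (c * w v - 1) (c * (d - w v)) A _ hA' hb).1
    have e3 : c * w v - 1 + c * (d - w v) + 1 = c * d := by
      have h4 : c * (d - w v) + c * w v = c * d := by
        rw [← Nat.mul_add, Nat.sub_add_cancel (not_lt.1 hd)]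
      omega
    rwa [e3] at h3

end

end Pool.WH
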