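import Pool.Agent.Work.MP_dcf6a6_wh.Interface

/-! # Block PDW: the partial derivatives are homogeneous -/

open CategoryTheory AlgebraicGeometry Polynomial Pool.TVar

namespace Pool.WH

noncomputable section

theorem p_PDW : Stmt_PDW := by
  intro V w S _ F d v hF
  have h0 : d < w v → MvPolynomial.pderiv v F = 0 := by
    intro hd
    refine MvPolynomial.pderiv_eq_zero_of_notMem_vars fun hv => ?_
    obtain ⟨m, hm, hmv⟩ := MvPolynomial.mem_vars v |>.1 hv
    have h1 : Finsupp.weight w m = d := hF (MvPolynomial.mem_support_iff.1 hm)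
    have h2 : w v ≤ Finsupp.weight w m := Finsupp.le_weight_of_ne_zero' w
      (Finsupp.mem_support_iff.1 hmv)
    omega
  refine ⟨?_, h0⟩
  rcases le_or_gt (w v) d with h | h
  · exact MvPolynomial.IsWeightedHomogeneous.pderiv hF (Nat.sub_add_cancel h)
  · rw [h0 h]
    exact MvPolynomial.isWeightedHomogeneous_zero S w (d - w v)

end

end Pool.WH
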