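import Pool.Agent.Work.MP_dcf6a6_wh.Interface

/-! Block PFR (helper64). -/

set_option autoImplicit false

open Polynomial

namespace Pool.WH

theorem p_PFR : Stmt_PFR := by
  intro V _ I g
  induction I using Finset.induction_on with
  | empty =>
    intro _ _ e he
    refine ⟨fun _ => 0, by simp, ?_⟩
    rw [Finset.sum_empty, mem_degreeLT] at he
    rw [Finset.sum_empty]
    simpa using he
  | insert a J ha ih =>
    intro hm hc e he
    have hma : (g a).Monic := hm a (Finset.mem_insert_self _ _)
    have hmJ : ∀ i ∈ J, (g i).Monic := fun i hi => hm i (Finset.mem_insert_of_mem hi)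
    have hcJ : ∀ i ∈ J, ∀ j ∈ J, i ≠ j → IsCoprime (g i) (g j) := fun i hi j hj =>
      hc i (Finset.mem_insert_of_mem hi) j (Finset.mem_insert_of_mem hj)
    have hcop : IsCoprime (g a) (∏ j ∈ J, g j) := IsCoprime.prod_right (fun j hj =>
      hc a (Finset.mem_insert_self _ _) j (Finset.mem_insert_of_mem hj) (by
        rintro rfl
        exact ha hj))
    obtain ⟨u, v, huv⟩ := hcop
    have hdiv := modByMonic_add_div (e * v) (g a)
    have h1 : e = (e * v %ₘ g a) * ∏ j ∈ J, g j +
        g a * (e * u + (e * v /ₘ g a) * ∏ j ∈ J, g j) := by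
      calc e = e * (u * g a + v * ∏ j ∈ J, g j) := by rw [huv, mul_one]
        _ = e * u * g a + (e * v) * ∏ j ∈ J, g j := by ring
        _ = e * u * g a + (e * v %ₘ g a + g a * (e * v /ₘ g a)) * ∏ j ∈ J, g j := by rw [hdiv]
        _ = _ := by ring
    have hPm : (∏ j ∈ J, g j).Monic := monic_prod_of_monic _ _ hmJ
    have hPd : (∏ j ∈ J, g j).degree = ((∑ i ∈ J, (g i).natDegree : ℕ) : WithBot ℕ) := by
      rw [degree_eq_natDegree hPm.ne_zero, natDegree_prod_of_monic _ _ hmJ]
    have had : (g a).degree = ((g a).natDegree : WithBot ℕ) := degree_eq_natDegree hma.ne_zero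
    have hr : (e * v %ₘ g a).degree < ((g a).natDegree : WithBot ℕ) := by
      rw [← had]
      exact degree_modByMonic_lt _ hma
    have hN : (∑ i ∈ insert a J, (g i).natDegree) = (g a).natDegree + ∑ i ∈ J, (g i).natDegree :=
      Finset.sum_insert ha
    rw [hN, mem_degreeLT] at he
    have hrP : ((e * v %ₘ g a) * ∏ j ∈ J, g j).degree <
        (((g a).natDegree + ∑ i ∈ J, (g i).natDegree : ℕ) : WithBot ℕ) := by
      by_cases h0 : e * v %ₘ g a = 0
      · rw [h0, zero_mul, degree_zero]
        exact WithBot.bot_lt_coe _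
      · rw [degree_mul, hPd]
        rw [degree_eq_natDegree h0] at hr ⊢
        norm_cast at hr ⊢
        omega
    have he' : (e * u + (e * v /ₘ g a) * ∏ j ∈ J, g j).degree <
        ((∑ i ∈ J, (g i).natDegree : ℕ) : WithBot ℕ) := by
      by_cases h0 : e * u + (e * v /ₘ g a) * ∏ j ∈ J, g j = 0
      · rw [h0, degree_zero]
        exact WithBot.bot_lt_coe _
      · have h2 : (g a * (e * u + (e * v /ₘ g a) * ∏ j ∈ J, g j)).degree <
            (((g a).natDegree + ∑ i ∈ J, (g i).natDegree : ℕ) : WithBot ℕ) := by
          have h3 : g a * (e * u + (e * v /ₘ g a) * ∏ j ∈ J, g j) =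
              e - (e * v %ₘ g a) * ∏ j ∈ J, g j := by
            rw [eq_sub_iff_add_eq, add_comm]
            exact h1.symm
          rw [h3]
          exact lt_of_le_of_lt (degree_sub_le _ _) (max_lt he hrP)
        rw [degree_mul, had, degree_eq_natDegree h0] at h2
        rw [degree_eq_natDegree h0]
        norm_cast at h2 ⊢
        omega
    obtain ⟨r, hr1, hr2⟩ := ih hmJ hcJ _ (mem_degreeLT.2 he')
    refine ⟨Function.update r a (e * v %ₘ g a), ?_, ?_⟩
    · intro i hi
      rcases Finset.mem_insert.1 hi with h7 | h7
      · rw [h7, Function.update_self]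
        exact mem_degreeLT.2 hr
      · have hne : i ≠ a := by
          intro h8
          rw [h8] at h7
          exact ha h7
        rw [Function.update_of_ne hne]
        exact hr1 i h7
    · rw [Finset.sum_insert ha, Function.update_self, Finset.erase_insert ha]
      have h5 : ∑ i ∈ J, Function.update r a (e * v %ₘ g a) i * ∏ j ∈ (insert a J).erase i, g j =
          g a * ∑ i ∈ J, r i * ∏ j ∈ J.erase i, g j := by
        rw [Finset.mul_sum]
        apply Finset.sum_congr rfl
        intro i hi
        have hne : i ≠ a := by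
          rintro rfl
          exact ha hi
        have h6 : (insert a J).erase i = insert a (J.erase i) :=
          Finset.erase_insert_of_ne (Ne.symm hne)
        rw [Function.update_of_ne hne, h6, Finset.prod_insert (fun h => ha (Finset.mem_of_mem_erase h))]
        ring
      rw [h5, ← hr2]
      exact h1

end Pool.WH
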