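import Pool.Agent.Work.MP_dcf6a6_wh.Interface

/-!
# Block PRG: the grading
-/

open CategoryTheory AlgebraicGeometry Polynomial Pool.TVar

namespace Pool.WH

noncomputable section

theorem PRG_mon {V : Type} [Fintype V] {w : V → ℕ} {F : MvPolynomial V ℂ} {A : Type} [CommRing A]
    [Algebra ℂ A] {𝒜 : ℕ → Submodule ℂ A} [GradedAlgebra 𝒜] (pr : Pres w F 𝒜) (m : V →₀ ℕ)
    (c : ℂ) : pr.π (MvPolynomial.monomial m c) ∈ 𝒜 (Finsupp.weight w m) := by
  have h1 : pr.π (MvPolynomial.monomial m c) = c • ∏ v ∈ m.support, pr.π (MvPolynomial.X v) ^ m v := by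
    rw [MvPolynomial.monomial_eq, ← MvPolynomial.smul_eq_C_mul, map_smul, Finsupp.prod, map_prod]
    simp only [map_pow]
  rw [h1]
  refine Submodule.smul_mem _ _ ?_
  have h2 : ∏ v ∈ m.support, pr.π (MvPolynomial.X v) ^ m v ∈ 𝒜 (∑ v ∈ m.support, m v • w v) :=
    SetLike.prod_mem_graded 𝒜 (fun v => m v • w v)
      (fun v => pr.π (MvPolynomial.X v) ^ m v)
      (fun v _ => SetLike.pow_mem_graded (m v) (pr.graded v))
  have h3 : Finsupp.weight w m = ∑ v ∈ m.support, m v • w v := by
    rw [Finsupp.weight_apply, Finsupp.sum]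
  rw [h3]
  exact h2

theorem p_PRG : Stmt_PRG := by
  classical
  intro V _ w F A _ _ 𝒜 _ pr
  refine ⟨fun n P hP => ?_, fun n a ha => ?_⟩
  · rw [MvPolynomial.as_sum P, map_sum]
    refine Submodule.sum_mem _ fun m hm => ?_
    have h1 := hP (MvPolynomial.mem_support_iff.mp hm)
    rw [← h1]
    exact PRG_mon pr m _
  · obtain ⟨P, rfl⟩ := pr.surj a
    refine ⟨∑ m ∈ P.support, if Finsupp.weight w m = n then
      MvPolynomial.monomial m (P.coeff m) else 0, ?_, ?_⟩
    · rw [← MvPolynomial.mem_weightedHomogeneousSubmodule]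
      refine Submodule.sum_mem _ fun m _ => ?_
      split_ifs with h
      · rw [MvPolynomial.mem_weightedHomogeneousSubmodule]
        exact MvPolynomial.isWeightedHomogeneous_monomial w m _ h
      · exact Submodule.zero_mem _
    · have h1 : GradedRing.proj 𝒜 n (pr.π P) = pr.π P := by
        rw [GradedRing.proj_apply]
        exact DirectSum.decompose_of_mem_same 𝒜 ha
      conv_rhs => rw [← h1, MvPolynomial.as_sum P, map_sum, map_sum]
      rw [map_sum]
      refine Finset.sum_congr rfl fun m _ => ?_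
      rw [GradedRing.proj_apply]
      split_ifs with h
      · subst h
        exact (DirectSum.decompose_of_mem_same 𝒜 (PRG_mon pr m _)).symm
      · rw [map_zero]
        exact (DirectSum.decompose_of_mem_ne 𝒜 (PRG_mon pr m _) h).symm

end

end Pool.WH
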