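import Pool.Agent.Work.MP_dcf6a6_wh.Interface

/-!
# Block PTL: lifting smooth points
-/

open CategoryTheory AlgebraicGeometry Polynomial Pool.TVar

namespace Pool.WH

theorem PTL_cc (k : Type) [Field k] (V : Type) (F : MvPolynomial V (PowerSeries k))
    (z : V → PowerSeries k) : PowerSeries.constantCoeff (MvPolynomial.aeval z F) =
      MvPolynomial.eval (fun v => PowerSeries.constantCoeff (z v))
        (MvPolynomial.map (PowerSeries.constantCoeff (R := k)) F) := by
  rw [MvPolynomial.eval_map, MvPolynomial.aeval_def, MvPolynomial.eval₂_comp_left]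
  rfl

theorem p_PTL (hHEN : Stmt_HEN) : Stmt_PTL := by
  classical
  intro k _ V _ _ F z v₂ h0 h1
  set u : PowerSeries k := MvPolynomial.aeval z (MvPolynomial.pderiv v₂ F) with hu
  have hcu : PowerSeries.constantCoeff u ≠ 0 := by
    rw [hu, PTL_cc, ← MvPolynomial.pderiv_map]
    exact h1
  have hunit : IsUnit u := PowerSeries.isUnit_iff_constantCoeff.2 (isUnit_iff_ne_zero.2 hcu)
  obtain ⟨w, hw⟩ := hunit.exists_left_inv
  set C : Submodule (PowerSeries k) (V → PowerSeries k) :=
    Submodule.span (PowerSeries k) {Pi.single v₂ 1} with hC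
  have hCmem : ∀ q : PowerSeries k, (Pi.single v₂ q : V → PowerSeries k) ∈ C := by
    intro q
    rw [hC, Submodule.mem_span_singleton]
    exact ⟨q, by rw [← Pi.single_smul, smul_eq_mul, mul_one]⟩
  have hCz : ∀ c ∈ C, ∀ v, v ≠ v₂ → c v = 0 := by
    intro c hc v hv
    rw [hC, Submodule.mem_span_singleton] at hc
    obtain ⟨q, rfl⟩ := hc
    simp [hv]
  obtain ⟨c, hc, hF⟩ := hHEN k V (PowerSeries k) F z C Set.univ
    (Submodule.fg_span_singleton _)
    (by
      intro b hb
      ext n
      obtain ⟨b', hb'⟩ := hb (n + 1)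
      rw [hb', smul_eq_mul, map_zero]
      rw [PowerSeries.coeff_X_pow_mul']
      simp)
    (fun _ _ => Set.mem_univ _) (fun _ _ => Set.mem_univ _)
    (by
      intro b _
      refine ⟨Pi.single v₂ (b * w), hCmem _, 0, ?_⟩
      rw [smul_zero, add_zero, Finset.sum_eq_single v₂]
      · rw [Pi.single_eq_same, mul_assoc, hw, mul_one]
      · intro v _ hv
        rw [Pi.single_eq_of_ne hv, zero_mul]
      · intro h
        exact absurd (Finset.mem_univ _) h)
    (by
      have h2 : PowerSeries.constantCoeff (MvPolynomial.aeval z F) = 0 := by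
        rw [PTL_cc]
        exact h0
      obtain ⟨b, hb⟩ := PowerSeries.X_dvd_iff.2 h2
      exact ⟨b, by rw [hb, smul_eq_mul]⟩)
  refine ⟨z v₂ + PowerSeries.X * c v₂, ?_, ?_⟩
  · rw [map_add, map_mul, PowerSeries.constantCoeff_X, zero_mul, add_zero]
  · have e : Function.update z v₂ (z v₂ + PowerSeries.X * c v₂) =
        z + (PowerSeries.X : PowerSeries k) • c := by
      funext v
      by_cases hv : v = v₂
      · subst hv
        rw [Function.update_self]
        rfl
      · rw [Function.update_of_ne hv]
        simp [hCz c hc v hv]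
    rw [e, ← MvPolynomial.coe_aeval_eq_eval]
    exact hF

end Pool.WH
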