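import Pool.Agent.Work.MP_dcf6a6_wh.Interface

open CategoryTheory AlgebraicGeometry Polynomial Pool.TVar

namespace Pool.WH

theorem QKR_dvd (f : NR) (h1 : ∀ n : ℕ, PowerSeries.coeff 0 (co f (n : ℤ)) = 0)
    (h2 : ∀ n : ℕ, PowerSeries.coeff n (co f (-(n : ℤ))) = 0) (i : ℤ) :
    (PowerSeries.X : PowerSeries ℂ) ^ ((-i).toNat + 1) ∣ co f i := by
  rw [PowerSeries.X_pow_dvd_iff]
  intro m hm
  rcases lt_or_eq_of_le (Nat.lt_succ_iff.mp hm) with h | h
  · exact (PowerSeries.X_pow_dvd_iff.mp (co_dvd f i)) m h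
  · rcases le_or_gt 0 i with hi | hi
    · have h3 : (-i).toNat = 0 := by omega
      obtain ⟨n, rfl⟩ := Int.eq_ofNat_of_zero_le hi
      rw [h, h3]
      exact h1 n
    · obtain ⟨n, hn⟩ : ∃ n : ℕ, i = -(n : ℤ) := ⟨(-i).toNat, by omega⟩
      subst hn
      rw [h, neg_neg, Int.toNat_natCast]
      exact h2 n

theorem p_QKR : Stmt_QKR := by
  intro f h1 h2
  have hd := QKR_dvd f h1 h2
  choose a ha using hd
  have ha' : ∀ i, co f i = PowerSeries.X * (PowerSeries.X ^ (-i).toNat * a i) := by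
    intro i
    rw [ha i, pow_succ]
    ring
  obtain ⟨f', hf'⟩ := exists_co (fun i => PowerSeries.X ^ (-i).toNat * a i)
    ((co_finite f).subset fun i hi => by
      change co f i ≠ 0
      rw [ha' i]
      exact mul_ne_zero PowerSeries.X_ne_zero hi) (fun i => dvd_mul_right _ _)
  refine ⟨f', co_ext fun i => ?_⟩
  rw [co_smul, hf', ha' i]

end Pool.WH
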