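import Pool.Agent.Work.MP_dcf6a6_wh.Interface

/-! # Block QRU (helper55): the reduction `u ↦ X`, `v ↦ 0`, `s ↦ 0` -/

open CategoryTheory AlgebraicGeometry Polynomial Pool.TVar

namespace Pool.WH

/-- the constant term of a coefficient -/
noncomputable def QRU_c (f : NR) (i : ℤ) : ℂ := PowerSeries.constantCoeff (co f i)

theorem QRU_neg (f : NR) {i : ℤ} (hi : i < 0) : QRU_c f i = 0 := by
  have h1 : (PowerSeries.X : PowerSeries ℂ) ∣ co f i :=
    (dvd_pow_self _ (by omega)).trans (co_dvd f i)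
  obtain ⟨g, hg⟩ := h1
  unfold QRU_c
  rw [hg, map_mul, PowerSeries.constantCoeff_X, zero_mul]

theorem QRU_zero {f : NR} {i : ℤ} (h : co f i = 0) : QRU_c f i = 0 := by
  unfold QRU_c
  rw [h, map_zero]

theorem QRU_fin (f : NR) : {n : ℕ | co f (n : ℤ) ≠ 0}.Finite :=
  (co_finite f).preimage (Nat.cast_injective.injOn)

noncomputable def QRU_r (f : NR) : ℂ[X] :=
  ∑ n ∈ (QRU_fin f).toFinset, Polynomial.monomial n (QRU_c f (n : ℤ))

theorem QRU_coeff (f : NR) (n : ℕ) : (QRU_r f).coeff n = QRU_c f (n : ℤ) := by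
  classical
  unfold QRU_r
  rw [finset_sum_coeff]
  simp only [Polynomial.coeff_monomial]
  rw [Finset.sum_ite_eq' _ n]
  split_ifs with h
  · rfl
  · rw [Set.Finite.mem_toFinset] at h
    have h1 : co f (n : ℤ) = 0 := by
      by_contra h2
      exact h h2
    exact (QRU_zero h1).symm

theorem QRU_mul (f g : NR) (n : ℕ) :
    QRU_c (f * g) (n : ℤ) = ∑ i ∈ Finset.range (n + 1), QRU_c f (i : ℤ) * QRU_c g ((n - i : ℕ) : ℤ) := by
  classical
  set s : Finset ℤ := (co_finite f).toFinset ∪ (Finset.range (n + 1)).image (fun i : ℕ => (i : ℤ))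
    with hs
  have h1 := co_mul f g (n : ℤ) s (fun i hi => by
    by_contra h
    exact hi (Finset.mem_union_left _ ((Set.Finite.mem_toFinset _).2 h)))
  have h2 : QRU_c (f * g) (n : ℤ) = ∑ i ∈ s, QRU_c f i * QRU_c g ((n : ℤ) - i) := by
    unfold QRU_c
    rw [h1, map_sum]
    simp only [map_mul]
  rw [h2]
  have h3 : ∑ i ∈ (Finset.range (n + 1)).image (fun i : ℕ => (i : ℤ)),
      QRU_c f i * QRU_c g ((n : ℤ) - i) = ∑ i ∈ s, QRU_c f i * QRU_c g ((n : ℤ) - i) := by
    refine Finset.sum_subset Finset.subset_union_right ?_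
    intro i _ hi
    rcases lt_or_ge i 0 with h | h
    · rw [QRU_neg f h, zero_mul]
    · rw [QRU_neg g (i := (n : ℤ) - i), mul_zero]
      by_contra h4
      apply hi
      rw [Finset.mem_image]
      refine ⟨i.toNat, ?_, ?_⟩
      · rw [Finset.mem_range]
        omega
      · omega
  rw [← h3, Finset.sum_image (fun a _ b _ h => by exact_mod_cast h)]
  refine Finset.sum_congr rfl fun i hi => ?_
  rw [Finset.mem_range] at hi
  rw [Nat.cast_sub (by omega)]

theorem p_QRU : Stmt_QRU := by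
  refine ⟨{ toFun := QRU_r, map_one' := ?_, map_mul' := ?_, map_zero' := ?_, map_add' := ?_ }, ?_⟩
  · ext n
    rw [QRU_coeff, coeff_one]
    unfold QRU_c
    rw [co_one]
    by_cases h : n = 0
    · subst h
      simp
    · rw [if_neg (by exact_mod_cast h), if_neg h, map_zero]
  · intro f g
    ext n
    rw [QRU_coeff, QRU_mul, coeff_mul, Finset.Nat.sum_antidiagonal_eq_sum_range_succ_mk]
    refine Finset.sum_congr rfl fun i _ => ?_
    rw [QRU_coeff, QRU_coeff]
  · ext n
    rw [QRU_coeff, coeff_zero]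
    exact QRU_zero (co_zero _)
  · intro f g
    ext n
    rw [QRU_coeff, coeff_add, QRU_coeff, QRU_coeff]
    unfold QRU_c
    rw [co_add, map_add]
  · intro f n
    refine (QRU_coeff f n).trans ?_
    unfold QRU_c
    rw [PowerSeries.coeff_zero_eq_constantCoeff_apply]

end Pool.WH
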