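import Pool.Agent.Work.MP_dcf6a6_wh.Interface

set_option autoImplicit false

open CategoryTheory AlgebraicGeometry Polynomial Pool.TVar

namespace Pool.WH

theorem QRV_exists (a : ℕ → ℂ) (ha : {n | a n ≠ 0}.Finite) : ∃ p : ℂ[X], ∀ n, p.coeff n = a n := by
  refine ⟨∑ n ∈ ha.toFinset, Polynomial.monomial n (a n), fun n => ?_⟩
  rw [Polynomial.finsetSum_coeff]
  simp only [Polynomial.coeff_monomial]
  rw [Finset.sum_ite_eq']
  split_ifs with h
  · rfl
  · rw [Set.Finite.mem_toFinset] at h
    by_contra h2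
    exact h (fun h3 => h2 h3.symm)

theorem QRV_fin (f : NR) : {n : ℕ | PowerSeries.coeff n (co f (-(n : ℤ))) ≠ 0}.Finite := by
  have h1 := (co_finite f).preimage (f := fun n : ℕ => -(n : ℤ)) (by
    intro a _ b _ hab
    have : (-(a : ℤ)) = -(b : ℤ) := hab
    omega)
  refine h1.subset ?_
  intro n hn
  change co f (-(n : ℤ)) ≠ 0
  intro h0
  apply hn
  rw [h0, map_zero]

theorem QRV_term (f g : NR) (n : ℕ) (i : ℤ) :
    (0 < i ∨ i < -(n : ℤ) → PowerSeries.coeff n (co f i * co g (-(n : ℤ) - i)) = 0) ∧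
    (∀ a : ℕ, i = -(a : ℤ) → a ≤ n → PowerSeries.coeff n (co f i * co g (-(n : ℤ) - i)) =
      PowerSeries.coeff a (co f (-(a : ℤ))) * PowerSeries.coeff (n - a) (co g (-((n - a : ℕ) : ℤ)))) := by
  constructor
  · rintro (h | h)
    · obtain ⟨G, hG⟩ := co_dvd g (-(n : ℤ) - i)
      have hle : n < (-(-(n : ℤ) - i)).toNat := by omega
      rw [hG, mul_comm, mul_assoc, PowerSeries.coeff_X_pow_mul', if_neg (by omega)]
    · obtain ⟨F, hF⟩ := co_dvd f i
      have hle : n < (-i).toNat := by omega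
      rw [hF, mul_assoc, PowerSeries.coeff_X_pow_mul', if_neg (by omega)]
  · intro a ha han
    subst ha
    have e1 : -(n : ℤ) - -(a : ℤ) = -((n - a : ℕ) : ℤ) := by omega
    rw [e1]
    obtain ⟨F, hF⟩ := co_dvd f (-(a : ℤ))
    obtain ⟨G, hG⟩ := co_dvd g (-((n - a : ℕ) : ℤ))
    have e2 : (- -(a : ℤ)).toNat = a := by omega
    have e3 : (- -((n - a : ℕ) : ℤ)).toNat = n - a := by omega
    rw [e2] at hF
    rw [e3] at hG
    rw [hF, hG]
    have e4 : (PowerSeries.X : PowerSeries ℂ) ^ a * F * (PowerSeries.X ^ (n - a) * G) =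
        PowerSeries.X ^ n * (F * G) := by
      have : (PowerSeries.X : PowerSeries ℂ) ^ n = PowerSeries.X ^ a * PowerSeries.X ^ (n - a) := by
        rw [← pow_add]
        congr 1
        omega
      rw [this]
      ring
    rw [e4, PowerSeries.coeff_X_pow_mul', if_pos le_rfl, PowerSeries.coeff_X_pow_mul', if_pos le_rfl,
      PowerSeries.coeff_X_pow_mul', if_pos le_rfl, Nat.sub_self, Nat.sub_self, Nat.sub_self]
    simp only [PowerSeries.coeff_zero_eq_constantCoeff, map_mul]

theorem QRV_mul (f g : NR) (n : ℕ) :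
    PowerSeries.coeff n (co (f * g) (-(n : ℤ))) = ∑ x ∈ Finset.HasAntidiagonal.antidiagonal n,
      PowerSeries.coeff x.1 (co f (-(x.1 : ℤ))) * PowerSeries.coeff x.2 (co g (-(x.2 : ℤ))) := by
  classical
  set s : Finset ℤ := (co_finite f).toFinset ∪ (Finset.range (n + 1)).image (fun a : ℕ => -(a : ℤ)) with hs
  rw [co_mul f g (-(n : ℤ)) s (by
    intro i hi
    by_contra h
    exact hi (Finset.mem_union_left _ ((co_finite f).mem_toFinset.mpr h))), map_sum]
  have h1 : ∑ i ∈ s, PowerSeries.coeff n (co f i * co g (-(n : ℤ) - i)) =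
      ∑ i ∈ (Finset.range (n + 1)).image (fun a : ℕ => -(a : ℤ)),
        PowerSeries.coeff n (co f i * co g (-(n : ℤ) - i)) := by
    symm
    refine Finset.sum_subset Finset.subset_union_right ?_
    intro i _ hi
    apply (QRV_term f g n i).1
    by_contra hcon
    push Not at hcon
    apply hi
    rw [Finset.mem_image]
    exact ⟨(-i).toNat, Finset.mem_range.mpr (by omega), by omega⟩
  rw [h1, Finset.sum_image (by
    intro a _ b _ hab
    have : (-(a : ℤ)) = -(b : ℤ) := hab
    omega)]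
  rw [Finset.Nat.sum_antidiagonal_eq_sum_range_succ
    (fun a b => PowerSeries.coeff a (co f (-(a : ℤ))) * PowerSeries.coeff b (co g (-(b : ℤ)))) n]
  refine Finset.sum_congr rfl fun a ha => ?_
  exact (QRV_term f g n _).2 a rfl (by have := Finset.mem_range.mp ha; omega)

theorem p_QRV : Stmt_QRV := by
  choose r hr using fun f : NR => QRV_exists (fun n : ℕ => PowerSeries.coeff n (co f (-(n : ℤ)))) (QRV_fin f)
  refine ⟨{ toFun := r, map_one' := ?_, map_mul' := ?_, map_zero' := ?_, map_add' := ?_ }, ?_⟩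
  · ext n
    rw [hr, co_one, Polynomial.coeff_one]
    by_cases h : n = 0
    · subst h
      simp
    · rw [if_neg (by omega), if_neg (by omega), map_zero]
  · intro f g
    ext n
    rw [hr, QRV_mul, Polynomial.coeff_mul]
    refine Finset.sum_congr rfl fun x _ => ?_
    rw [hr, hr]
  · ext n
    rw [hr, co_zero, map_zero, Polynomial.coeff_zero]
  · intro f g
    ext n
    rw [hr, co_add, map_add, Polynomial.coeff_add, hr, hr]
  · intro f n
    exact hr f n

end Pool.WH
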