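import Pool.Agent.Work.MP_dcf6a6_wh.Interface

open CategoryTheory AlgebraicGeometry Polynomial Pool.TVar

namespace Pool.WH

/-- the coefficients of the element with the reductions `p`, `q` -/
noncomputable def QUV_fun (p q : ℂ[X]) (i : ℤ) : PowerSeries ℂ :=
  if 0 ≤ i then PowerSeries.C (p.coeff i.toNat)
  else PowerSeries.X ^ (-i).toNat * PowerSeries.C (q.coeff (-i).toNat)

theorem QUV_supp (p q : ℂ[X]) (i : ℤ) (hi : QUV_fun p q i ≠ 0) :
    i ∈ Finset.Icc (-(q.natDegree : ℤ)) (p.natDegree : ℤ) := by
  rw [Finset.mem_Icc]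
  unfold QUV_fun at hi
  split_ifs at hi with h
  · have h1 : p.coeff i.toNat ≠ 0 := fun h0 => hi (by rw [h0, map_zero])
    have := Polynomial.le_natDegree_of_ne_zero h1
    omega
  · have h1 : q.coeff (-i).toNat ≠ 0 := fun h0 => hi (by rw [h0, map_zero, mul_zero])
    have := Polynomial.le_natDegree_of_ne_zero h1
    omega

theorem p_QUV : Stmt_QUV := by
  intro p q h0
  obtain ⟨f, hf⟩ := exists_co (QUV_fun p q)
    ((Finset.Icc (-(q.natDegree : ℤ)) (p.natDegree : ℤ)).finite_toSet.subset
      fun i hi => QUV_supp p q i hi) (fun i => by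
      unfold QUV_fun
      split_ifs with h
      · have : (-i).toNat = 0 := by omega
        rw [this, pow_zero]
        exact one_dvd _
      · exact dvd_mul_right _ _)
  refine ⟨f, fun n => ?_, fun n => ?_⟩
  · rw [hf]
    unfold QUV_fun
    rw [if_pos (Int.natCast_nonneg n), Int.toNat_natCast]
  · rw [hf]
    unfold QUV_fun
    split_ifs with h
    · have hn : n = 0 := by omega
      subst hn
      simp [h0]
    · rw [neg_neg, Int.toNat_natCast]

end Pool.WH
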