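import Pool.Agent.Work.MP_dcf6a6_wh.Interface

/-!
# Block RDF: reductions of `F (G)`
-/

open CategoryTheory AlgebraicGeometry Polynomial Pool.TVar

namespace Pool.WH

theorem RDF_const (ρ : NR →+* ℂ[X]) (hρ : IsRU ρ ∨ IsRV ρ) (z : ℂ) :
    ρ (algebraMap (PowerSeries ℂ) NR (PowerSeries.C z)) = Polynomial.C z := by
  ext n
  rcases hρ with h | h
  · rw [h, co_algebraMap, Polynomial.coeff_C]
    by_cases hn : n = 0
    · subst hn
      simp
    · have : (n : ℤ) ≠ 0 := by exact_mod_cast hn
      rw [if_neg this, if_neg hn, map_zero]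
  · rw [h, co_algebraMap, Polynomial.coeff_C]
    by_cases hn : n = 0
    · subst hn
      simp
    · have : -(n : ℤ) ≠ 0 := by
        intro h0
        apply hn
        omega
      rw [if_neg this, if_neg hn, map_zero]

theorem p_RDF : Stmt_RDF := by
  intro V F G ρ hρ
  have h1 : (ρ.comp ((MvPolynomial.aeval G : MvPolynomial V (PowerSeries ℂ) →ₐ[PowerSeries ℂ] NR) :
      MvPolynomial V (PowerSeries ℂ) →+* NR)).comp (MvPolynomial.map (PowerSeries.C)) =
      ((MvPolynomial.aeval fun v => ρ (G v) : MvPolynomial V ℂ →ₐ[ℂ] ℂ[X]) :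
        MvPolynomial V ℂ →+* ℂ[X]) := by
    apply MvPolynomial.ringHom_ext
    · intro z
      simp only [RingHom.comp_apply, MvPolynomial.map_C, RingHom.coe_coe, MvPolynomial.aeval_C]
      rw [RDF_const ρ hρ]
      rfl
    · intro v
      simp only [RingHom.comp_apply, MvPolynomial.map_X, RingHom.coe_coe, MvPolynomial.aeval_X]
  exact congrArg (fun φ : MvPolynomial V ℂ →+* ℂ[X] => φ F) h1

end Pool.WH
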