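import Pool.Agent.Work.MP_dcf6a6_wh.Interface

/-! # Block SCL: scaling -/

open CategoryTheory AlgebraicGeometry Polynomial Pool.TVar

namespace Pool.WH

noncomputable section

/-- the polynomial in the scaling factor -/
def SCL_pol {V : Type} [Fintype V] (w : V → ℕ) (Q : MvPolynomial V ℂ) (z : V → ℂ) : ℂ[X] :=
  ∑ d ∈ Q.support, Polynomial.C (Q.coeff d * ∏ v, z v ^ d v) * Polynomial.X ^ Finsupp.weight w d

theorem SCL_weight {V : Type} [Fintype V] (w : V → ℕ) (d : V →₀ ℕ) :
    Finsupp.weight w d = ∑ v, w v * d v := by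
  rw [Finsupp.weight_apply, Finsupp.sum_fintype _ _ (fun i => by rw [zero_smul])]
  exact Finset.sum_congr rfl fun v _ => by rw [smul_eq_mul, mul_comm]

theorem SCL_eval {V : Type} [Fintype V] (w : V → ℕ) (Q : MvPolynomial V ℂ) (z : V → ℂ) (l : ℂ) :
    (SCL_pol w Q z).eval l = MvPolynomial.eval (fun v => l ^ w v * z v) Q := by
  rw [MvPolynomial.eval_eq', SCL_pol, Polynomial.eval_finsetSum]
  refine Finset.sum_congr rfl fun d _ => ?_
  rw [Polynomial.eval_mul, Polynomial.eval_C, Polynomial.eval_pow, Polynomial.eval_X, mul_assoc]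
  congr 1
  rw [SCL_weight, ← Finset.prod_pow_eq_pow_sum, ← Finset.prod_mul_distrib]
  refine Finset.prod_congr rfl fun v _ => ?_
  rw [mul_pow, ← pow_mul, mul_comm]

theorem SCL_coeff {V : Type} [Fintype V] (w : V → ℕ) (Q : MvPolynomial V ℂ) (z : V → ℂ) (n : ℕ) :
    (SCL_pol w Q z).coeff n =
      MvPolynomial.eval z (MvPolynomial.weightedHomogeneousComponent w n Q) := by
  classical
  rw [MvPolynomial.weightedHomogeneousComponent_apply, map_sum, SCL_pol,
    Polynomial.finsetSum_coeff, Finset.sum_filter]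
  refine Finset.sum_congr rfl fun d _ => ?_
  rw [Polynomial.coeff_C_mul, Polynomial.coeff_X_pow, MvPolynomial.eval_monomial,
    Finsupp.prod_fintype _ _ (fun i => by rw [pow_zero])]
  by_cases h : Finsupp.weight w d = n
  · rw [if_pos h, if_pos h.symm, mul_one]
  · rw [if_neg h, if_neg (Ne.symm h), mul_zero]

theorem p_SCL : Stmt_SCL := by
  intro V _ w F Q hFQ
  obtain ⟨n, hn⟩ : ∃ n, ¬ F ∣ MvPolynomial.weightedHomogeneousComponent w n Q := by
    by_contra hcon
    push Not at hcon
    apply hFQ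
    rw [← MvPolynomial.sum_weightedHomogeneousComponent w Q]
    exact finsum_induction (fun x => F ∣ x) (dvd_zero F) (fun x y hx hy => dvd_add hx hy) hcon
  refine ⟨n, MvPolynomial.weightedHomogeneousComponent w n Q,
    MvPolynomial.weightedHomogeneousComponent_isWeightedHomogeneous n Q, hn, fun z hz => ?_⟩
  have hp : SCL_pol w Q z ≠ 0 := by
    intro h0
    apply hz
    rw [← SCL_coeff, h0, Polynomial.coeff_zero]
  have hp2 : SCL_pol w Q z * Polynomial.X ≠ 0 := mul_ne_zero hp Polynomial.X_ne_zero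
  obtain ⟨l, hl⟩ : ∃ l : ℂ, (SCL_pol w Q z * Polynomial.X).eval l ≠ 0 := by
    by_contra hcon
    push Not at hcon
    exact hp2 (Polynomial.funext fun l => by rw [hcon l, Polynomial.eval_zero])
  rw [Polynomial.eval_mul, Polynomial.eval_X] at hl
  refine ⟨l, right_ne_zero_of_mul hl, ?_⟩
  rw [← SCL_eval]
  exact left_ne_zero_of_mul hl

end

end Pool.WH
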