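import Pool.Agent.Work.MP_dcf6a6_wh.B_SHM

/-!
# Block SHF: shifts and values of `F`
-/

open CategoryTheory AlgebraicGeometry Polynomial Pool.TVar

namespace Pool.WH

noncomputable section

theorem SHF_monomial {V : Type} [Fintype V] (w : V → ℕ) (e c : ℕ) (G : V → NR)
    (hG : ∀ v, G v ∈ bd (c * w v + 1)) (μ : V →₀ ℕ) (hμ : Finsupp.weight w μ = e) (z : ℂ) :
    sh (c * e) (MvPolynomial.aeval G (mp (MvPolynomial.monomial μ z))) =
      MvPolynomial.aeval (fun v => sh (c * w v) (G v))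
        (MvPolynomial.map (algebraMap ℂ KK) (MvPolynomial.monomial μ z)) := by
  unfold mp
  rw [MvPolynomial.map_monomial, MvPolynomial.map_monomial, MvPolynomial.aeval_monomial,
    MvPolynomial.aeval_monomial, ← Algebra.smul_def, SHM_smul]
  have h1 : c * e = ∑ v ∈ μ.support, μ v * (c * w v) := by
    rw [← hμ, Finsupp.weight_apply, Finsupp.sum, Finset.mul_sum]
    refine Finset.sum_congr rfl fun v _ => ?_
    rw [smul_eq_mul]
    ring
  have h2 : sh (c * e) (μ.prod fun v k => G v ^ k) =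
      μ.prod fun v k => sh (c * w v) (G v) ^ k := by
    rw [Finsupp.prod, Finsupp.prod, h1]
    rw [(SHM_prod μ.support (fun v => μ v * (c * w v)) (fun v => G v ^ μ v)
      (fun v _ => (SHM_pow (hG v) (μ v)).1)).2]
    exact Finset.prod_congr rfl fun v _ => (SHM_pow (hG v) (μ v)).2
  rw [h2, Polynomial.algebraMap_apply]
  congr 2

theorem p_SHF (hSHM : Stmt_SHM) (hBDF : Stmt_BDF) : Stmt_SHF := by
  intro V _ w F e c G hF hG
  have h1 : F = ∑ μ ∈ F.support, MvPolynomial.monomial μ (F.coeff μ) := F.as_sum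
  have h2 : ∀ μ ∈ F.support, Finsupp.weight w μ = e := fun μ hμ =>
    hF (MvPolynomial.mem_support_iff.mp hμ)
  have h3 : mp F = ∑ μ ∈ F.support, mp (MvPolynomial.monomial μ (F.coeff μ)) := by
    unfold mp
    rw [← map_sum, ← h1]
  have h4 : MvPolynomial.map (algebraMap ℂ KK) F =
      ∑ μ ∈ F.support, MvPolynomial.map (algebraMap ℂ KK) (MvPolynomial.monomial μ (F.coeff μ)) := by
    rw [← map_sum, ← h1]
  rw [h3, h4, map_sum, map_sum, SHM_sum]
  exact Finset.sum_congr rfl fun μ hμ => SHF_monomial w e c G hG μ (h2 μ hμ) (F.coeff μ)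

end

end Pool.WH
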