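import Pool.Agent.Work.MP_dcf6a6_wh.Interface

open CategoryTheory AlgebraicGeometry Polynomial Pool.TVar

namespace Pool.WH

/-- translation -/
noncomputable def SIN_tr (ι : Type) (a : ι → ℂ) : MvPolynomial ι ℂ →ₐ[ℂ] MvPolynomial ι ℂ :=
  MvPolynomial.aeval fun i => MvPolynomial.X i + MvPolynomial.C (a i)

theorem SIN_tr_inj (ι : Type) (a : ι → ℂ) : Function.Injective (SIN_tr ι a) := by
  have h : (SIN_tr ι fun i => -a i).comp (SIN_tr ι a) = AlgHom.id ℂ _ := by
    apply MvPolynomial.algHom_ext
    intro i
    simp [SIN_tr]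
  intro x y hxy
  have := congrArg (SIN_tr ι fun i => -a i) hxy
  have h1 := DFunLike.congr_fun h x
  have h2 := DFunLike.congr_fun h y
  simp only [AlgHom.comp_apply, AlgHom.id_apply] at h1 h2
  rw [← h1, ← h2, this]

/-- `x_i ↦ t β_i` -/
noncomputable def SIN_sc (ι : Type) : MvPolynomial ι ℂ →ₐ[ℂ] PowerSeries (KB ι) :=
  MvPolynomial.aeval fun i => PowerSeries.X *
    PowerSeries.C (algebraMap (MvPolynomial ι ℂ) (KB ι) (MvPolynomial.X i))

theorem SIN_comp (ι : Type) (a : ι → ℂ) :
    (MvPolynomial.aeval (gen ι a) : MvPolynomial ι ℂ →ₐ[ℂ] PowerSeries (KB ι)) =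
      (SIN_sc ι).comp (SIN_tr ι a) := by
  apply MvPolynomial.algHom_ext
  intro i
  simp only [MvPolynomial.aeval_X, AlgHom.comp_apply, SIN_tr, SIN_sc, gen, map_add]
  rw [add_comm]
  congr 1
  rw [MvPolynomial.algHom_C, PowerSeries.algebraMap_apply]

theorem SIN_coeff (ι : Type) (P : MvPolynomial ι ℂ) (n : ℕ) :
    PowerSeries.coeff n (SIN_sc ι P) =
      algebraMap (MvPolynomial ι ℂ) (KB ι) (MvPolynomial.homogeneousComponent n P) := by
  induction P using MvPolynomial.induction_on' with
  | monomial u c =>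
    have h1 : SIN_sc ι (MvPolynomial.monomial u c) = PowerSeries.X ^ u.degree *
        PowerSeries.C (algebraMap (MvPolynomial ι ℂ) (KB ι) (MvPolynomial.monomial u c)) := by
      rw [SIN_sc, MvPolynomial.aeval_monomial]
      have h2 : (u.prod fun i k => (PowerSeries.X * PowerSeries.C
          (algebraMap (MvPolynomial ι ℂ) (KB ι) (MvPolynomial.X i)) : PowerSeries (KB ι)) ^ k) =
          PowerSeries.X ^ u.degree * PowerSeries.C (algebraMap (MvPolynomial ι ℂ) (KB ι)
            (u.prod fun i k => (MvPolynomial.X i : MvPolynomial ι ℂ) ^ k)) := by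
        rw [Finsupp.prod, Finsupp.prod, map_prod, map_prod, Finsupp.degree_apply,
          ← Finset.prod_pow_eq_pow_sum, ← Finset.prod_mul_distrib]
        refine Finset.prod_congr rfl fun i _ => ?_
        rw [mul_pow, map_pow, map_pow]
      rw [h2, MvPolynomial.monomial_eq, map_mul, map_mul]
      have h3 : algebraMap ℂ (PowerSeries (KB ι)) c =
          PowerSeries.C (algebraMap (MvPolynomial ι ℂ) (KB ι) (MvPolynomial.C c)) := by
        rw [PowerSeries.algebraMap_apply]
        rfl
      rw [h3]
      ring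
    rw [h1]
    have h4 : MvPolynomial.homogeneousComponent n (MvPolynomial.monomial u c) =
        if u.degree = n then MvPolynomial.monomial u c else 0 := by
      classical
      ext v
      rw [MvPolynomial.coeff_homogeneousComponent]
      split_ifs with h h' h'
      · rfl
      · rw [MvPolynomial.coeff_monomial, MvPolynomial.coeff_zero, if_neg]
        rintro rfl
        exact h' h
      · rw [MvPolynomial.coeff_monomial, if_neg]
        rintro rfl
        exact h h'
      · rfl
    rw [h4]
    rw [mul_comm, PowerSeries.coeff_C_mul, PowerSeries.coeff_X_pow]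
    split_ifs with h h' h'
    · rw [mul_one]
    · exact absurd h.symm h'
    · exact absurd h'.symm h
    · rw [mul_zero, map_zero]
  | add p q hp hq => rw [map_add, map_add, map_add, map_add, hp, hq]

theorem p_SIN : Stmt_SIN := by
  intro ι a
  rw [SIN_comp]
  intro x y hxy
  apply SIN_tr_inj ι a
  rw [AlgHom.comp_apply, AlgHom.comp_apply] at hxy
  rw [← sub_eq_zero]
  rw [← sub_eq_zero, ← map_sub] at hxy
  set P := SIN_tr ι a x - SIN_tr ι a y with hP
  have h1 : ∀ n, MvPolynomial.homogeneousComponent n P = 0 := by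
    intro n
    have h2 := SIN_coeff ι P n
    rw [hxy, map_zero] at h2
    exact (map_eq_zero_iff _ (IsFractionRing.injective (MvPolynomial ι ℂ) (KB ι))).mp h2.symm
  rw [← MvPolynomial.sum_homogeneousComponent P]
  exact Finset.sum_eq_zero fun n _ => h1 n

end Pool.WH
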