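import Pool.Agent.Work.MP_dcf6a6_wh.Interface

/-! # Block SMR: smoothness in degree zero -/

open CategoryTheory AlgebraicGeometry Polynomial Pool.TVar

namespace Pool.WH

noncomputable section

/-- a retract of a formally smooth algebra of finite type is smooth -/
theorem SMR_retract {S T : Type} [CommRing S] [CommRing T] [Algebra ℂ S] [Algebra ℂ T]
    (i : T →ₐ[ℂ] S) (ρ : S →ₐ[ℂ] T) (hρ : ∀ z, ρ (i z) = z) (hS : Algebra.FormallySmooth ℂ S)
    (hF : Algebra.FiniteType ℂ S) : Algebra.Smooth ℂ T := by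
  have hF' : Algebra.FiniteType ℂ T := hF.of_surjective ρ fun z => ⟨i z, hρ z⟩
  have h1 : Algebra.FinitePresentation ℂ T := Algebra.FinitePresentation.of_finiteType.1 hF'
  have h2 : Algebra.FormallySmooth ℂ T := by
    refine .of_comp_surjective fun Q _ _ 𝔞 h𝔞 f ↦ ?_
    obtain ⟨g, hg⟩ := Algebra.FormallySmooth.comp_surjective ℂ S 𝔞 h𝔞 (f.comp ρ)
    refine ⟨g.comp i, ?_⟩
    rw [← AlgHom.comp_assoc, hg]
    apply AlgHom.ext
    intro z
    simp only [AlgHom.comp_apply, hρ]
  exact ⟨h2, h1⟩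

theorem p_SMR (hRET : Pool.TVar.Stmt_RET) (_hAFT : Pool.GQ.Stmt_AFT) : Stmt_SMR := by
  intro A _ _ _ 𝒜 _ h α β m s hF _ hh _ hα hβ hα' hβ' hfs
  obtain ⟨ρ, hρ1, _⟩ := hRET 𝒜 h α β m s hh hα hβ hα' hβ'
  let : Algebra ℂ (HomogeneousLocalization.Away 𝒜 h) := (strAway 𝒜 h).toAlgebra
  have hcm : ∀ c : ℂ, ((strAway 𝒜 h) c).val = algebraMap ℂ (Localization.Away h) c := by
    intro c
    rw [IsScalarTower.algebraMap_apply ℂ A (Localization.Away h)]
    rfl
  have hFT : Algebra.FiniteType ℂ (Localization.Away h) := by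
    have h2 : Algebra.FiniteType A (Localization.Away h) :=
      IsLocalization.finiteType_of_monoid_fg (Submonoid.powers h) _
    exact Algebra.FiniteType.trans hF h2
  exact SMR_retract (T := HomogeneousLocalization.Away 𝒜 h) (S := Localization.Away h)
    { toRingHom := algebraMap (HomogeneousLocalization.Away 𝒜 h) (Localization.Away h)
      commutes' := fun c => hcm c }
    { toRingHom := ρ
      commutes' := fun c => by
        change ρ (algebraMap ℂ (Localization.Away h) c) = strAway 𝒜 h c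
        rw [← hcm c, hρ1] }
    (fun z => hρ1 z) hfs hFT

end

end Pool.WH
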