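import Pool.Agent.Work.MP_dcf6a6_wh.Interface

open CategoryTheory AlgebraicGeometry Polynomial Pool.TVar

namespace Pool.WH

theorem p_SPC (hDSC : Stmt_DSC) (hFMP : Stmt_FMP) (hEXT : Pool.GQ.Stmt_EXT) : Stmt_SPC := by
  intro V _ w d c B R _ _ _ _ _ _ hBft θ hθ F g hFree
  classical
  obtain ⟨E, hE⟩ := hDSC V w d c R (MvPolynomial.map (θ : B →+* R) F) g hFree
  obtain ⟨s, hs⟩ := hBft.out
  let S' : Subalgebra ℂ R := Algebra.adjoin ℂ ((E : Set R) ∪ θ '' (s : Set B))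
  have hES : (E : Set R) ⊆ S' := fun x hx => Algebra.subset_adjoin (Or.inl hx)
  have hθS : ∀ x, θ x ∈ S' := by
    intro x
    have h1 : x ∈ Algebra.adjoin ℂ (s : Set B) := by rw [hs]; trivial
    have h2 : θ x ∈ (Algebra.adjoin ℂ (s : Set B)).map θ := ⟨x, h1, rfl⟩
    rw [AlgHom.map_adjoin] at h2
    exact Algebra.adjoin_mono Set.subset_union_right h2
  let θ' : B →ₐ[ℂ] S' := θ.codRestrict S' hθS
  have hθ'inj : Function.Injective θ' := fun x y h => hθ (congrArg Subtype.val h)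
  have hS'ft : Algebra.FiniteType ℂ S' := by
    rw [← Subalgebra.fg_iff_finiteType]
    refine ⟨E ∪ s.image θ, ?_⟩
    rw [Finset.coe_union, Finset.coe_image]
  have hcomp : ((S'.val : S' →+* R)).comp (θ' : B →+* S') = (θ : B →+* R) := by
    ext x; rfl
  have hF' : MvPolynomial.map (S'.val : S' →+* R) (MvPolynomial.map (θ' : B →+* S') F) =
      MvPolynomial.map (θ : B →+* R) F := by
    rw [MvPolynomial.map_map, hcomp]
  obtain ⟨g', hg', hFree'⟩ := hE S' hES _ hF'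
  obtain ⟨b, hb, hχ⟩ := hEXT B S' hBft hS'ft θ' hθ'inj
  refine ⟨b, hb, ?_⟩
  intro χ hχb
  obtain ⟨χ', hχ'⟩ := hχ χ hχb
  refine ⟨fun v => (g' v).map (χ' : S' →+* ℂ), ?_, ?_⟩
  · have := hFMP V w d c S' ℂ (χ' : S' →+* ℂ) _ _ hFree'
    rw [MvPolynomial.map_map] at this
    have h3 : (χ' : S' →+* ℂ).comp (θ' : B →+* S') = (χ : B →+* ℂ) := by
      ext x
      exact hχ' x
    rwa [h3] at this
  · intro v n α hα
    rw [coeff_map]
    have h4 : (g' v).coeff n = θ' α := by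
      apply Subtype.val_injective
      show ((S'.val : S' →+* R)) ((g' v).coeff n) = θ α
      rw [← coeff_map, hg', hα]
    rw [h4]
    exact hχ' α

end Pool.WH
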