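import Pool.Agent.Work.MP_dcf6a6_wh.Interface

/-!
# Block TDG: the degrees of the toric curve and its equation
-/

open CategoryTheory AlgebraicGeometry Polynomial Pool.TVar

namespace Pool.WH

theorem p_TDG : Stmt_TDG := by
  intro V _ _ w d I b P Q hyp hT
  have hsupp : ∑ j ∈ b.support, b j * w j = d := by
    rw [← hyp.b_deg]
    refine Finset.sum_subset (Finset.subset_univ _) fun v _ hv => ?_
    rw [Finsupp.notMem_support_iff.1 hv, zero_mul]
  have hmon : ∀ v, (tc I b P Q v).Monic := by
    intro v
    unfold tc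
    split_ifs
    · exact monic_prod_of_monic _ _ fun j _ => (hT.P_monic v j).pow _
    · exact monic_prod_of_monic _ _ fun i _ => hT.P_monic i v
    · exact hT.Q_monic v
  refine ⟨fun v => ⟨hmon v, ?_⟩, ?_⟩
  · unfold tc
    split_ifs
    · rw [natDegree_prod_of_monic _ _ fun j _ => (hT.P_monic v j).pow _]
      have h1 : ∀ j ∈ b.support, (P v j ^ b j).natDegree = 2 * w v * (b j * w j) := by
        intro j _
        rw [(hT.P_monic v j).natDegree_pow, hT.P_deg]
        ring
      rw [Finset.sum_congr rfl h1, ← Finset.mul_sum, hsupp]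
      ring
    · rw [natDegree_prod_of_monic _ _ fun i _ => hT.P_monic i v]
      have h1 : ∀ i ∈ I, (P i v).natDegree = w i * (2 * w v) := by
        intro i _
        rw [hT.P_deg]
        ring
      rw [Finset.sum_congr rfl h1, ← Finset.sum_mul, hyp.I_deg]
      ring
    · exact hT.Q_deg v
  · have h1 : ∀ v ∈ I, tc I b P Q v = ∏ j ∈ b.support, P v j ^ b j := by
      intro v hv
      rw [tc, if_pos hv]
    have h2 : ∀ v ∈ b.support, tc I b P Q v ^ b v = ∏ i ∈ I, P i v ^ b v := by
      intro v hv
      have h3 : v ∉ I := fun h => (Finsupp.mem_support_iff.1 hv) (hyp.disj v h)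
      rw [tc, if_neg h3, if_pos hv, Finset.prod_pow]
    rw [Finset.prod_congr rfl h1, Finset.prod_congr rfl h2, Finset.prod_comm]

end Pool.WH
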