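import Pool.Agent.Work.MP_dcf6a6_wh.Interface

/-!
# Block TDX: existence of the building blocks
-/

open CategoryTheory AlgebraicGeometry Polynomial Pool.TVar

namespace Pool.WH

noncomputable section

theorem TDX_cop {K : Type} {s : K → ℂ} (hs : Function.Injective s) (f g : ℕ → K) (m n : ℕ)
    (h : ∀ i j, f i ≠ g j) :
    IsCoprime (∏ k ∈ Finset.range m, (X - C (s (f k)))) (∏ k ∈ Finset.range n, (X - C (s (g k)))) := by
  refine IsCoprime.prod_left fun i _ => IsCoprime.prod_right fun j _ => ?_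
  exact Polynomial.pairwise_coprime_X_sub_C hs (h i j)

theorem p_TDX : Stmt_TDX := by
  intro V _ w d
  obtain ⟨e, he⟩ := Countable.exists_injective_nat ((V × V × ℕ) ⊕ (V × ℕ))
  have hs : Function.Injective (fun x => ((e x : ℕ) : ℂ)) := fun x y h => he (by
    have h' : ((e x : ℕ) : ℂ) = ((e y : ℕ) : ℂ) := h
    exact_mod_cast h')
  refine ⟨fun i j => ∏ k ∈ Finset.range (2 * (w i * w j)), (X - C ((e (Sum.inl (i, j, k)) : ℕ) : ℂ)),
    fun v => ∏ k ∈ Finset.range (2 * d * w v), (X - C ((e (Sum.inr (v, k)) : ℕ) : ℂ)), ?_⟩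
  have hm : ∀ (f : ℕ → ℂ) (n : ℕ), (∏ k ∈ Finset.range n, (X - C (f k))).Monic ∧
      (∏ k ∈ Finset.range n, (X - C (f k))).natDegree = n := by
    intro f n
    refine ⟨monic_prod_of_monic _ _ fun k _ => monic_X_sub_C _, ?_⟩
    rw [natDegree_prod_of_monic _ _ fun k _ => monic_X_sub_C _]
    simp
  refine ⟨fun i j => (hm _ _).1, fun i j => (hm _ _).2, fun v => (hm _ _).1, fun v => (hm _ _).2,
    fun i j i' j' h => ?_, fun i j v => ?_, fun v v' h => ?_⟩
  · exact TDX_cop hs (fun k => Sum.inl (i, j, k)) (fun k => Sum.inl (i', j', k)) _ _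
      fun k l hkl => h (by
        have := Sum.inl.inj hkl
        simp only [Prod.mk.injEq] at this
        rw [this.1, this.2.1])
  · exact TDX_cop hs (fun k => Sum.inl (i, j, k)) (fun k => Sum.inr (v, k)) _ _
      fun k l hkl => by cases hkl
  · exact TDX_cop hs (fun k => Sum.inr (v, k)) (fun k => Sum.inr (v', k)) _ _
      fun k l hkl => h (by
        have := Sum.inr.inj hkl
        simp only [Prod.mk.injEq] at this
        exact this.1)

end

end Pool.WH
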