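import Pool.Agent.Work.MP_dcf6a6_wh.Interface

/-!
# Block TOR: the toric curve is free
-/

open CategoryTheory AlgebraicGeometry Polynomial Pool.TVar

namespace Pool.WH

theorem TOR_mem {p : ℂ[X]} {n : ℕ} (h : p.natDegree = n) : p ∈ degreeLT ℂ (n + 1) := by
  rw [mem_degreeLT]
  refine lt_of_le_of_lt degree_le_natDegree ?_
  rw [h]
  exact_mod_cast Nat.lt_succ_self n

theorem p_TOR (hTDX : Stmt_TDX) (hTDG : Stmt_TDG) (hTVF : Stmt_TVF) (hTZR : Stmt_TZR)
    (hGN0 : Stmt_GN0) : Stmt_TOR := by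
  intro V _ _ w d I b hyp
  obtain ⟨P, Q, hT⟩ := hTDX V w d
  obtain ⟨h1, h2⟩ := hTDG V w d I b P Q hyp hT
  refine ⟨tc I b P Q, ?_, ?_, hTVF V w d I b P Q hyp hT, ?_⟩
  · intro v
    exact TOR_mem (h1 v).2
  · have h3 : MvPolynomial.aeval (tc I b P Q) (bin I b) =
        ∏ v ∈ I, tc I b P Q v - ∏ v ∈ b.support, tc I b P Q v ^ b v := by
      rw [bin, map_sub, map_prod, MvPolynomial.aeval_monomial, map_one, one_mul, Finsupp.prod]
      simp only [MvPolynomial.aeval_X]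
    rw [h3, h2, sub_self]
  · have huniv : (Finset.univ : Finset V).gcd w = 1 := by
      obtain ⟨l, _⟩ := hyp.I_ne
      have h4 : (Finset.univ : Finset V).gcd w ∣ (Finset.univ.erase l).gcd w :=
        Finset.gcd_mono (Finset.erase_subset _ _)
      rw [hyp.wf1 l] at h4
      exact Nat.dvd_one.1 h4
    have hmon : ∀ T : GT w, (∏ v ∈ T.1, tc I b P Q v).Monic := fun T =>
      monic_prod_of_monic _ _ fun v _ => (h1 v).1
    have hdeg : ∀ T : GT w, (∏ v ∈ T.1, tc I b P Q v).natDegree = 2 * d * ∑ v ∈ T.1, w v := by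
      intro T
      rw [natDegree_prod_of_monic _ _ fun v _ => (h1 v).1, Finset.mul_sum]
      exact Finset.sum_congr rfl fun v _ => (h1 v).2
    refine hGN0 (GT w) (fun T => ∏ v ∈ T.1, tc I b P Q v) (fun T => 2 * d * ∑ v ∈ T.1, w v)
      ⟨Finset.univ, huniv⟩ (hmon _) (hdeg _) ?_ ?_ ?_
    · intro T
      exact Nat.mul_le_mul_left _ (Finset.sum_le_sum_of_subset (Finset.subset_univ _))
    · intro T
      exact TOR_mem (hdeg T)
    · intro z
      obtain ⟨T, hT'⟩ := hTZR V w d I b P Q hyp hT z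
      refine ⟨T, ?_⟩
      rw [eval_prod]
      exact Finset.prod_ne_zero_iff.2 fun v hv => hT' v hv

end Pool.WH
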