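import Pool.Agent.Work.MP_dcf6a6_wh.Interface

/-! # Block TVF: the toric curve is very free (MP_dcf6a6, THEOREM WH) -/

open CategoryTheory AlgebraicGeometry Polynomial Pool.TVar

namespace Pool.WH

theorem TVF_lt {f : ℂ[X]} {M : ℕ} (h : f.natDegree ≤ M) (h0 : f.coeff M = 0) :
    f ∈ degreeLT ℂ M := by
  rw [mem_degreeLT, degree_lt_iff_coeff_zero]
  intro k hk
  rcases hk.eq_or_lt with h1 | h1
  · rw [← h1]
    exact h0
  · exact coeff_eq_zero_of_natDegree_lt (h.trans_lt h1)

theorem TVF_nd {f : ℂ[X]} {M : ℕ} (hM : 0 < M) (h : f ∈ degreeLT ℂ M) : f.natDegree ≤ M - 1 := by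
  rw [mem_degreeLT] at h
  by_cases h0 : f = 0
  · rw [h0, natDegree_zero]
    exact Nat.zero_le _
  · have := (natDegree_lt_iff_degree_lt h0).2 h
    omega

/-- the derivative of the product -/
theorem TVF_pd1 {V : Type} [DecidableEq V] (I : Finset V) (v : V) :
    MvPolynomial.pderiv v (∏ u ∈ I, (MvPolynomial.X u : MvPolynomial V ℂ)) =
      if v ∈ I then ∏ u ∈ I.erase v, MvPolynomial.X u else 0 := by
  induction I using Finset.induction_on with
  | empty => simp
  | insert a s ha ih =>
    rw [Finset.prod_insert ha, Derivation.leibniz, ih]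
    by_cases hv : v = a
    · subst hv
      rw [MvPolynomial.pderiv_X_self, if_neg ha, if_pos (Finset.mem_insert_self _ _),
        Finset.erase_insert ha]
      simp
    · rw [MvPolynomial.pderiv_X_of_ne (Ne.symm hv)]
      by_cases hs : v ∈ s
      · rw [if_pos hs, if_pos (Finset.mem_insert_of_mem hs), Finset.erase_insert_of_ne (Ne.symm hv),
          Finset.prod_insert (fun h => ha (Finset.mem_of_mem_erase h))]
        simp
      · rw [if_neg hs, if_neg]
        · simp
        · rw [Finset.mem_insert]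
          rintro (h | h)
          · exact hv h
          · exact hs h

/-- `g j * ∂_j (x ^ b) (g) = b j * g ^ b` -/
theorem TVF_pd2 {V : Type} [DecidableEq V] (b : V →₀ ℕ) (g : V → ℂ[X]) (v : V) (hv : b v ≠ 0) :
    MvPolynomial.aeval g (MvPolynomial.pderiv v (MvPolynomial.monomial b (1 : ℂ))) =
      C (b v : ℂ) * (g v ^ (b v - 1) * ∏ u ∈ b.support.erase v, g u ^ b u) := by
  rw [MvPolynomial.pderiv_monomial, MvPolynomial.aeval_monomial, one_mul]
  congr 1
  have h1 : (b - Finsupp.single v 1).prod (fun i k => g i ^ k) =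
      ∏ u ∈ b.support, g u ^ ((b - Finsupp.single v 1 : V →₀ ℕ) u) := by
    apply Finsupp.prod_of_support_subset
    · intro u hu
      rw [Finsupp.mem_support_iff] at hu ⊢
      intro h
      apply hu
      rw [Finsupp.tsub_apply, h, Nat.zero_sub]
    · intro i _
      exact pow_zero _
  rw [h1, ← Finset.mul_prod_erase _ _ (Finsupp.mem_support_iff.2 hv)]
  congr 1
  · rw [Finsupp.tsub_apply, Finsupp.single_eq_same]
  · refine Finset.prod_congr rfl fun u hu => ?_
    rw [Finsupp.tsub_apply, Finsupp.single_eq_of_ne (Finset.ne_of_mem_erase hu), Nat.sub_zero]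

theorem p_TVF (hPFR : Stmt_PFR) (hTDG : Stmt_TDG) : Stmt_TVF := by
  intro V _ _ w d I b P Q hH hT
  obtain ⟨hgm, hprod⟩ := hTDG V w d I b P Q hH hT
  set g : V → ℂ[X] := tc I b P Q with hg
  have hd : 0 < d := by
    rw [← hH.I_deg]
    exact Finset.sum_pos (fun v _ => hH.w_pos v) hH.I_ne
  -- a variable in the support of `b`
  obtain ⟨j0, hj0⟩ : ∃ j, b j ≠ 0 := by
    by_contra hcon
    push Not at hcon
    have := hH.b_deg
    simp only [hcon, zero_mul, Finset.sum_const_zero] at this
    omega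
  have hj0I : j0 ∉ I := fun h => hj0 (hH.disj j0 h)
  have hj0s : j0 ∈ b.support := Finsupp.mem_support_iff.2 hj0
  -- the cofactors
  let Mi : V → ℂ[X] := fun i => ∏ u ∈ I.erase i, g u
  let Mj : ℂ[X] := g j0 ^ (b j0 - 1) * ∏ u ∈ b.support.erase j0, g u ^ b u
  have hMi : ∀ i ∈ I, g i * Mi i = ∏ v ∈ I, g v := fun i hi => Finset.mul_prod_erase I g hi
  have hMj : g j0 * Mj = ∏ v ∈ I, g v := by
    rw [hprod, ← Finset.mul_prod_erase _ _ hj0s]
    change g j0 * (g j0 ^ (b j0 - 1) * _) = _
    rw [← mul_assoc, mul_pow_sub_one hj0]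
  -- the values of the partial derivatives
  have hpI : ∀ i ∈ I, MvPolynomial.aeval g (MvPolynomial.pderiv i (bin I b)) = Mi i := by
    intro i hi
    have h1 : MvPolynomial.pderiv i (MvPolynomial.monomial b (1 : ℂ)) = 0 := by
      rw [MvPolynomial.pderiv_monomial, hH.disj i hi]
      simp
    rw [bin, map_sub, h1, sub_zero, TVF_pd1, if_pos hi, map_prod]
    simp only [MvPolynomial.aeval_X]
    rfl
  have hpj : MvPolynomial.aeval g (MvPolynomial.pderiv j0 (bin I b)) = -(C (b j0 : ℂ) * Mj) := by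
    rw [bin, map_sub, TVF_pd1, if_neg hj0I, zero_sub, map_neg, TVF_pd2 b g j0 hj0]
  -- degrees
  have hMim : ∀ i ∈ I, (Mi i).Monic := fun i _ => monic_prod_of_monic _ _ fun u _ => (hgm u).1
  have hIdeg : ∑ v ∈ I, 2 * d * w v = 2 * d * d := by
    rw [← Finset.mul_sum, hH.I_deg]
  have hMid : ∀ i ∈ I, (Mi i).natDegree + 2 * d * w i = 2 * d * d := by
    intro i hi
    have h1 : (Mi i).natDegree = ∑ u ∈ I.erase i, 2 * d * w u := by
      change (∏ u ∈ I.erase i, g u).natDegree = _
      rw [natDegree_prod_of_monic _ _ fun u _ => (hgm u).1]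
      exact Finset.sum_congr rfl fun u _ => (hgm u).2
    rw [h1, Finset.sum_erase_add I (fun u => 2 * d * w u) hi, hIdeg]
  -- the factor `g i / P i j0`
  let Gi : V → ℂ[X] := fun i => P i j0 ^ (b j0 - 1) * ∏ j ∈ b.support.erase j0, P i j ^ b j
  have hGi : ∀ i ∈ I, P i j0 * Gi i = g i := by
    intro i hi
    have h1 : g i = ∏ j ∈ b.support, P i j ^ b j := by
      rw [hg]
      unfold tc
      rw [if_pos hi]
    rw [h1, ← Finset.mul_prod_erase _ _ hj0s]
    change P i j0 * (P i j0 ^ (b j0 - 1) * _) = _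
    rw [← mul_assoc, mul_pow_sub_one hj0]
  have hGim : ∀ i, (Gi i).Monic := fun i =>
    ((hT.P_monic i j0).pow _).mul (monic_prod_of_monic _ _ fun j _ => (hT.P_monic i j).pow _)
  have hGid : ∀ i ∈ I, 2 * (w i * w j0) + (Gi i).natDegree = 2 * d * w i := by
    intro i hi
    rw [← (hgm i).2, ← hGi i hi, (hT.P_monic i j0).natDegree_mul (hGim i), hT.P_deg]
  -- the product at `j0`
  have hgj : g j0 = ∏ i ∈ I, P i j0 := by
    rw [hg]
    unfold tc
    rw [if_neg hj0I, if_pos hj0s]
  let Ei : V → ℂ[X] := fun i => ∏ i' ∈ I.erase i, P i' j0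
  have hEi : ∀ i ∈ I, P i j0 * Ei i = g j0 := by
    intro i hi
    rw [hgj]
    exact Finset.mul_prod_erase I (fun i => P i j0) hi
  have hEim : ∀ i, (Ei i).Monic := fun i => monic_prod_of_monic _ _ fun j _ => hT.P_monic j j0
  have hEid : ∀ i ∈ I, 2 * (w i * w j0) + (Ei i).natDegree = 2 * d * w j0 := by
    intro i hi
    rw [← (hgm j0).2, ← hEi i hi, (hT.P_monic i j0).natDegree_mul (hEim i), hT.P_deg]
  have hkey : ∀ i ∈ I, Gi i * Mi i = Ei i * Mj := by
    intro i hi
    apply mul_left_cancel₀ (hT.P_monic i j0).ne_zero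
    calc P i j0 * (Gi i * Mi i) = (P i j0 * Gi i) * Mi i := by ring
      _ = (P i j0 * Ei i) * Mj := by rw [hGi i hi, hEi i hi, hMi i hi, hMj]
      _ = P i j0 * (Ei i * Mj) := by ring
  have hwpos : ∀ v, 0 < 2 * d * w v := fun v => Nat.mul_pos (by omega) (hH.w_pos v)
  have haw : ∀ i, 0 < 2 * (w i * w j0) := fun i =>
    Nat.mul_pos (by omega) (Nat.mul_pos (hH.w_pos i) (hH.w_pos j0))
  have hdd : 0 < 2 * d * d := Nat.mul_pos (by omega) hd
  -- partial fractions
  intro q hq
  have hq' : q ∈ degreeLT ℂ (∑ i ∈ I, (g i).natDegree) := by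
    have h1 : ∑ i ∈ I, (g i).natDegree = 2 * d * d := by
      rw [← hIdeg]
      exact Finset.sum_congr rfl fun i _ => (hgm i).2
    rw [h1]
    exact degreeLT_mono (Nat.sub_le _ _) hq
  have hcop : ∀ i ∈ I, ∀ j ∈ I, i ≠ j → IsCoprime (g i) (g j) := by
    intro i hi i' hi' hne
    have h1 : ∀ i ∈ I, g i = ∏ j ∈ b.support, P i j ^ b j := by
      intro i hi
      rw [hg]
      unfold tc
      rw [if_pos hi]
    rw [h1 i hi, h1 i' hi']
    refine IsCoprime.prod_left fun j _ => IsCoprime.prod_right fun j' _ => ?_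
    exact (hT.PP i j i' j' (fun h => hne (Prod.mk.inj h).1)).pow
  obtain ⟨r, hr, hqr⟩ := hPFR V I g (fun i _ => (hgm i).1) hcop q hq'
  · have hrn : ∀ i ∈ I, (r i).natDegree ≤ 2 * d * w i - 1 := by
      intro i hi
      have h1 := hr i hi
      rw [(hgm i).2] at h1
      exact TVF_nd (hwpos i) h1
    have hκ : ∑ i ∈ I, (r i).coeff (2 * d * w i - 1) = 0 := by
      have h1 : q.coeff (2 * d * d - 1) = 0 := by
        rw [mem_degreeLT] at hq
        exact coeff_eq_zero_of_degree_lt hq
      rw [hqr, finsetSum_coeff] at h1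
      rw [← h1]
      refine Finset.sum_congr rfl fun i hi => ?_
      have h2 := hMid i hi
      have h3 := hwpos i
      have h4 : 2 * d * d - 1 = (2 * d * w i - 1) + (Mi i).natDegree := by omega
      rw [h4]
      have h5 := coeff_mul_add_eq_of_natDegree_le (hrn i hi) (le_refl (Mi i).natDegree)
      rw [(hMim i hi).coeff_natDegree, mul_one] at h5
      exact h5.symm
    let h : V → ℂ[X] := fun i => r i - C ((r i).coeff (2 * d * w i - 1)) *
      (X ^ (2 * (w i * w j0) - 1) * Gi i)
    have hh : ∀ i ∈ I, h i ∈ degreeLT ℂ (2 * d * w i - 1) := by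
      intro i hi
      have h1 := hGid i hi
      have h2 := haw i
      have h3 : 2 * d * w i - 1 = (2 * (w i * w j0) - 1) + (Gi i).natDegree := by omega
      have h4 : (X ^ (2 * (w i * w j0) - 1) * Gi i).natDegree = 2 * d * w i - 1 := by
        rw [(monic_X_pow _).natDegree_mul (hGim i), natDegree_X_pow, h3]
      have h5 : (X ^ (2 * (w i * w j0) - 1) * Gi i).Monic := (monic_X_pow _).mul (hGim i)
      apply TVF_lt
      · refine (natDegree_sub_le _ _).trans (max_le (hrn i hi) ?_)
        exact (natDegree_C_mul_le _ _).trans h4.le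
      · change (r i - C _ * _).coeff _ = 0
        rw [coeff_sub, coeff_C_mul]
        have h6 := h5.coeff_natDegree
        rw [h4] at h6
        rw [h6, mul_one, sub_self]
    let η : ℂ[X] := ∑ i ∈ I, C ((r i).coeff (2 * d * w i - 1)) *
      (X ^ (2 * (w i * w j0) - 1) * Ei i)
    have hη : η ∈ degreeLT ℂ (2 * d * w j0 - 1) := by
      have h4 : ∀ i ∈ I, (X ^ (2 * (w i * w j0) - 1) * Ei i).natDegree = 2 * d * w j0 - 1 := by
        intro i hi
        have h1 := hEid i hi
        have h2 := haw i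
        rw [(monic_X_pow _).natDegree_mul (hEim i), natDegree_X_pow]
        omega
      have h5 : ∀ i, (X ^ (2 * (w i * w j0) - 1) * Ei i).Monic := fun i =>
        (monic_X_pow _).mul (hEim i)
      apply TVF_lt
      · apply natDegree_sum_le_of_forall_le
        intro i hi
        exact (natDegree_C_mul_le _ _).trans (h4 i hi).le
      · rw [finsetSum_coeff, ← hκ]
        refine Finset.sum_congr rfl fun i hi => ?_
        have h6 := (h5 i).coeff_natDegree
        rw [h4 i hi] at h6
        rw [coeff_C_mul, h6, mul_one]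
    have hb0 : (b j0 : ℂ) ≠ 0 := by exact_mod_cast hj0
    refine ⟨fun v => if v ∈ I then h v else if v = j0 then C (-(b j0 : ℂ)⁻¹) * η else 0, ?_, ?_⟩
    · intro v
      change (if v ∈ I then h v else if v = j0 then C (-(b j0 : ℂ)⁻¹) * η else 0) ∈ _
      split_ifs with h1 h2
      · exact hh v h1
      · subst h2
        rw [← smul_eq_C_mul]
        exact Submodule.smul_mem _ _ hη
      · exact Submodule.zero_mem _
    · have h1 : ∀ v : V, (if v ∈ I then h v else if v = j0 then C (-(b j0 : ℂ)⁻¹) * η else 0) *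
          MvPolynomial.aeval g (MvPolynomial.pderiv v (bin I b)) =
          (if v ∈ I then h v * Mi v else 0) + (if v = j0 then η * Mj else 0) := by
        intro v
        by_cases hv : v ∈ I
        · have hvj : v ≠ j0 := fun h' => hj0I (h' ▸ hv)
          rw [if_pos hv, if_pos hv, if_neg hvj, add_zero, hpI v hv]
        · rw [if_neg hv, if_neg hv, zero_add]
          by_cases hvj : v = j0
          · rw [if_pos hvj, if_pos hvj, hvj, hpj]
            have h2 : C (-(b j0 : ℂ)⁻¹) * C (b j0 : ℂ) = (-1 : ℂ[X]) := by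
              rw [← C_mul, neg_mul, inv_mul_cancel₀ hb0, C_neg, C_1]
            calc C (-(b j0 : ℂ)⁻¹) * η * -(C (b j0 : ℂ) * Mj) =
                -(C (-(b j0 : ℂ)⁻¹) * C (b j0 : ℂ)) * (η * Mj) := by ring
              _ = η * Mj := by rw [h2, neg_neg, one_mul]
          · rw [if_neg hvj, if_neg hvj, zero_mul]
      rw [Finset.sum_congr rfl fun v _ => h1 v, Finset.sum_add_distrib, Finset.sum_ite_mem,
        Finset.univ_inter, Finset.sum_ite_eq' Finset.univ j0, if_pos (Finset.mem_univ _), hqr]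
      change ∑ i ∈ I, (r i - _) * Mi i + (∑ i ∈ I, _) * Mj = _
      rw [Finset.sum_mul, ← Finset.sum_add_distrib]
      refine Finset.sum_congr rfl fun i hi => ?_
      have h3 := hkey i hi
      change _ = r i * Mi i
      linear_combination (-(C ((r i).coeff (2 * d * w i - 1)) * X ^ (2 * (w i * w j0) - 1))) * h3

end Pool.WH
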