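import Pool.Agent.Work.MP_dcf6a6_wh.Interface

/-! # Block TZR: the zeros of the toric curve (MP_dcf6a6, THEOREM WH) -/

open CategoryTheory AlgebraicGeometry Polynomial Pool.TVar

namespace Pool.WH

theorem TZR_cop {p q : ℂ[X]} (h : IsCoprime p q) {z : ℂ} (hp : p.eval z = 0) : q.eval z ≠ 0 := by
  intro hq
  obtain ⟨a, b, hab⟩ := h
  have h1 := congrArg (fun r : ℂ[X] => r.eval z) hab
  simp only [eval_add, eval_mul, hp, hq, mul_zero, add_zero, eval_one] at h1
  exact zero_ne_one h1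

/-- the values of the toric curve -/
theorem TZR_ne {V : Type} [DecidableEq V] (I : Finset V) (b : V →₀ ℕ) (P : V → V → ℂ[X])
    (Q : V → ℂ[X]) (z : ℂ) (v : V) (h1 : v ∈ I → ∀ j ∈ b.support, (P v j).eval z ≠ 0)
    (h2 : v ∈ b.support → ∀ i ∈ I, (P i v).eval z ≠ 0) (h3 : (Q v).eval z ≠ 0) :
    (tc I b P Q v).eval z ≠ 0 := by
  unfold tc
  by_cases hv : v ∈ I
  · rw [if_pos hv, eval_prod]
    refine Finset.prod_ne_zero_iff.2 fun j hj => ?_
    rw [eval_pow]
    exact pow_ne_zero _ (h1 hv j hj)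
  · rw [if_neg hv]
    by_cases hb : v ∈ b.support
    · rw [if_pos hb, eval_prod]
      exact Finset.prod_ne_zero_iff.2 fun i hi => h2 hb i hi
    · rw [if_neg hb]
      exact h3

theorem p_TZR : Stmt_TZR := by
  intro V _ _ w d I b P Q hH hT z
  by_cases hA : ∃ i ∈ I, ∃ j ∈ b.support, (P i j).eval z = 0
  · obtain ⟨i, hi, j, hj, hz⟩ := hA
    refine ⟨⟨(Finset.univ.erase i).erase j, hH.wf2 i hi j (Finsupp.mem_support_iff.1 hj)⟩, ?_⟩
    intro v hv
    have hvj : v ≠ j := (Finset.mem_erase.1 hv).1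
    have hvi : v ≠ i := (Finset.mem_erase.1 (Finset.mem_erase.1 hv).2).1
    refine TZR_ne I b P Q z v ?_ ?_ (TZR_cop (hT.PQ i j v) hz)
    · intro _ j' _
      refine TZR_cop (hT.PP i j v j' ?_) hz
      intro h
      exact hvi (congrArg Prod.fst h).symm
    · intro _ i' _
      refine TZR_cop (hT.PP i j i' v ?_) hz
      intro h
      exact hvj (congrArg Prod.snd h).symm
  · have hA' : ∀ i ∈ I, ∀ j ∈ b.support, (P i j).eval z ≠ 0 := fun i hi j hj h =>
      hA ⟨i, hi, j, hj, h⟩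
    by_cases hB : ∃ l, (Q l).eval z = 0
    · obtain ⟨l, hl⟩ := hB
      refine ⟨⟨Finset.univ.erase l, hH.wf1 l⟩, ?_⟩
      intro v hv
      have hvl : v ≠ l := (Finset.mem_erase.1 hv).1
      exact TZR_ne I b P Q z v (fun h j hj => hA' v h j hj) (fun h i hi => hA' i hi v h)
        (TZR_cop (hT.QQ l v (Ne.symm hvl)) hl)
    · obtain ⟨l, hl⟩ := hH.I_ne
      refine ⟨⟨Finset.univ.erase l, hH.wf1 l⟩, ?_⟩
      intro v _
      exact TZR_ne I b P Q z v (fun h j hj => hA' v h j hj) (fun h i hi => hA' i hi v h)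
        (fun h => hB ⟨v, h⟩)

end Pool.WH
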