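import Pool.Agent.Work.MP_dcf6a6_wh.Interface2

/-!
# Block VLR: specialisation of factorisations along a valuation ring (helper4)
-/

open CategoryTheory AlgebraicGeometry Polynomial Pool.TVar

namespace Pool.WH

noncomputable section

/-- the inclusion of a valuation subring -/
abbrev VLR_inc {K : Type} [Field K] (A : ValuationSubring K) : A →+* K := A.subtype

/-- a nonzero polynomial is a constant times a polynomial over the valuation ring with nonzero
reduction -/
theorem VLR_scale {V K : Type} [Field K] (A : ValuationSubring K) (G : MvPolynomial V K)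
    (hG : G ≠ 0) : ∃ (c : K) (G' : MvPolynomial V A), c ≠ 0 ∧
      G = MvPolynomial.C c * MvPolynomial.map (VLR_inc A) G' ∧
      MvPolynomial.map (IsLocalRing.residue A) G' ≠ 0 := by
  classical
  have hne : G.support.Nonempty := by
    rw [Finset.nonempty_iff_ne_empty]
    intro h
    exact hG (MvPolynomial.support_eq_empty.1 h)
  obtain ⟨m, hm, hmax⟩ := Finset.exists_max_image G.support
    (fun μ => A.valuation (MvPolynomial.coeff μ G)) hne
  set c := MvPolynomial.coeff m G with hc
  have hc0 : c ≠ 0 := MvPolynomial.mem_support_iff.1 hm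
  have hint : ∀ μ, c⁻¹ * MvPolynomial.coeff μ G ∈ A := by
    intro μ
    by_cases h0 : MvPolynomial.coeff μ G = 0
    · rw [h0, mul_zero]
      exact A.zero_mem
    · rw [← A.valuation_le_one_iff, map_mul, map_inv₀]
      have h1 := hmax μ (MvPolynomial.mem_support_iff.2 h0)
      have h2 : A.valuation c ≠ 0 := by
        rwa [ne_eq, map_eq_zero]
      calc (A.valuation c)⁻¹ * A.valuation (MvPolynomial.coeff μ G)
          ≤ (A.valuation c)⁻¹ * A.valuation c := mul_le_mul_right h1 _
        _ = 1 := inv_mul_cancel₀ h2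
  have hrange : MvPolynomial.C c⁻¹ * G ∈ Set.range (MvPolynomial.map (VLR_inc A)) := by
    rw [MvPolynomial.mem_range_map_iff_coeffs_subset]
    intro x hx
    rw [Finset.mem_coe, MvPolynomial.mem_coeffs_iff] at hx
    obtain ⟨μ, -, rfl⟩ := hx
    rw [MvPolynomial.coeff_C_mul]
    exact ⟨⟨_, hint μ⟩, rfl⟩
  obtain ⟨G', hG'⟩ := hrange
  refine ⟨c, G', hc0, ?_, ?_⟩
  · rw [hG', ← mul_assoc, ← MvPolynomial.C_mul, mul_inv_cancel₀ hc0, MvPolynomial.C_1, one_mul]
  · intro h
    have h1 : VLR_inc A (MvPolynomial.coeff m G') = 1 := by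
      rw [← MvPolynomial.coeff_map, hG', MvPolynomial.coeff_C_mul, ← hc, inv_mul_cancel₀ hc0]
    have h2 : MvPolynomial.coeff m G' = 1 := Subtype.ext h1
    have h3 : IsLocalRing.residue A (MvPolynomial.coeff m G') = 0 := by
      rw [← MvPolynomial.coeff_map, h, MvPolynomial.coeff_zero]
    rw [h2, map_one] at h3
    exact one_ne_zero h3

/-- weighted homogeneity -/
theorem VLR_hom {V K : Type} [Field K] (A : ValuationSubring K) (w : V → ℕ) (d : ℕ)
    {G : MvPolynomial V K} (hG : G.IsWeightedHomogeneous w d) {c : K} {G' : MvPolynomial V A}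
    (hc : c ≠ 0) (h : G = MvPolynomial.C c * MvPolynomial.map (VLR_inc A) G') (u : A) :
    (MvPolynomial.map (IsLocalRing.residue A) (MvPolynomial.C u * G')).IsWeightedHomogeneous w d := by
  intro μ hμ
  refine hG fun h0 => hμ ?_
  rw [h, MvPolynomial.coeff_C_mul, MvPolynomial.coeff_map] at h0
  have h1 : VLR_inc A (MvPolynomial.coeff μ G') = 0 := (mul_eq_zero.1 h0).resolve_left hc
  have h2 : MvPolynomial.coeff μ G' = 0 := Subtype.ext h1
  rw [MvPolynomial.coeff_map, MvPolynomial.coeff_C_mul, h2, mul_zero, map_zero]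

theorem p_VLR : Stmt_VLR := by
  intro V _ w d₁ d₂ M y₀ K _ ψ G₁ G₂ hψ hy₀ hG₁ hG₂ hprod
  classical
  set p : Ideal (MvPolynomial M ℂ) := RingHom.ker (MvPolynomial.eval y₀) with hp
  have hpp : p.IsPrime := RingHom.ker_isPrime _
  have hunit : ∀ g : p.primeCompl, IsUnit (ψ g) := by
    rintro ⟨g, hg⟩
    rw [isUnit_iff_ne_zero]
    intro h0
    apply hg
    have h1 : g = 0 := hψ (by rw [h0, map_zero])
    show g ∈ p
    rw [h1]
    exact p.zero_mem
  set f : Localization.AtPrime p →+* K := IsLocalization.lift hunit with hf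
  obtain ⟨A, hA, hloc⟩ := IsLocalRing.exists_factor_valuationRing f
  set g : MvPolynomial M ℂ →+* A :=
    (f.codRestrict A.toSubring hA).comp (algebraMap (MvPolynomial M ℂ) (Localization.AtPrime p))
    with hg
  have hgψ : ∀ z, VLR_inc A (g z) = ψ z := fun z => by
    show f (algebraMap _ _ z) = ψ z
    rw [hf, IsLocalization.lift_eq]
  -- the residue of the coordinates
  have hres : ∀ μ : M, IsLocalRing.residue A (g (MvPolynomial.X μ)) =
      IsLocalRing.residue A (g (MvPolynomial.C (y₀ μ))) := by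
    intro μ
    rw [← sub_eq_zero, ← map_sub, ← map_sub, IsLocalRing.residue_eq_zero_iff,
      IsLocalRing.mem_maximalIdeal, mem_nonunits_iff]
    intro hu
    have h1 : IsUnit (algebraMap (MvPolynomial M ℂ) (Localization.AtPrime p)
        (MvPolynomial.X μ - MvPolynomial.C (y₀ μ))) := hloc.map_nonunit _ hu
    rw [IsLocalization.AtPrime.isUnit_to_map_iff (Localization.AtPrime p) p] at h1
    apply h1
    show _ ∈ p
    rw [hp, RingHom.mem_ker]
    simp
  let φ : ℂ →+* IsLocalRing.ResidueField A :=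
    (IsLocalRing.residue A).comp (g.comp MvPolynomial.C)
  -- the form over the valuation ring
  set F' : MvPolynomial V A := form M (fun μ => g (MvPolynomial.X μ)) with hF'
  have hF1 : MvPolynomial.map (VLR_inc A) F' = form M (fun μ => ψ (MvPolynomial.X μ)) := by
    rw [hF']
    simp only [form, map_sum, MvPolynomial.map_monomial, hgψ]
  have hF2 : MvPolynomial.map (IsLocalRing.residue A) F' = MvPolynomial.map φ (form M y₀) := by
    rw [hF']
    simp only [form, map_sum, MvPolynomial.map_monomial, hres]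
    rfl
  have hF3 : MvPolynomial.map φ (form M y₀) ≠ 0 := by
    intro h
    apply hy₀
    exact MvPolynomial.map_injective φ φ.injective (by rw [h, map_zero])
  have hG₁0 : G₁ ≠ 0 := by
    intro h
    rw [h, zero_mul, ← hF1] at hprod
    have h1 : F' = 0 := MvPolynomial.map_injective (VLR_inc A) Subtype.val_injective
      (by rw [← hprod, map_zero])
    exact hF3 (by rw [← hF2, h1, map_zero])
  have hG₂0 : G₂ ≠ 0 := by
    intro h
    rw [h, mul_zero, ← hF1] at hprod
    have h1 : F' = 0 := MvPolynomial.map_injective (VLR_inc A) Subtype.val_injective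
      (by rw [← hprod, map_zero])
    exact hF3 (by rw [← hF2, h1, map_zero])
  obtain ⟨c₁, G₁', hc₁, hG₁', hr₁⟩ := VLR_scale A G₁ hG₁0
  obtain ⟨c₂, G₂', hc₂, hG₂', hr₂⟩ := VLR_scale A G₂ hG₂0
  have hprod' : MvPolynomial.C (c₁ * c₂) * MvPolynomial.map (VLR_inc A) (G₁' * G₂') =
      MvPolynomial.map (VLR_inc A) F' := by
    rw [hF1, ← hprod, hG₁', hG₂', map_mul (MvPolynomial.map (VLR_inc A)), MvPolynomial.C_mul]
    ring
  by_cases hu : c₁ * c₂ ∈ A
  · have h1 : MvPolynomial.C (⟨c₁ * c₂, hu⟩ : A) * G₁' * G₂' = F' := by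
      refine MvPolynomial.map_injective (VLR_inc A) Subtype.val_injective ?_
      rw [← hprod', mul_assoc, map_mul (MvPolynomial.map (VLR_inc A)), MvPolynomial.map_C]
      rfl
    refine ⟨IsLocalRing.ResidueField A, inferInstance, φ,
      MvPolynomial.map (IsLocalRing.residue A) (MvPolynomial.C (⟨c₁ * c₂, hu⟩ : A) * G₁'),
      MvPolynomial.map (IsLocalRing.residue A) (MvPolynomial.C (1 : A) * G₂'),
      VLR_hom A w d₁ hG₁ hc₁ hG₁' _, VLR_hom A w d₂ hG₂ hc₂ hG₂' _, ?_⟩
    rw [← map_mul, MvPolynomial.C_1, one_mul, h1, hF2]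
  · exfalso
    have hcc : c₁ * c₂ ≠ 0 := mul_ne_zero hc₁ hc₂
    have hui : (c₁ * c₂)⁻¹ ∈ A := (A.mem_or_inv_mem (c₁ * c₂)).resolve_left hu
    set e : A := ⟨(c₁ * c₂)⁻¹, hui⟩ with he
    have h1 : MvPolynomial.C e * F' = G₁' * G₂' := by
      refine MvPolynomial.map_injective (VLR_inc A) Subtype.val_injective ?_
      rw [map_mul (MvPolynomial.map (VLR_inc A)), MvPolynomial.map_C, ← hprod', ← mul_assoc]
      have h2 : VLR_inc A e = (c₁ * c₂)⁻¹ := rfl
      rw [h2, ← MvPolynomial.C_mul, inv_mul_cancel₀ hcc, MvPolynomial.C_1, one_mul]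
    have h3 := congrArg (MvPolynomial.map (IsLocalRing.residue A)) h1
    rw [map_mul, map_mul, MvPolynomial.map_C] at h3
    have h4 : IsLocalRing.residue A e = 0 := by
      rw [IsLocalRing.residue_eq_zero_iff, IsLocalRing.mem_maximalIdeal, mem_nonunits_iff]
      intro hue
      obtain ⟨e', he'⟩ := hue.exists_right_inv
      apply hu
      have h5 : (c₁ * c₂)⁻¹ * (e' : K) = 1 := congrArg Subtype.val he'
      have h6 : (e' : K) = c₁ * c₂ := by
        rw [inv_mul_eq_one₀ hcc] at h5
        exact h5.symm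
      rw [← h6]
      exact e'.2
    rw [h4, MvPolynomial.C_0, zero_mul] at h3
    exact mul_ne_zero hr₁ hr₂ h3.symm

end

end Pool.WH
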