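import Pool.Agent.Work.MP_dcf6a6_wh.B_BDM
import Pool.Agent.Work.MP_dcf6a6_wh.B_BDF
import Pool.Agent.Work.MP_dcf6a6_wh.B_BFG
import Pool.Agent.Work.MP_dcf6a6_wh.B_BIR
import Pool.Agent.Work.MP_dcf6a6_wh.B_DEG
import Pool.Agent.Work.MP_dcf6a6_wh.B_PDW
import Pool.Agent.Work.MP_dcf6a6_wh.B_END
import Pool.Agent.Work.MP_dcf6a6_wh.B_GMP
import Pool.Agent.Work.MP_dcf6a6_wh.B_FMP
import Pool.Agent.Work.MP_dcf6a6_wh.B_TAY
import Pool.Agent.Work.MP_dcf6a6_wh.B_HEN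
import Pool.Agent.Work.MP_dcf6a6_wh.B_PTL
import Pool.Agent.Work.MP_dcf6a6_wh.B_NAK
import Pool.Agent.Work.MP_dcf6a6_wh.B_PDG
import Pool.Agent.Work.MP_dcf6a6_wh.B_FNK
import Pool.Agent.Work.MP_dcf6a6_wh.B_LFT
import Pool.Agent.Work.MP_dcf6a6_wh.B_GDS
import Pool.Agent.Work.MP_dcf6a6_wh.B_DSC
import Pool.Agent.Work.MP_dcf6a6_wh.B_SPC
import Pool.Agent.Work.MP_dcf6a6_wh.B_ELM
import Pool.Agent.Work.MP_dcf6a6_wh.B_SIN
import Pool.Agent.Work.MP_dcf6a6_wh.B_INJ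
import Pool.Agent.Work.MP_dcf6a6_wh.B_MOV
import Pool.Agent.Work.MP_dcf6a6_wh.B_QRU
import Pool.Agent.Work.MP_dcf6a6_wh.B_QRV
import Pool.Agent.Work.MP_dcf6a6_wh.B_GSH
import Pool.Agent.Work.MP_dcf6a6_wh.B_QUV
import Pool.Agent.Work.MP_dcf6a6_wh.B_QKR
import Pool.Agent.Work.MP_dcf6a6_wh.B_PDH
import Pool.Agent.Work.MP_dcf6a6_wh.B_GNM
import Pool.Agent.Work.MP_dcf6a6_wh.B_RDF
import Pool.Agent.Work.MP_dcf6a6_wh.B_GLH
import Pool.Agent.Work.MP_dcf6a6_wh.B_SHM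
import Pool.Agent.Work.MP_dcf6a6_wh.B_SHF
import Pool.Agent.Work.MP_dcf6a6_wh.B_GNQ
import Pool.Agent.Work.MP_dcf6a6_wh.B_GKG
import Pool.Agent.Work.MP_dcf6a6_wh.B_GKV
import Pool.Agent.Work.MP_dcf6a6_wh.B_GMO
import Pool.Agent.Work.MP_dcf6a6_wh.B_GKT
import Pool.Agent.Work.MP_dcf6a6_wh.B_GLU
import Pool.Agent.Work.MP_dcf6a6_wh.B_PRG
import Pool.Agent.Work.MP_dcf6a6_wh.B_FSH
import Pool.Agent.Work.MP_dcf6a6_wh.B_SMR
import Pool.Agent.Work.MP_dcf6a6_wh.B_SMT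
import Pool.Agent.Work.MP_dcf6a6_wh.B_HMG
import Pool.Agent.Work.MP_dcf6a6_wh.B_GPT
import Pool.Agent.Work.MP_dcf6a6_wh.B_MRP
import Pool.Agent.Work.MP_dcf6a6_wh.B_NCS
import Pool.Agent.Work.MP_dcf6a6_wh.B_SCL
import Pool.Agent.Work.MP_dcf6a6_wh.B_CRT
import Pool.Agent.Work.MP_dcf6a6_wh.B_FAM
import Pool.Agent.Work.MP_dcf6a6_wh.B_GN0
import Pool.Agent.Work.MP_dcf6a6_wh.B_VLR
import Pool.Agent.Work.MP_dcf6a6_wh.B_NSZ
import Pool.Agent.Work.MP_dcf6a6_wh.B_IRF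
import Pool.Agent.Work.MP_dcf6a6_wh.B_TDX
import Pool.Agent.Work.MP_dcf6a6_wh.B_TDG
import Pool.Agent.Work.MP_dcf6a6_wh.B_PFR
import Pool.Agent.Work.MP_dcf6a6_wh.B_TVF
import Pool.Agent.Work.MP_dcf6a6_wh.B_TZR
import Pool.Agent.Work.MP_dcf6a6_wh.B_TOR
import Pool.Agent.Work.MP_dcf6a6_wh.B_MAI
import Pool.Agent.Work.MP_dcf6a6_wh.B_MA2
import Pool.Agent.Work.MP_dcf6a6_gq.All
import Pool.Agent.Work.MP_dcf6a6_tv_helper73.ALL

/-! # Assembly of the blocks -/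

namespace Pool.WH

theorem all_BDM : Stmt_BDM :=
  p_BDM

theorem all_BDF : Stmt_BDF :=
  p_BDF all_BDM

theorem all_BFG : Stmt_BFG :=
  p_BFG

theorem all_BIR : Stmt_BIR :=
  p_BIR

theorem all_DEG : Stmt_DEG :=
  p_DEG

theorem all_PDW : Stmt_PDW :=
  p_PDW

theorem all_END : Stmt_END :=
  p_END all_DEG all_PDW

theorem all_GMP : Stmt_GMP :=
  p_GMP

theorem all_FMP : Stmt_FMP :=
  p_FMP all_GMP

theorem all_TAY : Stmt_TAY :=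
  p_TAY

theorem all_HEN : Stmt_HEN :=
  p_HEN all_TAY

theorem all_PTL : Stmt_PTL :=
  p_PTL all_HEN

theorem all_NAK : Stmt_NAK :=
  p_NAK

theorem all_PDG : Stmt_PDG :=
  p_PDG all_DEG all_PDW

theorem all_FNK : Stmt_FNK :=
  p_FNK all_NAK all_PDG

theorem all_LFT : Stmt_LFT :=
  p_LFT all_HEN all_NAK all_PDG all_DEG all_FNK

theorem all_GDS : Stmt_GDS :=
  p_GDS

theorem all_DSC : Stmt_DSC :=
  p_DSC all_GDS

theorem all_SPC : Stmt_SPC :=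
  p_SPC all_DSC all_FMP Pool.GQ.all_EXT

theorem all_ELM : Stmt_ELM :=
  p_ELM

theorem all_SIN : Stmt_SIN :=
  p_SIN

theorem all_INJ : Stmt_INJ :=
  p_INJ all_ELM all_SIN

theorem all_MOV : Stmt_MOV :=
  p_MOV all_FMP all_END all_DEG all_PTL all_LFT all_SPC all_INJ

theorem all_QRU : Stmt_QRU :=
  p_QRU

theorem all_QRV : Stmt_QRV :=
  p_QRV

theorem all_GSH : Stmt_GSH :=
  p_GSH

theorem all_QUV : Stmt_QUV :=
  p_QUV

theorem all_QKR : Stmt_QKR :=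
  p_QKR

theorem all_PDH : Stmt_PDH :=
  p_PDH all_BDF all_BDM all_PDW

theorem all_GNM : Stmt_GNM :=
  p_GNM all_QUV all_QKR

theorem all_RDF : Stmt_RDF :=
  p_RDF

theorem all_GLH : Stmt_GLH :=
  p_GLH all_HEN all_GSH all_DEG all_QUV all_QKR all_BFG all_BDF all_PDH all_GNM all_RDF

theorem all_SHM : Stmt_SHM :=
  p_SHM

theorem all_SHF : Stmt_SHF :=
  p_SHF all_SHM all_BDF

theorem all_GNQ : Stmt_GNQ :=
  p_GNQ all_GNM all_BFG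

theorem all_GKG : Stmt_GKG :=
  p_GKG all_SHM

theorem all_GKV : Stmt_GKV :=
  p_GKV all_GSH all_PDW all_BDF all_PDH all_GNQ all_RDF all_SHF all_GKG

theorem all_GMO : Stmt_GMO :=
  p_GMO all_GSH

theorem all_GKT : Stmt_GKT :=
  p_GKT all_GMO all_BDM all_GNQ all_SHM all_GKG

theorem all_GLU : Stmt_GLU :=
  p_GLU all_QRU all_QRV all_GLH all_SHF all_GKV all_GKT all_SPC

theorem all_PRG : Stmt_PRG :=
  p_PRG

theorem all_FSH : Stmt_FSH :=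
  p_FSH

theorem all_SMR : Stmt_SMR :=
  p_SMR Pool.TVar.helper73.stmt_RET Pool.GQ.all_AFT

theorem all_SMT : Stmt_SMT :=
  p_SMT all_PRG all_PDW all_FSH all_SMR Pool.TVar.helper45.stmt_GCD Pool.TVar.helper76.stmt_LOC

theorem all_HMG : Stmt_HMG :=
  p_HMG Pool.TVar.helper33.stmt_HOMG

theorem all_GPT : Stmt_GPT :=
  p_GPT Pool.TVar.helper33.stmt_HOMG Pool.TVar.helper22.stmt_P1

theorem all_MRP : Stmt_MRP :=
  p_MRP all_DEG all_PDW all_PRG all_SMT all_HMG all_GPT Pool.TVar.helper87.stmt_PMAP Pool.TVar.helper22.stmt_P1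

theorem all_NCS : Stmt_NCS :=
  p_NCS

theorem all_SCL : Stmt_SCL :=
  p_SCL

theorem all_CRT : Stmt_CRT :=
  p_CRT all_END all_MOV all_GLU all_PRG all_SMT all_MRP all_NCS all_SCL Pool.TVar.helper45.stmt_GCD (Pool.TVar.helper73.stmt_PTS Pool.TVar.helper73.stmt_RET) Pool.TVar.helper45.stmt_DENS

theorem all_FAM : Stmt_FAM :=
  p_FAM all_FMP all_END all_DEG all_PTL all_LFT all_SPC all_SIN

theorem all_GN0 : Stmt_GN0 :=
  p_GN0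

theorem all_VLR : Stmt_VLR :=
  p_VLR

theorem all_NSZ : Stmt_NSZ :=
  p_NSZ

theorem all_IRF : Stmt_IRF :=
  p_IRF all_BIR all_VLR all_NSZ Pool.GQ.all_HOF

theorem all_TDX : Stmt_TDX :=
  p_TDX

theorem all_TDG : Stmt_TDG :=
  p_TDG

theorem all_PFR : Stmt_PFR :=
  p_PFR

theorem all_TVF : Stmt_TVF :=
  p_TVF all_PFR all_TDG

theorem all_TZR : Stmt_TZR :=
  p_TZR

theorem all_TOR : Stmt_TOR :=
  p_TOR all_TDX all_TDG all_TVF all_TZR all_GN0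

theorem all_MAI : Stmt_MAI :=
  p_MAI all_FAM all_TOR all_CRT

theorem all_MA2 : Stmt_MA2 :=
  p_MA2 all_MAI all_IRF

end Pool.WH
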