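import Pool.Agent.Work.MP_dcf6a6_wh.Interface

/-! # General weighted hypersurfaces, block BDM: products in the node ring -/

namespace Pool.WH

theorem p_BDM : Stmt_BDM := by
  intro m n f g hf hg
  have hs : ∀ i : ℤ, i ∉ Finset.Icc (-(m : ℤ)) (m : ℤ) → co f i = 0 := by
    intro i hi
    apply hf i
    rw [Finset.mem_Icc, not_and_or, not_le, not_le] at hi
    omega
  have hg' : ∀ i : ℤ, n + 1 ≤ i.natAbs → co g i = 0 := fun i hi => hg i hi
  refine ⟨?_, ?_, ?_⟩
  · intro k hk
    rw [co_mul f g k _ hs]
    refine Finset.sum_eq_zero fun i hi => ?_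
    rw [Finset.mem_Icc] at hi
    rw [hg' (k - i) (by omega), mul_zero]
  · rw [co_mul f g _ _ hs, Finset.sum_eq_single (m : ℤ)]
    · congr 2
      push_cast
      ring
    · intro i hi hne
      rw [Finset.mem_Icc] at hi
      rw [hg' _ (by omega), mul_zero]
    · intro h
      exact absurd (Finset.mem_Icc.mpr ⟨by omega, le_refl _⟩) h
  · rw [co_mul f g _ _ hs, Finset.sum_eq_single (-(m : ℤ))]
    · congr 2
      push_cast
      ring
    · intro i hi hne
      rw [Finset.mem_Icc] at hi
      rw [hg' _ (by omega), mul_zero]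
    · intro h
      exact absurd (Finset.mem_Icc.mpr ⟨le_refl _, by omega⟩) h

end Pool.WH
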