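import Pool.Agent.Work.MP_dcf6a6_wh.Interface

open CategoryTheory AlgebraicGeometry Polynomial Pool.TVar

namespace Pool.WH

/-- one step of the iteration -/
theorem HEN_step (hTAY : Stmt_TAY) {k : Type} [Field k] {V : Type} [Fintype V] {B : Type}
    [CommRing B] [Algebra (PowerSeries k) B] (F : MvPolynomial V (PowerSeries k)) (G : V → B)
    (C : Submodule (PowerSeries k) (V → B)) (N : Set B)
    (h3 : ∀ z ∈ C, MvPolynomial.aeval (G + (PowerSeries.X : PowerSeries k) • z) F ∈ N)
    (h4 : ∀ b : B, (PowerSeries.X : PowerSeries k) • b ∈ N → b ∈ N)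
    (h5 : ∀ b ∈ N, ∃ z ∈ C, ∃ b' : B,
      ∑ v, z v * MvPolynomial.aeval G (MvPolynomial.pderiv v F) =
      b + (PowerSeries.X : PowerSeries k) • b')
    (n : ℕ) (y : V → B) (hy : y ∈ C) (b : B)
    (hb : MvPolynomial.aeval (G + (PowerSeries.X : PowerSeries k) • y) F =
      (PowerSeries.X : PowerSeries k) ^ (n + 1) • b) :
    ∃ z ∈ C, ∃ b' : B, MvPolynomial.aeval (G + (PowerSeries.X : PowerSeries k) •
      (y - (PowerSeries.X : PowerSeries k) ^ n • z)) F =
      (PowerSeries.X : PowerSeries k) ^ (n + 2) • b' := by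
  have hbN : b ∈ N := by
    have h6 : ∀ m : ℕ, (PowerSeries.X : PowerSeries k) ^ m • b ∈ N → b ∈ N := by
      intro m
      induction m with
      | zero => intro h; rwa [pow_zero, one_smul] at h
      | succ m ih => intro h; rw [pow_succ', mul_smul] at h; exact ih (h4 _ h)
    exact h6 (n + 1) (hb ▸ h3 y hy)
  obtain ⟨z, hz, b', hzb⟩ := h5 b hbN
  refine ⟨z, hz, ?_⟩
  let s : B := algebraMap (PowerSeries k) B PowerSeries.X
  have hs : ∀ x : B, (PowerSeries.X : PowerSeries k) • x = s * x := fun x => Algebra.smul_def _ _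
  have hsn : ∀ (m : ℕ) (x : B), (PowerSeries.X : PowerSeries k) ^ m • x = s ^ m * x := by
    intro m x
    rw [Algebra.smul_def, map_pow]
  obtain ⟨r, hr⟩ := hTAY V (PowerSeries k) B F (G + (PowerSeries.X : PowerSeries k) • y)
    (fun v => -z v) (s ^ (n + 1))
  have hr' := fun v => hTAY V (PowerSeries k) B (MvPolynomial.pderiv v F) G y s
  choose r' hr'' using hr'
  let q : V → B := fun v => ∑ u, y u * MvPolynomial.aeval G
    (MvPolynomial.pderiv u (MvPolynomial.pderiv v F)) + s * r' v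
  have hq : ∀ v, MvPolynomial.aeval (G + (PowerSeries.X : PowerSeries k) • y)
      (MvPolynomial.pderiv v F) = MvPolynomial.aeval G (MvPolynomial.pderiv v F) + s * q v := by
    intro v
    have h7 : (G + (PowerSeries.X : PowerSeries k) • y) = fun v => G v + s * y v := by
      funext v
      rw [Pi.add_apply, Pi.smul_apply, hs]
    rw [h7, hr'' v]
    simp only [q]
    ring
  refine ⟨-b' - ∑ v, z v * q v + s ^ n * r, ?_⟩
  have h8 : (G + (PowerSeries.X : PowerSeries k) •
      (y - (PowerSeries.X : PowerSeries k) ^ n • z)) =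
      fun v => (G + (PowerSeries.X : PowerSeries k) • y) v + s ^ (n + 1) * -z v := by
    funext v
    rw [Pi.add_apply, Pi.smul_apply, Pi.sub_apply, Pi.smul_apply, Pi.add_apply, Pi.smul_apply,
      hs, hs, hsn]
    ring
  rw [h8, hr, hb, hsn, hsn]
  have h9 : ∑ v, -z v * MvPolynomial.aeval (G + (PowerSeries.X : PowerSeries k) • y)
      (MvPolynomial.pderiv v F) = -(b + s * b') - s * ∑ v, z v * q v := by
    rw [← hs b', ← hzb, Finset.mul_sum, ← Finset.sum_neg_distrib, ← Finset.sum_sub_distrib]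
    refine Finset.sum_congr rfl fun v _ => ?_
    rw [hq v]
    ring
  rw [h9]
  ring

theorem p_HEN (hTAY : Stmt_TAY) : Stmt_HEN := by
  intro k _ V _ B _ _ F G C N hC sep h3 h4 h5 h6
  haveI : Module.Finite (PowerSeries k) C := Module.Finite.iff_fg.mpr hC
  obtain ⟨m, f, hf⟩ := Module.Finite.exists_fin' (PowerSeries k) C
  let Γ : (Fin m → PowerSeries k) →ₗ[PowerSeries k] (V → B) := C.subtype ∘ₗ f
  have hΓ : ∀ a, Γ a ∈ C := fun a => (f a).2
  have hΓs : ∀ z ∈ C, ∃ a, Γ a = z := by
    intro z hz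
    obtain ⟨a, ha⟩ := hf ⟨z, hz⟩
    exact ⟨a, by simp only [Γ, LinearMap.comp_apply, ha, Submodule.subtype_apply]⟩
  -- the sequence
  have hstep : ∀ (n : ℕ) (a : Fin m → PowerSeries k),
      (∃ b : B, MvPolynomial.aeval (G + (PowerSeries.X : PowerSeries k) • Γ a) F =
        (PowerSeries.X : PowerSeries k) ^ (n + 1) • b) →
      ∃ e : Fin m → PowerSeries k, ∃ b : B, MvPolynomial.aeval (G + (PowerSeries.X : PowerSeries k) •
        Γ (a - (PowerSeries.X : PowerSeries k) ^ n • e)) F =
        (PowerSeries.X : PowerSeries k) ^ (n + 2) • b := by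
    rintro n a ⟨b, hb⟩
    obtain ⟨z, hz, b', hb'⟩ := HEN_step hTAY F G C N h3 h4 h5 n (Γ a) (hΓ a) b hb
    obtain ⟨e, rfl⟩ := hΓs z hz
    exact ⟨e, b', by rw [map_sub, map_smul]; exact hb'⟩
  let P : ℕ → (Fin m → PowerSeries k) → Prop := fun n a =>
    ∃ b : B, MvPolynomial.aeval (G + (PowerSeries.X : PowerSeries k) • Γ a) F =
        (PowerSeries.X : PowerSeries k) ^ (n + 1) • b
  have hP0 : P 0 0 := by
    obtain ⟨b, hb⟩ := h6
    refine ⟨b, ?_⟩
    rw [map_zero, smul_zero, add_zero, hb, zero_add, pow_one]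
  have hseq : ∃ a : ℕ → (Fin m → PowerSeries k), (∀ n, P n (a n)) ∧
      ∀ n, ∃ e : Fin m → PowerSeries k, a (n + 1) = a n - (PowerSeries.X : PowerSeries k) ^ n • e := by
    classical
    choose! e he using hstep
    let a : ℕ → (Fin m → PowerSeries k) := fun n => Nat.rec 0
      (fun n a => a - (PowerSeries.X : PowerSeries k) ^ n • e n a) n
    have ha : ∀ n, a (n + 1) = a n - (PowerSeries.X : PowerSeries k) ^ n • e n (a n) :=
      fun n => rfl
    refine ⟨a, fun n => ?_, fun n => ⟨e n (a n), ha n⟩⟩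
    induction n with
    | zero => exact hP0
    | succ n ih =>
      obtain ⟨b, hb⟩ := he n (a n) ih
      exact ⟨b, by rw [ha n]; exact hb⟩
  obtain ⟨a, haP, hae⟩ := hseq
  -- coefficients stabilise
  have hst : ∀ (i : Fin m) (j n : ℕ), j < n → PowerSeries.coeff j (a n i) =
      PowerSeries.coeff j (a (j + 1) i) := by
    intro i j n hn
    induction n, hn using Nat.le_induction with
    | base => rfl
    | succ n hn ih =>
      obtain ⟨e, he⟩ := hae n
      rw [he, Pi.sub_apply, Pi.smul_apply, map_sub, ih, smul_eq_mul,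
        (PowerSeries.X_pow_dvd_iff.mp (dvd_mul_right _ _)) j (by omega), sub_zero]
  let A : Fin m → PowerSeries k := fun i => PowerSeries.mk fun j => PowerSeries.coeff j (a (j + 1) i)
  have hA : ∀ n, ∃ e : Fin m → PowerSeries k, A = a n + (PowerSeries.X : PowerSeries k) ^ n • e := by
    intro n
    have h7 : ∀ i, (PowerSeries.X : PowerSeries k) ^ n ∣ A i - a n i := by
      intro i
      rw [PowerSeries.X_pow_dvd_iff]
      intro j hj
      rw [map_sub, hst i j n hj, sub_eq_zero]
      exact PowerSeries.coeff_mk _ _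
    choose e he using h7
    refine ⟨e, funext fun i => ?_⟩
    rw [Pi.add_apply, Pi.smul_apply, smul_eq_mul, ← he i]
    ring
  refine ⟨Γ A, hΓ A, sep _ fun n => ?_⟩
  obtain ⟨e, he⟩ := hA n
  obtain ⟨b, hb⟩ := haP n
  let s : B := algebraMap (PowerSeries k) B PowerSeries.X
  have hs : ∀ x : B, (PowerSeries.X : PowerSeries k) • x = s * x := fun x => Algebra.smul_def _ _
  have hsn : ∀ (m : ℕ) (x : B), (PowerSeries.X : PowerSeries k) ^ m • x = s ^ m * x := by
    intro m x
    rw [Algebra.smul_def, map_pow]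
  obtain ⟨r, hr⟩ := hTAY V (PowerSeries k) B F (G + (PowerSeries.X : PowerSeries k) • Γ (a n))
    (fun v => s * Γ e v) (s ^ n)
  have h8 : (G + (PowerSeries.X : PowerSeries k) • Γ A) =
      fun v => (G + (PowerSeries.X : PowerSeries k) • Γ (a n)) v + s ^ n * (s * Γ e v) := by
    funext v
    rw [he, map_add, map_smul, Pi.add_apply, Pi.smul_apply, Pi.add_apply, Pi.smul_apply,
      Pi.add_apply, Pi.smul_apply, hs, hs, hsn]
    ring
  refine ⟨s * b + (∑ v, s * Γ e v * MvPolynomial.aeval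
    (G + (PowerSeries.X : PowerSeries k) • Γ (a n)) (MvPolynomial.pderiv v F)) + s ^ n * r, ?_⟩
  rw [h8, hr, hb, hsn, hsn]
  ring

end Pool.WH
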