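import Pool.Agent.Work.MP_dcf6a6_wh.Interface

/-!
Block INJ: a generic point of the hypersurface.
-/

set_option autoImplicit false

open CategoryTheory AlgebraicGeometry Polynomial Pool.TVar

namespace Pool.WH

theorem p_INJ (hELM : Stmt_ELM) (hSIN : Stmt_SIN) : Stmt_INJ := by
  intro V _ _ F a v₂ z hF hp hz hFz P hP
  by_contra hnd
  obtain ⟨A, B, D, hD0, hDv, hAB⟩ := hELM V F P v₂ hF hp hnd
  have h1 : MvPolynomial.aeval z D = 0 := by
    rw [← hAB, map_add, map_mul, map_mul, hFz, hP, mul_zero, mul_zero, add_zero]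
  have h2 : MvPolynomial.aeval z D = MvPolynomial.aeval (gen V a) D := by
    refine MvPolynomial.eval₂Hom_congr' rfl ?_ rfl
    intro i hi _
    apply hz
    rintro rfl
    exact hDv hi
  apply hD0
  apply hSIN V a
  rw [← h2, h1, map_zero]

end Pool.WH
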