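import Pool.Agent.Work.MP_dcf6a6_wh.Interface2

/-! # Block IRF: the general member is irreducible -/

open CategoryTheory AlgebraicGeometry Polynomial Pool.TVar

set_option autoImplicit false

namespace Pool.WH

open Classical in
/-- the coefficients of the binomial -/
noncomputable def IRF_y {V : Type} (M : Finset (V →₀ ℕ)) (u b : V →₀ ℕ) : M → ℂ :=
  fun μ => if μ.1 = u then 1 else if μ.1 = b then -1 else 0

theorem IRF_form {V : Type} (M : Finset (V →₀ ℕ)) (u b : V →₀ ℕ) (hu : u ∈ M) (hb : b ∈ M)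
    (hub : u ≠ b) : form M (IRF_y M u b) = MvPolynomial.monomial u 1 - MvPolynomial.monomial b 1 := by
  classical
  unfold form
  have h1 : ∀ μ : M, MvPolynomial.monomial μ.1 (IRF_y M u b μ) =
      (if μ.1 = u then MvPolynomial.monomial u (1 : ℂ) else 0) -
        (if μ.1 = b then MvPolynomial.monomial b (1 : ℂ) else 0) := by
    intro μ
    unfold IRF_y
    by_cases h : μ.1 = u
    · have h' : μ.1 ≠ b := by rw [h]; exact hub
      rw [if_pos h, if_pos h, if_neg h', sub_zero, h]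
    · rw [if_neg h, if_neg h]
      by_cases h' : μ.1 = b
      · rw [if_pos h', if_pos h', h', map_neg, zero_sub]
      · rw [if_neg h', if_neg h', map_zero, sub_zero]
  rw [Finset.sum_congr rfl fun μ _ => h1 μ, Finset.sum_sub_distrib]
  congr 1
  · rw [Finset.sum_coe_sort M (fun μ => if μ = u then MvPolynomial.monomial u (1 : ℂ) else 0),
      Finset.sum_ite_eq', if_pos hu]
  · rw [Finset.sum_coe_sort M (fun μ => if μ = b then MvPolynomial.monomial b (1 : ℂ) else 0),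
      Finset.sum_ite_eq', if_pos hb]

theorem IRF_X {V R : Type} [CommRing R] (I : Finset V) :
    (MvPolynomial.monomial (∑ v ∈ I, Finsupp.single v 1) (1 : R)) = ∏ v ∈ I, MvPolynomial.X v := by
  rw [MvPolynomial.monomial_sum_one]
  rfl

theorem IRF_coeff {V : Type} (M : Finset (V →₀ ℕ)) (y : M → ℂ) (b : V →₀ ℕ) (hb : b ∈ M) :
    (form M y).coeff b = y ⟨b, hb⟩ := by
  classical
  unfold form
  rw [MvPolynomial.coeff_sum, Finset.sum_eq_single ⟨b, hb⟩]
  · rw [MvPolynomial.coeff_monomial, if_pos rfl]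
  · intro μ _ hμ
    rw [MvPolynomial.coeff_monomial, if_neg]
    intro h
    exact hμ (Subtype.ext h)
  · intro h
    exact absurd (Finset.mem_univ _) h

theorem IRF_hom {V : Type} [Fintype V] (w : V → ℕ) (d : ℕ) (M : Finset (V →₀ ℕ))
    (hM : ∀ μ ∈ M, ∑ v, μ v * w v = d) (y : M → ℂ) : (form M y).IsWeightedHomogeneous w d := by
  unfold form
  apply MvPolynomial.IsWeightedHomogeneous.sum
  intro μ _
  apply MvPolynomial.isWeightedHomogeneous_monomial
  rw [Finsupp.weight_apply, Finsupp.sum_fintype _ _ (fun i => by simp)]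
  simpa [smul_eq_mul] using hM μ.1 μ.2

/-- a nonzero homogeneous polynomial of degree 0 is a unit -/
theorem IRF_unit {V : Type} [Fintype V] (w : V → ℕ) (hw : ∀ v, 0 < w v) (G : MvPolynomial V ℂ)
    (hG : G.IsWeightedHomogeneous w 0) (h0 : G ≠ 0) : IsUnit G := by
  classical
  have h1 : G = MvPolynomial.C (G.coeff 0) := by
    ext μ
    rw [MvPolynomial.coeff_C]
    by_cases h : (0 : V →₀ ℕ) = μ
    · rw [if_pos h, ← h]
    · rw [if_neg h]
      by_contra hne
      have h2 : Finsupp.weight w μ = 0 := hG hne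
      rw [Finsupp.weight_apply, Finsupp.sum_fintype _ _ (fun i => by simp),
        Finset.sum_eq_zero_iff] at h2
      apply h
      ext v
      have h3 := h2 v (Finset.mem_univ v)
      rw [smul_eq_mul, Nat.mul_eq_zero] at h3
      rcases h3 with h3 | h3
      · simpa using h3.symm
      · exact absurd h3 (hw v).ne'
  rw [h1]
  apply IsUnit.map MvPolynomial.C
  rw [isUnit_iff_ne_zero]
  intro h2
  rw [h2, map_zero] at h1
  exact h0 h1

theorem p_IRF (hBIR : Stmt_BIR) (hVLR : Stmt_VLR) (hNSZ : Stmt_NSZ) (hHOF : Pool.GQ.Stmt_HOF) :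
    Stmt_IRF := by
  intro V _ _ w d I b M hD hM hI hb
  classical
  set u : V →₀ ℕ := ∑ v ∈ I, Finsupp.single v 1 with hu
  obtain ⟨i, hi⟩ := hD.I_ne
  have hub : u ≠ b := by
    intro h
    have h1 : u i = 1 := by
      rw [hu, Finsupp.finsetSum_apply, Finset.sum_eq_single i]
      · simp
      · intro j _ hj
        simp [hj]
      · intro h
        exact absurd hi h
    rw [h, hD.disj i hi] at h1
    exact zero_ne_one h1
  have hd : 0 < d := by
    rw [← hD.I_deg]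
    exact Finset.sum_pos (fun v _ => hD.w_pos v) hD.I_ne
  have hform := IRF_form M u b hI hb hub
  have hne : form M (IRF_y M u b) ≠ 0 := by
    intro h
    have := IRF_coeff M (IRF_y M u b) u hI
    rw [h] at this
    simp [IRF_y] at this
  have hex : ∀ d₁ d₂ : ℕ, 0 < d₁ → 0 < d₂ →
      ∃ H : MvPolynomial M ℂ, H ≠ 0 ∧ ∀ y : M → ℂ, MvPolynomial.eval y H ≠ 0 →
        ∀ G₁ G₂ : MvPolynomial V ℂ, G₁.IsWeightedHomogeneous w d₁ →
        G₂.IsWeightedHomogeneous w d₂ → G₁ * G₂ ≠ form M y := by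
    intro d₁ d₂ h1 h2
    apply hNSZ V w d₁ d₂ M hD.w_pos
    intro K _ ψ G₁ G₂ hψ hG₁ hG₂ h
    obtain ⟨κ, hκ, φ, H₁, H₂, hH₁, hH₂, hH⟩ := hVLR V w d₁ d₂ M (IRF_y M u b) K ψ G₁ G₂ hψ hne
      hG₁ hG₂ h
    have hmap : MvPolynomial.map φ (form M (IRF_y M u b)) =
        ∏ v ∈ I, MvPolynomial.X v - MvPolynomial.monomial b 1 := by
      rw [hform, map_sub, MvPolynomial.map_monomial, MvPolynomial.map_monomial, map_one, hu, IRF_X]
    rw [hmap] at hH
    rcases hBIR κ V w I b d₁ d₂ H₁ H₂ hD.I_ne hD.disj hH₁ hH₂ hH with h3 | h3 <;> omega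
  have hex' : ∀ p : ℕ × ℕ, ∃ H : MvPolynomial M ℂ, H ≠ 0 ∧ (0 < p.1 → 0 < p.2 →
      ∀ y : M → ℂ, MvPolynomial.eval y H ≠ 0 →
        ∀ G₁ G₂ : MvPolynomial V ℂ, G₁.IsWeightedHomogeneous w p.1 →
        G₂.IsWeightedHomogeneous w p.2 → G₁ * G₂ ≠ form M y) := by
    intro p
    by_cases h : 0 < p.1 ∧ 0 < p.2
    · obtain ⟨H, hH0, hH⟩ := hex p.1 p.2 h.1 h.2
      exact ⟨H, hH0, fun _ _ => hH⟩
    · exact ⟨1, one_ne_zero, fun h1 h2 => absurd ⟨h1, h2⟩ h⟩
  choose Hf hHf0 hHf using hex'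
  refine ⟨(∏ p ∈ Finset.range (d + 1) ×ˢ Finset.range (d + 1), Hf p) * MvPolynomial.X ⟨b, hb⟩,
    mul_ne_zero (Finset.prod_ne_zero_iff.2 fun p _ => hHf0 p) (MvPolynomial.X_ne_zero _), ?_⟩
  intro y hy
  rw [map_mul, map_prod, MvPolynomial.eval_X] at hy
  have hyb : y ⟨b, hb⟩ ≠ 0 := right_ne_zero_of_mul hy
  have hyH : ∀ p ∈ Finset.range (d + 1) ×ˢ Finset.range (d + 1),
      MvPolynomial.eval y (Hf p) ≠ 0 :=
    Finset.prod_ne_zero_iff.1 (left_ne_zero_of_mul hy)
  have hF0 : form M y ≠ 0 := by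
    intro h
    have := IRF_coeff M y b hb
    rw [h, MvPolynomial.coeff_zero] at this
    exact hyb this.symm
  have hFh := IRF_hom w d M hM y
  apply Irreducible.prime
  refine ⟨?_, ?_⟩
  · intro hun
    obtain ⟨F', hF'⟩ := hun.exists_right_inv
    obtain ⟨m', hm'⟩ := hHOF V w 1 F' 0 one_ne_zero (MvPolynomial.isWeightedHomogeneous_one ℂ w)
      ⟨form M y, by rw [mul_comm]; exact hF'.symm⟩
    have h1 := hFh.mul hm'
    rw [hF'] at h1
    have h2 := MvPolynomial.IsWeightedHomogeneous.inj_right one_ne_zero h1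
      (MvPolynomial.isWeightedHomogeneous_one ℂ w)
    omega
  · intro G₁ G₂ hG
    obtain ⟨m₁, hm₁⟩ := hHOF V w (form M y) G₁ d hF0 hFh ⟨G₂, hG⟩
    obtain ⟨m₂, hm₂⟩ := hHOF V w (form M y) G₂ d hF0 hFh ⟨G₁, by rw [mul_comm]; exact hG⟩
    have hG0 : G₁ * G₂ ≠ 0 := by rw [← hG]; exact hF0
    have h1 := hm₁.mul hm₂
    rw [← hG] at h1
    have h2 : m₁ + m₂ = d := MvPolynomial.IsWeightedHomogeneous.inj_right hF0 h1 hFh
    rcases Nat.eq_zero_or_pos m₁ with h3 | h3
    · left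
      subst h3
      exact IRF_unit w hD.w_pos G₁ hm₁ (left_ne_zero_of_mul hG0)
    rcases Nat.eq_zero_or_pos m₂ with h4 | h4
    · right
      subst h4
      exact IRF_unit w hD.w_pos G₂ hm₂ (right_ne_zero_of_mul hG0)
    exfalso
    exact hHf (m₁, m₂) h3 h4 y (hyH (m₁, m₂) (by
      rw [Finset.mem_product, Finset.mem_range, Finset.mem_range]
      constructor <;> simp only <;> omega)) G₁ G₂ hm₁ hm₂ hG.symm

end Pool.WH
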