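import Pool.Agent.Work.MP_dcf6a6_wh.Interface

/-!
# Block SHM: shifts and products
-/

open CategoryTheory AlgebraicGeometry Polynomial Pool.TVar

namespace Pool.WH

noncomputable section

/-- The coefficients of `sh n f`. -/
theorem SHM_coeff {n : ℕ} {f : NR} (hf : f ∈ bd (n + 1)) (k : ℕ) :
    (sh n f).coeff k = algebraMap (PowerSeries ℂ) KK (co f ((k : ℤ) - n)) := by
  unfold sh
  rw [Polynomial.finsetSum_coeff]
  simp only [Polynomial.coeff_monomial]
  rw [Finset.sum_ite_eq' (Finset.range (2 * n + 1)) k]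
  split_ifs with h
  · rfl
  · rw [Finset.mem_range, not_lt] at h
    rw [mem_bd.mp hf ((k : ℤ) - n) (by omega), map_zero]

theorem SHM_mul_mem {m n : ℕ} {f g : NR} (hf : f ∈ bd (m + 1)) (hg : g ∈ bd (n + 1)) :
    f * g ∈ bd (m + n + 1) := by
  rw [mem_bd]
  intro i hi
  rw [co_mul f g i (Finset.Icc (-(m : ℤ)) m)]
  · refine Finset.sum_eq_zero fun j hj => ?_
    rw [Finset.mem_Icc] at hj
    rw [mem_bd.mp hg (i - j) (by omega), mul_zero]
  · intro j hj
    refine mem_bd.mp hf j ?_
    rw [Finset.mem_Icc] at hj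
    omega

theorem p_SHM : Stmt_SHM := by
  intro m n f g hf hg
  have hfg : f * g ∈ bd (m + n + 1) := SHM_mul_mem hf hg
  ext k
  rw [SHM_coeff hfg, Polynomial.coeff_mul, Finset.Nat.sum_antidiagonal_eq_sum_range_succ_mk]
  simp only
  have h1 : ∀ i ∈ Finset.range k.succ, (sh m f).coeff i * (sh n g).coeff (k - i) =
      algebraMap (PowerSeries ℂ) KK (co f ((i : ℤ) - m) * co g ((k : ℤ) - i - n)) := by
    intro i hi
    rw [Finset.mem_range] at hi
    rw [SHM_coeff hf, SHM_coeff hg, map_mul, Nat.cast_sub (by omega)]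
  rw [Finset.sum_congr rfl h1, ← map_sum]
  congr 1
  have hinj : Function.Injective (fun a : ℕ => (a : ℤ) - m) := by
    intro a b hab
    simp only at hab
    omega
  rw [co_mul f g _ ((Finset.range (k.succ + (2 * m + 1))).map ⟨fun a : ℕ => (a : ℤ) - m, hinj⟩)]
  · rw [Finset.sum_map]
    simp only [Function.Embedding.coeFn_mk]
    have h2 : ∀ a : ℕ, co g ((k : ℤ) - ((m + n : ℕ) : ℤ) - ((a : ℤ) - m)) =
        co g ((k : ℤ) - a - n) := by
      intro a
      congr 1
      push_cast
      ring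
    simp only [h2]
    symm
    refine Finset.sum_subset ?_ ?_
    · intro a ha
      rw [Finset.mem_range] at ha ⊢
      omega
    · intro a _ ha
      rw [Finset.mem_range, not_lt] at ha
      rw [mem_bd.mp hg ((k : ℤ) - a - n) (by omega), mul_zero]
  · intro j hj
    refine mem_bd.mp hf j ?_
    by_contra hc
    refine hj ?_
    rw [Finset.mem_map]
    refine ⟨(j + m).toNat, ?_, ?_⟩
    · rw [Finset.mem_range]
      omega
    · simp only [Function.Embedding.coeFn_mk]
      omega

theorem SHM_one_mem : (1 : NR) ∈ bd (0 + 1) := by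
  rw [mem_bd]
  intro i hi
  rw [co_one, if_neg (by omega)]

theorem SHM_sh_one : sh 0 (1 : NR) = 1 := by
  ext k
  rw [SHM_coeff SHM_one_mem, co_one, Polynomial.coeff_one]
  by_cases h : k = 0
  · subst h
    simp
  · rw [if_neg (by simpa using h), if_neg h, map_zero]

theorem SHM_pow {m : ℕ} {f : NR} (hf : f ∈ bd (m + 1)) (k : ℕ) :
    f ^ k ∈ bd (k * m + 1) ∧ sh (k * m) (f ^ k) = sh m f ^ k := by
  induction k with
  | zero =>
    rw [pow_zero, pow_zero, zero_mul]
    exact ⟨SHM_one_mem, SHM_sh_one⟩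
  | succ k ih =>
    rw [pow_succ, pow_succ, Nat.succ_mul]
    exact ⟨SHM_mul_mem ih.1 hf, by rw [p_SHM _ _ _ _ ih.1 hf, ih.2]⟩

theorem SHM_prod {V : Type} (s : Finset V) (m : V → ℕ) (f : V → NR)
    (hf : ∀ v ∈ s, f v ∈ bd (m v + 1)) :
    ∏ v ∈ s, f v ∈ bd (∑ v ∈ s, m v + 1) ∧
      sh (∑ v ∈ s, m v) (∏ v ∈ s, f v) = ∏ v ∈ s, sh (m v) (f v) := by
  classical
  induction s using Finset.induction_on with
  | empty =>
    rw [Finset.prod_empty, Finset.prod_empty, Finset.sum_empty]
    exact ⟨SHM_one_mem, SHM_sh_one⟩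
  | insert a s ha ih =>
    rw [Finset.prod_insert ha, Finset.prod_insert ha, Finset.sum_insert ha]
    have h1 := ih (fun v hv => hf v (Finset.mem_insert_of_mem hv))
    have h2 := hf a (Finset.mem_insert_self a s)
    exact ⟨SHM_mul_mem h2 h1.1, by rw [p_SHM _ _ _ _ h2 h1.1, h1.2]⟩

theorem SHM_add (n : ℕ) (f g : NR) : sh n (f + g) = sh n f + sh n g := by
  unfold sh
  rw [← Finset.sum_add_distrib]
  refine Finset.sum_congr rfl fun i _ => ?_
  rw [co_add, map_add, map_add]

theorem SHM_zero (n : ℕ) : sh n (0 : NR) = 0 := by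
  unfold sh
  refine Finset.sum_eq_zero fun i _ => ?_
  rw [co_zero, map_zero, map_zero]

theorem SHM_sum {ι : Type} (n : ℕ) (s : Finset ι) (f : ι → NR) :
    sh n (∑ i ∈ s, f i) = ∑ i ∈ s, sh n (f i) := by
  classical
  induction s using Finset.induction_on with
  | empty => rw [Finset.sum_empty, Finset.sum_empty, SHM_zero]
  | insert a s ha ih => rw [Finset.sum_insert ha, Finset.sum_insert ha, SHM_add, ih]

theorem SHM_smul (n : ℕ) (r : PowerSeries ℂ) (f : NR) :
    sh n (r • f) = Polynomial.C (algebraMap (PowerSeries ℂ) KK r) * sh n f := by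
  unfold sh
  rw [Finset.mul_sum]
  refine Finset.sum_congr rfl fun i _ => ?_
  rw [co_smul, map_mul, Polynomial.C_mul_monomial]

end

end Pool.WH
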