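import Pool.Agent.Work.MP_dcf6a6_wh.Interface

/-!
# Block SMT: smooth points of `X`
-/

open CategoryTheory AlgebraicGeometry Polynomial Pool.TVar

namespace Pool.WH

/-- a weighted homogeneous polynomial of degree zero for positive weights is a constant -/
theorem SMT_const {V : Type} {w : V → ℕ} (hw : ∀ v, 0 < w v) {P : MvPolynomial V ℂ}
    (hP : P.IsWeightedHomogeneous w 0) : ∃ z : ℂ, P = MvPolynomial.C z := by
  classical
  refine ⟨P.coeff 0, ?_⟩
  ext m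
  rw [MvPolynomial.coeff_C]
  split_ifs with h
  · rw [← h]
  · by_contra hne
    have h1 := hP hne
    rw [Finsupp.weight_apply, Finsupp.sum] at h1
    have h2 : ∃ v, m v ≠ 0 := by
      by_contra hh
      push Not at hh
      exact h (Finsupp.ext fun v => by rw [hh v]; rfl)
    obtain ⟨v, hv⟩ := h2
    have h3 := (Finset.sum_eq_zero_iff.mp h1) v (Finsupp.mem_support_iff.mpr hv)
    rw [smul_eq_mul, Nat.mul_eq_zero] at h3
    rcases h3 with h3 | h3
    · exact hv h3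
    · exact absurd h3 (hw v).ne'

theorem p_SMT (hPRG : Stmt_PRG) (hPDW : Stmt_PDW) (hFSH : Stmt_FSH) (hSMR : Stmt_SMR)
    (hGCD : Pool.TVar.Stmt_GCD) (hLOC : Pool.TVar.Stmt_LOC) : Stmt_SMT := by
  classical
  intro V _ w d F A _ _ _ 𝒜 _ pr hF hw T v x hx1 hx2
  obtain ⟨hp1, hp2⟩ := hPRG V w F A 𝒜 pr
  obtain ⟨hd1, hd2⟩ := hPDW V w ℂ F d v hF
  have hwv : w v ≤ d := by
    by_contra h
    push Not at h
    apply hx2
    rw [hd2 h, map_zero]
    exact zero_mem _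
  obtain ⟨h, hh⟩ : ∃ h, h = pr.π (∏ u ∈ T.1, MvPolynomial.X u) *
      pr.π (MvPolynomial.pderiv v F) := ⟨_, rfl⟩
  have hTne : T.1.Nonempty := by
    rw [Finset.nonempty_iff_ne_empty]
    intro h0
    have h1 := T.2
    rw [h0] at h1
    simp at h1
  have hgr : ∀ f : V → ℕ, pr.π (∏ u ∈ T.1, MvPolynomial.X u ^ f u) ∈
      𝒜 (∑ u ∈ T.1, f u * w u) := by
    intro f
    rw [map_prod]
    apply SetLike.prod_mem_graded
    intro u _
    rw [map_pow]
    have := SetLike.pow_mem_graded (f u) (pr.graded u)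
    rwa [smul_eq_mul] at this
  have hT1 : pr.π (∏ u ∈ T.1, MvPolynomial.X u) ∈ 𝒜 (∑ u ∈ T.1, w u) := by
    have := hgr fun _ => 1
    simpa only [pow_one, one_mul] using this
  have hhm : h ∈ 𝒜 (∑ u ∈ T.1, w u + (d - w v)) := by
    rw [hh]
    exact SetLike.mul_mem_graded hT1 (hp1 _ _ hd1)
  have hm0 : 0 < ∑ u ∈ T.1, w u + (d - w v) := by
    have : 0 < ∑ u ∈ T.1, w u := Finset.sum_pos (fun u _ => hw u) hTne
    omega
  have hxh : x ∈ Proj.basicOpen 𝒜 h := by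
    rw [Proj.mem_basicOpen]
    intro hmem
    have hpr := x.isPrime
    have h1 : pr.π (∏ u ∈ T.1, MvPolynomial.X u) * pr.π (MvPolynomial.pderiv v F) ∈
        x.asHomogeneousIdeal.toIdeal := by
      rw [← hh]
      exact hmem
    rcases hpr.mem_or_mem h1 with h2 | h2
    · exact hx1 h2
    · exact hx2 h2
  obtain ⟨e, e', he⟩ := hGCD T.1 w T.2
  have hdv : ∀ f : V → ℕ, ∃ n : ℕ, pr.π (∏ u ∈ T.1, MvPolynomial.X u ^ f u) ∣ h ^ n := by
    intro f
    refine ⟨∑ u ∈ T.1, f u, ?_⟩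
    rw [hh, mul_pow]
    refine dvd_mul_of_dvd_left ?_ _
    rw [← map_pow]
    apply _root_.map_dvd
    rw [← Finset.prod_pow]
    apply Finset.prod_dvd_prod_of_dvd
    intro u hu
    exact pow_dvd_pow _ (Finset.single_le_sum (f := f) (fun _ _ => Nat.zero_le _) hu)
  have hα := hgr e
  rw [he] at hα
  have hFT : Algebra.FiniteType ℂ A :=
    (inferInstance : Algebra.FiniteType ℂ (MvPolynomial V ℂ)).of_surjective pr.π pr.surj
  have h0 : ∀ a ∈ 𝒜 0, ∃ z : ℂ, a = algebraMap ℂ A z := by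
    intro a ha
    obtain ⟨P, hP, rfl⟩ := hp2 0 a ha
    obtain ⟨z, rfl⟩ := SMT_const hw hP
    refine ⟨z, ?_⟩
    rw [← MvPolynomial.algebraMap_eq, AlgHom.commutes]
  have hfs := hFSH V F A pr.π pr.surj pr.ker v h (by rw [hh]; exact dvd_mul_left _ _)
  have hsm := hSMR A 𝒜 h _ _ _ _ hFT h0 hhm hm0 hα (hgr e') (hdv e) (hdv e') hfs
  exact hLOC 𝒜 h _ hhm hm0 hsm x hxh

end Pool.WH
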