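import Pool.Agent.Work.MP_dcf6a6_gq.Defs

/-!
# Definitions: general weighted hypersurfaces
-/

open CategoryTheory AlgebraicGeometry Polynomial

namespace Pool.WH

noncomputable section

/-- The combinatorial data: positive weights `w v`, a degree `d`, a set `I` of variables the product
of which has degree `d`, and a monomial `x ^ b` of degree `d` in the other variables.  `wf1` says that
`ℙ(w)` is well formed; `wf2` holds automatically if the hypersurfaces of degree `d` are well formed. -/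
structure HypData {V : Type} [Fintype V] [DecidableEq V] (w : V → ℕ) (d : ℕ) (I : Finset V)
    (b : V →₀ ℕ) : Prop where
  w_pos : ∀ v, 0 < w v
  I_ne : I.Nonempty
  I_deg : ∑ v ∈ I, w v = d
  b_deg : ∑ v, b v * w v = d
  disj : ∀ v ∈ I, b v = 0
  wf1 : ∀ l, (Finset.univ.erase l).gcd w = 1
  wf2 : ∀ i ∈ I, ∀ j, b j ≠ 0 → ((Finset.univ.erase i).erase j).gcd w = 1

/-- The polynomial with the monomials `μ ∈ M` and the coefficients `y μ`. -/
def form {V S : Type} [CommRing S] (M : Finset (V →₀ ℕ)) (y : M → S) : MvPolynomial V S :=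
  ∑ μ : M, MvPolynomial.monomial μ.1 (y μ)

/-- `(A, 𝒜)` is the graded ring `ℂ[x_v] / (F)`, `x_v` in degree `w v`. -/
structure Pres {V : Type} (w : V → ℕ) (F : MvPolynomial V ℂ) {A : Type} [CommRing A]
    [Algebra ℂ A] (𝒜 : ℕ → Submodule ℂ A) [GradedAlgebra 𝒜] where
  /-- the presentation map -/
  π : MvPolynomial V ℂ →ₐ[ℂ] A
  surj : Function.Surjective π
  graded : ∀ v, π (MvPolynomial.X v) ∈ 𝒜 (w v)
  ker : RingHom.ker π = Ideal.span {F}

/-- The `p i`, with cofactors of degree `< a i`, generate the polynomials of degree `< n`. -/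
def Gen {S : Type} [CommRing S] {ι : Type} [Fintype ι] (p : ι → S[X]) (a : ι → ℕ) (n : ℕ) : Prop :=
  ∀ q ∈ degreeLT S n, ∃ A : ι → S[X], (∀ i, A i ∈ degreeLT S (a i)) ∧ ∑ i, A i * p i = q

/-- the sets of variables the weights of which have greatest common divisor one -/
abbrev GT {V : Type} (w : V → ℕ) : Type := {T : Finset V // T.gcd w = 1}

/-- `g` is a curve of degree `c` in the weighted hypersurface `F = 0` of degree `d` which is very free
along the smooth locus (`vf`) and does not meet the common zeros of the `∏_{v ∈ T} x_v`, `T ∈ GT w`. -/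
structure Free {V : Type} [Fintype V] (w : V → ℕ) (d c : ℕ) {S : Type} [CommRing S]
    (F : MvPolynomial V S) (g : V → S[X]) : Prop where
  deg : ∀ v, g v ∈ degreeLT S (c * w v + 1)
  eq : MvPolynomial.aeval g F = 0
  vf : Gen (fun v => MvPolynomial.aeval g (MvPolynomial.pderiv v F)) (fun v => c * w v - 1)
    (c * d - 1)
  goodT : ∃ D, Gen (fun T : GT w => ∏ v ∈ T.1, g v) (fun T => D + 1 - c * ∑ v ∈ T.1, w v) (D + 1)

/-! ### The toric curve -/

/-- the building blocks of the toric curve -/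
structure TData {V : Type} (w : V → ℕ) (d : ℕ) (P : V → V → ℂ[X]) (Q : V → ℂ[X]) : Prop where
  P_monic : ∀ i j, (P i j).Monic
  P_deg : ∀ i j, (P i j).natDegree = 2 * (w i * w j)
  Q_monic : ∀ v, (Q v).Monic
  Q_deg : ∀ v, (Q v).natDegree = 2 * d * w v
  PP : ∀ i j i' j', (i, j) ≠ (i', j') → IsCoprime (P i j) (P i' j')
  PQ : ∀ i j v, IsCoprime (P i j) (Q v)
  QQ : ∀ v v', v ≠ v' → IsCoprime (Q v) (Q v')

/-- the toric curve -/
def tc {V : Type} [DecidableEq V] (I : Finset V) (b : V →₀ ℕ) (P : V → V → ℂ[X])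
    (Q : V → ℂ[X]) (v : V) : ℂ[X] :=
  if v ∈ I then ∏ j ∈ b.support, P v j ^ b j else if v ∈ b.support then ∏ i ∈ I, P i v else Q v

/-- the binomial `∏_{i ∈ I} x_i - x ^ b` -/
def bin {V : Type} (I : Finset V) (b : V →₀ ℕ) : MvPolynomial V ℂ :=
  ∏ v ∈ I, MvPolynomial.X v - MvPolynomial.monomial b 1

/-! ### The node ring -/

theorem nr_mul {f g : LaurentPolynomial (PowerSeries ℂ)}
    (hf : ∀ i : ℤ, (PowerSeries.X : PowerSeries ℂ) ^ (-i).toNat ∣ f.coeff i)
    (hg : ∀ i : ℤ, (PowerSeries.X : PowerSeries ℂ) ^ (-i).toNat ∣ g.coeff i) (i : ℤ) :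
    (PowerSeries.X : PowerSeries ℂ) ^ (-i).toNat ∣ (f * g).coeff i := by
  classical
  rw [AddMonoidAlgebra.coeff_mul]
  refine Finset.dvd_sum fun j _ => Finset.dvd_sum fun k _ => ?_
  dsimp only
  split_ifs with h
  · refine dvd_trans (pow_dvd_pow _ ?_) (pow_add (PowerSeries.X : PowerSeries ℂ) _ _ ▸
      mul_dvd_mul (hf j) (hg k))
    omega
  · exact dvd_zero _

/-- The node ring as a subalgebra, see `NR`. -/
def NRs : Subalgebra (PowerSeries ℂ) (LaurentPolynomial (PowerSeries ℂ)) where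
  carrier := {f | ∀ i : ℤ, (PowerSeries.X : PowerSeries ℂ) ^ (-i).toNat ∣ f.coeff i}
  mul_mem' := fun hf hg => nr_mul hf hg
  add_mem' := fun hf hg i => by
    rw [AddMonoidAlgebra.coeff_add]
    exact dvd_add (hf i) (hg i)
  algebraMap_mem' := fun r i => by
    rw [LaurentPolynomial.algebraMap_apply]
    by_cases h : i = 0
    · subst h
      simp
    · have : (LaurentPolynomial.C (algebraMap (PowerSeries ℂ) (PowerSeries ℂ) r)).coeff i = 0 := by
        rw [LaurentPolynomial.C_apply]
        simp [h]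
      rw [this]
      exact dvd_zero _

/-- The node ring `ℂ⟦s⟧[u, v] / (u v - s)`, as the ring of Laurent polynomials in `T = u` over `ℂ⟦s⟧`
the coefficient of `T ^ (-n)` of which is divisible by `s ^ n` (`v = s T⁻¹`). -/
def NR : Type := NRs

instance : CommRing NR := inferInstanceAs (CommRing NRs)

instance : Algebra (PowerSeries ℂ) NR := inferInstanceAs (Algebra (PowerSeries ℂ) NRs)

/-- the coefficient of `T ^ i` -/
def co (f : NR) (i : ℤ) : PowerSeries ℂ := f.1.coeff i

theorem co_ext {f g : NR} (h : ∀ i, co f i = co g i) : f = g := by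
  apply Subtype.ext
  apply AddMonoidAlgebra.ext
  ext1 i
  exact h i

theorem co_dvd (f : NR) (i : ℤ) : (PowerSeries.X : PowerSeries ℂ) ^ (-i).toNat ∣ co f i := f.2 i

theorem co_zero (i : ℤ) : co 0 i = 0 := rfl

theorem co_add (f g : NR) (i : ℤ) : co (f + g) i = co f i + co g i := rfl

theorem co_neg (f : NR) (i : ℤ) : co (-f) i = -co f i := rfl

theorem co_sub (f g : NR) (i : ℤ) : co (f - g) i = co f i - co g i := by
  rw [sub_eq_add_neg, co_add, co_neg, sub_eq_add_neg]

theorem co_smul (r : PowerSeries ℂ) (f : NR) (i : ℤ) : co (r • f) i = r * co f i := rfl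

theorem co_sum {ι : Type} (s : Finset ι) (f : ι → NR) (i : ℤ) :
    co (∑ j ∈ s, f j) i = ∑ j ∈ s, co (f j) i := by
  classical
  induction s using Finset.induction_on with
  | empty => rw [Finset.sum_empty, Finset.sum_empty, co_zero]
  | insert a s ha ih => rw [Finset.sum_insert ha, Finset.sum_insert ha, co_add, ih]

theorem co_algebraMap (r : PowerSeries ℂ) (i : ℤ) :
    co (algebraMap (PowerSeries ℂ) NR r) i = if i = 0 then r else 0 := by
  have h1 : (algebraMap (PowerSeries ℂ) NR r).1 =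
      algebraMap (PowerSeries ℂ) (LaurentPolynomial (PowerSeries ℂ)) r := rfl
  unfold co
  rw [h1, LaurentPolynomial.algebraMap_apply, LaurentPolynomial.C_apply]
  split_ifs with h
  · subst h
    simp
  · simp [Finsupp.single_apply, eq_comm, h]

theorem co_one (i : ℤ) : co 1 i = if i = 0 then 1 else 0 := by
  rw [← co_algebraMap, map_one]

/-- the coefficients of a product; `s` contains the exponents of `f` -/
theorem co_mul (f g : NR) (k : ℤ) (s : Finset ℤ) (hs : ∀ i, i ∉ s → co f i = 0) :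
    co (f * g) k = ∑ i ∈ s, co f i * co g (k - i) := by
  classical
  have h0 : co (f * g) k = (f.1 * g.1).coeff k := rfl
  rw [h0, AddMonoidAlgebra.coeff_mul, Finsupp.sum]
  have h1 : ∀ i, (g.1.coeff.sum fun m₂ r₂ => if i + m₂ = k then f.1.coeff i * r₂ else 0) =
      co f i * co g (k - i) := by
    intro i
    rw [Finsupp.sum, Finset.sum_eq_single (k - i)]
    · rw [if_pos (by ring)]
      rfl
    · intro j _ hj
      rw [if_neg fun h => hj (by rw [← h]; ring)]
    · intro hj
      rw [if_pos (by ring), Finsupp.notMem_support_iff.mp hj, mul_zero]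
  rw [Finset.sum_congr rfl fun i _ => h1 i]
  refine Finset.sum_subset_zero_on_sdiff ?_ ?_ (fun i _ => rfl)
  · intro i hi
    by_contra h
    exact (Finsupp.mem_support_iff.mp hi) (hs i h)
  · intro i hi
    have h2 : co f i = 0 := by
      have := (Finset.mem_sdiff.mp hi).2
      exact Finsupp.notMem_support_iff.mp this
    rw [h2, zero_mul]

theorem co_finite (f : NR) : {i | co f i ≠ 0}.Finite :=
  f.1.coeff.support.finite_toSet.subset fun _ hi => Finsupp.mem_support_iff.mpr hi

/-- elements with given coefficients -/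
theorem exists_co (a : ℤ → PowerSeries ℂ) (ha : {i | a i ≠ 0}.Finite)
    (hd : ∀ i : ℤ, (PowerSeries.X : PowerSeries ℂ) ^ (-i).toNat ∣ a i) :
    ∃ f : NR, ∀ i, co f i = a i :=
  ⟨⟨AddMonoidAlgebra.ofCoeff (Finsupp.onFinset ha.toFinset a
    fun i hi => ha.mem_toFinset.mpr hi), fun i => hd i⟩, fun _ => rfl⟩

/-- the elements of the node ring with exponents in `(-n, n)` -/
def bd (n : ℕ) : Submodule (PowerSeries ℂ) NR where
  carrier := {f | ∀ i : ℤ, n ≤ i.natAbs → co f i = 0}
  add_mem' := fun {f g} hf hg i hi => by rw [co_add, hf i hi, hg i hi, add_zero]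
  zero_mem' := fun i _ => rfl
  smul_mem' := fun r f hf i hi => by rw [co_smul, hf i hi, mul_zero]

theorem mem_bd {n : ℕ} {f : NR} : f ∈ bd n ↔ ∀ i : ℤ, n ≤ i.natAbs → co f i = 0 := Iff.rfl

/-- the field `ℂ((s))` -/
abbrev KK : Type := FractionRing (PowerSeries ℂ)

/-- `T ^ n f` as a polynomial over `ℂ((s))`, for `f` in `bd (n + 1)` -/
def sh (n : ℕ) (f : NR) : KK[X] :=
  ∑ i ∈ Finset.range (2 * n + 1),
    Polynomial.monomial i (algebraMap (PowerSeries ℂ) KK (co f ((i : ℤ) - n)))

/-- `ρ` is the reduction `u ↦ X, v ↦ 0, s ↦ 0`. -/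
def IsRU (ρ : NR →+* ℂ[X]) : Prop :=
  ∀ (f : NR) (n : ℕ), (ρ f).coeff n = PowerSeries.coeff 0 (co f (n : ℤ))

/-- `ρ` is the reduction `v ↦ X, u ↦ 0, s ↦ 0`. -/
def IsRV (ρ : NR →+* ℂ[X]) : Prop :=
  ∀ (f : NR) (n : ℕ), (ρ f).coeff n = PowerSeries.coeff n (co f (-(n : ℤ)))

end

end Pool.WH
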