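import Pool.Agent.Work.MP_dcf6a6_wh.Defs
import Pool.Agent.Work.MP_dcf6a6_gq.Interface

/-!
# General weighted hypersurfaces: interface

Plan.  (1) `F_0 = ∏_I x - x ^ b` contains an explicit curve which is `Free` (TOR).  (2) Curves over the
residue field of `R = k⟦t⟧` which are `Free` lift to `R` (LFT: Newton iteration, Nakayama), the end points
can be prescribed.  (3) A `Free` curve over a `ℂ`-algebra specialises (SPC: descent to a finitely
generated algebra, extension of points).  So the general `F` contains a `Free` curve (FAM), and one with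
one end point fixed and the other one a general point of `F = 0` (MOV).  (4) Two `Free` curves with a
common end can be glued and smoothed over `ℂ⟦s⟧` (GLU; node ring `NR`), so there are `Free` curves
through two general points.  (5) `Free` curves give morphisms `ℙ¹ → Proj A` into the smooth locus (MRP).

Everywhere `X : PowerSeries k` is `t` (or `s`), `cc = PowerSeries.constantCoeff` is the reduction
`k⟦t⟧ → k`.
-/

open CategoryTheory AlgebraicGeometry Polynomial Pool.TVar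

namespace Pool.WH

noncomputable section

/-! ### Generation of forms -/

/-- GMP (60 lines): `Gen` is preserved by ring homomorphisms.
PROOF. For `m < n` let `A m` be the cofactors of `X ^ m`.  For `q = ∑_{m < n} q_m X ^ m` over `S'` the
cofactors are `∑_{m < n} C q_m * (A m i).map φ`; their degree is `< a i` (`Polynomial.mem_degreeLT`,
`degree_map_le`). -/
def Stmt_GMP : Prop :=
  ∀ (S S' : Type) [CommRing S] [CommRing S'] (φ : S →+* S') (ι : Type) [Fintype ι] (p : ι → S[X])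
    (a : ι → ℕ) (n : ℕ), Gen p a n → Gen (fun i => (p i).map φ) a n

/-- FMP (60 lines, uses GMP): `Free` is preserved by ring homomorphisms.
PROOF. `deg`: `degree_map_le`.  `eq`, `vf`: `aeval (g.map φ) (F.map φ) = (aeval g F).map φ` for all `F`
(`MvPolynomial.induction_on` or `MvPolynomial.map_aeval`-type lemmas), and `pderiv` commutes with `map`
(`MvPolynomial.pderiv_map`).  `goodT`: `Polynomial.map_prod`.  Then GMP. -/
def Stmt_FMP : Prop :=
  ∀ (V : Type) [Fintype V] (w : V → ℕ) (d c : ℕ) (S S' : Type) [CommRing S] [CommRing S']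
    (φ : S →+* S') (F : MvPolynomial V S) (g : V → S[X]), Free w d c F g →
    Free w d c (MvPolynomial.map φ F) (fun v => (g v).map φ)

/-- GSH (50 lines): one degree up.
PROOF. `q = q_0 + C z * X ^ n`, `q_0` of degree `< n`.  Take cofactors `A` of `q_0`, `B` of `X ^ (n - 1)`;
`q = ∑ (A i + C z * X * B i) * p i`.  If `a i = 0` then `A i = B i = 0`; otherwise both terms have degree
`< a i + 1 ≤ a' i`. -/
def Stmt_GSH : Prop :=
  ∀ (S : Type) [CommRing S] (ι : Type) [Fintype ι] (p : ι → S[X]) (a a' : ι → ℕ) (n : ℕ), 0 < n →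
    (∀ i, 0 < a i → a i + 1 ≤ a' i) → Gen p a n → Gen p a' (n + 1)

/-- GMO (30 lines, uses GSH): all higher degrees.
PROOF. Induction on `D' - D`, GSH with `a i = D + 1 - δ i`, `a' i = D + 2 - δ i`. -/
def Stmt_GMO : Prop :=
  ∀ (S : Type) [CommRing S] (ι : Type) [Fintype ι] (p : ι → S[X]) (δ : ι → ℕ) (D D' : ℕ),
    D ≤ D' → Gen p (fun i => D + 1 - δ i) (D + 1) → Gen p (fun i => D' + 1 - δ i) (D' + 1)

/-- NAK (100 lines): `Gen` over `k⟦t⟧` from the residue field.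
PROOF. `R = k⟦t⟧` is local with maximal ideal `(t)`; the submodule `N' = {∑ A_i p_i | A_i ∈ degreeLT (a i)}`
of `N = degreeLT R n` (hypothesis) satisfies `N ≤ N' ⊔ t N`: for `q ∈ N` lift cofactors of `q mod t`
coefficientwise to `R`; the difference has degree `< n` and all coefficients divisible by `t`.  `N` is
finitely generated; Nakayama (`Submodule.le_of_le_smul_of_le_jacobson_bot`). -/
def Stmt_NAK : Prop :=
  ∀ (k : Type) [Field k] (ι : Type) [Fintype ι] (p : ι → (PowerSeries k)[X]) (a : ι → ℕ) (n : ℕ),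
    (∀ i, ∀ A ∈ degreeLT (PowerSeries k) (a i), A * p i ∈ degreeLT (PowerSeries k) n) →
    Gen (fun i => (p i).map (PowerSeries.constantCoeff (R := k))) a n → Gen p a n

/-- GDS (80 lines): `Gen` descends to subalgebras.
PROOF. `E` = all coefficients of the cofactors `A m i` of the `X ^ m`, `m < n` (a `Finset`, classical).
If `E ⊆ S'` the cofactors are images of polynomials over `S'` (`Polynomial.toSubring` or
`Polynomial.lifts`), of the same degrees; the identities hold over `S'` because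
`Polynomial.map S'.val` is injective.  Linear combinations as in GMP. -/
def Stmt_GDS : Prop :=
  ∀ (R : Type) [CommRing R] [Algebra ℂ R] (ι : Type) [Fintype ι] (p : ι → R[X]) (a : ι → ℕ) (n : ℕ),
    Gen p a n → ∃ E : Finset R, ∀ S' : Subalgebra ℂ R, (E : Set R) ⊆ S' → ∀ p' : ι → S'[X],
      (∀ i, (p' i).map (S'.val : S' →+* R) = p i) → Gen p' a n

/-- DSC (100 lines, uses GDS): `Free` descends to subalgebras.
PROOF. `E` = the coefficients of the `g v` and the sets `E` of GDS for `vf` and for `goodT` (`D` fixed).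
`g'` = the `g v` as polynomials over `S'`.  `aeval g' F'` maps to `aeval g F` (and the same for the
derivatives, `pderiv_map`), and `Polynomial.map S'.val` is injective. -/
def Stmt_DSC : Prop :=
  ∀ (V : Type) [Fintype V] (w : V → ℕ) (d c : ℕ) (R : Type) [CommRing R] [Algebra ℂ R]
    (F : MvPolynomial V R) (g : V → R[X]), Free w d c F g →
    ∃ E : Finset R, ∀ S' : Subalgebra ℂ R, (E : Set R) ⊆ S' → ∀ F' : MvPolynomial V S',
      MvPolynomial.map (S'.val : S' →+* R) F' = F →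
      ∃ g' : V → S'[X], (∀ v, (g' v).map (S'.val : S' →+* R) = g v) ∧ Free w d c F' g'

/-- SPC (120 lines, uses DSC FMP GQ.EXT): specialisation.
PROOF. `E` from DSC; `S' = Algebra.adjoin ℂ (E ∪ θ (generators of B))`, a domain of finite type containing
`θ B`; `θ' : B →ₐ S'` (codRestrict).  `F' = map θ' F`; `g'` from DSC.  `GQ.Stmt_EXT` for `θ'` gives `b`, and
for `χ` with `χ b ≠ 0` a `χ' : S' →ₐ ℂ`, `χ' ∘ θ' = χ`.  Take `g'' = g'.map χ'` (FMP);
`map χ' (map θ' F) = map χ F`.  If `(g v).coeff n = θ α` then `(g' v).coeff n = θ' α` (injectivity of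
`S' → R`), so `(g'' v).coeff n = χ α`. -/
def Stmt_SPC : Prop :=
  ∀ (V : Type) [Fintype V] (w : V → ℕ) (d c : ℕ) (B R : Type) [CommRing B] [IsDomain B]
    [Algebra ℂ B] [CommRing R] [IsDomain R] [Algebra ℂ R], Algebra.FiniteType ℂ B →
    ∀ θ : B →ₐ[ℂ] R, Function.Injective θ → ∀ (F : MvPolynomial V B) (g : V → R[X]),
    Free w d c (MvPolynomial.map (θ : B →+* R) F) g →
    ∃ b : B, b ≠ 0 ∧ ∀ χ : B →ₐ[ℂ] ℂ, χ b ≠ 0 → ∃ g' : V → ℂ[X],
      Free w d c (MvPolynomial.map (χ : B →+* ℂ) F) g' ∧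
      ∀ (v : V) (n : ℕ) (α : B), (g v).coeff n = θ α → (g' v).coeff n = χ α

/-! ### Newton iteration -/

/-- TAY (80 lines): Taylor expansion to second order.
PROOF. `MvPolynomial.induction_on F`: constants and sums are clear; if it holds for `F` with rest `r`
then for `F * X_u`: multiply by `x u + s z u`; `pderiv v (F * X u) = pderiv v F * X u + F * δ`, the new
rest is `r * (x u + s z u) + z u * ∑ z v * ∂_v F (x)`. -/
def Stmt_TAY : Prop :=
  ∀ (V : Type) [Fintype V] (S B : Type) [CommRing S] [CommRing B] [Algebra S B]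
    (F : MvPolynomial V S) (x z : V → B) (s : B), ∃ r : B,
    MvPolynomial.aeval (fun v => x v + s * z v) F = MvPolynomial.aeval x F +
      s * ∑ v, z v * MvPolynomial.aeval x (MvPolynomial.pderiv v F) + s ^ 2 * r

/-- HEN (200 lines, uses TAY): Newton iteration with corrections in a finitely generated module.
PROOF. `s = X`.  Let `f : Fin m → C` generate `C`, `Γ a = ∑ a_j f_j` for `a : Fin m → k⟦s⟧`.  Construct `a_n`
(`n ≥ 1`) with `F (G + s Γ a_n) = s ^ n • b_n` and `a_(n+1) - a_n ∈ s ^ (n-1)`: `a_1 = 0` (`h6`).  Step: `s ^ n • b_n`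
is in `N` (`h3`), so `b_n ∈ N` (`h4` repeatedly).  By `h5` there are `z ∈ C`, `b'` with
`∑ z_v ∂_v F (G) = b_n + s • b'`; `z = Γ e`.  Put `a_(n+1) = a_n - s ^ (n-1) e`.  TAY with `s ^ n`:
`F (G + s Γ a_n - s ^ n z) = s ^ n b_n - s ^ n ∑ z_v ∂_v F (G + s Γ a_n) + s ^ (2n) r`, and
`∂_v F (G + s Γ a_n) ≡ ∂_v F (G)` modulo `s` (TAY), so this is `s ^ (n+1) • b_(n+1)` (`n ≥ 1`).  The limit: the
coefficients of `a_n` stabilise; `a` with `a - a_n ∈ s ^ (n-1)` for all `n` (`PowerSeries.mk` of the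
diagonal coefficients).  `F (G + s Γ a) - F (G + s Γ a_n)` is divisible by `s ^ n` (TAY with `s ^ n`), so
`F (G + s Γ a)` is divisible by all `s ^ n`, so 0 by `sep`.  `z = Γ a ∈ C`. -/
def Stmt_HEN : Prop :=
  ∀ (k : Type) [Field k] (V : Type) [Fintype V] (B : Type) [CommRing B]
    [Algebra (PowerSeries k) B] (F : MvPolynomial V (PowerSeries k)) (G : V → B)
    (C : Submodule (PowerSeries k) (V → B)) (N : Set B), C.FG →
    (∀ b : B, (∀ n : ℕ, ∃ b' : B, b = (PowerSeries.X : PowerSeries k) ^ n • b') → b = 0) →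
    (∀ z ∈ C, MvPolynomial.aeval (G + (PowerSeries.X : PowerSeries k) • z) F ∈ N) →
    (∀ b : B, (PowerSeries.X : PowerSeries k) • b ∈ N → b ∈ N) →
    (∀ b ∈ N, ∃ z ∈ C, ∃ b' : B, ∑ v, z v * MvPolynomial.aeval G (MvPolynomial.pderiv v F) =
      b + (PowerSeries.X : PowerSeries k) • b') →
    (∃ b : B, MvPolynomial.aeval G F = (PowerSeries.X : PowerSeries k) • b) →
    ∃ z ∈ C, MvPolynomial.aeval (G + (PowerSeries.X : PowerSeries k) • z) F = 0

/-! ### Lifting curves from the residue field to power series -/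

/-- DEG (100 lines): degree and extreme coefficients of `F (g)`.
PROOF. As `Pool.TVar.Stmt_DEG` (proof in `Work/MP_dcf6a6_tv_helper54/DEG.lean`), with coefficients in a
commutative ring: by linearity (`MvPolynomial.as_sum`) for a monomial `∏ g_v ^ (μ v)` with
`∑ μ_v w_v = d`; products: `coeff_mul_degree_add_degree`-type lemma for degree bounds
(`Polynomial.coeff_mul_of_natDegree_le`). -/
def Stmt_DEG : Prop :=
  ∀ (V : Type) [Fintype V] (w : V → ℕ) (S : Type) [CommRing S] (F : MvPolynomial V S) (d c : ℕ)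
    (g : V → S[X]), F.IsWeightedHomogeneous w d → (∀ v, g v ∈ degreeLT S (c * w v + 1)) →
    MvPolynomial.aeval g F ∈ degreeLT S (c * d + 1) ∧
    (MvPolynomial.aeval g F).coeff (c * d) =
      MvPolynomial.eval (fun v => (g v).coeff (c * w v)) F ∧
    (MvPolynomial.aeval g F).coeff 0 = MvPolynomial.eval (fun v => (g v).coeff 0) F

/-- PDW (50 lines): the partial derivatives are homogeneous.
PROOF. `MvPolynomial.IsWeightedHomogeneous.pderiv` if `w v ≤ d`; if `d < w v` no monomial of `F` contains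
`x_v`. -/
def Stmt_PDW : Prop :=
  ∀ (V : Type) (w : V → ℕ) (S : Type) [CommRing S] (F : MvPolynomial V S) (d : ℕ) (v : V),
    F.IsWeightedHomogeneous w d →
    (MvPolynomial.pderiv v F).IsWeightedHomogeneous w (d - w v) ∧
      (d < w v → MvPolynomial.pderiv v F = 0)

/-- PDG (60 lines, uses DEG PDW): degrees of the products with the partial derivatives.
PROOF. If `d < w v` the product is 0.  If `w v ≤ d` then `∂_v F (g)` has degree `≤ c (d - w v)` and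
`(c w_v - 1 + j) + c (d - w_v) = c d - 1 + j`, as `c w_v ≥ 1`. -/
def Stmt_PDG : Prop :=
  ∀ (V : Type) [Fintype V] (w : V → ℕ) (S : Type) [CommRing S] (F : MvPolynomial V S) (d c : ℕ)
    (g : V → S[X]), F.IsWeightedHomogeneous w d → (∀ v, 0 < w v) → 0 < c →
    (∀ v, g v ∈ degreeLT S (c * w v + 1)) → ∀ (v : V) (j : ℕ), ∀ A ∈ degreeLT S (c * w v - 1 + j),
    A * MvPolynomial.aeval g (MvPolynomial.pderiv v F) ∈ degreeLT S (c * d - 1 + j)

/-- FNK (80 lines, uses NAK PDG): `Free` over `k⟦t⟧` from the residue field.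
PROOF. `vf`: NAK, hypothesis by PDG with `j = 0`; `(aeval G ∂_v F).map cc = aeval (G.map cc) (∂_v (F.map cc))`.
`goodT`, same `D`: NAK; `∏_{v ∈ T} G v` has degree `≤ c ∑_T w` (if `D + 1 ≤ c ∑_T w` the cofactor is 0). -/
def Stmt_FNK : Prop :=
  ∀ (k : Type) [Field k] (V : Type) [Fintype V] (w : V → ℕ) (d c : ℕ)
    (F : MvPolynomial V (PowerSeries k)) (G : V → (PowerSeries k)[X]),
    F.IsWeightedHomogeneous w d → (∀ v, 0 < w v) → 0 < c →
    (∀ v, G v ∈ degreeLT (PowerSeries k) (c * w v + 1)) → MvPolynomial.aeval G F = 0 →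
    Free w d c (MvPolynomial.map (PowerSeries.constantCoeff (R := k)) F)
      (fun v => (G v).map (PowerSeries.constantCoeff (R := k))) → Free w d c F G

/-- PTL (80 lines, uses HEN): lifting smooth points.
PROOF. HEN with `B = k⟦t⟧`, `G = z`, `N = univ`, `C = {c | c v = 0 for v ≠ v₂}`; `h5`: `∂_(v₂) F (z)` is a unit (its
constant coefficient is not 0): no `b'` needed.  `h6`: `F (z)` has constant coefficient 0. -/
def Stmt_PTL : Prop :=
  ∀ (k : Type) [Field k] (V : Type) [Fintype V] [DecidableEq V]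
    (F : MvPolynomial V (PowerSeries k)) (z : V → PowerSeries k) (v₂ : V),
    MvPolynomial.eval (fun v => PowerSeries.constantCoeff (z v))
      (MvPolynomial.map (PowerSeries.constantCoeff (R := k)) F) = 0 →
    MvPolynomial.eval (fun v => PowerSeries.constantCoeff (z v))
      (MvPolynomial.pderiv v₂ (MvPolynomial.map (PowerSeries.constantCoeff (R := k)) F)) ≠ 0 →
    ∃ z₂ : PowerSeries k, PowerSeries.constantCoeff z₂ = PowerSeries.constantCoeff (z v₂) ∧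
      MvPolynomial.eval (Function.update z v₂ z₂) F = 0

/-- LFT (200 lines, uses HEN NAK PDG DEG FNK): lifting curves with given ends.
PROOF. HEN with `B = k⟦t⟧[X]`, `G = G₀`, `C = {z | ∀ v, z v = X * h, h ∈ degreeLT (c w_v - 1)}` (finitely
generated), `N = {q | q ∈ degreeLT (c d), q.coeff 0 = 0}` `= {X * q' | q' ∈ degreeLT (c d - 1)}`.  `sep`:
coefficientwise (a power series divisible by all `t ^ n` is 0).  `h3`: by DEG `F (G₀ + t z)` has degree
`≤ c d`, its coefficients at `0` and `c d` depend only on the coefficients at `0` and `c w_v` of `G₀ + t z`,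
which are those of `G₀`; so they are 0.  `h4`: `t` is not a zero divisor.  `h5`: by NAK (with PDG,
`j = 0`) `Gen (aeval G₀ (∂_v F)) (c w_v - 1) (c d - 1)` over `k⟦t⟧`: `q' = ∑ h_v ∂_v F (G₀)`, `z_v = X h_v`, `b' = 0`.
`h6`: `F (G₀)` reduces to `aeval (G₀ mod t) (F mod t) = 0`.  For `G = G₀ + t z`: same reduction, same ends,
and `Free` by FNK. -/
def Stmt_LFT : Prop :=
  ∀ (k : Type) [Field k] (V : Type) [Fintype V] (w : V → ℕ) (d c : ℕ)
    (F : MvPolynomial V (PowerSeries k)) (G₀ : V → (PowerSeries k)[X]),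
    F.IsWeightedHomogeneous w d → (∀ v, 0 < w v) → 0 < d → 2 ≤ c →
    (∀ v, G₀ v ∈ degreeLT (PowerSeries k) (c * w v + 1)) →
    MvPolynomial.eval (fun v => (G₀ v).coeff 0) F = 0 →
    MvPolynomial.eval (fun v => (G₀ v).coeff (c * w v)) F = 0 →
    Free w d c (MvPolynomial.map (PowerSeries.constantCoeff (R := k)) F)
      (fun v => (G₀ v).map (PowerSeries.constantCoeff (R := k))) →
    ∃ G : V → (PowerSeries k)[X], Free w d c F G ∧
      (∀ v, (G v).coeff 0 = (G₀ v).coeff 0) ∧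
      ∀ v, (G v).coeff (c * w v) = (G₀ v).coeff (c * w v)

/-- END (80 lines, uses DEG PDW): the ends of a `Free` curve are smooth points.
PROOF. `vf` for `q = 1` (`c d - 1 ≥ 1`): the coefficient at 0 is `1 = ∑ h_v(0) ∂_v F (g(0))`.  `vf` for
`q = X ^ (c d - 2)`: the coefficient at `c d - 2` is `1 = ∑ (h_v)_(c w_v - 2) ∂_v F (top)`, where `h_v` has degree
`≤ c w_v - 2` and `∂_v F (g)` degree `≤ c (d - w_v)` with that coefficient equal to `∂_v F (top)` (DEG, PDW),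
`c w_v ≥ 2` (if `d < w_v`, `∂_v F = 0`).  Third part: `goodT` for `q = 1`. -/
def Stmt_END : Prop :=
  ∀ (V : Type) [Fintype V] (w : V → ℕ) (d c : ℕ) (F : MvPolynomial V ℂ) (g : V → ℂ[X]),
    F.IsWeightedHomogeneous w d → (∀ v, 0 < w v) → 0 < d → 2 ≤ c → Free w d c F g →
    (∃ v, MvPolynomial.eval (fun v => (g v).coeff 0) (MvPolynomial.pderiv v F) ≠ 0) ∧
    (∃ v, MvPolynomial.eval (fun v => (g v).coeff (c * w v)) (MvPolynomial.pderiv v F) ≠ 0) ∧
    ∃ T : GT w, ∏ v ∈ T.1, (g v).coeff 0 ≠ 0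

/-- the field `ℂ(β_i, i ∈ ι)` -/
abbrev KB (ι : Type) : Type := FractionRing (MvPolynomial ι ℂ)

/-- the power series `a_i + t β_i` -/
def gen (ι : Type) (a : ι → ℂ) (i : ι) : PowerSeries (KB ι) :=
  PowerSeries.C (algebraMap ℂ (KB ι) (a i)) +
    PowerSeries.X * PowerSeries.C (algebraMap (MvPolynomial ι ℂ) (KB ι) (MvPolynomial.X i))

/-- SIN (80 lines): the `a_i + t β_i` are algebraically independent.
PROOF. Let `P ≠ 0`, `P' = P (a + x) ≠ 0` (substitution `x ↦ x - a` is the inverse).  `P (a + t β) = P' (t β)`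
and its coefficient at `t ^ n` is `P'_n (β)`, `P'_n` the homogeneous component of degree `n`, considered in the
field `KB ι`; some `P'_n ≠ 0`. -/
def Stmt_SIN : Prop :=
  ∀ (ι : Type) (a : ι → ℂ), Function.Injective
    (MvPolynomial.aeval (gen ι a) : MvPolynomial ι ℂ →ₐ[ℂ] PowerSeries (KB ι))

/-- FAM (200 lines, uses FMP END DEG PTL LFT SPC SIN): `Free` curves for general coefficients.
PROOF. `k = KB M`, `R = k⟦t⟧`, `F = form M (gen M y₀)` over `R`; its reduction is `form M y₀` mapped to `k`.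
`x⁰_v = (g₀ v).coeff 0`, `x¹_v = (g₀ v).coeff (c w_v)`: zeros of `form M y₀` (DEG), with a nonzero partial
derivative (END).  PTL (for the constant vectors `x⁰`, `x¹`) gives `z⁰, z¹ : V → R` with `F (z) = 0` and
reductions `x⁰`, `x¹`.  `G₀ v = g₀ v + C (z⁰_v - x⁰_v) + C (z¹_v - x¹_v) * X ^ (c w_v)`; ends `z⁰_v`, `z¹_v` (`c w_v > 0`),
reduction `g₀ v` mapped to `k`, `Free` by FMP.  LFT: `G`, `Free` for `F`.  SPC with `B = MvPolynomial M ℂ`,
`θ = aeval (gen M y₀)` (injective by SIN), and `form M X` over `B`: `H = b`, `χ = aeval y`. -/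
def Stmt_FAM : Prop :=
  ∀ (V : Type) [Fintype V] [DecidableEq V] (w : V → ℕ) (d c : ℕ) (M : Finset (V →₀ ℕ)),
    (∀ v, 0 < w v) → 0 < d → 2 ≤ c → (∀ μ ∈ M, ∑ v, μ v * w v = d) →
    ∀ (y₀ : M → ℂ) (g₀ : V → ℂ[X]), Free w d c (form M y₀) g₀ →
    ∃ H : MvPolynomial M ℂ, H ≠ 0 ∧ ∀ y : M → ℂ, MvPolynomial.eval y H ≠ 0 →
      ∃ g : V → ℂ[X], Free w d c (form M y) g

/-! ### The toric curve -/

/-- PFR (60 lines): partial fractions.
PROOF. `Mathlib/Algebra/Polynomial/PartialFractions.lean`; the polynomial part is 0 by degrees. -/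
def Stmt_PFR : Prop :=
  ∀ (V : Type) [DecidableEq V] (I : Finset V) (g : V → ℂ[X]), (∀ i ∈ I, (g i).Monic) →
    (∀ i ∈ I, ∀ j ∈ I, i ≠ j → IsCoprime (g i) (g j)) →
    ∀ e ∈ degreeLT ℂ (∑ i ∈ I, (g i).natDegree), ∃ r : V → ℂ[X],
      (∀ i ∈ I, r i ∈ degreeLT ℂ (g i).natDegree) ∧ e = ∑ i ∈ I, r i * ∏ j ∈ I.erase i, g j

/-- TDX (60 lines): existence of the building blocks.
PROOF. Products of `X - C z` for different `z`; take an injection of the countable type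
`(V × V × ℕ) ⊕ (V × ℕ)` into `ℂ` (e.g. into `ℕ`). -/
def Stmt_TDX : Prop :=
  ∀ (V : Type) [Fintype V] (w : V → ℕ) (d : ℕ), ∃ P Q, TData w d P Q

/-- TDG (60 lines): the degrees of the toric curve and its equation.
PROOF. `v ∈ I`: `∑_j 2 w_v w_j b_j = 2 d w_v`; `v ∈ supp b`: `∑_{i ∈ I} 2 w_i w_v = 2 d w_v` (`v ∉ I`).  Both
products are `∏_{i ∈ I} ∏_j P_ij ^ (b_j)` (`Finset.prod_comm`). -/
def Stmt_TDG : Prop :=
  ∀ (V : Type) [Fintype V] [DecidableEq V] (w : V → ℕ) (d : ℕ) (I : Finset V) (b : V →₀ ℕ)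
    (P : V → V → ℂ[X]) (Q : V → ℂ[X]), HypData w d I b → TData w d P Q →
    (∀ v, (tc I b P Q v).Monic ∧ (tc I b P Q v).natDegree = 2 * d * w v) ∧
    ∏ v ∈ I, tc I b P Q v = ∏ v ∈ b.support, tc I b P Q v ^ b v

/-- TVF (200 lines, uses PFR TDG): the toric curve is very free.
PROOF. `g = tc I b P Q`, `m = ∏_{i ∈ I} g_i = ∏_j g_j ^ (b_j)`, monic of degree `2 d d`.  For `F_0 = bin I b`:
`∂_i F_0 (g) = ∏_{I \ i} g = m / g_i` for `i ∈ I`, `∂_j F_0 (g) = - b_j m / g_j` for `j ∈ supp b`.  Fix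
`j₀ ∈ supp b` (`d > 0`).  Let `e` have degree `≤ 2dd - 2`.  PFR: `e = ∑_{i ∈ I} e_i m / g_i`, `e_i` of degree
`≤ 2dw_i - 1`; `κ_i` = the coefficient of `e_i` at `2dw_i - 1`; `∑ κ_i = 0` (coefficient of `e` at `2dd - 1`, all
`m / g_i` are monic of degree `2dd - 2dw_i`).  Put `a_i = 2 w_i w_(j₀)`,
`h_i = e_i - κ_i X ^ (a_i - 1) (g_i / P_(i j₀))`: `g_i / P_(i j₀)` is monic of degree `2dw_i - a_i`, so `h_i` has
degree `≤ 2dw_i - 2`.  `η = ∑_{i ∈ I} κ_i X ^ (a_i - 1) ∏_{i' ∈ I \ i} P_(i' j₀)` has degree `≤ 2dw_(j₀) - 1` with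
coefficient `∑ κ_i = 0` there, so degree `≤ 2dw_(j₀) - 2`.  `(g_i / P_(i j₀)) (m / g_i) = m / P_(i j₀) =
(∏_{i' ≠ i} P_(i' j₀)) (m / g_(j₀))`; so `e = ∑_{i ∈ I} h_i (m / g_i) + η (m / g_(j₀))`.  The cofactor at `j₀` is
`- η / b_(j₀)`, at the other variables outside `I` it is 0. -/
def Stmt_TVF : Prop :=
  ∀ (V : Type) [Fintype V] [DecidableEq V] (w : V → ℕ) (d : ℕ) (I : Finset V) (b : V →₀ ℕ)
    (P : V → V → ℂ[X]) (Q : V → ℂ[X]), HypData w d I b → TData w d P Q →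
    Gen (fun v => MvPolynomial.aeval (tc I b P Q) (MvPolynomial.pderiv v (bin I b)))
      (fun v => 2 * d * w v - 1) (2 * d * d - 1)

/-- TZR (80 lines): the zeros of the toric curve.
PROOF. If `z` is a zero of `P i j` for some `i ∈ I`, `j ∈ supp b`: it is a zero of no other `P i' j'` and of no
`Q l`, so the `v` with `g_v (z) = 0` are `i`, `j`; take `T = univ \ {i, j}` (`wf2`).  If `z` is a zero of `Q l`,
`l ∉ I ∪ supp b`: `T = univ \ {l}` (`wf1`).  Otherwise `T = univ` (its gcd divides that of `univ \ {l}`). -/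
def Stmt_TZR : Prop :=
  ∀ (V : Type) [Fintype V] [DecidableEq V] (w : V → ℕ) (d : ℕ) (I : Finset V) (b : V →₀ ℕ)
    (P : V → V → ℂ[X]) (Q : V → ℂ[X]), HypData w d I b → TData w d P Q →
    ∀ z : ℂ, ∃ T : GT w, ∀ v ∈ T.1, (tc I b P Q v).eval z ≠ 0

/-- GN0 (120 lines): generation in large degrees.
PROOF. The ideal of `ℂ[X]` generated by the `p i` is principal; its generator has no zero, so it is 1:
`∑ A_i p_i = 1`.  `δ₀ = δ i₀`, `D = 2 δ₀`.  For `q` of degree `≤ D` write `q A_i = p_(i₀) Q_i + R_i`, `R_i` of degree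
`< δ₀` (`modByMonic`).  `q = ∑ R_i p_i + p_(i₀) ∑ Q_i p_i`; `R_i p_i` has degree `≤ δ₀ - 1 + δ_i ≤ 2 δ₀ - 1`, so
`p_(i₀) ∑ Q_i p_i` has degree `≤ D` and `∑ Q_i p_i` degree `≤ D - δ₀` (`p_(i₀)` is monic of degree `δ₀`).
`R_i` has degree `< δ₀ ≤ D + 1 - δ_i`.  Add the second term to the cofactor of `i₀`. -/
def Stmt_GN0 : Prop :=
  ∀ (ι : Type) [Fintype ι] (p : ι → ℂ[X]) (δ : ι → ℕ) (i₀ : ι), (p i₀).Monic →
    (p i₀).natDegree = δ i₀ → (∀ i, δ i ≤ δ i₀) → (∀ i, p i ∈ degreeLT ℂ (δ i + 1)) →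
    (∀ z : ℂ, ∃ i, (p i).eval z ≠ 0) → ∃ D, Gen p (fun i => D + 1 - δ i) (D + 1)

/-- TOR (80 lines, uses TDX TDG TVF TZR GN0): the toric curve is `Free`.
PROOF. `c = 2 d`.  `goodT`: GN0 for `ι = GT w`, `i₀ = univ` (`univ.gcd w = 1` by `wf1`), `δ T = 2 d ∑_T w`. -/
def Stmt_TOR : Prop :=
  ∀ (V : Type) [Fintype V] [DecidableEq V] (w : V → ℕ) (d : ℕ) (I : Finset V) (b : V →₀ ℕ),
    HypData w d I b → ∃ g : V → ℂ[X], Free w d (2 * d) (bin I b) g

/-! ### Moving an end point -/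

/-- ELM (150 lines): elimination of a variable.
PROOF. Write `MvPolynomial V ℂ = L₀[x_v]`, `L₀` the polynomial ring in the other variables (rename along
`V ≃ Option {u // u ≠ v}` and `MvPolynomial.optionEquivLeft`), `L = FractionRing L₀`.  `F` is prime of
positive degree in `x_v`, so primitive and prime in `L[x_v]` (Gauss lemma:
`Polynomial.IsPrimitive.irreducible_iff_irreducible_map_fraction_map`; `L₀` is a UFD), and `F ∤ P` in
`L[x_v]` (`Polynomial.IsPrimitive.dvd_of_fraction_map_dvd_fraction_map` or so).  So `A F + B P = 1` over `L`;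
clear the denominators. -/
def Stmt_ELM : Prop :=
  ∀ (V : Type) [Fintype V] [DecidableEq V] (F P : MvPolynomial V ℂ) (v : V), Prime F →
    MvPolynomial.pderiv v F ≠ 0 → ¬ F ∣ P →
    ∃ A B D : MvPolynomial V ℂ, D ≠ 0 ∧ v ∉ D.vars ∧ A * F + B * P = D

/-- INJ (60 lines, uses ELM SIN): a generic point of the hypersurface.
PROOF. If `F ∤ P`, ELM gives `D`; `D (z) = 0`; `D` does not contain `x_(v₂)`, so `D (z) = D (gen a)`
(`MvPolynomial.eval₂Hom_congr'` or `aeval` congruence on `vars`), and `D = 0` by SIN: contradiction. -/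
def Stmt_INJ : Prop :=
  ∀ (V : Type) [Fintype V] [DecidableEq V] (F : MvPolynomial V ℂ) (a : V → ℂ) (v₂ : V)
    (z : V → PowerSeries (KB V)), Prime F → MvPolynomial.pderiv v₂ F ≠ 0 →
    (∀ v, v ≠ v₂ → z v = gen V a v) → MvPolynomial.aeval z F = 0 →
    ∀ P : MvPolynomial V ℂ, MvPolynomial.aeval z P = 0 → F ∣ P

/-- MOV (200 lines, uses FMP END DEG PTL LFT SPC INJ): moving the end point.
PROOF. `x¹_v = (g v).coeff (c w_v)`; `F (x¹) = 0` (DEG), `∂_(v₂) F (x¹) ≠ 0` (END).  `k = KB V`, `R = k⟦t⟧`.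
PTL (for `F` mapped to `R` and the vector `gen V x¹`) gives `z_(v₂)`; with `z_v = x¹_v + t β_v` for `v ≠ v₂`:
`F (z) = 0`, `z ≡ x¹`.  `G₀ v = g v + C (z_v - x¹_v) * X ^ (c w_v)`: reduction `g v` (mapped to `k`), `Free` by
FMP; the end at 0 is `(g v).coeff 0` (a zero of `F`), the other one `z`.  LFT: `G`.  `B = ℂ[x] / (F)` (domain,
finite type), `θ : B → R`, `x_v ↦ z_v`, injective by INJ (`∂_(v₂) F ≠ 0`).  SPC (`F` mapped to `B`):
`b ≠ 0`, `Q` a representative of `b`, `F ∤ Q`.  For `z'` with `F (z') = 0`, `Q (z') ≠ 0` take `χ : B → ℂ`,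
`x_v ↦ z'_v`: `χ b = Q (z') ≠ 0`; `g'` has the ends `χ ((g v).coeff 0) = (g v).coeff 0` and
`χ (x_v) = z'_v`. -/
def Stmt_MOV : Prop :=
  ∀ (V : Type) [Fintype V] [DecidableEq V] (w : V → ℕ) (d c : ℕ) (F : MvPolynomial V ℂ)
    (g : V → ℂ[X]), F.IsWeightedHomogeneous w d → (∀ v, 0 < w v) → 0 < d → 2 ≤ c → Prime F →
    Free w d c F g → ∃ Q : MvPolynomial V ℂ, ¬ F ∣ Q ∧ ∀ z : V → ℂ, MvPolynomial.eval z F = 0 →
      MvPolynomial.eval z Q ≠ 0 → ∃ g' : V → ℂ[X], Free w d c F g' ∧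
        (∀ v, (g' v).coeff 0 = (g v).coeff 0) ∧ ∀ v, (g' v).coeff (c * w v) = z v

/-! ### The node ring and gluing

`NR = ℂ⟦s⟧[u, v] / (u v - s)`; `co f i` is the coefficient of `T ^ i`, `T = u`, `v = s T⁻¹`.  Use only `co`
and its lemmas (`co_ext co_dvd co_add co_sub co_smul co_sum co_mul co_algebraMap co_finite exists_co`, in
Defs), not the definition of `NR`. -/

/-- `F` with coefficients in `ℂ⟦s⟧` -/
def mp {V : Type} (F : MvPolynomial V ℂ) : MvPolynomial V (PowerSeries ℂ) :=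
  MvPolynomial.map (PowerSeries.C (R := ℂ)) F

/-- QRU (80 lines): the reduction `u ↦ X`, `v ↦ 0`, `s ↦ 0`.
PROOF. Modulo `s` the coefficients of `T ^ i`, `i < 0`, of an element of `NR` vanish: the composite
`NR → ℂ⟦s⟧[T, T⁻¹] → ℂ[T, T⁻¹]` (`LaurentPolynomial.map` or `AddMonoidAlgebra.mapRangeRingHom`, constant
coefficients) has values in the image of the injective `Polynomial.toLaurent`.  Or define `ρ f` by its
coefficients and check multiplicativity with `co_mul`: the terms with `i < 0` or `i > n` are divisible by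
`s`. -/
def Stmt_QRU : Prop := ∃ ρ : NR →+* ℂ[X], IsRU ρ

/-- QRV (120 lines): the reduction `v ↦ X`, `u ↦ 0`, `s ↦ 0`.
PROOF. `(ρ f).coeff n` = the coefficient of `s ^ n` in `f_(-n)`.  Multiplicative: the coefficient of `s ^ n` in
`∑_{i + j = -n} f_i g_j`: if `i > 0` then `j < -n` and `s ^ (n+1) ∣ g_j`, so only `i, j ≤ 0` contribute, and then
`s ^ |i| ∣ f_i`, `s ^ |j| ∣ g_j`, `|i| + |j| = n`: the coefficient is the product of the coefficients of
`s ^ |i|` and `s ^ |j|`. -/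
def Stmt_QRV : Prop := ∃ ρ : NR →+* ℂ[X], IsRV ρ

/-- QUV (60 lines): elements with given reductions.
PROOF. `f = ∑ C p_n T ^ n + ∑_{n ≥ 1} s ^ n q_n T ^ (-n)`; the formulas agree at `n = 0`. -/
def Stmt_QUV : Prop :=
  ∀ p q : ℂ[X], p.coeff 0 = q.coeff 0 → ∃ f : NR,
    (∀ n : ℕ, co f (n : ℤ) = PowerSeries.C (p.coeff n)) ∧
    ∀ n : ℕ, co f (-(n : ℤ)) = PowerSeries.X ^ n * PowerSeries.C (q.coeff n)

/-- QKR (60 lines): the kernel of the two reductions.
PROOF. `s ∣ f_n` for `n ≥ 0`; `s ^ n ∣ f_(-n)` and the coefficient of `s ^ n` vanishes, so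
`s ^ (n + 1) ∣ f_(-n)`.  Divide all coefficients by `s`. -/
def Stmt_QKR : Prop :=
  ∀ f : NR, (∀ n : ℕ, PowerSeries.coeff 0 (co f (n : ℤ)) = 0) →
    (∀ n : ℕ, PowerSeries.coeff n (co f (-(n : ℤ))) = 0) →
    ∃ f' : NR, f = (PowerSeries.X : PowerSeries ℂ) • f'

/-- BFG (60 lines): `bd n` is finitely generated.
PROOF. By the `T ^ i`, `0 ≤ i < n`, and the `s ^ i T ^ (-i)`, `0 < i < n`. -/
def Stmt_BFG : Prop := ∀ n : ℕ, (bd n).FG

/-- BDM (80 lines): products.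
PROOF. If `i + j = ± (m + n)` or larger in absolute value, then `|i| ≤ m`, `|j| ≤ n` force `i = ± m`, `j = ± n`
(`co_mul` with `s = Finset.Icc (-m) m`). -/
def Stmt_BDM : Prop :=
  ∀ (m n : ℕ) (f g : NR), f ∈ bd (m + 1) → g ∈ bd (n + 1) → f * g ∈ bd (m + n + 1) ∧
    co (f * g) ((m + n : ℕ) : ℤ) = co f (m : ℤ) * co g (n : ℤ) ∧
    co (f * g) (-((m + n : ℕ) : ℤ)) = co f (-(m : ℤ)) * co g (-(n : ℤ))

/-- BDF (100 lines, uses BDM): `F (G)` in the node ring.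
PROOF. Like DEG: `F` is a linear combination of monomials of weighted degree `e`; products by BDM
(induction; the unit is in `bd 1`). -/
def Stmt_BDF : Prop :=
  ∀ (V : Type) [Fintype V] (w : V → ℕ) (F : MvPolynomial V ℂ) (e c : ℕ) (G : V → NR),
    F.IsWeightedHomogeneous w e → (∀ v, G v ∈ bd (c * w v + 1)) →
    MvPolynomial.aeval G (mp F) ∈ bd (c * e + 1) ∧
    co (MvPolynomial.aeval G (mp F)) ((c * e : ℕ) : ℤ) =
      MvPolynomial.eval (fun v => co (G v) ((c * w v : ℕ) : ℤ)) (mp F) ∧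
    co (MvPolynomial.aeval G (mp F)) (-((c * e : ℕ) : ℤ)) =
      MvPolynomial.eval (fun v => co (G v) (-((c * w v : ℕ) : ℤ))) (mp F)

/-- GNM (120 lines, uses QUV QKR): generation modulo `s`.
PROOF. If `n = 0` then `f = 0`.  `p = ρu f`, `q = ρv f`, both in `degreeLT n`, `p (0) = q (0)`.  Cofactors
`A²_i ∈ degreeLT (a i)`, `∑ A²_i ρu(p_i) = p`.  `r = q - ∑ C (A²_i (0)) ρv(p_i)` is in `degreeLT n` (if
`A²_i (0) ≠ 0` then `a i ≥ 1` and the constant `A²_i (0)` is in `bd (a i)`: hypothesis) and `r (0) = 0`, because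
`ρu (f') (0) = ρv (f') (0)` for all `f'`.  So `r = X r'`, `r' ∈ degreeLT (n - 1)`, `r' = ∑ A'_i ρv(p_i)`,
`A'_i ∈ degreeLT (a i - 1)`.  `A¹_i = C (A²_i (0)) + X A'_i ∈ degreeLT (a i)`, `∑ A¹_i ρv(p_i) = q`.  QUV for
`(A²_i, A¹_i)` gives `A_i ∈ bd (a i)` with `ρu A_i = A²_i`, `ρv A_i = A¹_i`.  QKR for `∑ A_i p_i - f`. -/
def Stmt_GNM : Prop :=
  ∀ (ι : Type) [Fintype ι] (p : ι → NR) (a : ι → ℕ) (n : ℕ) (ρu ρv : NR →+* ℂ[X]), IsRU ρu →
    IsRV ρv → (∀ i, ∀ A ∈ bd (a i), A * p i ∈ bd n) → Gen (fun i => ρu (p i)) a n →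
    Gen (fun i => ρv (p i)) (fun i => a i - 1) (n - 1) →
    ∀ f ∈ bd n, ∃ A : ι → NR, (∀ i, A i ∈ bd (a i)) ∧
      ∃ f' : NR, ∑ i, A i * p i = f + (PowerSeries.X : PowerSeries ℂ) • f'

/-- GNQ (80 lines, uses GNM BFG): generation.
PROOF. `N' = {∑ A_i p_i | A_i ∈ bd (a i)} ≤ bd n`; in GNM `s f' ∈ bd n`, so `f' ∈ bd n`:
`bd n ≤ N' ⊔ (s) • bd n`.  Nakayama (`Submodule.le_of_le_smul_of_le_jacobson_bot`, BFG; `s` is in the
maximal ideal of the local ring `ℂ⟦s⟧`). -/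
def Stmt_GNQ : Prop :=
  ∀ (ι : Type) [Fintype ι] (p : ι → NR) (a : ι → ℕ) (n : ℕ) (ρu ρv : NR →+* ℂ[X]), IsRU ρu →
    IsRV ρv → (∀ i, ∀ A ∈ bd (a i), A * p i ∈ bd n) → Gen (fun i => ρu (p i)) a n →
    Gen (fun i => ρv (p i)) (fun i => a i - 1) (n - 1) →
    ∀ f ∈ bd n, ∃ A : ι → NR, (∀ i, A i ∈ bd (a i)) ∧ ∑ i, A i * p i = f

/-- RDF (60 lines): reductions of `F (G)`.
PROOF. `ρ (algebraMap (C z)) = C z` by the coefficient formulas, so both sides are ring homomorphisms in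
`F` with the same values at constants and variables. -/
def Stmt_RDF : Prop :=
  ∀ (V : Type) (F : MvPolynomial V ℂ) (G : V → NR) (ρ : NR →+* ℂ[X]), IsRU ρ ∨ IsRV ρ →
    ρ (MvPolynomial.aeval G (mp F)) = MvPolynomial.aeval (fun v => ρ (G v)) F

/-- PDH (60 lines, uses BDF BDM PDW): products with the partial derivatives in the node ring.
PROOF. `∂_v (mp F) = mp (∂_v F)`; if `d < w v` it is 0; otherwise BDF for `∂_v F` and BDM:
`A ∈ bd ((c w_v - 1) + 1)`, `∂_v F (G) ∈ bd (c (d - w_v) + 1)`. -/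
def Stmt_PDH : Prop :=
  ∀ (V : Type) [Fintype V] (w : V → ℕ) (d c : ℕ) (F : MvPolynomial V ℂ) (G : V → NR),
    F.IsWeightedHomogeneous w d → (∀ v, 0 < w v) → 0 < c → (∀ v, G v ∈ bd (c * w v + 1)) →
    ∀ v, ∀ A ∈ bd (c * w v),
      A * MvPolynomial.aeval G (MvPolynomial.pderiv v (mp F)) ∈ bd (c * d)

/-- GLH (250 lines, uses HEN GSH DEG QUV QKR BFG BDF PDH GNM RDF): the smoothing.
PROOF. `G₀ v` from QUV for `p = g₂ v`, `q = g₁ v`; `ρu (G₀ v) = g₂ v`, `ρv (G₀ v) = g₁ v`.  HEN with `k = ℂ`,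
`B = NR`, `F = mp F`, `C = {z | ∀ v, z v ∈ bd (c w_v)}` (finitely generated by BFG), `N = bd (c d)`.  `sep`:
coefficientwise.  `h3`: by BDF `F (G₀ + s z) ∈ bd (c d + 1)`, and its coefficient at `c d` is
`F (C ((g₂ v).coeff (c w_v))) = 0` (DEG; the coefficient of `z v` at `± c w_v` is 0), at `- c d` it is
`F (s ^ (c w_v) x_v) = s ^ (c d) F (x) = 0`, `x_v = (g₁ v).coeff (c w_v)`.  `h4`: `s` is not a zero divisor.
`h5`: GNM for `p v = ∂_v F (G₀)`, `a v = c w_v`, `n = c d` (hypothesis: PDH); its reductions are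
`∂_v F (g₂)` and `∂_v F (g₁)` (RDF); `Gen` for `g₂` is `vf` and GSH, for `g₁` it is `vf`.  `h6`: QKR, as
`ρu (F (G₀)) = F (g₂) = 0`, `ρv (F (G₀)) = F (g₁) = 0` (RDF).  `G = G₀ + s z`; `ρu s = ρv s = 0`. -/
def Stmt_GLH : Prop :=
  ∀ (V : Type) [Fintype V] (w : V → ℕ) (d c : ℕ) (F : MvPolynomial V ℂ) (g₁ g₂ : V → ℂ[X])
    (ρu ρv : NR →+* ℂ[X]), IsRU ρu → IsRV ρv → F.IsWeightedHomogeneous w d →
    (∀ v, 0 < w v) → 0 < d → 2 ≤ c → Free w d c F g₁ → Free w d c F g₂ →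
    (∀ v, (g₁ v).coeff 0 = (g₂ v).coeff 0) →
    ∃ G : V → NR, (∀ v, G v ∈ bd (c * w v + 1)) ∧ MvPolynomial.aeval G (mp F) = 0 ∧
      (∀ v, ρu (G v) = g₂ v) ∧ (∀ v, ρv (G v) = g₁ v) ∧
      (∀ v, co (G v) ((c * w v : ℕ) : ℤ) = PowerSeries.C ((g₂ v).coeff (c * w v))) ∧
      ∀ v, co (G v) (-((c * w v : ℕ) : ℤ)) =
        PowerSeries.X ^ (c * w v) * PowerSeries.C ((g₁ v).coeff (c * w v))

/-- SHM (100 lines): shifts and products.
PROOF. `(sh n f).coeff i = f_(i - n)` for all `i : ℕ` if `f ∈ bd (n + 1)`, and `f_j = 0` for `j < - n`; so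
`toLaurent (sh n f) = T ^ n * (f over KK)` and `Polynomial.toLaurent` is injective.  (Or compare
coefficients directly.) -/
def Stmt_SHM : Prop :=
  ∀ (m n : ℕ) (f g : NR), f ∈ bd (m + 1) → g ∈ bd (n + 1) → sh (m + n) (f * g) = sh m f * sh n g

/-- SHF (80 lines, uses SHM BDF): shifts and `F (G)`.
PROOF. By linearity for monomials of weighted degree `e` (`sh n` is additive and `sh 0` of a constant is
that constant); products by SHM and BDF. -/
def Stmt_SHF : Prop :=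
  ∀ (V : Type) [Fintype V] (w : V → ℕ) (F : MvPolynomial V ℂ) (e c : ℕ) (G : V → NR),
    F.IsWeightedHomogeneous w e → (∀ v, G v ∈ bd (c * w v + 1)) →
    sh (c * e) (MvPolynomial.aeval G (mp F)) =
      MvPolynomial.aeval (fun v => sh (c * w v) (G v)) (MvPolynomial.map (algebraMap ℂ KK) F)

/-- GKG (150 lines, uses SHM): from the node ring to `ℂ((s))`.
PROOF. If `n = 0` there is nothing to prove.  Let `e ∈ KK[X]` have degree `≤ 2n - 2`.  For large `N` the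
coefficients of `s ^ N e` are in `ℂ⟦s⟧` and divisible by `s ^ n`; so `s ^ N e = sh (n - 1) f` for an
`f ∈ bd n` (`f_(i - (n-1))` = coefficient `i`).  `f = ∑ A_i p_i`, `A_i ∈ bd (a i)`.  `sh (n - 1)` is additive;
for `a i ≥ 1`, `a i + δ i = n`: `sh (n-1) (A_i p_i) = sh (a i - 1) A_i * sh (δ i) p_i` (SHM), the first factor
of degree `≤ 2 (a i) - 2`.  If `a i = 0`, `A_i = 0`; if `p_i = 0` take the cofactor 0.  Divide by `s ^ N`. -/
def Stmt_GKG : Prop :=
  ∀ (ι : Type) [Fintype ι] (p : ι → NR) (δ a : ι → ℕ) (n : ℕ), (∀ i, p i ∈ bd (δ i + 1)) →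
    (∀ i, a i + δ i = n ∨ a i = 0 ∨ p i = 0) →
    (∀ f ∈ bd n, ∃ A : ι → NR, (∀ i, A i ∈ bd (a i)) ∧ ∑ i, A i * p i = f) →
    Gen (fun i => sh (δ i) (p i)) (fun i => 2 * a i - 1) (2 * n - 1)

/-- GKV (120 lines, uses GSH PDW BDF PDH GNQ RDF SHF GKG): the smoothed curve is very free.
PROOF. `p v = ∂_v F (G)`, `a v = c w_v`, `n = c d`, `δ v = c (d - w_v)`.  GNQ: hypothesis PDH, reductions
`∂_v F (g₂)`, `∂_v F (g₁)` (RDF) with `vf` and GSH for `g₂`, `vf` for `g₁`.  GKG: `p v ∈ bd (δ v + 1)` (PDW, BDF);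
`a v + δ v = n` if `w_v ≤ d`, otherwise `p v = 0`; `sh (δ v) (p v) = ∂_v F (sh (c w) G)` (SHF for `∂_v F`);
`2 (c w_v) - 1 = 2 c w_v - 1`. -/
def Stmt_GKV : Prop :=
  ∀ (V : Type) [Fintype V] (w : V → ℕ) (d c : ℕ) (F : MvPolynomial V ℂ) (g₁ g₂ : V → ℂ[X])
    (ρu ρv : NR →+* ℂ[X]), IsRU ρu → IsRV ρv → F.IsWeightedHomogeneous w d →
    (∀ v, 0 < w v) → 0 < d → 2 ≤ c → Free w d c F g₁ → Free w d c F g₂ →
    ∀ G : V → NR, (∀ v, G v ∈ bd (c * w v + 1)) → (∀ v, ρu (G v) = g₂ v) →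
      (∀ v, ρv (G v) = g₁ v) →
      Gen (fun v => MvPolynomial.aeval (fun v => sh (c * w v) (G v))
        (MvPolynomial.pderiv v (MvPolynomial.map (algebraMap ℂ KK) F)))
        (fun v => 2 * c * w v - 1) (2 * c * d - 1)

/-- GKT (150 lines, uses GMO BDM GNQ SHM GKG): the smoothed curve meets the good locus only.
PROOF. `D₁`, `D₂` from `goodT` of `g₁`, `g₂`; `D = max (D₁ + 1) D₂`.  By GMO `Gen` for `g₂` at `D` and for `g₁` at
`D - 1`.  `p T = ∏_{v ∈ T} G v ∈ bd (δ T + 1)`, `δ T = c ∑_T w` (BDM, induction), `a T = D + 1 - δ T`, `n = D + 1`.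
GNQ: for `a T ≥ 1` BDM gives `A p_T ∈ bd (D + 1)`; `(D - 1) + 1 - δ T = a T - 1`.  GKG:
`sh (δ T) (p T) = ∏ sh (c w_v) (G v)` (SHM, induction).  With `D' = 2 D`: `2 n - 1 = D' + 1` and
`2 a T - 1 = D' + 1 - 2 c ∑_T w` (natural subtraction, both cases). -/
def Stmt_GKT : Prop :=
  ∀ (V : Type) [Fintype V] (w : V → ℕ) (c : ℕ) (g₁ g₂ : V → ℂ[X]) (ρu ρv : NR →+* ℂ[X]),
    IsRU ρu → IsRV ρv →
    (∃ D, Gen (fun T : GT w => ∏ v ∈ T.1, g₁ v) (fun T => D + 1 - c * ∑ v ∈ T.1, w v) (D + 1)) →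
    (∃ D, Gen (fun T : GT w => ∏ v ∈ T.1, g₂ v) (fun T => D + 1 - c * ∑ v ∈ T.1, w v) (D + 1)) →
    ∀ G : V → NR, (∀ v, G v ∈ bd (c * w v + 1)) → (∀ v, ρu (G v) = g₂ v) →
      (∀ v, ρv (G v) = g₁ v) →
      ∃ D, Gen (fun T : GT w => ∏ v ∈ T.1, sh (c * w v) (G v))
        (fun T => D + 1 - 2 * c * ∑ v ∈ T.1, w v) (D + 1)

/-- GLU (200 lines, uses QRU QRV GLH SHF GKV GKT SPC): gluing.
PROOF. `G` from GLH, `g' v = sh (c w_v) (G v)` over `KK`, of degree `≤ 2 c w_v`: `Free w d (2c)` for `F` mapped to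
`KK` (`eq`: SHF; `vf`: GKV; `goodT`: GKT).  `(g' v).coeff 0 = s ^ (c w_v) x_v`,
`(g' v).coeff (2 c w_v) = (g₂ v).coeff (c w_v)`.  SPC with `B = ℂ[σ] = Polynomial ℂ`, `R = KK`, `θ : σ ↦ s` (injective),
`F` mapped by `C`: `b ≠ 0`; `λ ≠ 0` with `b (λ) ≠ 0`; `χ` = evaluation at `λ`:
`s ^ (c w_v) x_v = θ (σ ^ (c w_v) x_v)` specialises to `λ ^ (c w_v) x_v`. -/
def Stmt_GLU : Prop :=
  ∀ (V : Type) [Fintype V] (w : V → ℕ) (d c : ℕ) (F : MvPolynomial V ℂ) (g₁ g₂ : V → ℂ[X]),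
    F.IsWeightedHomogeneous w d → (∀ v, 0 < w v) → 0 < d → 2 ≤ c → Free w d c F g₁ →
    Free w d c F g₂ → (∀ v, (g₁ v).coeff 0 = (g₂ v).coeff 0) →
    ∃ z : ℂ, z ≠ 0 ∧ ∃ g : V → ℂ[X], Free w d (2 * c) F g ∧
      (∀ v, (g v).coeff 0 = z ^ (c * w v) * (g₁ v).coeff (c * w v)) ∧
      ∀ v, (g v).coeff (2 * c * w v) = (g₂ v).coeff (c * w v)

/-! ### Geometry -/

/-- PRG (60 lines): the grading.
PROOF. First part: monomials, `SetLike.GradedMonoid`.  Second part: `a = π P`; the components of `a` are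
the images of the weighted homogeneous components of `P` (`DirectSum.decompose` is unique). -/
def Stmt_PRG : Prop :=
  ∀ (V : Type) [Fintype V] (w : V → ℕ) (F : MvPolynomial V ℂ) (A : Type) [CommRing A]
    [Algebra ℂ A] (𝒜 : ℕ → Submodule ℂ A) [GradedAlgebra 𝒜] (pr : Pres w F 𝒜),
    (∀ n P, MvPolynomial.IsWeightedHomogeneous w P n → pr.π P ∈ 𝒜 n) ∧
    ∀ n, ∀ a ∈ 𝒜 n, ∃ P, MvPolynomial.IsWeightedHomogeneous w P n ∧ pr.π P = a

/-- FSH (150 lines): the affine cone is smooth where a partial derivative is invertible.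
PROOF. `P = MvPolynomial V ℂ`, `π h' = h`, `P' = Localization.Away h'` (formally smooth over `ℂ`) with the
surjection `f : P' → A_h`, kernel `(F)`.  `Algebra.FormallySmooth.of_split`: a section of
`P' / (F) ^ 2 → A_h`.  In `P' / (F) ^ 2` the image of `∂_v F` is a unit (it is one modulo the nilpotent ideal
`(F)`).  `P → P' / (F) ^ 2`: `x_u ↦ x_u` (`u ≠ v`), `x_v ↦ x_v - F / ∂_v F`; it maps `F` to
`F - ∂_v F (F / ∂_v F) = 0` (Taylor, TAY-like) and `h'` to a unit (`≡ h'` modulo `(F)`), so it factors through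
`A_h`.  Compare `Work/MP_dcf6a6_tv_helper68/FS.lean`. -/
def Stmt_FSH : Prop :=
  ∀ (V : Type) [Fintype V] (F : MvPolynomial V ℂ) (A : Type) [CommRing A] [Algebra ℂ A]
    (π : MvPolynomial V ℂ →ₐ[ℂ] A), Function.Surjective π →
    RingHom.ker π = Ideal.span {F} → ∀ (v : V) (h : A), π (MvPolynomial.pderiv v F) ∣ h →
    Algebra.FormallySmooth ℂ (Localization.Away h)

/-- SMR (80 lines, uses TVar.RET GQ.AFT): smoothness in degree zero.
PROOF. `Work/MP_dcf6a6_tv_helper68/SMO.lean` (`smooth_of_retract`): by RET `(A_h)_0` is a retract of `A_h`;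
it is of finite type by AFT. -/
def Stmt_SMR : Prop :=
  ∀ (A : Type) [CommRing A] [IsDomain A] [Algebra ℂ A] (𝒜 : ℕ → Submodule ℂ A) [GradedAlgebra 𝒜]
    (h α β : A) (m s : ℕ), Algebra.FiniteType ℂ A →
    (∀ a ∈ 𝒜 0, ∃ z : ℂ, a = algebraMap ℂ A z) → h ∈ 𝒜 m → 0 < m → α ∈ 𝒜 (s + 1) → β ∈ 𝒜 s →
    (∃ i : ℕ, α ∣ h ^ i) → (∃ i : ℕ, β ∣ h ^ i) →
    Algebra.FormallySmooth ℂ (Localization.Away h) → (strAway 𝒜 h).Smooth

/-- SMT (100 lines, uses PRG PDW FSH SMR TVar.GCD TVar.LOC): smooth points of `X`.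
PROOF. `h = π (∏_T X_v * ∂_v F)`, homogeneous of degree `∑_T w + (d - w_v) > 0` (`T` is not empty).
`GCD` for `T`: `∑ e_u w_u = ∑ e'_u w_u + 1`; `α = π (∏ X_u ^ (e_u))`, `β = π (∏ X_u ^ (e'_u))` (over `T`) divide
powers of `h`.  FSH, SMR, LOC.  `𝒜 0 = ℂ` because all weights are positive (PRG). -/
def Stmt_SMT : Prop :=
  ∀ (V : Type) [Fintype V] (w : V → ℕ) (d : ℕ) (F : MvPolynomial V ℂ) (A : Type) [CommRing A]
    [IsDomain A] [Algebra ℂ A] (𝒜 : ℕ → Submodule ℂ A) [GradedAlgebra 𝒜] (pr : Pres w F 𝒜),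
    F.IsWeightedHomogeneous w d → (∀ v, 0 < w v) → ∀ (T : GT w) (v : V) (x : Proj 𝒜),
    pr.π (∏ u ∈ T.1, MvPolynomial.X u) ∉ x.asHomogeneousIdeal →
    pr.π (MvPolynomial.pderiv v F) ∉ x.asHomogeneousIdeal → IsSmoothPt (structMap 𝒜) x

/-- HMG (120 lines, uses TVar.HOMG): homogenisation of a curve.
PROOF. `Φ X_v = (g v).homogenize (c w_v)` (see `Stmt_HOMG`).  `Φ` multiplies degrees by `c`.  `Φ P` for `P`
weighted homogeneous of degree `n` takes the value `(aeval g P).eval t` at `(t, 1)`: so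
`Φ P = (aeval g P).homogenize (c n)` by the last part of HOMG. -/
def Stmt_HMG : Prop :=
  ∀ (V : Type) [Fintype V] (w : V → ℕ) (c : ℕ) (g : V → ℂ[X]),
    (∀ v, g v ∈ degreeLT ℂ (c * w v + 1)) →
    ∃ Φ : MvPolynomial V ℂ →ₐ[ℂ] MvPolynomial (Fin 2) ℂ,
      (∀ n P, MvPolynomial.IsWeightedHomogeneous w P n → Φ P ∈ lineGr (c * n) ∧
        Φ P = (MvPolynomial.aeval g P).homogenize (c * n)) ∧
      (∀ P, MvPolynomial.eval ![0, 1] (Φ P) =
        MvPolynomial.eval (fun v => (g v).coeff 0) P) ∧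
      ∀ P, MvPolynomial.eval ![1, 0] (Φ P) =
        MvPolynomial.eval (fun v => (g v).coeff (c * w v)) P

/-- GPT (100 lines, uses TVar.HOMG TVar.P1): `Gen` and points of the projective line.
PROOF. If `X_1 ∉ q` homogenise `1 = ∑ A_i p_i` in degree `n - 1`: `X_1 ^ (n-1) = ∑ A_i^h p_i^h`, where
`A_i^h = A_i.homogenize (a i - 1)` (0 if `a i = 0`), `p_i^h = (p i).homogenize (δ i)`; if all `p_i^h ∈ q` then
`X_1 ∈ q`.  If `X_0 ∉ q` use `X ^ (n - 1) = ∑ A_i p_i`.  Identities of forms: compare at `(t, 1)` (HOMG). -/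
def Stmt_GPT : Prop :=
  ∀ (ι : Type) [Fintype ι] (p : ι → ℂ[X]) (δ a : ι → ℕ) (n : ℕ), 0 < n →
    (∀ i, p i ∈ degreeLT ℂ (δ i + 1)) → (∀ i, a i + δ i = n ∨ a i = 0 ∨ p i = 0) →
    Gen p a n → ∀ q : Proj lineGr, ∃ i, (p i).homogenize (δ i) ∉ q.asHomogeneousIdeal

/-- MRP (200 lines, uses DEG PDW PRG SMT HMG GPT TVar.PMAP TVar.P1): the morphism of a `Free` curve.
PROOF. `Φ` from HMG; `Φ F = (aeval g F).homogenize = 0`, so `Φ = φ ∘ π`, `φ : A → ℂ[X_0, X_1]`, which multiplies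
degrees by `c` (PRG).  GPT for `goodT` (`δ T = c ∑_T w`, `n = D + 1`) gives for every `q` a `T` with
`Φ (∏_T X_v) ∉ q`, and for `vf` (`p v = ∂_v F (g)`, `δ v = c (d - w_v)`, `a v = c w_v - 1`, `n = c d - 1 > 0`) a `v` with
`Φ (∂_v F) ∉ q` (PDW).  PMAP (the degree of `∏_T X_v` is positive) gives `f`; `f q` is smooth by SMT.
`q₀`, `q₁` = the points `(0, 1)`, `(1, 0)` of P1: `π P ∈ f q₀ ↔ Φ P ∈ q₀ ↔ eval ![0, 1] (Φ P) = 0`. -/
def Stmt_MRP : Prop :=
  ∀ (V : Type) [Fintype V] (w : V → ℕ) (d c : ℕ) (F : MvPolynomial V ℂ) (g : V → ℂ[X])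
    (A : Type) [CommRing A] [IsDomain A] [Algebra ℂ A] (𝒜 : ℕ → Submodule ℂ A) [GradedAlgebra 𝒜]
    (pr : Pres w F 𝒜), F.IsWeightedHomogeneous w d → (∀ v, 0 < w v) → 0 < d → 2 ≤ c →
    Free w d c F g →
    ∃ f : Proj lineGr ⟶ Proj 𝒜, f ≫ structMap 𝒜 = structMap lineGr ∧
      (∀ q, IsSmoothPt (structMap 𝒜) (f q)) ∧
      (∃ q₀, ∀ n P, MvPolynomial.IsWeightedHomogeneous w P n →
        (pr.π P ∈ (f q₀).asHomogeneousIdeal ↔
          MvPolynomial.eval (fun v => (g v).coeff 0) P = 0)) ∧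
      ∃ q₁, ∀ n P, MvPolynomial.IsWeightedHomogeneous w P n →
        (pr.π P ∈ (f q₁).asHomogeneousIdeal ↔
          MvPolynomial.eval (fun v => (g v).coeff (c * w v)) P = 0)

/-- NCS (120 lines): a point different from a given one.
PROOF. `v₀ ≠ v₁`, both `≠ v₂`.  `a' = X_(v₀) ^ (w_(v₁))`, `b' = X_(v₁) ^ (w_(v₀))`, both of degree `w_(v₀) w_(v₁)`;
`e = b'(z) a' - a'(z) b'`, or `e = a'` if `a'(z) = b'(z) = 0`; `e ≠ 0` (`w_v > 0`), `e (z) = 0`, `e` does not contain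
`x_(v₂)`.  `F ∤ e` as `F` contains `x_(v₂)` (degrees in `x_(v₂)`).  `F` is prime, so `F ∤ a e`, and
the Nullstellensatz gives `z'` (`MvPolynomial.vanishingIdeal_zeroLocus_eq_radical`, `(F)` is prime). -/
def Stmt_NCS : Prop :=
  ∀ (V : Type) [Fintype V] [DecidableEq V] (w : V → ℕ) (F : MvPolynomial V ℂ) (v₂ : V),
    3 ≤ Fintype.card V → (∀ v, 0 < w v) → Prime F → MvPolynomial.pderiv v₂ F ≠ 0 →
    ∀ (a : MvPolynomial V ℂ) (z : V → ℂ), ¬ F ∣ a →
    ∃ (n : ℕ) (e : MvPolynomial V ℂ) (z' : V → ℂ), MvPolynomial.IsWeightedHomogeneous w e n ∧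
      MvPolynomial.eval z e = 0 ∧ MvPolynomial.eval z' F = 0 ∧ MvPolynomial.eval z' (a * e) ≠ 0

/-- SCL (100 lines): scaling.
PROOF. Some weighted homogeneous component `Q_n` of `Q` is not divisible by `F`.  If `F (z) = 0` and
`Q_n (z) ≠ 0` then `∑_m Q_m (z) λ ^ m` is a nonzero polynomial in `λ`, so it does not vanish at some
`λ ≠ 0`, and it is `Q (λ ^ (w_v) z_v)`. -/
def Stmt_SCL : Prop :=
  ∀ (V : Type) [Fintype V] (w : V → ℕ) (F Q : MvPolynomial V ℂ), ¬ F ∣ Q →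
    ∃ (n : ℕ) (Q' : MvPolynomial V ℂ), MvPolynomial.IsWeightedHomogeneous w Q' n ∧ ¬ F ∣ Q' ∧
      ∀ z : V → ℂ, MvPolynomial.eval z Q' ≠ 0 →
        ∃ l : ℂ, l ≠ 0 ∧ MvPolynomial.eval (fun v => l ^ w v * z v) Q ≠ 0

/-- CRT (250 lines, uses END MOV GLU PRG SMT MRP NCS SCL TVar.GCD TVar.PTS TVar.DENS): the criterion.
PROOF. `A` is a domain (`F` is prime).  END: `T`, `v₂` with `∏_T X` and `∂_(v₂) F` not 0 at
`x⁰ = g (0)`, a zero of `F`; so `F` divides neither.  `Q` from MOV, `Q'` from SCL.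
`a = Q' (∏_T X) (∂_(v₂) F)`, `F ∤ a`, `π a` homogeneous of positive degree, not 0.  `U = D_+(π a)`: dense (DENS),
smooth (SMT).  `x ∈ U` closed: PTS (`α`, `β` from GCD for `T`, they divide powers of `π a`) gives
`e : A →ₐ ℂ` with `e (π a) ≠ 0` and `x` = the homogeneous elements in the kernel; `z_v = e (π X_v)`, so
`e (π P) = eval z P`, `F (z) = 0`, `Q' (z) ≠ 0`; `l` from SCL; MOV: a `Free` curve `g_x` from `x⁰` to
`(l ^ (w_v) z_v)` (`F` vanishes there too).  The same for `y`, or, if `x = y`, for `z'` from NCS (for `a` and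
`z = z_x`) instead of `z_y`.  GLU: a `Free` curve of degree `2c` from `μ ^ (c w_v) l ^ (w_v) z_v` to
`l' ^ (w_v) z'_v`.  MRP: `f`; `f q₀ = x`: both contain the same homogeneous elements
(`Pool.TVar.helper73.point_ext`; `P (ν ^ (w_v) z_v) = ν ^ n P (z)` for `P` of degree `n`, `ν ≠ 0`), `f q₁ = y`
if `x ≠ y`; if `x = y`, `π e ∈ f q₀`, `π e ∉ f q₁` (`e` from NCS), so `f q₀ ≠ f q₁`. -/
def Stmt_CRT : Prop :=
  ∀ (V : Type) [Fintype V] [DecidableEq V] (w : V → ℕ) (d c : ℕ) (F : MvPolynomial V ℂ)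
    (g : V → ℂ[X]), 3 ≤ Fintype.card V → F.IsWeightedHomogeneous w d → (∀ v, 0 < w v) →
    0 < d → 2 ≤ c → Prime F → Free w d c F g →
    ∀ (A : Type) [CommRing A] [Algebra ℂ A] (𝒜 : ℕ → Submodule ℂ A) [GradedAlgebra 𝒜],
    Pres w F 𝒜 → Pool.GQ.Concl 𝒜

/-- MAI (100 lines, uses FAM TOR CRT): the theorem.
PROOF. `y₀` = 1 at the exponent of `∏_I x`, `-1` at `b`, 0 otherwise: `form M y₀ = bin I b` (the two exponents
are different: `I` is not empty and `b = 0` on `I`).  `d > 0`.  TOR, FAM with `c = 2 d`: `H`.  `3 ≤ card V`: `i ∈ I`,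
`j ∈ supp b`, and `(univ \ {i, j}).gcd w = 1`, so this set is not empty.  CRT. -/
def Stmt_MAI : Prop :=
  ∀ (V : Type) [Fintype V] [DecidableEq V] (w : V → ℕ) (d : ℕ) (I : Finset V) (b : V →₀ ℕ)
    (M : Finset (V →₀ ℕ)), HypData w d I b → (∀ μ ∈ M, ∑ v, μ v * w v = d) →
    ∑ v ∈ I, Finsupp.single v 1 ∈ M → b ∈ M →
    ∃ H : MvPolynomial M ℂ, H ≠ 0 ∧ ∀ y : M → ℂ, MvPolynomial.eval y H ≠ 0 → Prime (form M y) →
      ∀ (A : Type) [CommRing A] [Algebra ℂ A] (𝒜 : ℕ → Submodule ℂ A) [GradedAlgebra 𝒜],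
      Pres w (form M y) 𝒜 → Pool.GQ.Concl 𝒜

end

end Pool.WH
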