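import Pool.Agent.Work.MP_dcf6a6_wh.Interface

/-!
# General weighted hypersurfaces, part 2: the general member is irreducible

A factorisation of the form with general coefficients would give a factorisation of the generic one over
some field `K ⊇ ℂ(y)` (NSZ, Nullstellensatz), which specialises, along a valuation ring of `K` centred at
`y₀`, to a factorisation of `∏_I x - x ^ b` over some field (VLR); there is none (BIR).
-/

open CategoryTheory AlgebraicGeometry Polynomial Pool.TVar

namespace Pool.WH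

noncomputable section

/-- BIR (100 lines): the binomial is irreducible over every field.
PROOF. Let `i ∈ I`.  `x_i` occurs in the binomial with degree one (`b i = 0`), so one of `G₁`, `G₂` does not
contain `x_i` (degrees in `x_i` add up), say `G₁` (`vars` or `degreeOf i G₁ = 0`).  `∂_i`:
`G₁ * ∂_i G₂ = ∏_{I \ i} x`.  Substituting `x_i = 0` (an algebra homomorphism which fixes `G₁`):
`G₁ ∣ - x ^ b`.  So `G₁` divides two coprime monomials and has no prime factor (a prime factor divides, so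
is associated to, some `x_u` with `u ∈ I` and some `x_v` with `v ∈ supp b`; `x_u ∣ x_v` forces `u = v`).  So `G₁` is a
nonzero constant and `d₁ = 0`. -/
def Stmt_BIR : Prop :=
  ∀ (κ : Type) [Field κ] (V : Type) [Fintype V] [DecidableEq V] (w : V → ℕ) (I : Finset V)
    (b : V →₀ ℕ) (d₁ d₂ : ℕ) (G₁ G₂ : MvPolynomial V κ), I.Nonempty → (∀ v ∈ I, b v = 0) →
    G₁.IsWeightedHomogeneous w d₁ → G₂.IsWeightedHomogeneous w d₂ →
    G₁ * G₂ = ∏ v ∈ I, MvPolynomial.X v - MvPolynomial.monomial b 1 → d₁ = 0 ∨ d₂ = 0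

/-- VLR (200 lines): specialisation of factorisations along a valuation ring.
PROOF. `p` = the kernel of `eval y₀`, a maximal ideal of `ℂ[y]`; the elements `ψ f / ψ g`, `g ∉ p`, form a local
subring of `K` (`LocalSubring`), which is dominated by a valuation ring `O` of `K`
(`LocalSubring.exists_le_valuationSubring` or so).  `κ` = residue field of `O`, `φ : ℂ → O → κ`.  In `κ`
the image of `ψ (X μ)` is `φ (y₀ μ)`, so `F = form M (ψ X)` has coefficients in `O` and the reduction
`map φ (form M y₀)`.  `G₁, G₂ ≠ 0` (`F ≠ 0`, because its reduction is not 0).  Let `c` be a coefficient of `G₁` of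
largest valuation; `G₁' = c⁻¹ G₁` has coefficients in `O`, one of them 1; `G₂' = c G₂`.  Let `e` be a coefficient of
`G₂'` of largest valuation.  If `e ∉ O` then `e⁻¹` is in the maximal ideal, `G₂'' = e⁻¹ G₂'` has coefficients in
`O`, one of them 1, and the reductions of `G₁'`, `G₂''` are not 0, but their product is the reduction of
`e⁻¹ F`, which is 0: contradiction.  So `G₂'` has coefficients in `O`; take the reductions of `G₁'` and
`G₂'`. -/
def Stmt_VLR : Prop :=
  ∀ (V : Type) [Fintype V] (w : V → ℕ) (d₁ d₂ : ℕ) (M : Finset (V →₀ ℕ)) (y₀ : M → ℂ) (K : Type)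
    [Field K] (ψ : MvPolynomial M ℂ →+* K) (G₁ G₂ : MvPolynomial V K), Function.Injective ψ →
    form M y₀ ≠ 0 → G₁.IsWeightedHomogeneous w d₁ → G₂.IsWeightedHomogeneous w d₂ →
    G₁ * G₂ = form M (fun μ => ψ (MvPolynomial.X μ)) →
    ∃ (κ : Type) (_ : Field κ) (φ : ℂ →+* κ) (H₁ H₂ : MvPolynomial V κ),
      H₁.IsWeightedHomogeneous w d₁ ∧ H₂.IsWeightedHomogeneous w d₂ ∧
      H₁ * H₂ = MvPolynomial.map φ (form M y₀)

/-- NSZ (200 lines): if the generic form does not factor then the general one does not factor.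
PROOF. `E₁`, `E₂` = the finite sets of exponents of weighted degree `d₁`, `d₂` (positive weights).
`k₀ = FractionRing (MvPolynomial M ℂ)`, `S₀ = MvPolynomial (E₁ ⊕ E₂) k₀`, `G₁ = ∑_{μ ∈ E₁} z_μ x ^ μ`,
`G₂ = ∑_{μ ∈ E₂} z_μ x ^ μ` over `S₀`, `J` = the ideal generated by the coefficients of `G₁ G₂ - form M X`.  If
`J ≠ ⊤` take a maximal ideal `m ⊇ J`, `K = S₀ / m`: a factorisation over `K`, excluded by hypothesis
(`MvPolynomial M ℂ → k₀ → K` is injective).  So `1 = ∑ a_ν c_ν`, `c_ν` the coefficients (finitely many);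
multiply by a common denominator `H ≠ 0` of the coefficients of the `a_ν`:
`H = ∑ a'_ν c_ν` in `(MvPolynomial M ℂ)[z]` (it embeds in `S₀`).  If `G₁ G₂ = form M y` over `ℂ` then evaluate
at `y` and at the coefficients of `G₁`, `G₂`: all `c_ν` vanish, so `H (y) = 0`. -/
def Stmt_NSZ : Prop :=
  ∀ (V : Type) [Fintype V] (w : V → ℕ) (d₁ d₂ : ℕ) (M : Finset (V →₀ ℕ)), (∀ v, 0 < w v) →
    (∀ (K : Type) [Field K] (ψ : MvPolynomial M ℂ →+* K) (G₁ G₂ : MvPolynomial V K),
      Function.Injective ψ → G₁.IsWeightedHomogeneous w d₁ → G₂.IsWeightedHomogeneous w d₂ →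
      G₁ * G₂ ≠ form M (fun μ => ψ (MvPolynomial.X μ))) →
    ∃ H : MvPolynomial M ℂ, H ≠ 0 ∧ ∀ y : M → ℂ, MvPolynomial.eval y H ≠ 0 →
      ∀ G₁ G₂ : MvPolynomial V ℂ, G₁.IsWeightedHomogeneous w d₁ →
        G₂.IsWeightedHomogeneous w d₂ → G₁ * G₂ ≠ form M y

/-- IRF (150 lines, uses BIR VLR NSZ GQ.HOF): the general member is irreducible.
PROOF. `y₀` = 1 at the exponent of `∏_I x`, `-1` at `b`, 0 otherwise; `form M y₀ = ∏_I x - x ^ b ≠ 0` (different
exponents).  For `d₁, d₂ > 0`, `d₁ + d₂ = d`, a factorisation of the generic form over a field `K` would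
give by VLR one of the binomial over `κ`, excluded by BIR.  NSZ gives `H_(d₁, d₂)`; `H` = the product of
these finitely many and of `X b` (so that `form M y ≠ 0`).  If `H (y) ≠ 0` and `F = form M y` is not prime,
then (unique factorisation; `F ≠ 0` is not a unit because it is homogeneous of degree `d > 0`) `F = G₁ G₂`
with non-units `G₁`, `G₂`; both are weighted homogeneous by HOF, of positive degrees (a homogeneous
polynomial of degree 0 is a constant, as the weights are positive) with sum `d`: contradiction. -/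
def Stmt_IRF : Prop :=
  ∀ (V : Type) [Fintype V] [DecidableEq V] (w : V → ℕ) (d : ℕ) (I : Finset V) (b : V →₀ ℕ)
    (M : Finset (V →₀ ℕ)), HypData w d I b → (∀ μ ∈ M, ∑ v, μ v * w v = d) →
    ∑ v ∈ I, Finsupp.single v 1 ∈ M → b ∈ M →
    ∃ H : MvPolynomial M ℂ, H ≠ 0 ∧ ∀ y : M → ℂ, MvPolynomial.eval y H ≠ 0 → Prime (form M y)

/-- MA2 (30 lines, uses MAI IRF): the theorem.
PROOF. The product of the two polynomials `H`. -/
def Stmt_MA2 : Prop :=
  ∀ (V : Type) [Fintype V] [DecidableEq V] (w : V → ℕ) (d : ℕ) (I : Finset V) (b : V →₀ ℕ)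
    (M : Finset (V →₀ ℕ)), HypData w d I b → (∀ μ ∈ M, ∑ v, μ v * w v = d) →
    ∑ v ∈ I, Finsupp.single v 1 ∈ M → b ∈ M →
    ∃ H : MvPolynomial M ℂ, H ≠ 0 ∧ ∀ y : M → ℂ, MvPolynomial.eval y H ≠ 0 →
      Prime (form M y) ∧
      ∀ (A : Type) [CommRing A] [Algebra ℂ A] (𝒜 : ℕ → Submodule ℂ A) [GradedAlgebra 𝒜],
      Pres w (form M y) 𝒜 → Pool.GQ.Concl 𝒜

end

end Pool.WH
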